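import Pool.Agent.H84.NS.Df
import Pool.Agent.H98.NX.Nb

set_option autoImplicit false

/-!
# Row Ca: finite facts about the circulation crc

Notation: x0 = x, x1 = x+a, x2 = x+b, x12 = x+a+b, p_i = f x_i, q_i = g x_i, mix p p' q q' := dist p q^2 - dist p' q^2 - dist p q'^2 + dist p' q'^2.
Expanding the definitions (only ring):   4 crc f g a b x = - mix p1 p2 q12 q0 + mix p12 p0 q1 q2.            (*)
[4 om x x1 = d(p1,q0)^2 - d(p0,q1)^2, 4 om x1 x12 = d(p12,q1)^2 - d(p1,q12)^2, 4 om x2 x12 = d(p12,q2)^2 - d(p2,q12)^2, 4 om x x2 = d(p2,q0)^2 - d(p0,q2)^2.]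
quad_diag (row Nb) applied twice (the second time with q, q' exchanged) gives |mix p p' q q'| <= 2 dist p p' dist q q'.   (**)
crc_le: (*) + (**).
crc_sub: by (*), 4 (crc f g - crc f' g) = - [mix p1 p2 q12 q0 - mix p1' p2' q12 q0] + [mix p12 p0 q1 q2 - mix p12' p0' q1 q2] and
  mix p1 p2 q12 q0 - mix p1' p2' q12 q0 = mix p1 p1' q12 q0 - mix p2 p2' q12 q0 (ring), each of size <= 2 e dist q12 q0 by (**); same for the other bracket.
crc_swap: om g f x x' = - om f g x x' (dist_comm).   crc_self: om f f = 0 (dist_comm).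
crc_real: for real functions dist p q^2 = (p-q)^2, so mix p p' q q' = -2 (p-p')(q-q'); (*).
crc_prod: crc is linear in the squared distances.
-/

namespace H84NS

open H50NA H98NX MeasureTheory Set Filter Topology

variable {X : Type} [MetricSpace X] {gm : X → X → ℝ → X}

private noncomputable def Ca_mix (p p' q q' : X) : ℝ :=
  dist p q ^ 2 - dist p' q ^ 2 - dist p q' ^ 2 + dist p' q' ^ 2

private theorem Ca_mix_le (hX : Npc X gm) (p p' q q' : X) :
    |Ca_mix p p' q q'| ≤ 2 * dist p p' * dist q q' := by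
  have h1 := quad_diag hX p p' q q'
  have h2 := quad_diag hX p p' q' q
  rw [dist_comm q' q] at h2
  unfold Ca_mix
  rw [abs_le]
  constructor <;> linarith

private theorem Ca_star (f g : ℝ × ℝ → X) (a b x : ℝ × ℝ) :
    crc f g a b x = (-Ca_mix (f (x + a)) (f (x + b)) (g (x + a + b)) (g x) +
      Ca_mix (f (x + a + b)) (f x) (g (x + a)) (g (x + b))) / 4 := by
  unfold crc om Ca_mix
  ring

theorem crc_le (hX : Npc X gm) (f g : ℝ × ℝ → X) (a b x : ℝ × ℝ) :
    |crc f g a b x| ≤ (dist (f (x + a)) (f (x + b)) * dist (g (x + a + b)) (g x) +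
      dist (f (x + a + b)) (f x) * dist (g (x + a)) (g (x + b))) / 2 := by
  have h1 := abs_le.1 (Ca_mix_le hX (f (x + a)) (f (x + b)) (g (x + a + b)) (g x))
  have h2 := abs_le.1 (Ca_mix_le hX (f (x + a + b)) (f x) (g (x + a)) (g (x + b)))
  rw [Ca_star, abs_le]
  constructor <;> linarith [h1.1, h1.2, h2.1, h2.2]

theorem crc_sub (hX : Npc X gm) (f f' g : ℝ × ℝ → X) (a b x : ℝ × ℝ) {e : ℝ}
    (he : ∀ p ∈ vtx a b x, dist (f p) (f' p) ≤ e) :
    |crc f g a b x - crc f' g a b x| ≤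
      e * (dist (g (x + a + b)) (g x) + dist (g (x + a)) (g (x + b))) := by
  have key : ∀ (p p' q q' : X), dist p p' ≤ e → |Ca_mix p p' q q'| ≤ 2 * e * dist q q' := by
    intro p p' q q' h
    refine (Ca_mix_le hX p p' q q').trans ?_
    have := mul_le_mul_of_nonneg_right h (dist_nonneg (x := q) (y := q'))
    linarith
  have m0 : dist (f x) (f' x) ≤ e := he _ (by simp [vtx])
  have m1 : dist (f (x + a)) (f' (x + a)) ≤ e := he _ (by simp [vtx])
  have m2 : dist (f (x + b)) (f' (x + b)) ≤ e := he _ (by simp [vtx])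
  have m12 : dist (f (x + a + b)) (f' (x + a + b)) ≤ e := he _ (by simp [vtx])
  have k1 := abs_le.1 (key _ _ (g (x + a + b)) (g x) m1)
  have k2 := abs_le.1 (key _ _ (g (x + a + b)) (g x) m2)
  have k3 := abs_le.1 (key _ _ (g (x + a)) (g (x + b)) m12)
  have k4 := abs_le.1 (key _ _ (g (x + a)) (g (x + b)) m0)
  have e1 : crc f g a b x - crc f' g a b x =
      (-(Ca_mix (f (x + a)) (f' (x + a)) (g (x + a + b)) (g x) -
        Ca_mix (f (x + b)) (f' (x + b)) (g (x + a + b)) (g x)) +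
       (Ca_mix (f (x + a + b)) (f' (x + a + b)) (g (x + a)) (g (x + b)) -
        Ca_mix (f x) (f' x) (g (x + a)) (g (x + b)))) / 4 := by
    rw [Ca_star, Ca_star]
    unfold Ca_mix
    ring
  rw [e1, abs_le]
  constructor <;> nlinarith [k1.1, k1.2, k2.1, k2.2, k3.1, k3.2, k4.1, k4.2]

theorem crc_swap (f g : ℝ × ℝ → X) (a b x : ℝ × ℝ) : crc g f a b x = -crc f g a b x := by
  have h : ∀ x x', om g f x x' = -om f g x x' := by
    intro x x'
    unfold om
    rw [dist_comm (g x') (f x), dist_comm (g x) (f x')]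
    ring
  unfold crc
  rw [h, h, h, h]
  ring

theorem crc_self (f : ℝ × ℝ → X) (a b x : ℝ × ℝ) : crc f f a b x = 0 := by
  have := crc_swap f f a b x
  linarith

theorem crc_congr {f f' g g' : ℝ × ℝ → X} {a b x : ℝ × ℝ} (hf : ∀ p ∈ vtx a b x, f p = f' p)
    (hg : ∀ p ∈ vtx a b x, g p = g' p) : crc f g a b x = crc f' g' a b x := by
  have f0 := hf x (by simp [vtx])
  have f1 := hf (x + a) (by simp [vtx])
  have f2 := hf (x + b) (by simp [vtx])
  have f12 := hf (x + a + b) (by simp [vtx])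
  have g0 := hg x (by simp [vtx])
  have g1 := hg (x + a) (by simp [vtx])
  have g2 := hg (x + b) (by simp [vtx])
  have g12 := hg (x + a + b) (by simp [vtx])
  unfold crc om
  rw [f0, f1, f2, f12, g0, g1, g2, g12]

theorem crc_real (p q : ℝ × ℝ → ℝ) (a b x : ℝ × ℝ) :
    crc p q a b x = ((p (x + a) - p (x + b)) * (q (x + a + b) - q x) -
      (p (x + a + b) - p x) * (q (x + a) - q (x + b))) / 2 := by
  unfold crc om
  simp only [Real.dist_eq, sq_abs]
  ring

theorem crc_prod {Y : Type} [MetricSpace Y] {f g : ℝ × ℝ → X} {N : ℕ} {p q : Fin N → ℝ × ℝ → ℝ} {σ σ' : ℝ × ℝ → Y}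
    {a b x : ℝ × ℝ}
    (h : ∀ z ∈ vtx a b x, ∀ z' ∈ vtx a b x,
      dist (f z) (g z') ^ 2 = ∑ i, (q i z' - p i z) ^ 2 + dist (σ z) (σ' z') ^ 2) :
    crc f g a b x = ∑ i, crc (p i) (q i) a b x + crc σ σ' a b x := by
  have v0 : x ∈ vtx a b x := by simp [vtx]
  have v1 : x + a ∈ vtx a b x := by simp [vtx]
  have v2 : x + b ∈ vtx a b x := by simp [vtx]
  have v12 : x + a + b ∈ vtx a b x := by simp [vtx]
  have hs : ∀ (i : Fin N) (z z' : ℝ × ℝ), dist (p i z) (q i z') ^ 2 = (q i z' - p i z) ^ 2 := by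
    intro i z z'
    rw [Real.dist_eq, sq_abs]
    ring
  unfold crc om
  rw [h _ v1 _ v0, h _ v0 _ v1, h _ v12 _ v1, h _ v1 _ v12, h _ v12 _ v2, h _ v2 _ v12, h _ v2 _ v0,
    h _ v0 _ v2]
  simp only [hs, Finset.sum_add_distrib, Finset.sum_sub_distrib, ← Finset.sum_div]
  ring

end H84NS
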