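import Pool.Agent.H84.NS.Df
import Pool.Agent.H98.NX.Nb
import Pool.Agent.H98.NX.Ef
import Pool.Agent.H98.NX.Ej
import Pool.Agent.H84.NS.Ca

set_option autoImplicit false

/-!
# Row Cb: circulations of small cells: continuity, boundedness, and the limit for real valued functions

Uses the statements of Ca (crc_le, crc_real), lpo_nbhd (Ee), lpo_cont, lpo_diff (Ea).
O open, C compact in O.  lpo_nbhd for f and g: d > 0 with cthickening d C in O and Lipschitz constants L on it (take the smaller d, the larger L).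
For 0 < h with h (||a|| + ||b||) <= d all vertices of the cells (h a, h b) based at points of C are in cthickening d C.
crc_cont: om is continuous in (x,x') where f, g are continuous; f, g are continuous on cthickening d C (Lipschitz), x |-> x + h a is continuous and maps C into it; ContinuousOn compositions.
crc_bd: crc_le and the Lipschitz constants: |crc| <= (L h|a-b| L h|a+b| + L h|a+b| L h|a-b|)/2 <= L^2 (||a||+||b||)^2 h^2; K := L^2 (||a||+||b||)^2.
crc_real_lim (integrated): for a.e. x in C both p, q are differentiable at x (lpo_diff). There p(x + h w) - p x = h Dp(w) + o(h) for fixed w, so by crc_real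
  crc p q (h a) (h b) x/h^2 -> [(Dp a - Dp b)(Dq a + Dq b) - (Dp a + Dp b)(Dq a - Dq b)]/2 = Dp a Dq b - Dp b Dq a = wd.
  Dominated convergence (tendsto_integral_filter_of_dominated_convergence for the filter 𝓝[>] 0, bound = the constant K of crc_bd on C, finite measure; measurability from crc_cont).
-/

set_option autoImplicit false

/-!
# Row Cb: circulations of small cells: continuity, boundedness, and the limit for real valued functions

Uses the statements of Ca (crc_le, crc_real), lpo_nbhd (Ee), lpo_cont, lpo_diff (Ea).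
O open, C compact in O.  lpo_nbhd for f and g: d > 0 with cthickening d C in O and Lipschitz constants L on it (take the smaller d, the larger L).
For 0 < h with h (||a|| + ||b||) <= d all vertices of the cells (h a, h b) based at points of C are in cthickening d C.
crc_cont: om is continuous in (x,x') where f, g are continuous; f, g are continuous on cthickening d C (Lipschitz), x |-> x + h a is continuous and maps C into it; ContinuousOn compositions.
crc_bd: crc_le and the Lipschitz constants: |crc| <= (L h|a-b| L h|a+b| + L h|a+b| L h|a-b|)/2 <= L^2 (||a||+||b||)^2 h^2; K := L^2 (||a||+||b||)^2.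
crc_real_lim (integrated): for a.e. x in C both p, q are differentiable at x (lpo_diff). There p(x + h w) - p x = h Dp(w) + o(h) for fixed w, so by crc_real
  crc p q (h a) (h b) x/h^2 -> [(Dp a - Dp b)(Dq a + Dq b) - (Dp a + Dp b)(Dq a - Dq b)]/2 = Dp a Dq b - Dp b Dq a = wd.
  Dominated convergence (tendsto_integral_filter_of_dominated_convergence for the filter 𝓝[>] 0, bound = the constant K of crc_bd on C, finite measure; measurability from crc_cont).
-/

namespace H84NS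

open H50NA H98NX MeasureTheory Set Filter Topology

variable {X : Type} [MetricSpace X] {gm : X → X → ℝ → X}

private theorem Cb_small (w : ℝ × ℝ) {d : ℝ} (hd : 0 < d) :
    ∀ᶠ h in 𝓝[>] (0:ℝ), 0 < h ∧ h * ‖w‖ ≤ d := by
  have h1 : Tendsto (fun h : ℝ => h * ‖w‖) (𝓝[>] 0) (𝓝 (0 * ‖w‖)) :=
    ((continuous_id.mul continuous_const).tendsto 0).mono_left nhdsWithin_le_nhds
  rw [zero_mul] at h1
  filter_upwards [self_mem_nhdsWithin, h1.eventually (gt_mem_nhds hd)] with h h2 h3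
  exact ⟨h2, h3.le⟩

private theorem Cb_near (C : Set (ℝ × ℝ)) (w : ℝ × ℝ) {d : ℝ} (hd : 0 < d) :
    ∀ᶠ h in 𝓝[>] (0:ℝ), ∀ x ∈ C, x + h • w ∈ Metric.cthickening d C := by
  filter_upwards [Cb_small w hd] with h h1 x hx
  refine Metric.mem_cthickening_of_dist_le _ x d C hx ?_
  rw [dist_eq_norm, add_sub_cancel_left, norm_smul, Real.norm_eq_abs, abs_of_pos h1.1]
  exact h1.2

private theorem Cb_near4 (C : Set (ℝ × ℝ)) (a b : ℝ × ℝ) {d : ℝ} (hd : 0 < d) :
    ∀ᶠ h in 𝓝[>] (0:ℝ), ∀ x ∈ C, vtx (h • a) (h • b) x ⊆ Metric.cthickening d C := by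
  filter_upwards [Cb_near C a hd, Cb_near C b hd, Cb_near C (a + b) hd] with h h1 h2 h3 x hx
  have h0 : x ∈ Metric.cthickening d C := Metric.self_subset_cthickening C hx
  have h4 := h3 x hx
  rw [smul_add, ← add_assoc] at h4
  rintro z (rfl | rfl | rfl | rfl)
  · exact h0
  · exact h1 x hx
  · exact h2 x hx
  · exact h4

theorem cell_sub {O C : Set (ℝ × ℝ)} (hO : IsOpen O) (hC : IsCompact C) (hCO : C ⊆ O) (a b : ℝ × ℝ) :
    ∀ᶠ h in 𝓝[>] (0:ℝ), ∀ x ∈ C, vtx (h • a) (h • b) x ⊆ O := by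
  obtain ⟨d, hd, hdO⟩ := hC.exists_cthickening_subset_open hO hCO
  filter_upwards [Cb_near4 C a b hd] with h h1 x hx
  exact (h1 x hx).trans hdO

private theorem Cb_c {f : ℝ × ℝ → X} {O C : Set (ℝ × ℝ)} (hO : IsOpen O) (hf : Lpo f O)
    {G : ℝ × ℝ → ℝ × ℝ} (hG : Continuous G) (hGO : ∀ x ∈ C, G x ∈ O) :
    ContinuousOn (fun x => f (G x)) C :=
  (lpo_cont hO hf).comp hG.continuousOn hGO

private theorem Cb_d {f g : ℝ × ℝ → X} {C : Set (ℝ × ℝ)} (hf : ContinuousOn f C)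
    (hg : ContinuousOn g C) : ContinuousOn (fun x => dist (f x) (g x)) C :=
  continuous_dist.comp_continuousOn (hf.prodMk hg)

theorem crc_cont {f g : ℝ × ℝ → X} {O C : Set (ℝ × ℝ)} (hO : IsOpen O) (hf : Lpo f O) (hg : Lpo g O)
    (hC : IsCompact C) (hCO : C ⊆ O) (a b : ℝ × ℝ) :
    ∀ᶠ h in 𝓝[>] (0:ℝ), ContinuousOn (fun x => crc f g (h • a) (h • b) x) C := by
  filter_upwards [cell_sub hO hC hCO a b] with h h1
  have m0 : ∀ x ∈ C, x ∈ O := hCO
  have m1 : ∀ x ∈ C, x + h • a ∈ O := fun x hx => h1 x hx (Or.inr (Or.inl rfl))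
  have m2 : ∀ x ∈ C, x + h • b ∈ O := fun x hx => h1 x hx (Or.inr (Or.inr (Or.inl rfl)))
  have m3 : ∀ x ∈ C, x + h • a + h • b ∈ O := fun x hx => h1 x hx (Or.inr (Or.inr (Or.inr rfl)))
  have c0 : Continuous (fun x : ℝ × ℝ => x) := continuous_id
  have c1 : Continuous (fun x : ℝ × ℝ => x + h • a) := by fun_prop
  have c2 : Continuous (fun x : ℝ × ℝ => x + h • b) := by fun_prop
  have c3 : Continuous (fun x : ℝ × ℝ => x + h • a + h • b) := by fun_prop
  have f0 := Cb_c hO hf c0 m0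
  have f1 := Cb_c hO hf c1 m1
  have f2 := Cb_c hO hf c2 m2
  have f3 := Cb_c hO hf c3 m3
  have g0 := Cb_c hO hg c0 m0
  have g1 := Cb_c hO hg c1 m1
  have g2 := Cb_c hO hg c2 m2
  have g3 := Cb_c hO hg c3 m3
  have e1 := (((Cb_d f1 g0).pow 2).sub ((Cb_d f0 g1).pow 2)).div_const 4
  have e2 := (((Cb_d f3 g1).pow 2).sub ((Cb_d f1 g3).pow 2)).div_const 4
  have e3 := (((Cb_d f3 g2).pow 2).sub ((Cb_d f2 g3).pow 2)).div_const 4
  have e4 := (((Cb_d f2 g0).pow 2).sub ((Cb_d f0 g2).pow 2)).div_const 4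
  exact ((e1.add e2).sub e3).sub e4

theorem crc_int {f g : ℝ × ℝ → X} {O C S : Set (ℝ × ℝ)} (hO : IsOpen O) (hf : Lpo f O) (hg : Lpo g O)
    (hC : IsCompact C) (hCO : C ⊆ O) (hSC : S ⊆ C) (hS : MeasurableSet S) (a b : ℝ × ℝ) :
    ∀ᶠ h in 𝓝[>] (0:ℝ), IntegrableOn (fun x => crc f g (h • a) (h • b) x) S := by
  filter_upwards [crc_cont hO hf hg hC hCO a b] with h h1
  exact (h1.integrableOn_compact hC).mono_set hSC

private theorem Cb_bd {f g : ℝ × ℝ → X} {O C : Set (ℝ × ℝ)} (hO : IsOpen O) (hf : Lpo f O) (hg : Lpo g O)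
    (hC : IsCompact C) (hCO : C ⊆ O) (a b : ℝ × ℝ)
    (hle : ∀ a b x, |crc f g a b x| ≤ (dist (f (x + a)) (f (x + b)) * dist (g (x + a + b)) (g x) +
      dist (f (x + a + b)) (f x) * dist (g (x + a)) (g (x + b))) / 2) :
    ∃ K : ℝ, 0 ≤ K ∧ ∀ᶠ h in 𝓝[>] (0:ℝ), ∀ x ∈ C, |crc f g (h • a) (h • b) x| ≤ K * h ^ 2 := by
  obtain ⟨d1, hd1, L1, hL1, -, -, h1, -⟩ := lpo_nbhd hO hf hC hCO
  obtain ⟨d2, hd2, L2, hL2, -, -, h2, -⟩ := lpo_nbhd hO hg hC hCO
  refine ⟨L1 * L2 * (‖a - b‖ * ‖a + b‖), by positivity, ?_⟩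
  filter_upwards [Cb_near4 C a b hd1, Cb_near4 C a b hd2, self_mem_nhdsWithin] with h n1 n2 hpos x hx
  have hp : 0 < h := hpos
  have v0 : x ∈ vtx (h • a) (h • b) x := Or.inl rfl
  have v1 : x + h • a ∈ vtx (h • a) (h • b) x := Or.inr (Or.inl rfl)
  have v2 : x + h • b ∈ vtx (h • a) (h • b) x := Or.inr (Or.inr (Or.inl rfl))
  have v3 : x + h • a + h • b ∈ vtx (h • a) (h • b) x := Or.inr (Or.inr (Or.inr rfl))
  have hd12 : dist (x + h • a) (x + h • b) = h * ‖a - b‖ := by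
    rw [dist_add_left, dist_eq_norm, ← smul_sub, norm_smul, Real.norm_eq_abs, abs_of_pos hp]
  have hd03 : dist (x + h • a + h • b) x = h * ‖a + b‖ := by
    rw [dist_eq_norm, show x + h • a + h • b - x = h • (a + b) by rw [smul_add]; abel, norm_smul,
      Real.norm_eq_abs, abs_of_pos hp]
  have e1 := h1 _ (n1 x hx v1) _ (n1 x hx v2)
  have e2 := h1 _ (n1 x hx v3) _ (n1 x hx v0)
  have e3 := h2 _ (n2 x hx v1) _ (n2 x hx v2)
  have e4 := h2 _ (n2 x hx v3) _ (n2 x hx v0)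
  rw [hd12] at e1 e3
  rw [hd03] at e2 e4
  refine (hle (h • a) (h • b) x).trans ?_
  have m1 : dist (f (x + h • a)) (f (x + h • b)) * dist (g (x + h • a + h • b)) (g x) ≤
      (L1 * (h * ‖a - b‖)) * (L2 * (h * ‖a + b‖)) :=
    mul_le_mul e1 e4 dist_nonneg (by positivity)
  have m2 : dist (f (x + h • a + h • b)) (f x) * dist (g (x + h • a)) (g (x + h • b)) ≤
      (L1 * (h * ‖a + b‖)) * (L2 * (h * ‖a - b‖)) :=
    mul_le_mul e2 e3 dist_nonneg (by positivity)
  nlinarith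

theorem crc_bd (hX : Npc X gm) {f g : ℝ × ℝ → X} {O C : Set (ℝ × ℝ)} (hO : IsOpen O) (hf : Lpo f O) (hg : Lpo g O)
    (hC : IsCompact C) (hCO : C ⊆ O) (a b : ℝ × ℝ) :
    ∃ K : ℝ, 0 ≤ K ∧ ∀ᶠ h in 𝓝[>] (0:ℝ), ∀ x ∈ C, |crc f g (h • a) (h • b) x| ≤ K * h ^ 2 :=
  Cb_bd hO hf hg hC hCO a b fun a b x => crc_le hX f g a b x

private theorem Cb_slope {p : ℝ × ℝ → ℝ} {x : ℝ × ℝ} (hp : DifferentiableAt ℝ p x) (w : ℝ × ℝ) :
    Tendsto (fun h : ℝ => h⁻¹ * (p (x + h • w) - p x)) (𝓝[>] 0) (𝓝 (fderiv ℝ p x w)) :=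
  (hp.hasFDerivAt.hasLineDerivAt w).tendsto_slope_zero_right

private theorem Cb_lim {p q : ℝ × ℝ → ℝ} {x : ℝ × ℝ} (hp : DifferentiableAt ℝ p x)
    (hq : DifferentiableAt ℝ q x) (a b : ℝ × ℝ) :
    Tendsto (fun h : ℝ => crc p q (h • a) (h • b) x / h ^ 2) (𝓝[>] 0) (𝓝 (wd p q a b x)) := by
  have h1 := (((Cb_slope hp a).sub (Cb_slope hp b)).mul (Cb_slope hq (a + b))).sub
    ((Cb_slope hp (a + b)).mul ((Cb_slope hq a).sub (Cb_slope hq b)))
  have h2 := h1.div_const 2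
  have h3 : ((fderiv ℝ p x a - fderiv ℝ p x b) * fderiv ℝ q x (a + b) -
      fderiv ℝ p x (a + b) * (fderiv ℝ q x a - fderiv ℝ q x b)) / 2 = wd p q a b x := by
    rw [wd, map_add, map_add]
    ring
  rw [h3] at h2
  refine h2.congr' ?_
  filter_upwards [self_mem_nhdsWithin] with h hh
  have hp0 : h ≠ 0 := ne_of_gt hh
  rw [crc_real, smul_add, ← add_assoc]
  field_simp
  ring

theorem crc_real_lim {p q : ℝ × ℝ → ℝ} {O C : Set (ℝ × ℝ)} (hO : IsOpen O) (hp : Lpo p O) (hq : Lpo q O)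
    (hC : IsCompact C) (hCO : C ⊆ O) (a b : ℝ × ℝ) :
    Tendsto (fun h : ℝ => ∫ x in C, crc p q (h • a) (h • b) x / h ^ 2) (𝓝[>] 0) (𝓝 (∫ x in C, wd p q a b x)) := by
  obtain ⟨K, hK, hbd⟩ := Cb_bd hO hp hq hC hCO a b (by
    intro a b x
    rw [crc_real, abs_div, abs_of_pos (two_pos : (0:ℝ) < 2)]
    refine div_le_div_of_nonneg_right ?_ two_pos.le
    rw [Real.dist_eq, Real.dist_eq, Real.dist_eq, Real.dist_eq, ← abs_mul, ← abs_mul]
    exact abs_sub _ _)
  refine tendsto_integral_filter_of_dominated_convergence (fun _ => K) ?_ ?_ ?_ ?_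
  · filter_upwards [crc_cont hO hp hq hC hCO a b] with h h1
    exact (h1.div_const _).aestronglyMeasurable hC.isClosed.measurableSet
  · filter_upwards [hbd, self_mem_nhdsWithin] with h h1 hh
    have hh' : 0 < h := hh
    rw [ae_restrict_iff' hC.isClosed.measurableSet]
    refine Eventually.of_forall fun x hx => ?_
    rw [Real.norm_eq_abs, abs_div, abs_of_pos (by positivity : 0 < h ^ 2), div_le_iff₀ (by positivity)]
    exact h1 x hx
  · exact integrableOn_const hC.measure_lt_top.ne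
  · rw [ae_restrict_iff' hC.isClosed.measurableSet]
    filter_upwards [lpo_diff volume hO hp, lpo_diff volume hO hq] with x h1 h2 hx
    exact Cb_lim (h1 (hCO hx)) (h2 (hCO hx)) a b

private theorem Cb_fd {p : ℝ × ℝ → ℝ} {O C : Set (ℝ × ℝ)} (hO : IsOpen O) (hp : Lpo p O)
    (hC : IsCompact C) (hCO : C ⊆ O) : ∃ M : ℝ, 0 ≤ M ∧ ∀ x ∈ C, ‖fderiv ℝ p x‖ ≤ M := by
  obtain ⟨d, hd, L, hL, -, -, h1, -⟩ := lpo_nbhd hO hp hC hCO
  obtain ⟨K, hK⟩ := Ea_lip ⟨L, h1⟩
  refine ⟨K, K.2, fun x hx => ?_⟩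
  refine norm_fderiv_le_of_lipschitzOn ℝ (s := Metric.cthickening d C) ?_ hK
  refine Filter.mem_of_superset (Metric.closedBall_mem_nhds x hd) ?_
  intro y hy
  exact Metric.mem_cthickening_of_dist_le y x d C hx (Metric.mem_closedBall.1 hy)

theorem wd_int {p q : ℝ × ℝ → ℝ} {O C : Set (ℝ × ℝ)} (hO : IsOpen O) (hp : Lpo p O) (hq : Lpo q O)
    (hC : IsCompact C) (hCO : C ⊆ O) (a b : ℝ × ℝ) : IntegrableOn (wd p q a b) C := by
  obtain ⟨M, hM0, hM⟩ := Cb_fd hO hp hC hCO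
  obtain ⟨N, hN0, hN⟩ := Cb_fd hO hq hC hCO
  have hm : Measurable (wd p q a b) := by
    unfold wd
    exact ((measurable_fderiv_apply_const ℝ p a).mul (measurable_fderiv_apply_const ℝ q b)).sub
      ((measurable_fderiv_apply_const ℝ p b).mul (measurable_fderiv_apply_const ℝ q a))
  refine Measure.integrableOn_of_bounded (M := 2 * (M * ‖a‖ * (N * ‖b‖)) + 2 * (M * ‖b‖ * (N * ‖a‖)))
    hC.measure_lt_top.ne hm.aestronglyMeasurable ?_
  rw [ae_restrict_iff' hC.isClosed.measurableSet]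
  refine Eventually.of_forall fun x hx => ?_
  have b1 : ∀ w, |fderiv ℝ p x w| ≤ M * ‖w‖ := fun w =>
    ((fderiv ℝ p x).le_opNorm w).trans (mul_le_mul_of_nonneg_right (hM x hx) (norm_nonneg _))
  have b2 : ∀ w, |fderiv ℝ q x w| ≤ N * ‖w‖ := fun w =>
    ((fderiv ℝ q x).le_opNorm w).trans (mul_le_mul_of_nonneg_right (hN x hx) (norm_nonneg _))
  rw [Real.norm_eq_abs, wd]
  refine (abs_sub _ _).trans ?_
  rw [abs_mul, abs_mul]
  have m1 := mul_le_mul (b1 a) (b2 b) (abs_nonneg _) (by positivity)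
  have m2 := mul_le_mul (b1 b) (b2 a) (abs_nonneg _) (by positivity)
  have p1 : 0 ≤ M * ‖a‖ * (N * ‖b‖) := by positivity
  have p2 : 0 ≤ M * ‖b‖ * (N * ‖a‖) := by positivity
  linarith

end H84NS
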