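import Pool.Agent.H84.NS.Ca
import Pool.Agent.H84.NS.Cb
import Pool.Agent.H98.NX.Eg

set_option autoImplicit false

/-!
# Row Cc: circulations of maps into X are bounded by the energy

crc_le and 2uv <= u^2+v^2:  |crc f g (h a) (h b) x| <= (dist (f(x+ha)) (f(x+hb))^2 + dist (g(x+ha+hb)) (g x)^2 + dist (f(x+ha+hb)) (f x)^2 + dist (g(x+ha)) (g(x+hb))^2)/4.
Divide by h^2 and integrate over C. By Eg_lim (row Eg; v = a, w = b, and v = a + b, w = 0; h • (a+b) = h • a + h • b, x + h • 0 = x; 𝓝[>] 0 <= 𝓝[≠] 0) the right side tends to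
  (1/4) int_C (sp f (a-b)^2 + sp g (a+b)^2 + sp f (a+b)^2 + sp g (a-b)^2)   (the integrals of the four summands are finite for small h: Eg_cont: continuous on the compact set C),
which is <= (1/2) int_C (sp f a^2 + sp f b^2 + sp g a^2 + sp g b^2) by sp_par1 (row Eg; integrability: sp_sq_int of row Ee, S = C).
-/

namespace H84NS

open H50NA H98NX MeasureTheory Set Filter Topology

variable {X : Type} [MetricSpace X] {gm : X → X → ℝ → X}

private theorem Cc_pt (hX : Npc X gm) (f g : ℝ × ℝ → X) (a b x : ℝ × ℝ) (h : ℝ) :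
    |crc f g (h • a) (h • b) x| / h ^ 2 ≤
      ((dist (f (x + h • a)) (f (x + h • b)) ^ 2 / h ^ 2 +
        dist (f (x + h • (a + b))) (f (x + h • (0 : ℝ × ℝ))) ^ 2 / h ^ 2) +
       (dist (g (x + h • a)) (g (x + h • b)) ^ 2 / h ^ 2 +
        dist (g (x + h • (a + b))) (g (x + h • (0 : ℝ × ℝ))) ^ 2 / h ^ 2)) / 4 := by
  have h1 := crc_le hX f g (h • a) (h • b) x
  have e : x + h • (a + b) = x + h • a + h • b := by rw [smul_add, add_assoc]
  rw [smul_zero, add_zero, e, ← add_div, ← add_div, ← add_div, div_div,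
    mul_comm (h ^ 2) 4, ← div_div]
  refine div_le_div_of_nonneg_right ?_ (sq_nonneg h)
  nlinarith [sq_nonneg (dist (f (x + h • a)) (f (x + h • b)) - dist (g (x + h • a + h • b)) (g x)),
    sq_nonneg (dist (f (x + h • a + h • b)) (f x) - dist (g (x + h • a)) (g (x + h • b)))]

private theorem Cc_par (hX : Npc X gm) {p : ℝ × ℝ → X} {O C : Set (ℝ × ℝ)} (hO : IsOpen O)
    (hp : Lpo p O) (hC : IsCompact C) (hCO : C ⊆ O) (a b : ℝ × ℝ) :
    (∫ x in C, sp p (a - b) x ^ 2) + (∫ x in C, sp p (a + b) x ^ 2) ≤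
      2 * ∫ x in C, (sp p a x ^ 2 + sp p b x ^ 2) := by
  have hi : ∀ u : ℝ × ℝ, IntegrableOn (fun x => sp p u x ^ 2) C := fun u =>
    (sp_sq_int volume hO hp hC hCO hC.measurableSet subset_rfl u).1
  have par : ∀ᵐ x ∂(volume.restrict C),
      sp p (a - b) x ^ 2 + sp p (a + b) x ^ 2 ≤ 2 * (sp p a x ^ 2 + sp p b x ^ 2) := by
    have h1 := sp_par1 volume hX hO hp a b
    filter_upwards [ae_restrict_of_ae h1, ae_restrict_mem hC.measurableSet] with x hx hxC
    have := hx (hCO hxC)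
    linarith
  rw [← integral_add (hi _) (hi _), ← integral_const_mul]
  exact integral_mono_ae ((hi _).add (hi _)) (((hi _).add (hi _)).const_mul 2) par

theorem crc_shape (hX : Npc X gm) {f g : ℝ × ℝ → X} {O C : Set (ℝ × ℝ)} (hO : IsOpen O) (hf : Lpo f O) (hg : Lpo g O)
    (hC : IsCompact C) (hCO : C ⊆ O) (a b : ℝ × ℝ) {ε : ℝ} (hε : 0 < ε) :
    ∀ᶠ h in 𝓝[>] (0:ℝ), ∫ x in C, |crc f g (h • a) (h • b) x| / h ^ 2 ≤
      (∫ x in C, ((sp f a x ^ 2 + sp f b x ^ 2) + (sp g a x ^ 2 + sp g b x ^ 2))) / 2 + ε := by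
  have hle : 𝓝[>] (0:ℝ) ≤ 𝓝[≠] 0 := nhdsWithin_mono _ fun x hx => ne_of_gt hx
  have L1 := (Eg_lim volume hO hf hC hCO a b).mono_left hle
  have L2 := (Eg_lim volume hO hf hC hCO (a + b) 0).mono_left hle
  have L3 := (Eg_lim volume hO hg hC hCO a b).mono_left hle
  have L4 := (Eg_lim volume hO hg hC hCO (a + b) 0).mono_left hle
  rw [sub_zero] at L2 L4
  have L := ((L1.add L2).add (L3.add L4)).div_const 4
  have fi : ∀ u : ℝ × ℝ, IntegrableOn (fun x => sp f u x ^ 2) C := fun u =>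
    (sp_sq_int volume hO hf hC hCO hC.measurableSet subset_rfl u).1
  have gi : ∀ u : ℝ × ℝ, IntegrableOn (fun x => sp g u x ^ 2) C := fun u =>
    (sp_sq_int volume hO hg hC hCO hC.measurableSet subset_rfl u).1
  have Pf := Cc_par hX hO hf hC hCO a b
  have Pg := Cc_par hX hO hg hC hCO a b
  have hlim : ((∫ x in C, sp f (a - b) x ^ 2) + (∫ x in C, sp f (a + b) x ^ 2) +
      ((∫ x in C, sp g (a - b) x ^ 2) + (∫ x in C, sp g (a + b) x ^ 2))) / 4 <
      (∫ x in C, ((sp f a x ^ 2 + sp f b x ^ 2) + (sp g a x ^ 2 + sp g b x ^ 2))) / 2 + ε := by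
    have e := integral_add ((fi a).add (fi b)) ((gi a).add (gi b))
    simp only [Pi.add_apply] at e
    rw [e]
    linarith
  filter_upwards [L.eventually_lt_const hlim, (Eg_cont hO hf hC hCO a b).filter_mono hle,
    (Eg_cont hO hf hC hCO (a + b) 0).filter_mono hle, (Eg_cont hO hg hC hCO a b).filter_mono hle,
    (Eg_cont hO hg hC hCO (a + b) 0).filter_mono hle, crc_int hO hf hg hC hCO subset_rfl hC.measurableSet a b]
    with h hh c1 c2 c3 c4 hc
  have i1 := c1.integrableOn_compact (μ := volume) hC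
  have i2 := c2.integrableOn_compact (μ := volume) hC
  have i3 := c3.integrableOn_compact (μ := volume) hC
  have i4 := c4.integrableOn_compact (μ := volume) hC
  refine le_trans ?_ hh.le
  have e := integral_add (i1.add i2) (i3.add i4)
  simp only [Pi.add_apply] at e
  rw [← integral_add i1 i2, ← integral_add i3 i4, ← e, ← integral_div]
  exact integral_mono (hc.abs.div_const _) (((i1.add i2).add (i3.add i4)).div_const _)
    fun x => Cc_pt hX f g a b x h

end H84NS
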