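import Pool.Agent.H84.NS.Ca
import Pool.Agent.H84.NS.Cb

set_option autoImplicit false

/-!
# Row Cd: circulations on the zero set of the cutoff

f and g differ from u by at most l q, l >= 0, and l = 0 on C. Then int_C |crc f g (h a) (h b)|/h^2 -> 0.
(1) a.e. x in C: l is differentiable at x (lpo_diff), l x = 0 is a local minimum (l >= 0 on the open set O), so fderiv l x = 0 (IsLocalMin.fderiv_eq_zero), hence l(x + h w)/h -> 0 for every w
   (HasFDerivAt along x + h w, h -> 0+). q is bounded by some M on cthickening d C (lpo_nbhd for q, Ea_bd). So e(h) := M max over the four vertices of l is o(h) (l at vertex x itself is 0).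
(2) for the four vertices p: dist (f p) (u p) <= e(h), dist (g p) (u p) <= e(h). With L a Lipschitz constant of f, g, u on cthickening d C (lpo_nbhd, small h: vertices inside, cell_sub / the same argument):
   |crc f g - crc u g| <= e(h) 2 L (||a||+||b||) h (crc_sub), |crc u g - crc u u| = |crc g u - crc u u| <= e(h) 2 L (||a||+||b||) h (crc_swap twice, crc_sub), crc u u = 0 (crc_self).
   So |crc f g|/h^2 <= 4 L (||a||+||b||) e(h)/h -> 0 at a.e. x in C.
(3) dominated convergence as in row Cb (crc_bd: bounded by K; measurability: crc_cont; finite measure; filter 𝓝[>] 0).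
-/

namespace H84NS

open H50NA H98NX MeasureTheory Set Filter Topology

variable {X : Type} [MetricSpace X] {gm : X → X → ℝ → X}

private theorem Cd_slope {l : ℝ × ℝ → ℝ} {x : ℝ × ℝ} (hl : HasFDerivAt l (0 : (ℝ × ℝ) →L[ℝ] ℝ) x)
    (h0 : l x = 0) (w : ℝ × ℝ) : Tendsto (fun h : ℝ => l (x + h • w) / h) (𝓝[>] 0) (𝓝 0) := by
  have h1 : HasDerivAt (fun h : ℝ => x + h • w) w 0 := by
    have := ((hasDerivAt_id (0 : ℝ)).smul_const w).const_add x
    simpa using this
  have h2 : HasFDerivAt l (0 : (ℝ × ℝ) →L[ℝ] ℝ) (x + (0 : ℝ) • w) := by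
    rw [zero_smul, add_zero]
    exact hl
  have h3' : HasDerivAt (l ∘ fun h : ℝ => x + h • w) ((0 : (ℝ × ℝ) →L[ℝ] ℝ) w) 0 :=
    HasFDerivAt.comp_hasDerivAt (0 : ℝ) h2 h1
  rw [ContinuousLinearMap.zero_apply] at h3'
  have h3 : HasDerivAt (fun h : ℝ => l (x + h • w)) 0 0 := h3'
  rw [hasDerivAt_iff_tendsto_slope_zero] at h3
  have h4 : Tendsto (fun t : ℝ => t⁻¹ • (l (x + (0 + t) • w) - l (x + (0 : ℝ) • w))) (𝓝[>] 0)
      (𝓝 0) := h3.mono_left (nhdsWithin_mono _ fun t ht => ne_of_gt ht)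
  refine h4.congr fun t => ?_
  rw [zero_add, zero_smul, add_zero, h0, sub_zero, smul_eq_mul]
  ring

private theorem Cd_bound (hX : Npc X gm) {f g u : ℝ × ℝ → X} {D : Set (ℝ × ℝ)} {a b x : ℝ × ℝ}
    {e L M : ℝ} (he : 0 ≤ e) (hL : 0 ≤ L) (hM : 0 ≤ M) (hv : vtx a b x ⊆ D)
    (hg : ∀ y ∈ D, ∀ z ∈ D, dist (g y) (g z) ≤ L * dist y z)
    (hu : ∀ y ∈ D, ∀ z ∈ D, dist (u y) (u z) ≤ M * dist y z)
    (h1 : ∀ p ∈ vtx a b x, dist (f p) (u p) ≤ e) (h2 : ∀ p ∈ vtx a b x, dist (g p) (u p) ≤ e) :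
    |crc f g a b x| ≤ e * ((L + M) * (2 * (‖a‖ + ‖b‖))) := by
  have v0 : x ∈ D := hv (by simp [vtx])
  have v1 : x + a ∈ D := hv (by simp [vtx])
  have v2 : x + b ∈ D := hv (by simp [vtx])
  have v3 : x + a + b ∈ D := hv (by simp [vtx])
  have d1 : dist (x + a + b) x ≤ ‖a‖ + ‖b‖ := by
    rw [add_assoc, dist_eq_norm, add_sub_cancel_left]
    exact norm_add_le a b
  have d2 : dist (x + a) (x + b) ≤ ‖a‖ + ‖b‖ := by
    rw [dist_eq_norm, add_sub_add_left_eq_sub]
    exact norm_sub_le a b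
  have e1 := crc_sub hX f u g a b x h1
  have e2 := crc_sub hX g u u a b x h2
  rw [crc_self, sub_zero, crc_swap u g a b x, abs_neg] at e2
  have g1 : dist (g (x + a + b)) (g x) ≤ L * (‖a‖ + ‖b‖) :=
    (hg _ v3 _ v0).trans (mul_le_mul_of_nonneg_left d1 hL)
  have g2 : dist (g (x + a)) (g (x + b)) ≤ L * (‖a‖ + ‖b‖) :=
    (hg _ v1 _ v2).trans (mul_le_mul_of_nonneg_left d2 hL)
  have u1 : dist (u (x + a + b)) (u x) ≤ M * (‖a‖ + ‖b‖) :=
    (hu _ v3 _ v0).trans (mul_le_mul_of_nonneg_left d1 hM)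
  have u2 : dist (u (x + a)) (u (x + b)) ≤ M * (‖a‖ + ‖b‖) :=
    (hu _ v1 _ v2).trans (mul_le_mul_of_nonneg_left d2 hM)
  have k1 : e * (dist (g (x + a + b)) (g x) + dist (g (x + a)) (g (x + b))) ≤
      e * (L * (‖a‖ + ‖b‖) + L * (‖a‖ + ‖b‖)) :=
    mul_le_mul_of_nonneg_left (add_le_add g1 g2) he
  have k2 : e * (dist (u (x + a + b)) (u x) + dist (u (x + a)) (u (x + b))) ≤
      e * (M * (‖a‖ + ‖b‖) + M * (‖a‖ + ‖b‖)) :=
    mul_le_mul_of_nonneg_left (add_le_add u1 u2) he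
  have k3 : |crc f g a b x| ≤ |crc f g a b x - crc u g a b x| + |crc u g a b x| := by
    have := abs_add_le (crc f g a b x - crc u g a b x) (crc u g a b x)
    rwa [sub_add_cancel] at this
  calc |crc f g a b x| ≤ e * (L * (‖a‖ + ‖b‖) + L * (‖a‖ + ‖b‖)) +
        e * (M * (‖a‖ + ‖b‖) + M * (‖a‖ + ‖b‖)) := by linarith
    _ = e * ((L + M) * (2 * (‖a‖ + ‖b‖))) := by ring

theorem crc_zero (hX : Npc X gm) {f g u : ℝ × ℝ → X} {l q : ℝ × ℝ → ℝ} {O C : Set (ℝ × ℝ)} (hO : IsOpen O)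
    (hf : Lpo f O) (hg : Lpo g O) (hu : Lpo u O) (hl : Lpo l O) (hq : Lpo q O) (h0 : ∀ z ∈ O, 0 ≤ l z)
    (hfu : ∀ z ∈ O, dist (f z) (u z) ≤ l z * q z) (hgu : ∀ z ∈ O, dist (g z) (u z) ≤ l z * q z)
    (hC : IsCompact C) (hCO : C ⊆ O) (hz : ∀ z ∈ C, l z = 0) (a b : ℝ × ℝ) :
    Tendsto (fun h : ℝ => ∫ x in C, |crc f g (h • a) (h • b) x| / h ^ 2) (𝓝[>] 0) (𝓝 0) := by
  obtain ⟨d, hd, L0, hL0, hDO, hD, -, -⟩ := lpo_nbhd hO hf hC hCO
  obtain ⟨L, hL, hLg⟩ := Ea_pos hg hDO hD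
  obtain ⟨M, hM, hMu⟩ := Ea_pos hu hDO hD
  obtain ⟨Q, hQ, hQq⟩ := Ea_bd hq hDO hD
  obtain ⟨K, hK, hKb⟩ := crc_bd hX hO hf hg hC hCO a b
  have hpos : ∀ᶠ h in 𝓝[>] (0 : ℝ), (0 : ℝ) < h := self_mem_nhdsWithin
  have hsmall : ∀ᶠ h in 𝓝[>] (0 : ℝ), h * (‖a‖ + ‖b‖) ≤ d := by
    have h1 : Tendsto (fun h : ℝ => h * (‖a‖ + ‖b‖)) (𝓝[>] 0) (𝓝 (0 * (‖a‖ + ‖b‖))) :=
      (tendsto_id.mono_left nhdsWithin_le_nhds).mul_const _
    rw [zero_mul] at h1
    exact h1.eventually (Iic_mem_nhds hd)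
  have hvt : ∀ h : ℝ, 0 < h → h * (‖a‖ + ‖b‖) ≤ d → ∀ x ∈ C,
      vtx (h • a) (h • b) x ⊆ Metric.cthickening d C := by
    intro h hh hhd x hx p hp
    have na : ‖h • a‖ = h * ‖a‖ := by rw [norm_smul, Real.norm_of_nonneg hh.le]
    have nb : ‖h • b‖ = h * ‖b‖ := by rw [norm_smul, Real.norm_of_nonneg hh.le]
    have n1 : 0 ≤ h * ‖a‖ := mul_nonneg hh.le (norm_nonneg _)
    have n2 : 0 ≤ h * ‖b‖ := mul_nonneg hh.le (norm_nonneg _)
    refine Metric.mem_cthickening_of_dist_le p x d C hx ?_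
    simp only [vtx, mem_insert_iff, mem_singleton_iff] at hp
    rcases hp with rfl | rfl | rfl | rfl
    · rw [dist_self]; exact hd.le
    · rw [dist_eq_norm, add_sub_cancel_left, na]; linarith
    · rw [dist_eq_norm, add_sub_cancel_left, nb]; linarith
    · rw [add_assoc, dist_eq_norm, add_sub_cancel_left]
      refine (norm_add_le _ _).trans ?_
      rw [na, nb]; linarith
  have hae : ∀ᵐ x ∂(volume.restrict C), Tendsto
      (fun h : ℝ => |crc f g (h • a) (h • b) x| / h ^ 2) (𝓝[>] 0) (𝓝 0) := by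
    rw [ae_restrict_iff' hC.measurableSet]
    filter_upwards [lpo_diff (volume : Measure (ℝ × ℝ)) hO hl] with x hx hxC
    have hxO := hCO hxC
    have hmin : IsLocalMin l x := by
      filter_upwards [hO.mem_nhds hxO] with z hzO
      rw [hz x hxC]
      exact h0 z hzO
    have hfd : HasFDerivAt l (0 : (ℝ × ℝ) →L[ℝ] ℝ) x := by
      have h1 := (hx hxO).hasFDerivAt
      rwa [hmin.fderiv_eq_zero] at h1
    have s1 := Cd_slope hfd (hz x hxC) a
    have s2 := Cd_slope hfd (hz x hxC) b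
    have s3 := Cd_slope hfd (hz x hxC) (a + b)
    have s4 : Tendsto (fun h : ℝ => (Q * ((L + M) * (2 * (‖a‖ + ‖b‖)))) *
        (l (x + h • a) / h + l (x + h • b) / h + l (x + h • (a + b)) / h)) (𝓝[>] 0) (𝓝 0) := by
      have := ((s1.add s2).add s3).const_mul (Q * ((L + M) * (2 * (‖a‖ + ‖b‖))))
      simpa using this
    refine squeeze_zero' (Eventually.of_forall fun h => by positivity) ?_ s4
    filter_upwards [hpos, hsmall] with h hh hhd
    have hv := hvt h hh hhd x hxC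
    have hab : x + h • a + h • b = x + h • (a + b) := by rw [smul_add, add_assoc]
    have v1 : x + h • a ∈ Metric.cthickening d C := hv (by simp [vtx])
    have v2 : x + h • b ∈ Metric.cthickening d C := hv (by simp [vtx])
    have v3 : x + h • a + h • b ∈ Metric.cthickening d C := hv (by simp [vtx])
    have l1 := h0 _ (hDO v1)
    have l2 := h0 _ (hDO v2)
    have l3 := h0 _ (hDO v3)
    rw [hab] at l3
    have hS : ∀ p ∈ vtx (h • a) (h • b) x,
        l p ≤ l (x + h • a) + l (x + h • b) + l (x + h • (a + b)) := by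
      intro p hp
      simp only [vtx, mem_insert_iff, mem_singleton_iff] at hp
      rcases hp with rfl | rfl | rfl | rfl
      · rw [hz p hxC]; linarith
      · linarith
      · linarith
      · rw [hab]; linarith
    have hS0 : 0 ≤ l (x + h • a) + l (x + h • b) + l (x + h • (a + b)) := by linarith
    have key : ∀ F : ℝ × ℝ → X, (∀ z ∈ O, dist (F z) (u z) ≤ l z * q z) →
        ∀ p ∈ vtx (h • a) (h • b) x,
          dist (F p) (u p) ≤ Q * (l (x + h • a) + l (x + h • b) + l (x + h • (a + b))) := by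
      intro F hF p hp
      have hpD := hv hp
      have q1 : q p ≤ Q := (le_abs_self _).trans (hQq p hpD)
      calc dist (F p) (u p) ≤ l p * q p := hF p (hDO hpD)
        _ ≤ l p * Q := mul_le_mul_of_nonneg_left q1 (h0 p (hDO hpD))
        _ ≤ (l (x + h • a) + l (x + h • b) + l (x + h • (a + b))) * Q :=
            mul_le_mul_of_nonneg_right (hS p hp) hQ
        _ = Q * (l (x + h • a) + l (x + h • b) + l (x + h • (a + b))) := mul_comm _ _
    have hb := Cd_bound hX (mul_nonneg hQ hS0) hL hM hv hLg hMu (key f hfu) (key g hgu)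
    have na : ‖h • a‖ = h * ‖a‖ := by rw [norm_smul, Real.norm_of_nonneg hh.le]
    have nb : ‖h • b‖ = h * ‖b‖ := by rw [norm_smul, Real.norm_of_nonneg hh.le]
    rw [na, nb] at hb
    rw [div_le_iff₀ (by positivity)]
    refine hb.trans (le_of_eq ?_)
    field_simp
  have hlim := tendsto_integral_filter_of_dominated_convergence (μ := volume.restrict C)
    (F := fun (h : ℝ) (x : ℝ × ℝ) => |crc f g (h • a) (h • b) x| / h ^ 2)
    (f := fun _ => (0 : ℝ)) (l := 𝓝[>] (0 : ℝ)) (fun _ => K) ?_ ?_ ?_ hae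
  · simpa using hlim
  · filter_upwards [crc_int hO hf hg hC hCO subset_rfl hC.measurableSet a b] with h hh
    exact (hh.abs.div_const _).aestronglyMeasurable
  · filter_upwards [hKb, hpos] with h hh hh0
    rw [ae_restrict_iff' hC.measurableSet]
    filter_upwards with x hx
    rw [Real.norm_of_nonneg (by positivity), div_le_iff₀ (by positivity)]
    exact hh x hx
  · exact integrableOn_const hC.measure_lt_top.ne

end H84NS
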