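import Pool.Agent.H98.NX.Xg
import Pool.Agent.H98.NX.Ek
import Pool.Agent.H46.SB.Hz

set_option autoImplicit false

/-!
# MP_b319aa_NA, block S (S3 - S7): definitions

om f g x x' is antisymmetric in (x, x'); for real valued f, g it is (f dg - g df)/2 plus an exact difference, up to third order.
crc f g a b x = circulation of om around the parallelogram x, x + a, x + a + b, x + b.
Pst: a convex subset S of X with an isometric product structure R^N x X.
Yd: the density that is shown to have nonnegative integral.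
-/

namespace H84NS

open H50NA H98NX MeasureTheory Set Filter Topology
open H80HM (D U P f1 f2)

noncomputable section

section

variable {X : Type} [MetricSpace X]

/-- antisymmetric function of two points -/
def om (f g : ℝ × ℝ → X) (x x' : ℝ × ℝ) : ℝ := (dist (f x') (g x) ^ 2 - dist (f x) (g x') ^ 2) / 4

/-- circulation around x, x+a, x+a+b, x+b -/
def crc (f g : ℝ × ℝ → X) (a b x : ℝ × ℝ) : ℝ :=
  om f g x (x + a) + om f g (x + a) (x + a + b) - om f g (x + b) (x + a + b) - om f g x (x + b)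

/-- the vertices of the parallelogram -/
def vtx (a b x : ℝ × ℝ) : Set (ℝ × ℝ) := {x, x + a, x + b, x + a + b}

/-- convex subset with an isometric product structure with a Euclidean factor -/
structure Pst (gm : X → X → ℝ → X) (S : Set X) {N : ℕ} (tau : X → Fin N → ℝ) (sig : X → X) : Prop where
  dst : ∀ p ∈ S, ∀ q ∈ S, dist p q ^ 2 = ∑ b, (tau q b - tau p b) ^ 2 + dist (sig p) (sig q) ^ 2
  cvx : ∀ p ∈ S, ∀ q ∈ S, ∀ t : ℝ, 0 ≤ t → t ≤ 1 → gm p q t ∈ S
  gmt : ∀ p ∈ S, ∀ q ∈ S, ∀ t : ℝ, 0 ≤ t → t ≤ 1 → ∀ b, tau (gm p q t) b = (1 - t) * tau p b + t * tau q b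
  gms : ∀ p ∈ S, ∀ q ∈ S, ∀ t : ℝ, 0 ≤ t → t ≤ 1 → sig (gm p q t) = gm (sig p) (sig q) t

/-- on O the maps g, gk k take values in a product, and the second component of g is constant -/
def Loc (gm : X → X → ℝ → X) (O : Set (ℝ × ℝ)) (g : ℝ × ℝ → X) (gk : Fin 4 → ℝ × ℝ → X) : Prop :=
  ∃ (N : ℕ) (S : Set X) (tau : X → Fin N → ℝ) (sig : X → X) (c0 : X), Pst gm S tau sig ∧
    (∀ z ∈ O, g z ∈ S ∧ ∀ k, gk k z ∈ S) ∧ ∀ z ∈ O, sig (g z) = c0

/-- the four angles 0, pi/4, pi/2, 3 pi/4 -/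
def thk (k : Fin 4) : ℝ := ((k : ℕ) : ℝ) * (Real.pi / 4)

/-- energy density at the k-th of the four points at distance s from x + i y -/
def ek (x y s : ℝ) (k : Fin 4) (f : ℝ × ℝ → X) (z : ℝ × ℝ) : ℝ :=
  Real.exp s * sp f (fe x y (thk k)) z ^ 2 + Real.exp (-s) * sp f (ff x y (thk k)) z ^ 2

/-- wedge product of the derivatives of two real functions, evaluated at the frame (a, b) -/
def wd (p q : ℝ × ℝ → ℝ) (a b z : ℝ × ℝ) : ℝ :=
  fderiv ℝ p z a * fderiv ℝ q z b - fderiv ℝ p z b * fderiv ℝ q z a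

/-- sum of the four wedge products of consecutive Euclidean components -/
def Wd {N : ℕ} (tau : X → Fin N → ℝ) (v : Fin 4 → ℝ × ℝ → X) (a b z : ℝ × ℝ) : ℝ :=
  ∑ i : Fin N, ∑ k : Fin 4, wd (fun p => tau (v k p) i) (fun p => tau (v (k + 1) p) i) a b z

/-- lower bound for the infinitesimal cost of the step th from g towards v -/
def Bd (gm : X → X → ℝ → X) (x y th : ℝ) (g v : ℝ × ℝ → X) (z : ℝ × ℝ) : ℝ :=
  (e2 x y (ip gm g v (fun _ => th)) z - e2 x y g z) / (2 * th) - th * (e2 x y v z + e2 x y g z)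

/-- the density Y -/
def Yd (gm : X → X → ℝ → X) (x y s th : ℝ) (g : ℝ × ℝ → X) (v : Fin 4 → ℝ × ℝ → X) (z : ℝ × ℝ) : ℝ :=
  ∑ k, ek x y s k (v k) z - (4 * Real.cosh s - 2 * Real.exp s * Real.sinh s ^ 2) * e2 x y g z
    - 2 * Real.cosh s * ∑ k, Bd gm x y th g (v k) z

/-- the sum of the four circulations of consecutive maps around the cell (h f1, h f2) -/
def Cs (x y h : ℝ) (v : Fin 4 → ℝ × ℝ → X) (z : ℝ × ℝ) : ℝ :=
  ∑ k, crc (v k) (v (k + 1)) (h • f1 x y) (h • f2 x y) z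

/-- the local inequality for a set C -/
def LSp (gm : X → X → ℝ → X) (x y s th : ℝ) (g : ℝ × ℝ → X) (v : Fin 4 → ℝ × ℝ → X) (C : Set (ℝ × ℝ)) : Prop :=
  ∀ ε : ℝ, 0 < ε → ∀ᶠ h in 𝓝[>] (0:ℝ),
    -(Real.exp s * ∫ z in C, Yd gm x y s th g v z) - ε ≤ ∫ z in C, Cs x y h v z / h ^ 2

end

end

end H84NS
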