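import Pool.Agent.H84.NS.Df

set_option autoImplicit false

/-!
# MP_b319aa_NA, block S: definitions for the exactness of the circulation (rows Xa, Xb, Xd, Xe)
-/

namespace H84NS

open H50NA H98NX MeasureTheory Set Filter Topology
open H80HM (D U P f1 f2)

noncomputable section

/-- the closed strip -/
def Sc : Set (ℝ × ℝ) := {z | 0 ≤ z.2 ∧ z.2 ≤ 1/2}

/-- the punctures of the strip -/
def Q2 : Set (ℝ × ℝ) := {z | (∃ n : ℤ, z.1 = (n : ℝ) / 2) ∧ (z.2 = 0 ∨ z.2 = 1/2)}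

/-- periodic extension to the strip -/
def pex {X : Type} [MetricSpace X] (C : X ≃ᵢ X) (f : ℝ × ℝ → X) (z : ℝ × ℝ) : X :=
  (C ^ ⌊z.1⌋) (f (Int.fract z.1, z.2))

/-- circulation of a function of two points around the parallelogram x, x+a, x+a+b, x+b -/
def crO (Ω : ℝ × ℝ → ℝ × ℝ → ℝ) (a b x : ℝ × ℝ) : ℝ :=
  Ω x (x + a) + Ω (x + a) (x + a + b) - Ω (x + b) (x + a + b) - Ω x (x + b)

/-- discrete one-forms on the strip, invariant under the translation by (1,0), antisymmetric, with small circulations,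
invariant under the reflections of the two boundary lines -/
structure OmS (Ω : ℝ × ℝ → ℝ × ℝ → ℝ) (ρ M : ℝ) : Prop where
  pos : 0 < ρ
  anti : ∀ z z', Ω z' z = -Ω z z'
  per : ∀ z ∈ Sc, ∀ z' ∈ Sc, dist z z' ≤ ρ → Ω (z + (1, 0)) (z' + (1, 0)) = Ω z z'
  cont : ContinuousOn (fun p : (ℝ × ℝ) × (ℝ × ℝ) => Ω p.1 p.2) {p | p.1 ∈ Sc ∧ p.2 ∈ Sc ∧ dist p.1 p.2 ≤ ρ}
  bd : ∀ a b x : ℝ × ℝ, ‖a‖ ≤ ρ → ‖b‖ ≤ ρ → vtx a b x ⊆ Sc → |crO Ω a b x| ≤ M * (‖a‖ + ‖b‖) ^ 2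
  revb : ∀ u u' : ℝ, |u - u'| ≤ ρ → Ω (-u, 0) (-u', 0) = Ω (u, 0) (u', 0)
  revt : ∀ u u' : ℝ, |u - u'| ≤ ρ → Ω (-u, 1/2) (-u', 1/2) = Ω (u, 1/2) (u', 1/2)

end

end H84NS
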