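import Pool.Agent.H84.NS.Df
import Pool.Agent.H98.NX.Na
import Pool.Agent.H50.NA.Inst
import Pool.Agent.H31.NA.GP

/-!
# Row Pa: norms split along E form a product

n_b := finrank (E b) >= 1 (E b nonzero, V finite dimensional).  o : Nm F V fixed (exists: mkn F (Module.finBasis K V) 0 and mkn_sn).
c_b(al) := rd (rs (E b) o) (rs (E b) al) / n_b,  tau al b := sqrt(n_b) c_b(al).
sig al (for SpD E al; otherwise sig al := al): GP_common (row GP) gives bases e_b of E b splitting rs (E b) al; B := hE.collectedBasis e splits al (coll_spl, row GO).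
  sig al := mkn F B' (fun <b,i> => al (e_b i) - c_b(al)) (B' = B; mkn_sn holds for any finite index type). Facts:
  (a) SpD E (sig al) (mkn_spl and spd_of_bas, row GO, with s <b,i> = b);
  (b) rs (E b) (sig al) = trl (rs (E b) al) (-c_b(al)): both are split by e_b (GP_sub; trl_spl) with the same values al (e_b i) - c_b on e_b i (mkn_bas, trl_apply, e_b i <> 0): spl_ext (row GB).
dst: for p, q split along E: dist p q^2 = sum_b ds (rs p) (rs q)^2 and dist (sig p) (sig q)^2 = sum_b ds (trl (rs p) (-c_b p)) (trl (rs q) (-c_b q))^2 (ds_spd, row GP, and (b)).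
  ds_trl: the b-th term is ds^2 + 2 (c_b p - c_b q) rd (rs p) (rs q) + n_b (c_b q - c_b p)^2; rd (rs p) (rs q) = rd (rs o)(rs q) - rd (rs o)(rs p) = n_b (c_b q - c_b p) (rd_add), so the term is ds^2 - n_b (c_b q - c_b p)^2
  = ds^2 - (tau q b - tau p b)^2.
cvx: gmf_spd.   gmt: rs (E b) (gm p q t) = gmf (rs p) (rs q) t (gmf_spd); rd o' (gmf al be t) = rd o' al + rd al (gmf al be t) and rd al (gmf al be t) = t rd al be (gmf_gen (row GK) and rd_gen (row GJ) in a common basis, row GF `common`),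
  rd al be = rd o' be - rd o' al.
gms: by dst and gmt and gm_both (row Na): dist (sig p) (sig (gm p q t))^2 = t^2 dist p q^2 - t^2 sum (tau q b - tau p b)^2 = t^2 dist (sig p) (sig q)^2, and in the same way dist (sig (gm p q t)) (sig q) = (1-t) dist (sig p) (sig q): gm_uniq (row Na) with npcN.
last statement: rs (E b) q = trl (rs (E b) p) c: c_b(q) = c_b(p) + c (rd_trl with trl al 0 = al), so rs (E b) (sig q) = trl (trl (rs p) c) (-c_b(p) - c) = trl (rs p) (-c_b(p)) = rs (E b) (sig p) for all b; then dist (sig q) (sig p)^2 = sum ds(rs, rs)^2 = 0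
  (ds_spd, (a)).
-/

set_option autoImplicit false

namespace H84NS

open H50NA H98NX H31NA

section Pa_aux

variable {K : Type} [Field K] (F : VF K) {V : Type} [AddCommGroup V] [Module K V] [Module.Finite K V]
    {N : ℕ} {E : Fin N → Submodule K V}

theorem Pa_sig (hE : DirectSum.IsInternal E) {al : V → ℝ} (ha : SN F al)
    (c : Fin N → ℝ) : ∃ be : Nm F V, SpD E be.1 ∧
      ∀ b, rs (E b) be.1 = trl (rs (E b) al) (-(c b)) := by
  obtain ⟨e, he⟩ := GP_common F (E := E) ha ha
  have hB := mkn_spl F (hE.collectedBasis e) (fun x => al (e x.1 x.2 : V) - c x.1)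
  have hS : SN F (mkn F (hE.collectedBasis e) (fun x => al (e x.1 x.2 : V) - c x.1)) :=
    mkn_sn F _ _
  refine ⟨⟨mkn F (hE.collectedBasis e) (fun x => al (e x.1 x.2 : V) - c x.1), hS⟩, ?_, fun b => ?_⟩
  · refine spd_of_bas F hE hB (fun x => x.1) fun x => ?_
    rw [DirectSum.IsInternal.collectedBasis_coe]
    exact (e x.1 x.2).2
  · have h1 := GP_sub F hE e hB b
    have h2 := trl_spl F (he b).1 (-(c b))
    refine H31NA.spl_ext F h1 h2 ?_ fun i => ?_
    · rw [trl_zero]
      exact hS.1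
    · rw [trl_apply _ _ ((e b).ne_zero i)]
      have h3 := mkn_bas F (hE.collectedBasis e) (fun x => al (e x.1 x.2 : V) - c x.1) ⟨b, i⟩
      rw [GP_coe hE e b i] at h3
      show mkn F (hE.collectedBasis e) (fun x => al (e x.1 x.2 : V) - c x.1) (e b i : V) =
        al (e b i : V) + -(c b)
      rw [h3]
      ring

theorem Pa_rd {al be : V → ℝ} (ha : SN F al) (hb : SN F be) {t : ℝ} (h0 : 0 ≤ t) (h1 : t ≤ 1) :
    rd F al (gmf F al be t) = t * rd F al be := by
  obtain ⟨b, e1, e2⟩ := H31NA.common F ha hb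
  obtain ⟨g1, g2⟩ := gmf_gen F e1 e2 h0 h1
  rw [rd_gen F e1 g1, rd_gen F e1 e2, Finset.mul_sum]
  refine Finset.sum_congr rfl fun i _ => ?_
  rw [g2 i]
  ring

theorem Pa_eq (hE : DirectSum.IsInternal E) {p q : Nm F V} (hp : SpD E p.1) (hq : SpD E q.1)
    (h : ∀ b, rs (E b) p.1 = rs (E b) q.1) : p = q := by
  have h1 := ds_spd F hE p.2 q.2 hp hq
  have h2 : ds F p.1 q.1 ^ 2 = 0 := by
    rw [h1]
    refine Finset.sum_eq_zero fun b _ => ?_
    rw [h b, ds_self F (H31NA.rs_sn F (E b) q.2)]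
    norm_num
  exact dist_eq_zero.1 (pow_eq_zero_iff two_ne_zero |>.1 h2)

end Pa_aux

theorem prod_str {K : Type} [Field K] (F : VF K) {V : Type} [AddCommGroup V] [Module K V] [Module.Finite K V]
    {N : ℕ} {E : Fin N → Submodule K V} (hE : DirectSum.IsInternal E) (hn : ∀ b, E b ≠ ⊥) :
    ∃ (tau : Nm F V → Fin N → ℝ) (sig : Nm F V → Nm F V), Pst (gmN F) {p | SpD E p.1} tau sig ∧
      ∀ p q : Nm F V, SpD E p.1 → SpD E q.1 → (∀ b, ∃ c : ℝ, rs (E b) q.1 = trl (rs (E b) p.1) c) → sig q = sig p := by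
  classical
  set n : Fin N → ℝ := fun b => (Module.finrank K (E b) : ℝ) with hnd
  have hn0 : ∀ b, 0 < n b := by
    intro b
    have : Nontrivial (E b) := Submodule.nontrivial_iff_ne_bot.2 (hn b)
    show (0 : ℝ) < (Module.finrank K (E b) : ℝ)
    exact_mod_cast (Module.finrank_pos (R := K) (M := E b))
  set o : V → ℝ := mkn F (Module.finBasis K V) (fun _ => 0) with ho
  have hoS : SN F o := mkn_sn F _ _
  set c : Nm F V → Fin N → ℝ := fun p b => rd F (rs (E b) o) (rs (E b) p.1) / n b with hc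
  have hro : ∀ b, SN F (rs (E b) o) := fun b => H31NA.rs_sn F (E b) hoS
  have hrp : ∀ (p : Nm F V) b, SN F (rs (E b) p.1) := fun p b => H31NA.rs_sn F (E b) p.2
  have hrd : ∀ (p q : Nm F V) b, rd F (rs (E b) p.1) (rs (E b) q.1) = n b * (c q b - c p b) := by
    intro p q b
    have h1 := rd_add F (hro b) (hrp p b) (hrp q b)
    have h2 : rd F (rs (E b) o) (rs (E b) p.1) = n b * c p b := by
      rw [hc]
      field_simp [(hn0 b).ne']
    have h3 : rd F (rs (E b) o) (rs (E b) q.1) = n b * c q b := by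
      rw [hc]
      field_simp [(hn0 b).ne']
    rw [h2, h3] at h1
    linarith
  have hex := fun (p : Nm F V) => Pa_sig F hE p.2 (c p)
  set sig : Nm F V → Nm F V := fun p => (hex p).choose with hsig
  have hs1 : ∀ p : Nm F V, SpD E p.1 → SpD E (sig p).1 := by
    intro p _
    exact (hex p).choose_spec.1
  have hs2 : ∀ p : Nm F V, SpD E p.1 → ∀ b, rs (E b) (sig p).1 = trl (rs (E b) p.1) (-(c p b)) := by
    intro p _
    exact (hex p).choose_spec.2
  set tau : Nm F V → Fin N → ℝ := fun p b => Real.sqrt (n b) * c p b with htau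
  have hdst : ∀ p ∈ {p : Nm F V | SpD E p.1}, ∀ q ∈ {p : Nm F V | SpD E p.1},
      dist p q ^ 2 = ∑ b, (tau q b - tau p b) ^ 2 + dist (sig p) (sig q) ^ 2 := by
    intro p hp q hq
    have h1 : dist p q ^ 2 = ∑ b, ds F (rs (E b) p.1) (rs (E b) q.1) ^ 2 :=
      ds_spd F hE p.2 q.2 hp hq
    have h2 : dist (sig p) (sig q) ^ 2 = ∑ b, ds F (rs (E b) (sig p).1) (rs (E b) (sig q).1) ^ 2 :=
      ds_spd F hE (sig p).2 (sig q).2 (hs1 p hp) (hs1 q hq)
    rw [h1, h2, ← Finset.sum_add_distrib]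
    refine Finset.sum_congr rfl fun b _ => ?_
    rw [hs2 p hp b, hs2 q hq b, H31NA.ds_trl F (hrp p b) (hrp q b), hrd p q b]
    have h3 : (tau q b - tau p b) ^ 2 = n b * (c q b - c p b) ^ 2 := by
      rw [htau]
      have h4 : (Real.sqrt (n b) * c q b - Real.sqrt (n b) * c p b) ^ 2 =
          Real.sqrt (n b) ^ 2 * (c q b - c p b) ^ 2 := by ring
      rw [h4, Real.sq_sqrt (hn0 b).le]
    rw [h3]
    ring
  have hcvx : ∀ p ∈ {p : Nm F V | SpD E p.1}, ∀ q ∈ {p : Nm F V | SpD E p.1}, ∀ t : ℝ, 0 ≤ t → t ≤ 1 →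
      gmN F p q t ∈ {p : Nm F V | SpD E p.1} := by
    intro p hp q hq t h0 h1
    exact (H31NA.gmf_spd F hE p.2 q.2 hp hq t h0 h1).1
  have hgmt : ∀ p ∈ {p : Nm F V | SpD E p.1}, ∀ q ∈ {p : Nm F V | SpD E p.1}, ∀ t : ℝ, 0 ≤ t → t ≤ 1 →
      ∀ b, tau (gmN F p q t) b = (1 - t) * tau p b + t * tau q b := by
    intro p hp q hq t h0 h1 b
    have h2 : rs (E b) (gmN F p q t).1 = gmf F (rs (E b) p.1) (rs (E b) q.1) t :=
      (H31NA.gmf_spd F hE p.2 q.2 hp hq t h0 h1).2 b
    have h3 := hrd p (gmN F p q t) b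
    rw [h2, Pa_rd F (hrp p b) (hrp q b) h0 h1, hrd p q b] at h3
    have h4 : t * (c q b - c p b) = c (gmN F p q t) b - c p b := by
      apply mul_left_cancel₀ (hn0 b).ne'
      linarith
    rw [htau]
    show Real.sqrt (n b) * c (gmN F p q t) b =
      (1 - t) * (Real.sqrt (n b) * c p b) + t * (Real.sqrt (n b) * c q b)
    have h5 : c (gmN F p q t) b = c p b + t * (c q b - c p b) := by linarith
    rw [h5]
    ring
  refine ⟨tau, sig, ⟨hdst, hcvx, hgmt, ?_⟩, ?_⟩
  · intro p hp q hq t h0 h1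
    have hz := hcvx p hp q hq t h0 h1
    refine gm_uniq (npcN F) h0 h1 ?_ ?_
    · have e1 := hdst p hp _ hz
      have e2 := hdst p hp q hq
      have e3 := gm_dl (npcN F) p q h0 h1
      rw [e3] at e1
      have e4 : ∑ b, (tau (gmN F p q t) b - tau p b) ^ 2 = t ^ 2 * ∑ b, (tau q b - tau p b) ^ 2 := by
        rw [Finset.mul_sum]
        refine Finset.sum_congr rfl fun b _ => ?_
        rw [hgmt p hp q hq t h0 h1 b]
        ring
      rw [e4] at e1
      apply le_of_sq_le_sq _ (mul_nonneg h0 dist_nonneg) |> fun x => x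
      rw [mul_pow]
      nlinarith
    · have e1 := hdst _ hz q hq
      have e2 := hdst p hp q hq
      have e3 := gm_dr (npcN F) p q h0 h1
      rw [e3] at e1
      have e4 : ∑ b, (tau q b - tau (gmN F p q t) b) ^ 2 =
          (1 - t) ^ 2 * ∑ b, (tau q b - tau p b) ^ 2 := by
        rw [Finset.mul_sum]
        refine Finset.sum_congr rfl fun b _ => ?_
        rw [hgmt p hp q hq t h0 h1 b]
        ring
      rw [e4] at e1
      apply le_of_sq_le_sq _ (mul_nonneg (by linarith) dist_nonneg) |> fun x => x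
      rw [mul_pow]
      nlinarith
  · intro p q hp hq h
    refine Pa_eq F hE (hs1 q hq) (hs1 p hp) fun b => ?_
    rw [hs2 q hq b, hs2 p hp b]
    obtain ⟨d, hd⟩ := h b
    have h1 := hrd p q b
    have h2 := H31NA.rd_trl F (hrp p b) (hrp p b) 0 d
    have h3 : trl (rs (E b) p.1) 0 = rs (E b) p.1 := by
      funext x
      by_cases hx : x = 0
      · rw [hx, trl_zero]
        exact (hrp p b).1.symm
      · rw [trl_apply _ _ hx, add_zero]
    have h4 : rd F (rs (E b) p.1) (rs (E b) p.1) = 0 := by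
      rw [hrd p p b, sub_self, mul_zero]
    rw [h3, ← hd, h1, h4, zero_add, sub_zero] at h2
    have h5 : c q b - c p b = d := mul_left_cancel₀ (hn0 b).ne' h2
    rw [hd]
    funext x
    by_cases hx : x = 0
    · rw [hx, trl_zero, trl_zero]
    · rw [trl_apply _ _ hx, trl_apply _ _ hx, trl_apply _ _ hx]
      linarith

end H84NS
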