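import Pool.Agent.H84.NS.Fe
import Pool.Agent.H84.NS.Pa
import Pool.Agent.H80.NA.Cov
import Pool.Agent.H80.NA.Si
import Pool.Agent.H31.NA.Cpl

set_option autoImplicit false

/-!
# Row Fa: E0 satisfies the four point inequality VS

Uses the statements of Fe (one_s), Pa (prod_str), Cov (cov), Si (lim_ex, s6_cut), Ve (near_conv), Ib (en_le), Vc (nr_exists, E0_nonneg), npcN, complete space instance (H31/NA/Cpl).
loc_of: prod_str; S := {p | SpD E p.1}; if O is empty trivial (c0 := any point... if O = empty every c0 works; take c0 := sig (g 0)); otherwise c0 := sig (g p0), p0 in O.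
vs_e0: fix x, y > 0, ep > 0. one_s: K9. lim_ex: u. cov: Z. Choose e1 in (0, 1/10] with K9 sqrt (10 e1) <= ep/2; put e := 10 e1.
  g* : Nr x y e1 (nr_exists). s6_cut with m := e2 x y g* (integrable on U by clx_e2, nonneg) and e1: l, S with CutL r e1 m l S, S ∩ Z = empty.
  P is finite (compact), S compact, disjoint from P (S ⊆ Gd r): dist z p >= 2 d > 0 for z in S, p in P; so for z in D \ P with dist z p <= d: z not in S, l z = 0 (CutL.off).
  Cover: every z in S has O_z, N, E, T, s_z from cov; finitely many O_z cover S (IsCompact.elim_nhds_subcover; the empty case is fine); s0 := min of 1, the s_z, and numbers with s0^6 <= e1 and K9 s0 <= ep/2.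
  Let 0 < s < s0. For each k: w k := Lim map at (tx k, ty k) (lim_ex, ty_pos); Lim.app on S with ep = s^6: gk k in Nr, gk k = w k on S; g in Nr x y (s^6), g = u on S.
  Small energy: int over (U \ Zr) ∩ {l <> 1} of e2 g <= 2 int e2 g* + 2 int_U (..)  (en_le, th = 0, S' = that set, measurable: l continuous) <= 2 e1 + 2 * 4 * e1 = 10 e1 = e  (near_conv for g, g* in Nr x y e1 (s^6 <= e1), (sp - sp)^2 <= mt).
  cap with e1 implies cap with e (the right side is monotone: int (q^2 + gr q) >= 0).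
  hloc: z in U, l z <> 0: z in D (U ⊆ D), so z in S (CutL.off), z in O_i for some i of the finite cover. O := O_i ∩ U ∩ {l <> 0} is open, contained in S: there g = u, gk k = w k. loc_of with E_i: SpD and rs-translation from cov (third and fourth property),
    SpD E_i (w k p) since s < s0 <= s_i.
  one_s: 4 E0 x y - K9 (s^3 + sqrt e s^2) <= sum_k E0 (tx k)(ty k); K9 s^3 <= (ep/2) s^2 and K9 sqrt e s^2 <= (ep/2) s^2. Fin.sum_univ_four and the definitions of tx, ty give the form of VS (the order of the four terms is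
    (x, y e^s), (x - y tanh s, y/cosh s), (x, y e^-s), (x + y tanh s, y/cosh s)).
-/

namespace H84NS

open H50NA H98NX MeasureTheory Set Filter Topology
open H80HM (D U P f1 f2 VS)
open H46SB (gr)
open scoped NNReal

variable {K : Type} [Field K] (F : VF K) {V : Type} [AddCommGroup V] [Module K V] [Module.Finite K V]
  {A B C : Nm F V ≃ᵢ Nm F V}

theorem loc_of {N : ℕ} {E : Fin N → Submodule K V} (hE : DirectSum.IsInternal E) (hn : ∀ b, E b ≠ ⊥)
    {O : Set (ℝ × ℝ)} {g : ℝ × ℝ → Nm F V} {gk : Fin 4 → ℝ × ℝ → Nm F V} (h1 : ∀ p ∈ O, SpD E (g p).1)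
    (h2 : ∀ p ∈ O, ∀ q ∈ O, ∀ b, ∃ c : ℝ, rs (E b) (g q).1 = trl (rs (E b) (g p).1) c)
    (h3 : ∀ k, ∀ p ∈ O, SpD E (gk k p).1) : Loc (gmN F) O g gk := by
  obtain ⟨tau, sig, hP, hs⟩ := prod_str F hE hn
  by_cases hO : ∃ p0, p0 ∈ O
  · obtain ⟨p0, hp0⟩ := hO
    exact ⟨N, {p | SpD E p.1}, tau, sig, sig (g p0), hP, fun z hz => ⟨h1 z hz, fun k => h3 k z hz⟩,
      fun z hz => hs (g p0) (g z) (h1 p0 hp0) (h1 z hz) (h2 p0 hp0 z hz)⟩
  · exact ⟨N, {p | SpD E p.1}, tau, sig, sig (g 0), hP,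
      fun z hz => absurd ⟨z, hz⟩ hO, fun z hz => absurd ⟨z, hz⟩ hO⟩

/-- the local structure near a point with a chart -/
private theorem Fa_pt {r : ℝ} {o : Nm F V} {x y : ℝ} {u : ℝ × ℝ → Nm F V} {z : ℝ × ℝ}
    (hz : ∃ (O : Set (ℝ × ℝ)) (N : ℕ) (E : Fin N → Submodule K V)
        (T : Fin N → ℝ × ℝ → ℝ) (s0 : ℝ), IsOpen O ∧ z ∈ O ∧ 0 < s0 ∧ DirectSum.IsInternal E ∧
          (∀ b, E b ≠ ⊥) ∧ (∀ p ∈ O ∩ U, SpD E (u p).1) ∧
          (∀ p ∈ O ∩ U, ∀ q ∈ O ∩ U, ∀ b, rs (E b) (u q).1 = trl (rs (E b) (u p).1) (T b q - T b p)) ∧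
          ∀ s : ℝ, 0 < s → s < s0 → ∀ (k : Fin 4) (w : ℝ × ℝ → Nm F V),
            Lim A B C r o (tx x y s k) (ty y s k) w → ∀ p ∈ O ∩ U, SpD E (w p).1) :
    ∃ (O : Set (ℝ × ℝ)) (s0 : ℝ), IsOpen O ∧ z ∈ O ∧ 0 < s0 ∧ ∀ s : ℝ, 0 < s → s < s0 →
      ∀ (O' : Set (ℝ × ℝ)) (g : ℝ × ℝ → Nm F V) (gk w : Fin 4 → ℝ × ℝ → Nm F V), O' ⊆ O ∩ U →
        (∀ p ∈ O', g p = u p) → (∀ k, ∀ p ∈ O', gk k p = w k p) →
        (∀ k, Lim A B C r o (tx x y s k) (ty y s k) (w k)) → Loc (gmN F) O' g gk := by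
  obtain ⟨O, N, E, T, s0, hO, hzO, hs0, hE, hn, h1, h2, h3⟩ := hz
  refine ⟨O, s0, hO, hzO, hs0, fun s hs hss O' g gk w hO' hg hgk hw => ?_⟩
  refine loc_of F hE hn (fun p hp => ?_) (fun p hp q hq b => ?_) (fun k p hp => ?_)
  · rw [hg p hp]
    exact h1 p (hO' hp)
  · rw [hg p hp, hg q hq]
    exact ⟨_, h2 p (hO' hp) q (hO' hq) b⟩
  · rw [hgk k p hp]
    exact h3 s hs hss k (w k) (hw k) p (hO' hp)

private theorem Fa_small {X : Type} [MetricSpace X] {gm : X → X → ℝ → X} {A B C : X ≃ᵢ X}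
    (hX : Npc X gm) {r : ℝ} {o : X} {x y e1 ep : ℝ} (hy : 0 < y) {g gs : ℝ × ℝ → X}
    {l : ℝ × ℝ → ℝ} (hl : Continuous l) (hg : Nr A B C r o x y ep g) (hep : ep ≤ e1)
    (hgs : Nr A B C r o x y e1 gs)
    (hen : ∫ z in (U \ Zr r) ∩ {z | l z ≠ 1}, e2 x y gs z ≤ e1) :
    ∫ z in (U \ Zr r) ∩ {z | l z ≠ 1}, e2 x y g z ≤ 10 * e1 := by
  have hg' : Nr A B C r o x y e1 g := ⟨hg.1, hg.2.trans (by linarith)⟩
  have hS : MeasurableSet ((U \ Zr r) ∩ {z | l z ≠ 1}) := by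
    refine (H46XB.U_open.measurableSet.diff ?_).inter ?_
    · exact Metric.isClosed_closedBall.measurableSet
    · exact (isOpen_ne_fun hl continuous_const).measurableSet
  have h1 := en_le hX hg.1.cl hgs.1.cl hS (fun z hz => hz.1.1) x 0 hy
  have h2 := H46XB.near_conv hX hg' hgs 0
  have h3 : ∫ z in U, ((sp g (fe x y 0) z - sp gs (fe x y 0) z) ^ 2 +
        (sp g (ff x y 0) z - sp gs (ff x y 0) z) ^ 2) ≤
      ∫ z in U, (mt g gs (fe x y 0) z + mt g gs (ff x y 0) z) := by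
    refine integral_mono_of_nonneg (Eventually.of_forall fun z => by positivity)
      ((H46XB.mt_int hX hg.1.cl hgs.1.cl _).add (H46XB.mt_int hX hg.1.cl hgs.1.cl _))
      (Eventually.of_forall fun z => ?_)
    exact add_le_add (le_max_left _ _) (le_max_left _ _)
  linarith

private theorem Fa_sep {S : Set (ℝ × ℝ)} (hS : IsCompact S) {r : ℝ} (hsub : S ⊆ Gd r) :
    ∃ d : ℝ, 0 < d ∧ ∀ z ∈ S, ∀ p ∈ P, d < dist z p := by
  have hPc : IsClosed P := by
    refine Set.Finite.isClosed ?_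
    refine Set.Finite.prod ?_ ?_
    · exact Set.toFinite _
    · exact Set.toFinite _
  have hdis : Disjoint S P := by
    rw [Set.disjoint_left]
    intro z hz hzP
    exact (hsub hz).2 (Or.inl hzP)
  obtain ⟨δ, hδ, hδ'⟩ := hdis.exists_thickenings hS hPc
  refine ⟨δ / 2, by positivity, fun z hz p hp => ?_⟩
  by_contra hcon
  have h1 : z ∈ Metric.thickening δ P := by
    rw [Metric.mem_thickening_iff]
    exact ⟨p, hp, by linarith [not_lt.1 hcon]⟩
  exact Set.disjoint_left.1 hδ' (Metric.self_subset_thickening hδ S hz) h1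

theorem vs_e0 (hF : Rf F) {r : ℝ} {o : Nm F V} (hr : 0 < r) (hr8 : r < 1 / 8) (h : ∃ f, Cl0 A B C r o f) :
    VS (fun x y => E0 A B C r o x y) := by
  intro x y hy ep hep
  have hX : Npc (Nm F V) (gmN F) := npcN F
  obtain ⟨K9, hK9, hone⟩ := one_s hX A B C (r := r) (o := o) x hr hr8 hy
  obtain ⟨u, hu⟩ := lim_ex hX hr hr8 hy h
  obtain ⟨Z, hZ, hfin, hC, hA, hB, hcov⟩ := cov F hF hr hr8 hy hu
  -- the small number
  obtain ⟨e1, he1, he10, hKe⟩ : ∃ e1 : ℝ, 0 < e1 ∧ e1 ≤ 1 / 10 ∧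
      K9 * Real.sqrt (10 * e1) ≤ ep / 2 := by
    have hK1 : 0 < K9 + 1 := by linarith
    refine ⟨min (1 / 10) ((ep / (2 * (K9 + 1))) ^ 2 / 10), lt_min (by norm_num) (by positivity),
      min_le_left _ _, ?_⟩
    have h1 : Real.sqrt (10 * min (1 / 10) ((ep / (2 * (K9 + 1))) ^ 2 / 10)) ≤
        ep / (2 * (K9 + 1)) := by
      rw [Real.sqrt_le_left (by positivity)]
      have := min_le_right (1 / 10 : ℝ) ((ep / (2 * (K9 + 1))) ^ 2 / 10)
      linarith
    calc K9 * Real.sqrt (10 * min (1 / 10) ((ep / (2 * (K9 + 1))) ^ 2 / 10)) ≤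
          (K9 + 1) * (ep / (2 * (K9 + 1))) := by
          apply mul_le_mul (by linarith) h1 (Real.sqrt_nonneg _) hK1.le
      _ = ep / 2 := by field_simp
  obtain ⟨gs, hgs⟩ := H46XB.nr_exists h x y he1
  obtain ⟨l, S, hcut, hSZ⟩ := s6_cut hr hr8 hZ hfin hC hA hB (m := e2 x y gs)
    ((clx_e2 hX hgs.1.cl x y).mono_set sdiff_subset)
    (fun z => add_nonneg (sq_nonneg _) (sq_nonneg _)) he1
  obtain ⟨d, hd, hdS⟩ := Fa_sep hcut.cpt hcut.sub
  have hlc : Continuous l := by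
    obtain ⟨L, hL⟩ := hcut.lip
    exact hL.continuous
  have hUD : U ⊆ D := fun z hz => (H46XB.U_sub hz).1
  -- the finite cover
  have hpt : ∀ z ∈ S, ∃ (O : Set (ℝ × ℝ)) (s0 : ℝ), IsOpen O ∧ z ∈ O ∧ 0 < s0 ∧
      ∀ s : ℝ, 0 < s → s < s0 →
      ∀ (O' : Set (ℝ × ℝ)) (g : ℝ × ℝ → Nm F V) (gk w : Fin 4 → ℝ × ℝ → Nm F V), O' ⊆ O ∩ U →
        (∀ p ∈ O', g p = u p) → (∀ k, ∀ p ∈ O', gk k p = w k p) →
        (∀ k, Lim A B C r o (tx x y s k) (ty y s k) (w k)) → Loc (gmN F) O' g gk :=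
    fun z hz => Fa_pt F (hcov z (hcut.sub hz) (hSZ z hz))
  choose! O s0 hO hzO hs0 hloc using hpt
  obtain ⟨t, htS, ht⟩ := hcut.cpt.elim_nhds_subcover O (fun z hz => (hO z hz).mem_nhds (hzO z hz))
  have hev : ∀ᶠ s in 𝓝[>] (0:ℝ), (0 < s ∧ s < 1) ∧ s ^ 6 ≤ e1 ∧ K9 * s ≤ ep / 2 ∧
      ∀ z ∈ t, s < s0 z := by
    have hc6 : Tendsto (fun s : ℝ => s ^ 6) (𝓝[>] (0:ℝ)) (𝓝 0) := by
      have h1 : Continuous fun s : ℝ => s ^ 6 := by fun_prop
      have h2 := h1.tendsto 0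
      rw [zero_pow (by norm_num)] at h2
      exact h2.mono_left nhdsWithin_le_nhds
    have hcK : Tendsto (fun s : ℝ => K9 * s) (𝓝[>] (0:ℝ)) (𝓝 0) := by
      have h1 : Continuous fun s : ℝ => K9 * s := by fun_prop
      have h2 := h1.tendsto 0
      rw [mul_zero] at h2
      exact h2.mono_left nhdsWithin_le_nhds
    refine Filter.Eventually.and (Ioo_mem_nhdsGT one_pos) (Filter.Eventually.and
      (hc6.eventually_le_const he1) (Filter.Eventually.and
      (hcK.eventually_le_const (by positivity)) ?_))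
    rw [Filter.eventually_all_finset]
    intro z hz
    exact mem_of_superset (Ioo_mem_nhdsGT (hs0 z (htS z hz))) fun s hs => hs.2
  have hmain : ∀ s : ℝ, ((0 < s ∧ s < 1) ∧ s ^ 6 ≤ e1 ∧ K9 * s ≤ ep / 2 ∧ ∀ z ∈ t, s < s0 z) →
      4 * E0 A B C r o x y - ep * s ^ 2 ≤
        E0 A B C r o x (y * Real.exp s) + E0 A B C r o x (y * Real.exp (-s)) +
        E0 A B C r o (x - y * Real.tanh s) (y / Real.cosh s) +
        E0 A B C r o (x + y * Real.tanh s) (y / Real.cosh s) := by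
    rintro s ⟨⟨hs, hs1⟩, hs6, hKs, hst⟩
    choose w hw using fun k : Fin 4 => lim_ex hX hr hr8 (x := tx x y s k) (ty_pos hy s k) h
    have hs6p : 0 < s ^ 6 := by positivity
    obtain ⟨g, hg, hgu⟩ := hu.app S hcut.sub hcut.cpt (s ^ 6) hs6p
    choose gk hgk hgkw using fun k : Fin 4 => (hw k).app S hcut.sub hcut.cpt (s ^ 6) hs6p
    have h1 := hone g gk l s (10 * e1) d hs hs1.le (by positivity) (by linarith) hd hg hgk
      hcut.lip hcut.bd hcut.sy
      (fun q q1 q2 q3 q4 => by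
        obtain ⟨c1, c2⟩ := hcut.cap q q1 q2 q3 q4
        refine ⟨c1, c2.trans ?_⟩
        refine mul_le_mul_of_nonneg_right (by linarith) ?_
        exact integral_nonneg fun z => add_nonneg (sq_nonneg _) (H46SB.gr_nonneg q z))
      (Fa_small hX hy hlc hg hs6 hgs hcut.en)
      (fun z hz p hp hzp => by
        apply hcut.off z hz.1
        intro hzS
        exact absurd hzp (not_le.2 (hdS z hzS p hp)))
      (fun z hz hlz => by
        have hzS : z ∈ S := by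
          by_contra hcon
          exact hlz (hcut.off z (hUD hz) hcon)
        obtain ⟨i, hi, hzi⟩ := Set.mem_iUnion₂.1 (ht hzS)
        refine ⟨O i ∩ U ∩ {z | l z ≠ 0}, ((hO i (htS i hi)).inter H46XB.U_open).inter
          (isOpen_ne_fun hlc continuous_const), ⟨⟨hzi, hz⟩, hlz⟩, ?_⟩
        have hsubS : ∀ p ∈ O i ∩ U ∩ {z | l z ≠ 0}, p ∈ S := by
          intro p hp
          by_contra hcon
          exact hp.2 (hcut.off p (hUD hp.1.2) hcon)
        exact hloc i (htS i hi) s hs (hst i hi) _ g gk w (fun p hp => hp.1)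
          (fun p hp => hgu p (hsubS p hp)) (fun k p hp => hgkw k p (hsubS p hp)) hw)
    rw [Fin.sum_univ_four] at h1
    have h2 : K9 * (s ^ 3 + Real.sqrt (10 * e1) * s ^ 2) ≤ ep * s ^ 2 := by
      have e1' : K9 * s ^ 3 ≤ ep / 2 * s ^ 2 := by
        have : K9 * s ^ 3 = K9 * s * s ^ 2 := by ring
        rw [this]
        exact mul_le_mul_of_nonneg_right hKs (sq_nonneg s)
      have e2' : K9 * (Real.sqrt (10 * e1) * s ^ 2) ≤ ep / 2 * s ^ 2 := by
        rw [← mul_assoc]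
        exact mul_le_mul_of_nonneg_right hKe (sq_nonneg s)
      linarith
    have h3 : E0 A B C r o (tx x y s 0) (ty y s 0) = E0 A B C r o x (y * Real.exp s) := rfl
    have h4 : E0 A B C r o (tx x y s 1) (ty y s 1) =
      E0 A B C r o (x - y * Real.tanh s) (y / Real.cosh s) := rfl
    have h5 : E0 A B C r o (tx x y s 2) (ty y s 2) = E0 A B C r o x (y * Real.exp (-s)) := rfl
    have h6 : E0 A B C r o (tx x y s 3) (ty y s 3) =
      E0 A B C r o (x + y * Real.tanh s) (y / Real.cosh s) := rfl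
    rw [h3, h4, h5, h6] at h1
    linarith
  obtain ⟨δ, hδ, hδ'⟩ := (mem_nhdsGT_iff_exists_Ioo_subset).1 hev
  exact ⟨δ, hδ, fun s hs hsd => hmain s (hδ' ⟨hs, hsd⟩)⟩

end H84NS
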