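import Pool.Agent.H84.NS.Df
import Pool.Agent.H80.NA.Sdf

set_option autoImplicit false

/-!
# Row Fb: the energy at the four points tau_k(s)

clx_int, clx_md (row Xg) and sp_pair (row Eh): for a.e. z in U there is b with |b| <= .. and sp f (p,q) z^2 = p^2 A + 2 p q b + q^2 c for all p, q (A = sp f (1,0) z^2, c = sp f (0,1) z^2).
Pointwise identity at such z (then integrate; Ex x' y' f = int_U (sp f (f1 x' y')^2 + sp f (f2 x' y')^2) by definition), with x' = tx x y s k, y' = ty y s k > 0: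
  sp f (f1 x' y')^2 + sp f (f2 x' y')^2 = y' A + (x'^2 A - 2 x' b + c)/y'      (f1 x' y' = (sqrt y', 0), f2 x' y' = (-x'/sqrt y', 1/sqrt y')).
  q11 := y A, q22 := (x^2 A - 2 x b + c)/y, q12 := b - x A (values of the form on f1 x y, f2 x y).
  k = 0: y' = y e^s, x' = x: the left side is e^s q11 + e^-s q22; thk 0 = 0, fe = f1, ff = f2.          k = 2: e^-s q11 + e^s q22; thk 2 = pi/2, fe = f2, ff = -f1.
  k = 1: x' = x - y tanh s, y' = y/cosh s: y A/cosh + (cosh/y) ((x - y t)^2 A - 2 (x - y t) b + c) = cosh q22 + y A (1/cosh + cosh t^2) + 2 cosh t (b - x A) = cosh s (q11 + q22) + 2 sinh s q12  (t = tanh s = sinh/cosh, 1 + sinh^2 = cosh^2);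
     thk 1 = pi/4: sp fe^2 = (q11 + q22 + 2 q12)/2, sp ff^2 = (q11 + q22 - 2 q12)/2: e^s, e^-s combination = cosh s (q11+q22) + 2 sinh s q12.
  k = 3: x' = x + y tanh s: cosh s (q11+q22) - 2 sinh s q12; thk 3 = 3 pi/4: cos = -sqrt 2/2, sin = sqrt 2/2: sp fe^2 = (q11 + q22 - 2 q12)/2, sp ff^2 = (q11 + q22 + 2 q12)/2.
-/

namespace H84NS

open H50NA H98NX MeasureTheory Set Filter Topology
open H80HM (D U P f1 f2)

variable {X : Type} [MetricSpace X] {gm : X → X → ℝ → X} {A B C : X ≃ᵢ X}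

theorem ty_pos {y : ℝ} (hy : 0 < y) (s : ℝ) (k : Fin 4) : 0 < ty y s k := by
  have h1 := Real.cosh_pos s
  have h2 := Real.exp_pos s
  have h3 := Real.exp_pos (-s)
  fin_cases k
  · change 0 < y * Real.exp s
    positivity
  · change 0 < y / Real.cosh s
    positivity
  · change 0 < y * Real.exp (-s)
    positivity
  · change 0 < y / Real.cosh s
    positivity

theorem Fb_fe {f : ℝ × ℝ → X} {z : ℝ × ℝ} {A' b c : ℝ}
    (h : ∀ p q : ℝ, sp f (p, q) z ^ 2 = p ^ 2 * A' + 2 * p * q * b + q ^ 2 * c) (x : ℝ) {y : ℝ}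
    (hy : 0 < y) (co si : ℝ) :
    sp f (co • f1 x y + si • f2 x y) z ^ 2 = co ^ 2 * (y * A') + 2 * co * si * (b - x * A') +
      si ^ 2 * ((x ^ 2 * A' - 2 * x * b + c) / y) := by
  obtain ⟨w, hw⟩ : ∃ w, w = Real.sqrt y := ⟨_, rfl⟩
  have hw0 : 0 < w := by
    rw [hw]
    exact Real.sqrt_pos.2 hy
  have hw2 : w ^ 2 = y := by
    rw [hw]
    exact Real.sq_sqrt hy.le
  have e : co • f1 x y + si • f2 x y = (co * w + si * (-x / w), si * (1 / w)) := by
    rw [hw]
    apply Prod.ext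
    · simp [f1, f2]
    · simp [f1, f2]
  rw [e, h, ← hw2]
  field_simp
  ring

theorem Fb_e2 {f : ℝ × ℝ → X} {z : ℝ × ℝ} {A' b c : ℝ}
    (h : ∀ p q : ℝ, sp f (p, q) z ^ 2 = p ^ 2 * A' + 2 * p * q * b + q ^ 2 * c) (x : ℝ) {y : ℝ}
    (hy : 0 < y) :
    e2 x y f z = y * A' + (x ^ 2 * A' - 2 * x * b + c) / y := by
  have h1 := Fb_fe h x hy 1 0
  have h2 := Fb_fe h x hy 0 1
  rw [one_smul, zero_smul, add_zero] at h1
  rw [one_smul, zero_smul, zero_add] at h2
  rw [e2, h1, h2]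
  ring

theorem Fb_ek {f : ℝ × ℝ → X} {z : ℝ × ℝ} {A' b c : ℝ}
    (h : ∀ p q : ℝ, sp f (p, q) z ^ 2 = p ^ 2 * A' + 2 * p * q * b + q ^ 2 * c) (x : ℝ) {y : ℝ}
    (hy : 0 < y) (s : ℝ) (k : Fin 4) :
    ek x y s k f z = Real.exp s * (Real.cos (thk k) ^ 2 * (y * A') +
        2 * Real.cos (thk k) * Real.sin (thk k) * (b - x * A') +
        Real.sin (thk k) ^ 2 * ((x ^ 2 * A' - 2 * x * b + c) / y)) +
      Real.exp (-s) * (Real.sin (thk k) ^ 2 * (y * A') -
        2 * Real.cos (thk k) * Real.sin (thk k) * (b - x * A') +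
        Real.cos (thk k) ^ 2 * ((x ^ 2 * A' - 2 * x * b + c) / y)) := by
  rw [ek, fe, ff, Fb_fe h x hy, Fb_fe h x hy]
  ring

theorem Fb_pt {f : ℝ × ℝ → X} {z : ℝ × ℝ} {A' b c : ℝ}
    (h : ∀ p q : ℝ, sp f (p, q) z ^ 2 = p ^ 2 * A' + 2 * p * q * b + q ^ 2 * c) (x : ℝ) {y : ℝ}
    (hy : 0 < y) (s : ℝ) (k : Fin 4) :
    e2 (tx x y s k) (ty y s k) f z = ek x y s k f z := by
  rw [Fb_e2 h (tx x y s k) (ty_pos hy s k), Fb_ek h x hy s k]
  obtain ⟨R, hR⟩ : ∃ R, R = (x ^ 2 * A' - 2 * x * b + c) / y := ⟨_, rfl⟩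
  have hRy : x ^ 2 * A' - 2 * x * b + c = R * y := by
    rw [hR]
    field_simp
  have hc : c = R * y - x ^ 2 * A' + 2 * x * b := by linarith
  have es := Real.exp_pos s
  have en := Real.exp_pos (-s)
  have ee : Real.exp s * Real.exp (-s) = 1 := by
    rw [← Real.exp_add, add_neg_cancel, Real.exp_zero]
  have ch := Real.cosh_pos s
  have hch : Real.cosh s = (Real.exp s + Real.exp (-s)) / 2 := Real.cosh_eq s
  have hsh : Real.sinh s = (Real.exp s - Real.exp (-s)) / 2 := Real.sinh_eq s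
  have hcs : Real.cosh s ^ 2 = 1 + Real.sinh s ^ 2 := Real.cosh_sq' s
  have h2 : (Real.sqrt 2 / 2) ^ 2 = 1 / 2 := by
    rw [div_pow, Real.sq_sqrt (by norm_num)]
    norm_num
  have key : ∀ sg : ℝ, sg ^ 2 = 1 →
      y / Real.cosh s * A' + ((x + sg * (y * Real.tanh s)) ^ 2 * A' -
        2 * (x + sg * (y * Real.tanh s)) * b + c) / (y / Real.cosh s) =
      Real.cosh s * (y * A' + R) - 2 * sg * Real.sinh s * (b - x * A') := by
    intro sg hsg
    rw [Real.tanh_eq_sinh_div_cosh, hc]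
    have e1 : y / Real.cosh s * A' + ((x + sg * (y * (Real.sinh s / Real.cosh s))) ^ 2 * A' -
        2 * (x + sg * (y * (Real.sinh s / Real.cosh s))) * b + (R * y - x ^ 2 * A' + 2 * x * b)) /
          (y / Real.cosh s) =
        y * A' * (1 + sg ^ 2 * Real.sinh s ^ 2) / Real.cosh s + Real.cosh s * R -
          2 * sg * Real.sinh s * (b - x * A') := by
      field_simp
      ring
    rw [e1, hsg, one_mul, ← hcs]
    field_simp
  fin_cases k
  · have t1 : tx x y s 0 = x := rfl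
    have t2 : ty y s 0 = y * Real.exp s := rfl
    have t3 : thk 0 = 0 := by simp [thk]
    change ty y s 0 * A' + (tx x y s 0 ^ 2 * A' - 2 * tx x y s 0 * b + c) / ty y s 0 =
      Real.exp s * (Real.cos (thk 0) ^ 2 * (y * A') +
        2 * Real.cos (thk 0) * Real.sin (thk 0) * (b - x * A') +
        Real.sin (thk 0) ^ 2 * ((x ^ 2 * A' - 2 * x * b + c) / y)) +
      Real.exp (-s) * (Real.sin (thk 0) ^ 2 * (y * A') -
        2 * Real.cos (thk 0) * Real.sin (thk 0) * (b - x * A') +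
        Real.cos (thk 0) ^ 2 * ((x ^ 2 * A' - 2 * x * b + c) / y))
    rw [t1, t2, t3, Real.cos_zero, Real.sin_zero, Real.exp_neg]
    field_simp
    ring
  · have t1 : tx x y s 1 = x - y * Real.tanh s := rfl
    have t2 : ty y s 1 = y / Real.cosh s := rfl
    have t3 : thk 1 = Real.pi / 4 := by simp [thk]
    change ty y s 1 * A' + (tx x y s 1 ^ 2 * A' - 2 * tx x y s 1 * b + c) / ty y s 1 =
      Real.exp s * (Real.cos (thk 1) ^ 2 * (y * A') +
        2 * Real.cos (thk 1) * Real.sin (thk 1) * (b - x * A') +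
        Real.sin (thk 1) ^ 2 * ((x ^ 2 * A' - 2 * x * b + c) / y)) +
      Real.exp (-s) * (Real.sin (thk 1) ^ 2 * (y * A') -
        2 * Real.cos (thk 1) * Real.sin (thk 1) * (b - x * A') +
        Real.cos (thk 1) ^ 2 * ((x ^ 2 * A' - 2 * x * b + c) / y))
    rw [t1, t2, t3, Real.cos_pi_div_four, Real.sin_pi_div_four, ← hR]
    have h3 := key (-1) (by norm_num)
    have e3 : x + -1 * (y * Real.tanh s) = x - y * Real.tanh s := by ring
    rw [e3] at h3
    rw [h3, hch, hsh]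
    linear_combination (-(Real.exp s * (y * A' + 2 * (b - x * A') + R) +
      Real.exp (-s) * (y * A' - 2 * (b - x * A') + R))) * h2
  · have t1 : tx x y s 2 = x := rfl
    have t2 : ty y s 2 = y * Real.exp (-s) := rfl
    have t3 : thk 2 = Real.pi / 2 := by
      simp [thk]
      ring
    change ty y s 2 * A' + (tx x y s 2 ^ 2 * A' - 2 * tx x y s 2 * b + c) / ty y s 2 =
      Real.exp s * (Real.cos (thk 2) ^ 2 * (y * A') +
        2 * Real.cos (thk 2) * Real.sin (thk 2) * (b - x * A') +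
        Real.sin (thk 2) ^ 2 * ((x ^ 2 * A' - 2 * x * b + c) / y)) +
      Real.exp (-s) * (Real.sin (thk 2) ^ 2 * (y * A') -
        2 * Real.cos (thk 2) * Real.sin (thk 2) * (b - x * A') +
        Real.cos (thk 2) ^ 2 * ((x ^ 2 * A' - 2 * x * b + c) / y))
    rw [t1, t2, t3, Real.cos_pi_div_two, Real.sin_pi_div_two, Real.exp_neg]
    field_simp
    ring
  · have t1 : tx x y s 3 = x + y * Real.tanh s := rfl
    have t2 : ty y s 3 = y / Real.cosh s := rfl
    have t3 : thk 3 = Real.pi - Real.pi / 4 := by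
      simp [thk]
      ring
    change ty y s 3 * A' + (tx x y s 3 ^ 2 * A' - 2 * tx x y s 3 * b + c) / ty y s 3 =
      Real.exp s * (Real.cos (thk 3) ^ 2 * (y * A') +
        2 * Real.cos (thk 3) * Real.sin (thk 3) * (b - x * A') +
        Real.sin (thk 3) ^ 2 * ((x ^ 2 * A' - 2 * x * b + c) / y)) +
      Real.exp (-s) * (Real.sin (thk 3) ^ 2 * (y * A') -
        2 * Real.cos (thk 3) * Real.sin (thk 3) * (b - x * A') +
        Real.cos (thk 3) ^ 2 * ((x ^ 2 * A' - 2 * x * b + c) / y))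
    rw [t1, t2, t3, Real.cos_pi_sub, Real.sin_pi_sub, Real.cos_pi_div_four,
      Real.sin_pi_div_four, ← hR]
    have h3 := key 1 (by norm_num)
    rw [one_mul] at h3
    rw [h3, hch, hsh]
    linear_combination (-(Real.exp s * (y * A' - 2 * (b - x * A') + R) +
      Real.exp (-s) * (y * A' + 2 * (b - x * A') + R))) * h2

theorem ex_four (hX : Npc X gm) {f : ℝ × ℝ → X} (hf : Clx A B C f) (x : ℝ) {y : ℝ} (hy : 0 < y) (s : ℝ) (k : Fin 4) :
    Ex (tx x y s k) (ty y s k) f = ∫ z in U, ek x y s k f z := by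
  rw [ex_eq]
  refine setIntegral_congr_ae u_open.measurableSet ?_
  filter_upwards [clx_md hX hf] with z hz hU
  obtain ⟨b, -, hb⟩ := sp_pair (hz hU)
  exact Fb_pt hb x hy s k

end H84NS
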