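import Pool.Agent.H84.NS.Df

set_option autoImplicit false

/-!
# Row La: the algebraic inequality of the four directions

p = (p1,p2), w_k = (w1 k, w2 k), a_k = p + w_k, c = cos, sn = sin of thk k (thk 0 = 0, thk 1 = pi/4, thk 2 = pi/2, thk 3 = 3 pi/4): cos/sin = (1,0), (r,r), (0,1), (-r,r), r = sqrt 2/2, r^2 = 1/2.
The k-th term is e^s A_k^2 + e^-s B_k^2 with A_k = c a1 + sn a2, B_k = -sn a1 + c a2; e^s = cosh + sinh, e^-s = cosh - sinh (s >= 0: sinh s >= 0):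
  = cosh s |a|^2 + sinh s Q_k(a), Q_0(a) = a1^2 - a2^2, Q_1(a) = 2 a1 a2, Q_2 = -Q_0, Q_3 = -Q_1.
Expand a = p + w: Q_k(a) = Q_k(p) + 2 Q_k(p,w) + Q_k(w), Q_k(w) >= -|w|^2, sum_k Q_k(p) = 0.
With x = (w_0 - w_2)/2, x' = (w_1 - w_3)/2, N = (x1 + x'2, x'1 - x2): sum_k Q_k(p,w_k) = 2 <p,N>,  |N|^2 = |x|^2 + |x'|^2 + 2 J, J = x1 x'2 - x2 x'1, sum_k |w_k|^2 >= 2|x|^2 + 2|x'|^2 = 2|N|^2 - 4J,
  sum_k (a_k wedge a_(k+1)) = (a_0 - a_2) wedge (a_1 - a_3) = 4 J   (indices mod 4).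
So lhs >= 4 cosh s |p|^2 + 2 cosh s sum <p,w_k> + e^-s sum |w_k|^2 + 4 sinh s <p,N> >= 4 cosh s|p|^2 + 2 cosh s sum <p,w_k> + 2 e^-s |N|^2 + 4 sinh s <p,N> - 4 e^-s J and
  2 e^-s |N|^2 + 4 sinh s <p,N> >= -2 e^s sinh^2 s |p|^2  (2 e^-s |N + e^s sinh s p|^2 >= 0).
-/

namespace H84NS

open Real

theorem La_cos0 : cos (thk 0) = 1 := by simp [thk]
theorem La_sin0 : sin (thk 0) = 0 := by simp [thk]
theorem La_cos1 : cos (thk 1) = √2 / 2 := by simp [thk]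
theorem La_sin1 : sin (thk 1) = √2 / 2 := by simp [thk]

theorem La_thk2 : thk 2 = π / 2 := by
  simp only [thk]
  norm_num
  ring

theorem La_thk3 : thk 3 = π - π / 4 := by
  simp only [thk]
  norm_num
  ring

theorem La_cos2 : cos (thk 2) = 0 := by rw [La_thk2, cos_pi_div_two]
theorem La_sin2 : sin (thk 2) = 1 := by rw [La_thk2, sin_pi_div_two]
theorem La_cos3 : cos (thk 3) = -(√2 / 2) := by rw [La_thk3, cos_pi_sub, cos_pi_div_four]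
theorem La_sin3 : sin (thk 3) = √2 / 2 := by rw [La_thk3, sin_pi_sub, sin_pi_div_four]

theorem alg_cyc {s : ℝ} (hs : 0 ≤ s) (p1 p2 : ℝ) (w1 w2 : Fin 4 → ℝ) :
    (4 * cosh s - 2 * exp s * sinh s ^ 2) * (p1 ^ 2 + p2 ^ 2) + 2 * cosh s * ∑ k, (p1 * w1 k + p2 * w2 k)
      - exp (-s) * ∑ k, ((p1 + w1 k) * (p2 + w2 (k + 1)) - (p2 + w2 k) * (p1 + w1 (k + 1))) ≤
    ∑ k, (exp s * (cos (thk k) * (p1 + w1 k) + sin (thk k) * (p2 + w2 k)) ^ 2 +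
      exp (-s) * (-sin (thk k) * (p1 + w1 k) + cos (thk k) * (p2 + w2 k)) ^ 2) := by
  have hE : 0 < exp s := exp_pos s
  have hD : 0 < exp (-s) := exp_pos (-s)
  have hED : exp s * exp (-s) = 1 := by rw [← exp_add, add_neg_cancel, exp_zero]
  have hDE : exp (-s) ≤ exp s := exp_le_exp.2 (by linarith)
  have e0 : (0 : Fin 4) + 1 = 1 := rfl
  have e1 : (1 : Fin 4) + 1 = 2 := rfl
  have e2 : (2 : Fin 4) + 1 = 3 := rfl
  have e3 : (3 : Fin 4) + 1 = 0 := rfl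
  rw [Fin.sum_univ_four, Fin.sum_univ_four, Fin.sum_univ_four, e0, e1, e2, e3, La_cos0, La_sin0, La_cos1,
    La_sin1, La_cos2, La_sin2, La_cos3, La_sin3, cosh_eq, sinh_eq]
  have hr : √2 * √2 = 2 := mul_self_sqrt (by norm_num)
  generalize √2 = r at hr ⊢
  generalize exp s = E at hE hED hDE ⊢
  generalize exp (-s) = G at hD hED hDE ⊢
  generalize w1 0 = u0
  generalize w1 1 = u1
  generalize w1 2 = u2
  generalize w1 3 = u3
  generalize w2 0 = v0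
  generalize w2 1 = v1
  generalize w2 2 = v2
  generalize w2 3 = v3
  rw [← sub_nonneg]
  have key : (E * (1 * (p1 + u0) + 0 * (p2 + v0)) ^ 2 + G * (-0 * (p1 + u0) + 1 * (p2 + v0)) ^ 2 +
      (E * (r / 2 * (p1 + u1) + r / 2 * (p2 + v1)) ^ 2 + G * (-(r / 2) * (p1 + u1) + r / 2 * (p2 + v1)) ^ 2) +
      (E * (0 * (p1 + u2) + 1 * (p2 + v2)) ^ 2 + G * (-1 * (p1 + u2) + 0 * (p2 + v2)) ^ 2) +
      (E * (-(r / 2) * (p1 + u3) + r / 2 * (p2 + v3)) ^ 2 +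
        G * (-(r / 2) * (p1 + u3) + -(r / 2) * (p2 + v3)) ^ 2)) -
      ((4 * ((E + G) / 2) - 2 * E * ((E - G) / 2) ^ 2) * (p1 ^ 2 + p2 ^ 2) +
        2 * ((E + G) / 2) * (p1 * u0 + p2 * v0 + (p1 * u1 + p2 * v1) + (p1 * u2 + p2 * v2) +
          (p1 * u3 + p2 * v3)) -
        G * ((p1 + u0) * (p2 + v1) - (p2 + v0) * (p1 + u1) + ((p1 + u1) * (p2 + v2) - (p2 + v1) * (p1 + u2)) +
          ((p1 + u2) * (p2 + v3) - (p2 + v2) * (p1 + u3)) + ((p1 + u3) * (p2 + v0) - (p2 + v3) * (p1 + u0)))) =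
      2 * G * ((((u0 - u2) / 2 + (v1 - v3) / 2) + E * ((E - G) / 2) * p1) ^ 2 +
        (((u1 - u3) / 2 - (v0 - v2) / 2) + E * ((E - G) / 2) * p2) ^ 2) +
      G * ((u0 + u2) ^ 2 + (v0 + v2) ^ 2 + (u1 + u3) ^ 2 + (v1 + v3) ^ 2) / 2 +
      (E - G) / 2 * (2 * u0 ^ 2 + (u1 + v1) ^ 2 + 2 * v2 ^ 2 + (u3 - v3) ^ 2) := by
    linear_combination (E * (p1 + u1 + p2 + v1) ^ 2 / 4 + G * (p2 + v1 - p1 - u1) ^ 2 / 4 +
      E * (p2 + v3 - p1 - u3) ^ 2 / 4 + G * (p1 + u3 + p2 + v3) ^ 2 / 4) * hr -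
      (4 * ((E - G) / 2) * (((u0 - u2) / 2 + (v1 - v3) / 2) * p1 + ((u1 - u3) / 2 - (v0 - v2) / 2) * p2) +
        2 * E * ((E - G) / 2) ^ 2 * (p1 ^ 2 + p2 ^ 2)) * hED
  rw [key]
  have h1 : 0 ≤ (E - G) / 2 := by linarith
  positivity

/-- the coefficient is at least 4 up to third order -/
theorem alg_coef {s : ℝ} (hs : 0 ≤ s) (hs1 : s ≤ 1) : 4 - 100 * s ^ 3 ≤ 4 * cosh s - 2 * exp s * sinh s ^ 2 ∧
    4 * cosh s - 2 * exp s * sinh s ^ 2 ≤ 100 ∧ cosh s ≤ 2 ∧ sinh s ≤ 2 * s := by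
  have h1 := abs_le.1 (abs_exp_sub_one_sub_id_le (x := s) (by rw [abs_of_nonneg hs]; exact hs1))
  have h2 := abs_le.1 (abs_exp_sub_one_sub_id_le (x := -s) (by rw [abs_neg, abs_of_nonneg hs]; exact hs1))
  have hE : 0 < exp s := exp_pos s
  have hE1 : exp s ≤ 1 + s + s ^ 2 := by linarith [h1.2]
  have hD1 : exp (-s) ≤ 1 - s + s ^ 2 := by
    have := h2.2
    rw [neg_sq] at this
    linarith
  have hD2 : 1 - s - s ^ 2 ≤ exp (-s) := by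
    have := h2.1
    rw [neg_sq] at this
    linarith
  have hs2 : s ^ 2 ≤ s := by nlinarith
  have hC : cosh s ≤ 2 := by
    rw [cosh_eq]
    linarith
  have hS : sinh s ≤ s + s ^ 2 := by
    rw [sinh_eq]
    linarith
  have hS0 : 0 ≤ sinh s := sinh_nonneg_iff.2 hs
  have hC1 : 1 + s ^ 2 / 2 ≤ cosh s := by
    have h3 : s / 2 ≤ sinh (s / 2) := self_le_sinh_iff.2 (by linarith)
    have h4 : cosh s = 1 + 2 * sinh (s / 2) ^ 2 := by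
      have h5 := cosh_two_mul (s / 2)
      have h6 := cosh_sq (s / 2)
      have h7 : 2 * (s / 2) = s := by ring
      rw [h7] at h5
      linarith
    have h5 : (s / 2) ^ 2 ≤ sinh (s / 2) ^ 2 := by gcongr
    rw [h4]
    nlinarith
  have hSS : sinh s ^ 2 ≤ (s + s ^ 2) ^ 2 := by gcongr
  have hP : 2 * exp s * sinh s ^ 2 ≤ 2 * (1 + s + s ^ 2) * (s + s ^ 2) ^ 2 := by gcongr
  have hQ : 2 * (1 + s + s ^ 2) * (s + s ^ 2) ^ 2 ≤ 2 * s ^ 2 + 22 * s ^ 3 := by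
    have h3 : 0 ≤ s ^ 3 := by positivity
    have h4 : s ^ 4 ≤ s ^ 3 := by nlinarith [mul_nonneg h3 (sub_nonneg.2 hs1)]
    have h5 : s ^ 5 ≤ s ^ 3 := by nlinarith [mul_nonneg h3 (sub_nonneg.2 hs1), mul_nonneg (mul_nonneg h3 hs) (sub_nonneg.2 hs1)]
    have h6 : s ^ 6 ≤ s ^ 3 := by
      nlinarith [mul_nonneg h3 (sub_nonneg.2 hs1), mul_nonneg (mul_nonneg h3 hs) (sub_nonneg.2 hs1),
        mul_nonneg (mul_nonneg (mul_nonneg h3 hs) hs) (sub_nonneg.2 hs1)]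
    nlinarith
  have hs3 : 0 ≤ s ^ 3 := by positivity
  refine ⟨by linarith, ?_, hC, by linarith⟩
  have h3 : 0 ≤ 2 * exp s * sinh s ^ 2 := by positivity
  linarith

end H84NS
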