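import Pool.Agent.H84.NS.Fb
import Pool.Agent.H84.NS.La
import Pool.Agent.H46.XB.Va
import Pool.Agent.H46.XB.Vc

set_option autoImplicit false

/-!
# Row Fc: energy bookkeeping: from int Yd >= 0 to the sum of the four energies

th = s^3.  int_U Yd = sum_k int ek (v k) - coef int e2 g - 2 cosh s sum_k int Bd k (all terms integrable: clx_int, clx_e2 of row Xg, for g, v k, m k := ip gm g (v k) (fun _ => s^3); m k in Cl0 by cl0_const, row Va).
int ek (v k) = Ex (tx k) (ty k) (v k) (ex_four), int e2 f = Ex x y f.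
int Bd k = (Ex x y (m k) - Ex x y g)/(2 s^3) - s^3 (Ex x y (v k) + Ex x y g) >= -s^3/2 - s^3 (Ex x y (v k) + Ex x y g), because Ex x y (m k) >= E0 (E0_le, row Vc) >= Ex x y g - s^6 (hg).
0 <= int Yd and cosh s <= 2 (alg_coef), Ex >= 0:  sum_k Ex (tx k) (ty k) (v k) >= coef Ex x y g + 2 cosh s sum int Bd k >= coef Ex x y g - 4 s^3 sum_k (1 + Ex x y (v k) + Ex x y g).
-/

namespace H84NS

open H50NA H98NX MeasureTheory Set Filter Topology
open H80HM (D U P f1 f2)

variable {X : Type} [MetricSpace X] {gm : X → X → ℝ → X} {A B C : X ≃ᵢ X}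

theorem Fc_ek (hX : Npc X gm) {f : ℝ × ℝ → X} (hf : Clx A B C f) (x y s : ℝ) (k : Fin 4) :
    IntegrableOn (ek x y s k f) U :=
  ((clx_int hX hf (fe x y (thk k))).const_mul (Real.exp s)).add
    ((clx_int hX hf (ff x y (thk k))).const_mul (Real.exp (-s)))

theorem Fc_bd (hX : Npc X gm) {f m v : ℝ × ℝ → X} (hf : Clx A B C f) (hm : Clx A B C m) (hv : Clx A B C v)
    (x y th : ℝ) : IntegrableOn (fun z => (e2 x y m z - e2 x y f z) / (2 * th) - th * (e2 x y v z + e2 x y f z)) U ∧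
      ∫ z in U, ((e2 x y m z - e2 x y f z) / (2 * th) - th * (e2 x y v z + e2 x y f z)) =
        (Ex x y m - Ex x y f) / (2 * th) - th * (Ex x y v + Ex x y f) := by
  have h1 := clx_e2 hX hf x y
  have h2 := clx_e2 hX hm x y
  have h3 := clx_e2 hX hv x y
  have h4 : IntegrableOn (fun z => (e2 x y m z - e2 x y f z) / (2 * th)) U := (h2.sub h1).div_const _
  have h5 : IntegrableOn (fun z => th * (e2 x y v z + e2 x y f z)) U := (h3.add h1).const_mul _
  refine ⟨h4.sub h5, ?_⟩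
  rw [integral_sub h4 h5, integral_div, integral_const_mul, integral_sub h2 h1, integral_add h3 h1, ex_eq, ex_eq,
    ex_eq]

theorem y_sum (hX : Npc X gm) {g : ℝ × ℝ → X} {v : Fin 4 → ℝ × ℝ → X} {r s : ℝ} {o : X} (x : ℝ) {y : ℝ} (hy : 0 < y)
    (hs : 0 < s) (hs1 : s ≤ 1) (hg : Nr A B C r o x y (s ^ 6) g) (hv : ∀ k, Cl0 A B C r o (v k))
    (hI : IntegrableOn (Yd gm x y s (s ^ 3) g v) U) (hY : 0 ≤ ∫ z in U, Yd gm x y s (s ^ 3) g v z) :
    (4 * Real.cosh s - 2 * Real.exp s * Real.sinh s ^ 2) * Ex x y g -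
        4 * s ^ 3 * ∑ k, (1 + Ex x y (v k) + Ex x y g) ≤ ∑ k, Ex (tx x y s k) (ty y s k) (v k) := by
  obtain ⟨hg0, hgE⟩ := hg
  have hs3 : 0 < s ^ 3 := by positivity
  have hs31 : s ^ 3 ≤ 1 := pow_le_one₀ hs.le hs1
  have hm : ∀ k, Cl0 A B C r o (ip gm g (v k) (fun _ => s ^ 3)) := fun k => H46XB.cl0_const hX hs3.le hs31 hg0 (hv k)
  have hbd := fun k => Fc_bd hX hg0.cl (hm k).cl (hv k).cl x y (s ^ 3)
  have hek : ∀ k, IntegrableOn (ek x y s k (v k)) U := fun k => Fc_ek hX (hv k).cl x y s k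
  have hbi : ∀ k, IntegrableOn (Bd gm x y (s ^ 3) g (v k)) U := fun k => (hbd k).1
  have he2 := clx_e2 hX hg0.cl x y
  have hBk : ∀ k, -(s ^ 3 * (1 + Ex x y (v k) + Ex x y g)) ≤ ∫ z in U, Bd gm x y (s ^ 3) g (v k) z := by
    intro k
    have h1 : ∫ z in U, Bd gm x y (s ^ 3) g (v k) z = _ := (hbd k).2
    rw [h1]
    have h2 := H46XB.E0_le (hm k) x y
    have h3 : -(s ^ 6) ≤ Ex x y (ip gm g (v k) (fun _ => s ^ 3)) - Ex x y g := by linarith
    have h4 : -(s ^ 3 / 2) ≤ (Ex x y (ip gm g (v k) (fun _ => s ^ 3)) - Ex x y g) / (2 * s ^ 3) := by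
      rw [le_div_iff₀ (by positivity)]
      have h5 : -(s ^ 3 / 2) * (2 * s ^ 3) = -(s ^ 6) := by ring
      rw [h5]
      exact h3
    nlinarith
  have hsum : ∫ z in U, Yd gm x y s (s ^ 3) g v z = ∑ k, Ex (tx x y s k) (ty y s k) (v k) -
      (4 * Real.cosh s - 2 * Real.exp s * Real.sinh s ^ 2) * Ex x y g -
      2 * Real.cosh s * ∑ k, ∫ z in U, Bd gm x y (s ^ 3) g (v k) z := by
    have h1 : IntegrableOn (fun z => ∑ k, ek x y s k (v k) z) U := integrable_finsetSum _ fun k _ => hek k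
    have h2 : IntegrableOn (fun z => (4 * Real.cosh s - 2 * Real.exp s * Real.sinh s ^ 2) * e2 x y g z) U :=
      he2.const_mul _
    have h3 : IntegrableOn (fun z => ∑ k, Bd gm x y (s ^ 3) g (v k) z) U :=
      integrable_finsetSum _ fun k _ => hbi k
    have h4 : IntegrableOn (fun z => 2 * Real.cosh s * ∑ k, Bd gm x y (s ^ 3) g (v k) z) U := h3.const_mul _
    have h5 : IntegrableOn (fun z => ∑ k, ek x y s k (v k) z -
        (4 * Real.cosh s - 2 * Real.exp s * Real.sinh s ^ 2) * e2 x y g z) U := h1.sub h2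
    unfold Yd
    rw [integral_sub h5 h4, integral_sub h1 h2, integral_const_mul, integral_const_mul,
      integral_finsetSum _ fun k _ => hek k, integral_finsetSum _ fun k _ => hbi k, ex_eq x y g]
    congr 2
    apply Finset.sum_congr rfl
    intro k _
    exact (ex_four hX (hv k).cl x hy s k).symm
  rw [hsum] at hY
  have hc := alg_coef hs.le hs1
  have hc0 : 0 < Real.cosh s := Real.cosh_pos s
  have hB : -(s ^ 3 * ∑ k, (1 + Ex x y (v k) + Ex x y g)) ≤ ∑ k, ∫ z in U, Bd gm x y (s ^ 3) g (v k) z := by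
    rw [Finset.mul_sum, ← Finset.sum_neg_distrib]
    exact Finset.sum_le_sum fun k _ => hBk k
  have hS : 0 ≤ ∑ k, (1 + Ex x y (v k) + Ex x y g) := by
    apply Finset.sum_nonneg
    intro k _
    have h1 := ex_nonneg x y (v k)
    have h2 := ex_nonneg x y g
    linarith
  have h1 : 2 * Real.cosh s * -(s ^ 3 * ∑ k, (1 + Ex x y (v k) + Ex x y g)) ≤
      2 * Real.cosh s * ∑ k, ∫ z in U, Bd gm x y (s ^ 3) g (v k) z :=
    mul_le_mul_of_nonneg_left hB (by positivity)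
  have h2 : 2 * Real.cosh s * (s ^ 3 * ∑ k, (1 + Ex x y (v k) + Ex x y g)) ≤
      4 * (s ^ 3 * ∑ k, (1 + Ex x y (v k) + Ex x y g)) :=
    mul_le_mul_of_nonneg_right (by linarith [hc.2.2.1]) (by positivity)
  linarith

end H84NS
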