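import Pool.Agent.H84.NS.Df
import Pool.Agent.H84.NS.La
import Pool.Agent.H46.XB.Vf

set_option autoImplicit false

/-!
# Row Ib: comparison of the energies of near-minimisers at different parameters

fe = fe x y th, ff = ff x y th.  Ex x y f = int_U (sp f fe^2 + sp f ff^2) (ex_frame, row Vb; Clx.lip restricted to U), all sp f t^2 are integrable on U (sp_all_int, row Vb).
c_diff: pointwise, with a = sp f fe, b = sp f ff, a' = sp g fe, b' = sp g ff >= 0: |(a^2 - b^2) - (a'^2 - b'^2)| <= |a-a'|(a+a') + |b-b'|(b+b') <= sqrt((a-a')^2+(b-b')^2) sqrt((a+a')^2+(b+b')^2) and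
  (a+a')^2+(b+b')^2 <= 2(a^2+b^2+a'^2+b'^2) = 2 (e2 f + e2 g) a.e. (e2_frame, row Vb). Integrate over S, Cauchy-Schwarz.
en_le: pointwise a^2+b^2 <= 2(a'^2+b'^2) + 2((a-a')^2+(b-b')^2), integrate, e2_frame.
near_en: M0 := E0 A B C r o x0 y0 >= 0. c f := int_U (sp f fe^2 - sp f ff^2). hk and ex_frame: Ex x1 y1 f = cosh s Ex x0 y0 f + sinh s c f (e^s = cosh + sinh, e^-s = cosh - sinh) for f in Clx; |c f| <= Ex x0 y0 f, so
  e^-s Ex x0 y0 f <= Ex x1 y1 f <= e^s Ex x0 y0 f.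
  Ex x1 y1 h <= E0 x1 y1 + ep <= Ex x1 y1 g + ep (g in Cl0). So e^-s E_0(h) <= e^s E_0(g) + 1, E_0(h) <= e^2 (M0 + 1) + e <= 11 (M0+1) (E_0(g) <= M0 + ep <= M0 + 1).
  cosh s (E_0(h) - E_0(g)) <= sinh s (c g - c h) + ep; by c_diff (S = U) and near_two_sp (row Vf): |c g - c h| <= sqrt(150 (M0+1) s^2) sqrt(2 * 12 (M0+1)) = 60 (M0+1) s.
  sinh s <= 2 s, cosh s >= 1, ep <= s^2:  E_0(h) <= M0 + s^2 + 120 (M0+1) s^2 + s^2 <= M0 + 200 (M0+1) s^2.
-/

namespace H84NS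

open H50NA H98NX MeasureTheory Set Filter Topology
open H80HM (D U P f1 f2)

variable {X : Type} [MetricSpace X] {gm : X → X → ℝ → X} {A B C : X ≃ᵢ X}

private theorem Ib_lpo {f : ℝ × ℝ → X} (hf : Clx A B C f) : Lpo f U := lpo_mono H46XB.U_sub hf.lip

private theorem Ib_sq (hX : Npc X gm) {f : ℝ × ℝ → X} (hf : Clx A B C f) (t : ℝ × ℝ) :
    IntegrableOn (fun z => sp f t z ^ 2) U := H46XB.sp_all_int hX (Ib_lpo hf) hf.fin t

private theorem Ib_meas {f : ℝ × ℝ → X} (hf : Clx A B C f) (t : ℝ × ℝ) :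
    AEStronglyMeasurable (sp f t) (volume.restrict U) := by
  have hm : Measurable (U.indicator (sp f t)) :=
    sp_meas H46XB.Vb_open (lpo_cont H46XB.Vb_open (Ib_lpo hf)) t
  refine hm.aestronglyMeasurable.congr ?_
  filter_upwards [ae_restrict_mem H46XB.Vb_open.measurableSet] with z hz
  rw [indicator_of_mem hz]

private theorem Ib_df (hX : Npc X gm) {f g : ℝ × ℝ → X} (hf : Clx A B C f) (hg : Clx A B C g) (t : ℝ × ℝ) :
    IntegrableOn (fun z => (sp f t z - sp g t z) ^ 2) U := by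
  refine Integrable.mono' (((Ib_sq hX hf t).const_mul 2).add ((Ib_sq hX hg t).const_mul 2))
    (((Ib_meas hf t).sub (Ib_meas hg t)).pow 2) ?_
  refine Eventually.of_forall fun z => ?_
  rw [Real.norm_of_nonneg (sq_nonneg _)]
  change (sp f t z - sp g t z) ^ 2 ≤ 2 * sp f t z ^ 2 + 2 * sp g t z ^ 2
  nlinarith [sq_nonneg (sp f t z + sp g t z)]

private theorem Ib_opt {X0 P Q : ℝ} (hP : 0 ≤ P) (hQ : 0 ≤ Q)
    (h : ∀ l : ℝ, 0 < l → X0 ≤ l / 2 * P + 1 / (2 * l) * Q) : X0 ≤ Real.sqrt P * Real.sqrt Q := by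
  obtain ⟨p, hp0, hp⟩ : ∃ p : ℝ, 0 ≤ p ∧ P = p ^ 2 := ⟨Real.sqrt P, Real.sqrt_nonneg _, (Real.sq_sqrt hP).symm⟩
  obtain ⟨q, hq0, hq⟩ : ∃ q : ℝ, 0 ≤ q ∧ Q = q ^ 2 := ⟨Real.sqrt Q, Real.sqrt_nonneg _, (Real.sq_sqrt hQ).symm⟩
  rw [hp, hq, Real.sqrt_sq hp0, Real.sqrt_sq hq0]
  rw [hp, hq] at h
  refine le_of_forall_pos_le_add fun ε hε => ?_
  obtain ⟨d, hd0, hd⟩ : ∃ d : ℝ, 0 < d ∧ d * (p + q) ≤ 2 * ε := by
    refine ⟨2 * ε / (p + q + 1), by positivity, ?_⟩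
    rw [div_mul_eq_mul_div, div_le_iff₀ (by positivity)]
    nlinarith
  have hp1 : 0 < p + d := by positivity
  have hq1 : 0 < q + d := by positivity
  have h1 := h ((q + d) / (p + d)) (by positivity)
  have e1 : (q + d) / (p + d) / 2 * p ^ 2 ≤ (q + d) * p / 2 := by
    rw [div_div, div_mul_eq_mul_div, div_le_div_iff₀ (by positivity) (by positivity)]
    have : 0 ≤ (q + d) * p * d := by positivity
    nlinarith
  have e2 : 1 / (2 * ((q + d) / (p + d))) * q ^ 2 ≤ (p + d) * q / 2 := by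
    rw [mul_div_assoc', one_div_div, div_mul_eq_mul_div, div_le_div_iff₀ (by positivity) (by positivity)]
    have : 0 ≤ (p + d) * q * d := by positivity
    nlinarith
  nlinarith

theorem c_diff (hX : Npc X gm) {f g : ℝ × ℝ → X} (hf : Clx A B C f) (hg : Clx A B C g) {S : Set (ℝ × ℝ)}
    (hS : MeasurableSet S) (hSU : S ⊆ U) (x th : ℝ) {y : ℝ} (hy : 0 < y) :
    |(∫ z in S, (sp f (fe x y th) z ^ 2 - sp f (ff x y th) z ^ 2)) -
        ∫ z in S, (sp g (fe x y th) z ^ 2 - sp g (ff x y th) z ^ 2)| ≤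
      Real.sqrt (∫ z in S, ((sp f (fe x y th) z - sp g (fe x y th) z) ^ 2 +
        (sp f (ff x y th) z - sp g (ff x y th) z) ^ 2)) *
      Real.sqrt (2 * ((∫ z in S, e2 x y f z) + ∫ z in S, e2 x y g z)) := by
  have hfU := Ib_lpo hf
  have hgU := Ib_lpo hg
  have hle : (volume : Measure (ℝ × ℝ)).restrict S ≤ volume.restrict U := Measure.restrict_mono hSU le_rfl
  have i1 := (Ib_sq hX hf (fe x y th)).mono_set hSU
  have i2 := (Ib_sq hX hf (ff x y th)).mono_set hSU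
  have i3 := (Ib_sq hX hg (fe x y th)).mono_set hSU
  have i4 := (Ib_sq hX hg (ff x y th)).mono_set hSU
  have i5 := (Ib_df hX hf hg (fe x y th)).mono_set hSU
  have i6 := (Ib_df hX hf hg (ff x y th)).mono_set hSU
  have i7 := (H46XB.e2_int hX hfU hf.fin x y).mono_set hSU
  have i8 := (H46XB.e2_int hX hgU hg.fin x y).mono_set hSU
  have hD : IntegrableOn (fun z => (sp f (fe x y th) z - sp g (fe x y th) z) ^ 2 +
      (sp f (ff x y th) z - sp g (ff x y th) z) ^ 2) S := i5.add i6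
  have hFm : IntegrableOn (fun z => (sp f (fe x y th) z ^ 2 - sp f (ff x y th) z ^ 2) -
      (sp g (fe x y th) z ^ 2 - sp g (ff x y th) z ^ 2)) S := (i1.sub i2).sub (i3.sub i4)
  have j1 : IntegrableOn (fun z => sp f (fe x y th) z ^ 2 - sp f (ff x y th) z ^ 2) S := i1.sub i2
  have j2 : IntegrableOn (fun z => sp g (fe x y th) z ^ 2 - sp g (ff x y th) z ^ 2) S := i3.sub i4
  have hEe : IntegrableOn (fun z => e2 x y f z + e2 x y g z) S := i7.add i8
  have hP : 0 ≤ ∫ z in S, ((sp f (fe x y th) z - sp g (fe x y th) z) ^ 2 +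
      (sp f (ff x y th) z - sp g (ff x y th) z) ^ 2) :=
    integral_nonneg fun z => add_nonneg (sq_nonneg _) (sq_nonneg _)
  have hQ1 : 0 ≤ ∫ z in S, e2 x y f z := integral_nonneg fun z => add_nonneg (sq_nonneg _) (sq_nonneg _)
  have hQ2 : 0 ≤ ∫ z in S, e2 x y g z := integral_nonneg fun z => add_nonneg (sq_nonneg _) (sq_nonneg _)
  refine Ib_opt hP (by positivity) fun l hl => ?_
  rw [← integral_sub j1 j2]
  refine (abs_integral_le_integral_abs).trans ?_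
  have hR : IntegrableOn (fun z => l / 2 * ((sp f (fe x y th) z - sp g (fe x y th) z) ^ 2 +
      (sp f (ff x y th) z - sp g (ff x y th) z) ^ 2) + 1 / (2 * l) * (2 * (e2 x y f z + e2 x y g z))) S :=
    (hD.const_mul _).add ((hEe.const_mul 2).const_mul _)
  have hEe2 : IntegrableOn (fun z => 1 / (2 * l) * (2 * (e2 x y f z + e2 x y g z))) S :=
    (hEe.const_mul 2).const_mul _
  have h1 : ∫ z in S, |sp f (fe x y th) z ^ 2 - sp f (ff x y th) z ^ 2 -
      (sp g (fe x y th) z ^ 2 - sp g (ff x y th) z ^ 2)| ≤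
      ∫ z in S, (l / 2 * ((sp f (fe x y th) z - sp g (fe x y th) z) ^ 2 +
      (sp f (ff x y th) z - sp g (ff x y th) z) ^ 2) + 1 / (2 * l) * (2 * (e2 x y f z + e2 x y g z))) := by
    refine setIntegral_mono_on_ae hFm.abs hR hS ?_
    filter_upwards [H46XB.e2_frame hX hfU x y th, H46XB.e2_frame hX hgU x y th] with z h1 h2 hz
    rw [← h1 (hSU hz), ← h2 (hSU hz)]
    generalize sp f (fe x y th) z = a
    generalize sp f (ff x y th) z = b
    generalize sp g (fe x y th) z = a'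
    generalize sp g (ff x y th) z = b'
    have hl2 : 0 < 2 * l := by positivity
    have key : ∀ σ : ℝ, σ ^ 2 = 1 → σ * (a ^ 2 - b ^ 2 - (a' ^ 2 - b' ^ 2)) ≤
        l / 2 * ((a - a') ^ 2 + (b - b') ^ 2) + 1 / (2 * l) * (2 * (a ^ 2 + b ^ 2 + (a' ^ 2 + b' ^ 2))) := by
      intro σ hσ
      have e : l / 2 * ((a - a') ^ 2 + (b - b') ^ 2) + 1 / (2 * l) * (2 * (a ^ 2 + b ^ 2 + (a' ^ 2 + b' ^ 2))) -
          σ * (a ^ 2 - b ^ 2 - (a' ^ 2 - b' ^ 2)) =
          1 / (2 * l) * ((l * (a - a') - σ * (a + a')) ^ 2 + (l * (b - b') + σ * (b + b')) ^ 2 +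
            (a - a') ^ 2 + (b - b') ^ 2) := by
        have hl0 : l ≠ 0 := hl.ne'
        field_simp
        linear_combination (-(a + a') ^ 2 - (b + b') ^ 2) * hσ
      have e2 : 0 ≤ 1 / (2 * l) * ((l * (a - a') - σ * (a + a')) ^ 2 + (l * (b - b') + σ * (b + b')) ^ 2 +
            (a - a') ^ 2 + (b - b') ^ 2) := by positivity
      linarith
    rw [abs_le]
    constructor
    · have := key (-1) (by norm_num)
      linarith
    · have := key 1 (by norm_num)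
      linarith
  refine h1.trans (le_of_eq ?_)
  rw [integral_add (hD.const_mul _) hEe2, integral_const_mul, integral_const_mul, integral_const_mul,
    integral_add i7 i8]

theorem en_le (hX : Npc X gm) {f g : ℝ × ℝ → X} (hf : Clx A B C f) (hg : Clx A B C g) {S : Set (ℝ × ℝ)}
    (hS : MeasurableSet S) (hSU : S ⊆ U) (x th : ℝ) {y : ℝ} (hy : 0 < y) :
    ∫ z in S, e2 x y f z ≤ 2 * (∫ z in S, e2 x y g z) +
      2 * ∫ z in U, ((sp f (fe x y th) z - sp g (fe x y th) z) ^ 2 +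
        (sp f (ff x y th) z - sp g (ff x y th) z) ^ 2) := by
  have hfU := Ib_lpo hf
  have hgU := Ib_lpo hg
  have i5 := Ib_df hX hf hg (fe x y th)
  have i6 := Ib_df hX hf hg (ff x y th)
  have i7 := (H46XB.e2_int hX hfU hf.fin x y).mono_set hSU
  have i8 := (H46XB.e2_int hX hgU hg.fin x y).mono_set hSU
  have hD : IntegrableOn (fun z => (sp f (fe x y th) z - sp g (fe x y th) z) ^ 2 +
      (sp f (ff x y th) z - sp g (ff x y th) z) ^ 2) U := i5.add i6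
  have hDS := hD.mono_set hSU
  have h1 : ∫ z in S, e2 x y f z ≤ ∫ z in S, (2 * e2 x y g z + 2 * ((sp f (fe x y th) z - sp g (fe x y th) z) ^ 2 +
      (sp f (ff x y th) z - sp g (ff x y th) z) ^ 2)) := by
    refine setIntegral_mono_on_ae i7 ((i8.const_mul 2).add (hDS.const_mul 2)) hS ?_
    filter_upwards [H46XB.e2_frame hX hfU x y th, H46XB.e2_frame hX hgU x y th] with z h1 h2 hz
    rw [← h1 (hSU hz), ← h2 (hSU hz)]
    generalize sp f (fe x y th) z = a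
    generalize sp f (ff x y th) z = b
    generalize sp g (fe x y th) z = a'
    generalize sp g (ff x y th) z = b'
    nlinarith [sq_nonneg (a - 2 * a'), sq_nonneg (b - 2 * b')]
  rw [integral_add (i8.const_mul 2) (hDS.const_mul 2), integral_const_mul, integral_const_mul] at h1
  have h2 : ∫ z in S, ((sp f (fe x y th) z - sp g (fe x y th) z) ^ 2 +
      (sp f (ff x y th) z - sp g (ff x y th) z) ^ 2) ≤ ∫ z in U, ((sp f (fe x y th) z - sp g (fe x y th) z) ^ 2 +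
      (sp f (ff x y th) z - sp g (ff x y th) z) ^ 2) :=
    setIntegral_mono_set hD (Eventually.of_forall fun z => add_nonneg (sq_nonneg _) (sq_nonneg _))
      (LE.le.eventuallyLE hSU)
  linarith

theorem near_en (hX : Npc X gm) {g h : ℝ × ℝ → X} {r ep s : ℝ} {o : X} {x0 y0 x1 y1 th : ℝ} (hy : 0 < y0)
    (hs0 : 0 ≤ s) (hs1 : s ≤ 1) (hep : ep ≤ s ^ 2) (hep1 : ep ≤ 1)
    (hk : ∀ h : ℝ × ℝ → X, Clx A B C h → Ex x1 y1 h =
      ∫ z in U, (Real.exp s * sp h (fe x0 y0 th) z ^ 2 + Real.exp (-s) * sp h (ff x0 y0 th) z ^ 2))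
    (hg : Nr A B C r o x0 y0 ep g) (hh : Nr A B C r o x1 y1 ep h) :
    Ex x0 y0 h ≤ E0 A B C r o x0 y0 + 200 * (E0 A B C r o x0 y0 + 1) * s ^ 2 ∧
      (∀ f : ℝ × ℝ → X, Clx A B C f → Ex x1 y1 f = Real.cosh s * Ex x0 y0 f +
        Real.sinh s * ∫ z in U, (sp f (fe x0 y0 th) z ^ 2 - sp f (ff x0 y0 th) z ^ 2)) ∧
      ∀ f : ℝ × ℝ → X, Clx A B C f → Real.exp (-s) * Ex x0 y0 f ≤ Ex x1 y1 f ∧ Ex x1 y1 f ≤ Real.exp s * Ex x0 y0 f := by
  have hgC := hg.1.cl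
  have hhC := hh.1.cl
  have hE := H46XB.E0_nonneg (A := A) (B := B) (C := C) r o x0 y0
  have e1 : Real.exp s = Real.cosh s + Real.sinh s := (Real.cosh_add_sinh s).symm
  have e2' : Real.exp (-s) = Real.cosh s - Real.sinh s := (Real.cosh_sub_sinh s).symm
  have c2 : ∀ f : ℝ × ℝ → X, Clx A B C f → Ex x1 y1 f = Real.cosh s * Ex x0 y0 f +
        Real.sinh s * ∫ z in U, (sp f (fe x0 y0 th) z ^ 2 - sp f (ff x0 y0 th) z ^ 2) := by
    intro f hf
    have i1 := Ib_sq hX hf (fe x0 y0 th)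
    have i2 := Ib_sq hX hf (ff x0 y0 th)
    rw [hk f hf, H46XB.ex_frame hX (Ib_lpo hf) x0 y0 th, integral_add i1 i2, integral_sub i1 i2,
      integral_add (i1.const_mul _) (i2.const_mul _), integral_const_mul, integral_const_mul, e1, e2']
    ring
  have c3 : ∀ f : ℝ × ℝ → X, Clx A B C f →
      Real.exp (-s) * Ex x0 y0 f ≤ Ex x1 y1 f ∧ Ex x1 y1 f ≤ Real.exp s * Ex x0 y0 f := by
    intro f hf
    have i1 := Ib_sq hX hf (fe x0 y0 th)
    have i2 := Ib_sq hX hf (ff x0 y0 th)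
    rw [hk f hf, H46XB.ex_frame hX (Ib_lpo hf) x0 y0 th, integral_add i1 i2,
      integral_add (i1.const_mul _) (i2.const_mul _), integral_const_mul, integral_const_mul]
    have a1 : 0 ≤ ∫ z in U, sp f (fe x0 y0 th) z ^ 2 := integral_nonneg fun z => sq_nonneg _
    have a2 : 0 ≤ ∫ z in U, sp f (ff x0 y0 th) z ^ 2 := integral_nonneg fun z => sq_nonneg _
    have a3 : Real.exp (-s) ≤ Real.exp s := Real.exp_le_exp.2 (by linarith)
    have a4 := mul_le_mul_of_nonneg_right a3 a1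
    have a5 := mul_le_mul_of_nonneg_right a3 a2
    constructor <;> linarith
  refine ⟨?_, c2, c3⟩
  have hN := H46XB.near_two_sp hX hs0 hs1 hep hep1 hk hg hh th
  have hcd := c_diff hX hgC hhC H46XB.Vb_open.measurableSet (Subset.refl U) x0 th hy
  have eg : ∫ z in U, e2 x0 y0 g z = Ex x0 y0 g := rfl
  have eh : ∫ z in U, e2 x0 y0 h z = Ex x0 y0 h := rfl
  rw [eg, eh] at hcd
  have g2 := c2 g hgC
  have h2 := c2 h hhC
  have g3 := c3 g hgC
  have h3 := c3 h hhC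
  have hmin : Ex x1 y1 h ≤ Ex x1 y1 g + ep := by
    have t1 := H46XB.E0_le hg.1 x1 y1
    have t2 := hh.2
    linarith
  have hgb : Ex x0 y0 g ≤ E0 A B C r o x0 y0 + ep := hg.2
  have hg0 : 0 ≤ Ex x0 y0 g := ex_nonneg x0 y0 g
  have hh0 : 0 ≤ Ex x0 y0 h := ex_nonneg x0 y0 h
  obtain ⟨M, hM⟩ : ∃ M, M = E0 A B C r o x0 y0 := ⟨_, rfl⟩
  rw [← hM] at hE hN hgb ⊢
  obtain ⟨G, hG⟩ : ∃ G, G = Ex x0 y0 g := ⟨_, rfl⟩
  obtain ⟨H, hH⟩ : ∃ H, H = Ex x0 y0 h := ⟨_, rfl⟩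
  rw [← hG] at hcd g2 g3 hgb hg0
  rw [← hH] at hcd h2 h3 hh0 ⊢
  obtain ⟨cg, hcg⟩ : ∃ c, c = ∫ z in U, (sp g (fe x0 y0 th) z ^ 2 - sp g (ff x0 y0 th) z ^ 2) := ⟨_, rfl⟩
  obtain ⟨ch, hch⟩ : ∃ c, c = ∫ z in U, (sp h (fe x0 y0 th) z ^ 2 - sp h (ff x0 y0 th) z ^ 2) := ⟨_, rfl⟩
  rw [← hcg] at hcd g2
  rw [← hch] at hcd h2
  -- bound of H
  have he1 : Real.exp s ≤ Real.exp 1 := Real.exp_le_exp.2 hs1
  have he2 : Real.exp 1 < 2.7182818286 := Real.exp_one_lt_d9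
  have he3 : 1 ≤ Real.exp s := Real.one_le_exp hs0
  have he6 : Real.exp s * Real.exp (-s) = 1 := by rw [← Real.exp_add, add_neg_cancel, Real.exp_zero]
  have hHb : H ≤ 11 * (M + 1) := by
    obtain ⟨a, ha⟩ : ∃ a, a = Real.exp s := ⟨_, rfl⟩
    obtain ⟨b, hb⟩ : ∃ b, b = Real.exp (-s) := ⟨_, rfl⟩
    rw [← ha] at he1 he3 he6 g3 h3
    rw [← hb] at he6 g3 h3
    have ha3 : a ≤ 2.72 := by linarith
    have t1 : b * H ≤ a * G + 1 := by linarith [h3.1, g3.2]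
    have t2 : H = a * (b * H) := by rw [← mul_assoc, he6, one_mul]
    have t3 : a * (b * H) ≤ a * (a * G + 1) := mul_le_mul_of_nonneg_left t1 (by linarith)
    have t4 : a * G ≤ 2.72 * (M + 1) := mul_le_mul ha3 (by linarith) hg0 (by norm_num)
    have t5 : a * (a * G + 1) ≤ 2.72 * (2.72 * (M + 1) + 1) :=
      mul_le_mul ha3 (by linarith) (by positivity) (by norm_num)
    linarith
  have hs : Real.sqrt (∫ z in U, ((sp g (fe x0 y0 th) z - sp h (fe x0 y0 th) z) ^ 2 +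
        (sp g (ff x0 y0 th) z - sp h (ff x0 y0 th) z) ^ 2)) *
      Real.sqrt (2 * (G + H)) ≤ 60 * (M + 1) * s := by
    calc _ ≤ Real.sqrt (150 * (M + 1) * s ^ 2) * Real.sqrt (24 * (M + 1)) := by
          exact mul_le_mul (Real.sqrt_le_sqrt hN) (Real.sqrt_le_sqrt (by linarith))
            (Real.sqrt_nonneg _) (Real.sqrt_nonneg _)
      _ = Real.sqrt ((60 * (M + 1) * s) ^ 2) := by
          rw [← Real.sqrt_mul (by positivity)]
          congr 1
          ring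
      _ = 60 * (M + 1) * s := Real.sqrt_sq (by positivity)
  have hd := (abs_le.1 (hcd.trans hs)).2
  obtain ⟨-, -, -, hsh⟩ := alg_coef hs0 hs1
  have hsh0 : 0 ≤ Real.sinh s := Real.sinh_nonneg_iff.2 hs0
  have hch1 : 1 ≤ Real.cosh s := Real.one_le_cosh s
  have hep0 : 0 ≤ ep := by
    have t1 := H46XB.E0_le hg.1 x0 y0
    rw [← hM, ← hG] at t1
    linarith
  have k1 : Real.cosh s * (H - G) ≤ Real.sinh s * (cg - ch) + ep := by
    rw [g2, h2] at hmin
    linarith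
  have k2 : Real.sinh s * (cg - ch) ≤ 2 * s * (60 * (M + 1) * s) := by
    calc Real.sinh s * (cg - ch) ≤ Real.sinh s * (60 * (M + 1) * s) := mul_le_mul_of_nonneg_left hd hsh0
      _ ≤ 2 * s * (60 * (M + 1) * s) := mul_le_mul_of_nonneg_right hsh (by positivity)
  have k3 : H - G ≤ 120 * (M + 1) * s ^ 2 + s ^ 2 := by
    rcases le_total (H - G) 0 with t | t
    · have : 0 ≤ 120 * (M + 1) * s ^ 2 + s ^ 2 := by positivity
      linarith
    · have : H - G ≤ Real.cosh s * (H - G) := le_mul_of_one_le_left t hch1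
      nlinarith
  have k4 : s ^ 2 ≤ (M + 1) * s ^ 2 := le_mul_of_one_le_left (sq_nonneg s) (by linarith)
  nlinarith

end H84NS
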