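import Pool.Agent.H84.NS.Ia
import Pool.Agent.H84.NS.Ib
import Pool.Agent.H98.NX.El

set_option autoImplicit false

/-!
# Row Ic: replacing the near-minimiser h at tau_k by the interpolation v = ip gm g h l costs little
-/

namespace H84NS

open H50NA H98NX MeasureTheory Set Filter Topology
open H80HM (D U P f1 f2)
open H46SB (gr)
open H46XB (kap kap')
open scoped NNReal

variable {X : Type} [MetricSpace X] {gm : X → X → ℝ → X}

theorem Ic_aes {f : ℝ × ℝ → X} {A B C : X ≃ᵢ X} (hf : Clx A B C f) (t : ℝ × ℝ) :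
    AEStronglyMeasurable (sp f t) (volume.restrict U) :=
  H46XB.Va_aes (lpo_mono H46XB.U_sub hf.lip) t

/-- the squared differences of the speeds are integrable, and their integral is bounded -/
theorem Ic_diff (hX : Npc X gm) {f g : ℝ × ℝ → X} {A B C : X ≃ᵢ X} (hf : Clx A B C f) (hg : Clx A B C g)
    (a b : ℝ × ℝ) :
    IntegrableOn (fun z => (sp f a z - sp g a z) ^ 2 + (sp f b z - sp g b z) ^ 2) U ∧
      ∫ z in U, ((sp f a z - sp g a z) ^ 2 + (sp f b z - sp g b z) ^ 2) ≤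
        ∫ z in U, (mt f g a z + mt f g b z) := by
  have i1 : IntegrableOn (fun z => mt f g a z + mt f g b z) U :=
    (H46XB.mt_int hX hf hg a).add (H46XB.mt_int hX hf hg b)
  have hle : ∀ z, (sp f a z - sp g a z) ^ 2 + (sp f b z - sp g b z) ^ 2 ≤
      mt f g a z + mt f g b z := fun z => add_le_add (le_max_left _ _) (le_max_left _ _)
  have i2 : IntegrableOn (fun z => (sp f a z - sp g a z) ^ 2 + (sp f b z - sp g b z) ^ 2) U := by
    refine Integrable.mono' i1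
      ((((Ic_aes hf a).sub (Ic_aes hg a)).pow 2).add (((Ic_aes hf b).sub (Ic_aes hg b)).pow 2)) ?_
    refine Eventually.of_forall fun z => ?_
    rw [Real.norm_of_nonneg (by positivity)]
    exact hle z
  exact ⟨i2, integral_mono i2 i1 hle⟩

/-- arithmetic for the third step -/
theorem Ic_ar3 {e K4 s a b c M1 : ℝ} (hs : 0 ≤ s) (he : 0 ≤ e) (hK4 : 0 ≤ K4)
    (hM1 : M1 ≤ 4 * (K4 * s ^ 2)) (ha : a ≤ 2 * e + 8 * (K4 * s ^ 2)) (hb : b ≤ 2 * e + 8 * (K4 * s ^ 2))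
    (hc : |c| ≤ Real.sqrt M1 * Real.sqrt (2 * (a + b))) :
    c ≤ (6 * Real.sqrt K4 + 12 * K4) * s * (Real.sqrt e + s) := by
  have h1 : Real.sqrt M1 ≤ 2 * (Real.sqrt K4 * s) := by
    apply Real.sqrt_le_iff.2
    refine ⟨by positivity, hM1.trans (le_of_eq ?_)⟩
    rw [mul_pow, mul_pow, Real.sq_sqrt hK4]
    ring
  have h2 : Real.sqrt (2 * (a + b)) ≤ 3 * Real.sqrt e + 6 * (Real.sqrt K4 * s) := by
    apply Real.sqrt_le_iff.2
    refine ⟨by positivity, ?_⟩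
    have e1 : Real.sqrt e ^ 2 = e := Real.sq_sqrt he
    have e2 : Real.sqrt K4 ^ 2 = K4 := Real.sq_sqrt hK4
    have e3 : (3 * Real.sqrt e + 6 * (Real.sqrt K4 * s)) ^ 2 =
      9 * e + 36 * (K4 * s ^ 2) + 36 * (Real.sqrt e * (Real.sqrt K4 * s)) := by
      calc (3 * Real.sqrt e + 6 * (Real.sqrt K4 * s)) ^ 2 =
            9 * Real.sqrt e ^ 2 + 36 * (Real.sqrt K4 ^ 2 * s ^ 2) +
              36 * (Real.sqrt e * (Real.sqrt K4 * s)) := by ring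
        _ = _ := by rw [e1, e2]
    rw [e3]
    have e4 : 0 ≤ Real.sqrt e * (Real.sqrt K4 * s) := by positivity
    have e5 : 0 ≤ K4 * s ^ 2 := by positivity
    linarith
  have h3 : c ≤ 2 * (Real.sqrt K4 * s) * (3 * Real.sqrt e + 6 * (Real.sqrt K4 * s)) :=
    (le_abs_self c).trans (hc.trans (mul_le_mul h1 h2 (Real.sqrt_nonneg _) (by positivity)))
  refine h3.trans ?_
  have e2 : Real.sqrt K4 ^ 2 = K4 := Real.sq_sqrt hK4
  have e6 : 2 * (Real.sqrt K4 * s) * (3 * Real.sqrt e + 6 * (Real.sqrt K4 * s)) =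
      6 * Real.sqrt K4 * s * Real.sqrt e + 12 * K4 * s * s := by
    calc 2 * (Real.sqrt K4 * s) * (3 * Real.sqrt e + 6 * (Real.sqrt K4 * s)) =
          6 * Real.sqrt K4 * s * Real.sqrt e + 12 * Real.sqrt K4 ^ 2 * s * s := by ring
      _ = _ := by rw [e2]
  rw [e6]
  have e7 : 0 ≤ 6 * Real.sqrt K4 * s * s := by positivity
  have e8 : 0 ≤ 12 * K4 * s * Real.sqrt e := by positivity
  have e9 : (6 * Real.sqrt K4 + 12 * K4) * s * (Real.sqrt e + s) =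
      6 * Real.sqrt K4 * s * Real.sqrt e + 12 * K4 * s * s + 6 * Real.sqrt K4 * s * s +
        12 * K4 * s * Real.sqrt e := by ring
  rw [e9]
  linarith

/-- arithmetic for the first step -/
theorem Ic_ar1 {e s K1 K2 kp a G : ℝ} (hs : 0 ≤ s) (he : 0 ≤ e) (he1 : e ≤ 1) (hK1 : 0 ≤ K1)
    (hK2 : 0 ≤ K2) (hkp : 0 ≤ kp) (ha : a ≤ e * (K1 * s ^ 2)) (hG : G ≤ K2 * s ^ 2) :
    kp * (2 * (Real.sqrt a * Real.sqrt G) + 2 * a) ≤
      kp * (2 * (Real.sqrt K1 * Real.sqrt K2) + 2 * K1) * (Real.sqrt e * s ^ 2) := by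
  have h1 : Real.sqrt a ≤ Real.sqrt e * (Real.sqrt K1 * s) := by
    apply Real.sqrt_le_iff.2
    refine ⟨by positivity, ha.trans (le_of_eq ?_)⟩
    rw [mul_pow, mul_pow, Real.sq_sqrt hK1, Real.sq_sqrt he]
  have h2 : Real.sqrt G ≤ Real.sqrt K2 * s := by
    apply Real.sqrt_le_iff.2
    refine ⟨by positivity, hG.trans (le_of_eq ?_)⟩
    rw [mul_pow, Real.sq_sqrt hK2]
  have h3 : Real.sqrt a * Real.sqrt G ≤ Real.sqrt e * (Real.sqrt K1 * s) * (Real.sqrt K2 * s) :=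
    mul_le_mul h1 h2 (Real.sqrt_nonneg _) (by positivity)
  have h4 : e ≤ Real.sqrt e := by
    apply Real.le_sqrt_of_sq_le
    nlinarith
  have h5 : a ≤ Real.sqrt e * (K1 * s ^ 2) :=
    ha.trans (mul_le_mul_of_nonneg_right h4 (by positivity))
  rw [mul_assoc]
  apply mul_le_mul_of_nonneg_left _ hkp
  have e1 : (2 * (Real.sqrt K1 * Real.sqrt K2) + 2 * K1) * (Real.sqrt e * s ^ 2) =
      2 * (Real.sqrt e * (Real.sqrt K1 * s) * (Real.sqrt K2 * s)) +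
        2 * (Real.sqrt e * (K1 * s ^ 2)) := by ring
  rw [e1]
  linarith

/-- arithmetic for the last step -/
theorem Ic_ar5 {e s K3 K6 dE dc ch sh : ℝ} (hs : 0 ≤ s) (hs1 : s ≤ 1) (hK3 : 0 ≤ K3)
    (hK6 : 0 ≤ K6) (h1 : dE ≤ s ^ 6 + K3 * (Real.sqrt e * s ^ 2))
    (h2 : dc ≤ K6 * s * (Real.sqrt e + s)) (hch : 0 ≤ ch) (hch2 : ch ≤ 2) (hsh : 0 ≤ sh)
    (hsh2 : sh ≤ 2 * s) :
    ch * dE + sh * dc ≤ (2 + 2 * K3 + 2 * K6) * (Real.sqrt e * s ^ 2 + s ^ 3) := by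
  have n1 : 0 ≤ s ^ 6 + K3 * (Real.sqrt e * s ^ 2) := by positivity
  have n2 : 0 ≤ K6 * s * (Real.sqrt e + s) := by positivity
  have h3 : ch * dE ≤ 2 * (s ^ 6 + K3 * (Real.sqrt e * s ^ 2)) :=
    (mul_le_mul_of_nonneg_left h1 hch).trans (mul_le_mul_of_nonneg_right hch2 n1)
  have h4 : sh * dc ≤ 2 * s * (K6 * s * (Real.sqrt e + s)) :=
    (mul_le_mul_of_nonneg_left h2 hsh).trans (mul_le_mul_of_nonneg_right hsh2 n2)
  have h5 : s ^ 6 ≤ s ^ 3 := pow_le_pow_of_le_one hs hs1 (by norm_num)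
  have e1 : (2 + 2 * K3 + 2 * K6) * (Real.sqrt e * s ^ 2 + s ^ 3) =
      2 * s ^ 3 + 2 * (Real.sqrt e * s ^ 2) + 2 * (K3 * (Real.sqrt e * s ^ 2)) + 2 * (K3 * s ^ 3) +
        2 * s * (K6 * s * (Real.sqrt e + s)) := by ring
  rw [e1]
  have n3 : 0 ≤ Real.sqrt e * s ^ 2 := by positivity
  have n4 : 0 ≤ K3 * s ^ 3 := by positivity
  linarith

theorem Ic_gr_nonneg {q : ℝ × ℝ → ℝ} (z : ℝ × ℝ) : 0 ≤ gr q z := H46SB.gr_nonneg q z

theorem interp (hX : Npc X gm) (A B C : X ≃ᵢ X) {r x0 y0 : ℝ} {o : X} (hr : 0 < r) (hr8 : r < 1 / 8) (hy : 0 < y0) :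
    ∃ Kc : ℝ, 0 ≤ Kc ∧ ∀ (g h : ℝ × ℝ → X) (l : ℝ × ℝ → ℝ) (x1 y1 th s e : ℝ), 0 < s → s ≤ 1 → 0 ≤ e → e ≤ 1 →
      (∀ h : ℝ × ℝ → X, Clx A B C h → Ex x1 y1 h =
        ∫ z in U, (Real.exp s * sp h (fe x0 y0 th) z ^ 2 + Real.exp (-s) * sp h (ff x0 y0 th) z ^ 2)) →
      Nr A B C r o x0 y0 (s ^ 6) g → Nr A B C r o x1 y1 (s ^ 6) h →
      (∃ K : ℝ≥0, LipschitzWith K l) → (∀ z, 0 ≤ l z ∧ l z ≤ 1) → Sy l →
      (∀ q : ℝ × ℝ → ℝ, Lpo q (D \ P) → (∀ z ∈ Zr r, q z = 0) → IntegrableOn (fun z => q z ^ 2) U →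
        IntegrableOn (gr q) U → IntegrableOn (fun z => gr l z * q z ^ 2) U ∧
          ∫ z in U, gr l z * q z ^ 2 ≤ e * ∫ z in U, (q z ^ 2 + gr q z)) →
      ∫ z in (U \ Zr r) ∩ {z | l z ≠ 1}, e2 x0 y0 g z ≤ e →
      Cl0 A B C r o (ip gm g h l) ∧
        Ex x1 y1 (ip gm g h l) ≤ Ex x1 y1 h + Kc * (Real.sqrt e * s ^ 2 + s ^ 3) := by
  have hr4 : r < 1 / 4 := by linarith
  have hM0 : 0 ≤ E0 A B C r o x0 y0 := H46XB.E0_nonneg r o x0 y0
  have hUo : IsOpen (U : Set (ℝ × ℝ)) := H46XB.U_open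
  have hUm : MeasurableSet (U : Set (ℝ × ℝ)) := hUo.measurableSet
  obtain ⟨M0, hM0e⟩ : ∃ M0, M0 = E0 A B C r o x0 y0 := ⟨_, rfl⟩
  rw [← hM0e] at hM0
  have hkap : 0 ≤ kap x0 y0 := by
    unfold kap
    positivity
  have hkap' : 0 ≤ kap' x0 y0 := by
    unfold kap'
    positivity
  obtain ⟨Bc, hBc⟩ : ∃ Bc, Bc = 150 * (M0 + 1) := ⟨_, rfl⟩
  have hBc0 : 0 ≤ Bc := by rw [hBc]; positivity
  obtain ⟨K2, hK2⟩ : ∃ K2, K2 = kap x0 y0 * Bc := ⟨_, rfl⟩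
  have hK20 : 0 ≤ K2 := by rw [hK2]; positivity
  obtain ⟨K1, hK1⟩ : ∃ K1, K1 = (1 / (2 * r) + 1 / 2) * kap x0 y0 * Bc + K2 := ⟨_, rfl⟩
  have hK10 : 0 ≤ K1 := by rw [hK1]; positivity
  obtain ⟨K3, hK3⟩ : ∃ K3, K3 = kap' x0 y0 * (2 * (Real.sqrt K1 * Real.sqrt K2) + 2 * K1) :=
    ⟨_, rfl⟩
  have hK30 : 0 ≤ K3 := by rw [hK3]; positivity
  obtain ⟨K4, hK4⟩ : ∃ K4, K4 = 200 * (M0 + 1) + 1 + K3 := ⟨_, rfl⟩
  have hK40 : 0 ≤ K4 := by rw [hK4]; positivity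
  obtain ⟨K6, hK6⟩ : ∃ K6, K6 = 6 * Real.sqrt K4 + 12 * K4 := ⟨_, rfl⟩
  have hK60 : 0 ≤ K6 := by rw [hK6]; positivity
  refine ⟨2 + 2 * K3 + 2 * K6, by positivity, ?_⟩
  intro g h l x1 y1 th s e hs hs1 he he1 hk hg hh hl h01 hsy hcap hen
  have hs6 : s ^ 6 ≤ s ^ 2 := pow_le_pow_of_le_one hs.le hs1 (by norm_num)
  have hs61 : s ^ 6 ≤ 1 := pow_le_one₀ hs.le hs1
  have hgC := hg.1.cl
  have hhC := hh.1.cl
  -- step 1
  have m1 : ∫ z in U, (mt g h (f1 x0 y0) z + mt g h (f2 x0 y0) z) ≤ Bc * s ^ 2 := by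
    have := H46XB.near_two hX hs.le hs1 hs6 hs61 hk hg hh 0
    rw [(H46XB.frame_zero x0 y0).1, (H46XB.frame_zero x0 y0).2, ← hM0e, ← hBc] at this
    exact this
  obtain ⟨d1, d2⟩ := H46XB.grad_dd hX hgC hhC x0 hy
  have hgrd : IntegrableOn (gr (dd g h)) U := d1
  have hG : ∫ z in U, gr (dd g h) z ≤ K2 * s ^ 2 := by
    refine (show ∫ z in U, gr (dd g h) z ≤ _ from d2).trans ?_
    rw [hK2, mul_assoc]
    exact mul_le_mul_of_nonneg_left m1 hkap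
  have hdist := H46XB.near_two_dist hX hr hr4 hy hs.le hs1 hs6 hs61 hk hg hh
  rw [← hM0e, ← hBc] at hdist
  have hdint := (H46XB.dist_le hX hr hr4 hg.1 hh.1 x0 hy).1
  have hlpod : Lpo (dd g h) (D \ P) := lpo_dist hgC.lip hhC.lip
  have hzd : ∀ z ∈ Zr r, dd g h z = 0 := by
    intro z hz
    change dist (g z) (h z) = 0
    rw [hg.1.eq z hz, hh.1.eq z hz, dist_self]
  obtain ⟨c1, c2⟩ := hcap (dd g h) hlpod hzd hdint hgrd
  have c1' : IntegrableOn (fun z => gr l z * dist (g z) (h z) ^ 2) U := c1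
  have ha : ∫ z in U, gr l z * dist (g z) (h z) ^ 2 ≤ e * (K1 * s ^ 2) := by
    refine (show ∫ z in U, gr l z * dist (g z) (h z) ^ 2 ≤ _ from c2).trans ?_
    apply mul_le_mul_of_nonneg_left _ he
    rw [show ∫ z in U, (dd g h z ^ 2 + gr (dd g h) z) =
      (∫ z in U, dist (g z) (h z) ^ 2) + ∫ z in U, gr (dd g h) z from integral_add hdint hgrd]
    rw [hK1, add_mul]
    exact add_le_add hdist hG
  -- step 2
  obtain ⟨Kl, hKl⟩ := hl
  have hlpol : Lpo l (D \ P) := H46SB.lip_lpo hKl _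
  obtain ⟨v1, v2, v3⟩ := var_two hX hgC hhC ⟨Kl, hKl⟩ h01 hsy c1' hgrd x0 hy
  have hv0 : Cl0 A B C r o (ip gm g h l) :=
    H46XB.cl0_ip hX hr4 hg.1 hh.1 hlpol (fun z _ => h01 z) hsy c1'
  have hv0' : Cl0 A B C r o (ip gm h g l) := by
    refine H46XB.cl0_ip hX hr4 hh.1 hg.1 hlpol (fun z _ => h01 z) hsy ?_
    refine c1'.congr_fun ?_ hUm
    intro z _
    change gr l z * dist (g z) (h z) ^ 2 = gr l z * dist (h z) (g z) ^ 2
    rw [dist_comm]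
  have v4 := Ic_ar1 hs.le he he1 hK10 hK20 hkap' ha hG
  rw [← hK3] at v4
  have v5 := H46XB.E0_le hv0' x0 y0
  rw [← hM0e] at v5
  have v6 := hg.2
  rw [← hM0e] at v6
  have hdE : Ex x0 y0 (ip gm g h l) - Ex x0 y0 h ≤ s ^ 6 + K3 * (Real.sqrt e * s ^ 2) := by
    linarith
  -- step 3
  obtain ⟨n1, n2, -⟩ := near_en hX hy hs.le hs1 hs6 hs61 hk hg hh
  rw [← hM0e] at n1
  have hse : Real.sqrt e ≤ 1 := Real.sqrt_le_iff.2 ⟨zero_le_one, by rw [one_pow]; exact he1⟩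
  have hs20 : 0 ≤ s ^ 2 := by positivity
  have hK3s : K3 * (Real.sqrt e * s ^ 2) ≤ K3 * s ^ 2 := by
    apply mul_le_mul_of_nonneg_left _ hK30
    calc Real.sqrt e * s ^ 2 ≤ 1 * s ^ 2 := mul_le_mul_of_nonneg_right hse hs20
      _ = s ^ 2 := one_mul _
  have hK4s : K4 * s ^ 2 = 200 * (M0 + 1) * s ^ 2 + s ^ 2 + K3 * s ^ 2 := by
    rw [hK4]
    ring
  have hp1 : 0 ≤ (M0 + 1) * s ^ 2 := by positivity
  have hp2 : 0 ≤ K3 * s ^ 2 := by positivity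
  have Nv : Nr A B C r o x0 y0 (K4 * s ^ 2) (ip gm g h l) := by
    refine ⟨hv0, ?_⟩
    rw [← hM0e, hK4s]
    linarith
  have Nh : Nr A B C r o x0 y0 (K4 * s ^ 2) h := by
    refine ⟨hh.1, ?_⟩
    rw [← hM0e, hK4s]
    linarith
  have Ng : Nr A B C r o x0 y0 (K4 * s ^ 2) g := by
    refine ⟨hg.1, ?_⟩
    rw [← hM0e, hK4s]
    linarith
  -- step 4
  have hlc : Continuous l := hKl.continuous
  obtain ⟨S, hS⟩ : ∃ S : Set (ℝ × ℝ), S = U ∩ {z | l z ≠ 1} := ⟨_, rfl⟩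
  have hne : MeasurableSet {z | l z ≠ 1} := (isOpen_ne_fun hlc continuous_const).measurableSet
  have hSm : MeasurableSet S := by
    rw [hS]
    exact hUm.inter hne
  have hSU : S ⊆ U := by
    rw [hS]
    exact inter_subset_left
  have hgU : Lpo g U := lpo_mono H46XB.U_sub hgC.lip
  have hhU : Lpo h U := lpo_mono H46XB.U_sub hhC.lip
  have hvU : Lpo (ip gm g h l) U := lpo_mono H46XB.U_sub v1.lip
  have hZm : MeasurableSet (Zr r) := by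
    unfold Zr
    exact Metric.isClosed_closedBall.measurableSet
  have hgS : ∫ z in S, e2 x0 y0 g z ≤ e := by
    have hint : IntegrableOn (e2 x0 y0 g) S := (clx_e2 hX hgC x0 y0).mono_set hSU
    have h1 := integral_inter_add_sdiff (s := S) hZm hint
    have h2 : ∫ z in S ∩ Zr r, e2 x0 y0 g z = 0 := by
      have hm : MeasurableSet (S ∩ Zr r) := hSm.inter hZm
      have hq : ∀ t, ∀ᵐ z : ℝ × ℝ, z ∈ S ∩ Zr r → sp g t z = sp (fun _ : ℝ × ℝ => o) t z := fun t =>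
        sp_eq_on (volume : Measure (ℝ × ℝ)) hUo hgU (lpo_const o U) hm
          (fun z hz => hSU hz.1) (fun z hz => hg.1.eq z hz.2) t
      rw [setIntegral_congr_ae (g := fun _ => (0 : ℝ)) hm]
      · simp
      · filter_upwards [hq (f1 x0 y0), hq (f2 x0 y0)] with z a1 a2 hz
        unfold e2
        rw [a1 hz, a2 hz, sp_const, sp_const]
        norm_num
    have h3 : S \ Zr r = (U \ Zr r) ∩ {z | l z ≠ 1} := by
      rw [hS]
      ext z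
      constructor
      · rintro ⟨⟨a1, a2⟩, a3⟩
        exact ⟨⟨a1, a3⟩, a2⟩
      · rintro ⟨⟨a1, a3⟩, a2⟩
        exact ⟨⟨a1, a2⟩, a3⟩
    rw [h3, h2, zero_add] at h1
    rw [← h1]
    exact hen
  have hcc : (∫ z in U, (sp (ip gm g h l) (fe x0 y0 th) z ^ 2 - sp (ip gm g h l) (ff x0 y0 th) z ^ 2)) -
      ∫ z in U, (sp h (fe x0 y0 th) z ^ 2 - sp h (ff x0 y0 th) z ^ 2) =
      (∫ z in S, (sp (ip gm g h l) (fe x0 y0 th) z ^ 2 - sp (ip gm g h l) (ff x0 y0 th) z ^ 2)) -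
      ∫ z in S, (sp h (fe x0 y0 th) z ^ 2 - sp h (ff x0 y0 th) z ^ 2) := by
    have iv : IntegrableOn (fun z => sp (ip gm g h l) (fe x0 y0 th) z ^ 2 -
      sp (ip gm g h l) (ff x0 y0 th) z ^ 2) U := (clx_int hX v1 _).sub (clx_int hX v1 _)
    have ih : IntegrableOn (fun z => sp h (fe x0 y0 th) z ^ 2 - sp h (ff x0 y0 th) z ^ 2) U :=
      (clx_int hX hhC _).sub (clx_int hX hhC _)
    have h1 := integral_inter_add_sdiff (s := U) hSm iv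
    have h2 := integral_inter_add_sdiff (s := U) hSm ih
    have h3 : U ∩ S = S := inter_eq_right.2 hSU
    rw [h3] at h1 h2
    have hdm : MeasurableSet (U \ S) := hUm.diff hSm
    have hl1 : ∀ z ∈ U \ S, ip gm g h l z = h z := by
      intro z hz
      have : l z = 1 := by
        by_contra hc
        apply hz.2
        rw [hS]
        exact ⟨hz.1, hc⟩
      change gm (g z) (h z) (l z) = h z
      rw [this]
      exact hX.one _ _
    have hq : ∀ t, ∀ᵐ z : ℝ × ℝ, z ∈ U \ S → sp (ip gm g h l) t z = sp h t z := fun t =>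
      sp_eq_on (volume : Measure (ℝ × ℝ)) hUo hvU hhU hdm sdiff_subset hl1 t
    have h4 : ∫ z in U \ S, (sp (ip gm g h l) (fe x0 y0 th) z ^ 2 -
        sp (ip gm g h l) (ff x0 y0 th) z ^ 2) =
        ∫ z in U \ S, (sp h (fe x0 y0 th) z ^ 2 - sp h (ff x0 y0 th) z ^ 2) := by
      apply setIntegral_congr_ae hdm
      filter_upwards [hq (fe x0 y0 th), hq (ff x0 y0 th)] with z a1 a2 hz
      rw [a1 hz, a2 hz]
    linarith
  have p1 := H46XB.near_conv hX Nv Nh th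
  have p2 := H46XB.near_conv hX Nv Ng th
  have p3 := H46XB.near_conv hX Nh Ng th
  obtain ⟨q1, q1'⟩ := Ic_diff hX v1 hhC (fe x0 y0 th) (ff x0 y0 th)
  obtain ⟨-, q2'⟩ := Ic_diff hX v1 hgC (fe x0 y0 th) (ff x0 y0 th)
  obtain ⟨-, q3'⟩ := Ic_diff hX hhC hgC (fe x0 y0 th) (ff x0 y0 th)
  have r1 : ∫ z in S, ((sp (ip gm g h l) (fe x0 y0 th) z - sp h (fe x0 y0 th) z) ^ 2 +
      (sp (ip gm g h l) (ff x0 y0 th) z - sp h (ff x0 y0 th) z) ^ 2) ≤ 4 * (K4 * s ^ 2) := by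
    refine (setIntegral_mono_set q1 ?_ hSU.eventuallyLE).trans (q1'.trans p1)
    exact Eventually.of_forall fun z => by
      change (0 : ℝ) ≤ _
      positivity
  have r2 := en_le hX v1 hgC hSm hSU x0 th hy
  have r3 := en_le hX hhC hgC hSm hSU x0 th hy
  have r4 := c_diff hX v1 hhC hSm hSU x0 th hy
  have r5 := Ic_ar3 hs.le he hK40 r1
    (show ∫ z in S, e2 x0 y0 (ip gm g h l) z ≤ 2 * e + 8 * (K4 * s ^ 2) by linarith)
    (show ∫ z in S, e2 x0 y0 h z ≤ 2 * e + 8 * (K4 * s ^ 2) by linarith) r4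
  rw [← hcc, ← hK6] at r5
  -- step 5
  obtain ⟨-, -, hch2, hsh2⟩ := alg_coef hs.le hs1
  have hfin := Ic_ar5 hs.le hs1 hK30 hK60 hdE r5 (Real.cosh_pos s).le hch2
    (Real.sinh_nonneg_iff.2 hs.le) hsh2
  refine ⟨hv0, ?_⟩
  rw [n2 _ v1, n2 _ hhC]
  linarith

end H84NS
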