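import Pool.Agent.H84.NS.Dx

set_option autoImplicit false

/-!
# Row Xd: exactness: the circulations of a discrete one-form with the symmetries OmS integrate to O(h^3)

Elementary.  a = h(al,0), b = h(ga,be), al, be > 0, h > 0 small: h al <= rho/2, h |ga| <= rho/2, h be <= rho/2, h be < 1/4.  All points below are in Sc, all pairs at distance <= rho.
J(v) := int_0^1 Om((u,v),(u + h al, v)) du for v in [0,1/2] (continuous integrand in u by `cont`).
(1) PERIODICITY: for v, v' in [0,1/2], |v-v'| <= rho, |c| <= rho, the function u |-> Om((u,v),(u+c,v')) has period 1 (`per`), so its integral over [t,t+1] does not depend on t (Function.Periodic.intervalIntegral_add_eq).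
(2) J(0) = 0: u |-> -u - h al (substitution, periodicity): J(0) = int_0^1 Om((-u-h al,0),(-u,0)) du = (revb) int_0^1 Om((u+h al,0),(u,0)) du = (anti) - J(0).   J(1/2) = 0 in the same way (revt).
(3) |J(v)| <= M (h al + v)^2 for 0 <= v <= rho (v <= 1/2): crO Om (h al,0) (0,v) (u,0) = Om((u,0),(u+h al,0)) + Om((u+h al,0),(u+h al,v)) - Om((u,v),(u+h al,v)) - Om((u,0),(u,v)); integrate over u in [0,1]: the second and the fourth
   term cancel by (1): int crO = J(0) - J(v) = - J(v); `bd` (norm of (h al,0) = h al, of (0,v) = v; x + a + b = (u + h al, v)).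
   |J(v)| <= M (h al + 1/2 - v)^2 for 1/2 - rho <= v <= 1/2, v >= 0: same with x = (u,v), b = (0,1/2-v) and J(1/2) = 0.
(4) On U_h = (0,1) x (0,1/2-h be): int crO over U_h = int_0^(1/2-h be) int_0^1 crO du dv (Fubini: the integrand is continuous on the compact rectangle [0,1] x [0,1/2-h be], all vertices in Sc; setIntegral_prod after swapping; or
   use MeasureTheory.integral_prod_symm / integral_prod). For fixed v: the terms Om(z+a,z+a+b) and Om(z,z+b) have equal integrals over u (periodicity, (1)); int Om(z,z+a) du = J(v); int Om(z+b,z+a+b) du = J(v + h be) (periodicity).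
   So int_{U_h} crO = int_0^(1/2-h be) (J(v) - J(v+h be)) dv = int_0^(h be) J - int_(1/2-h be)^(1/2) J (J is continuous on [0,1/2]: parametric integral of a function continuous on a compact set; or only interval integrability of J is
   needed, which follows from Fubini).
(5) |..| <= 2 h be M (h al + h be)^2 = K h^3 (M >= 0: from bd with a = b = 0 it is not forced, use |M|).
-/

namespace H84NS

open MeasureTheory Set Filter Topology

private theorem Xd_cross {Ω : ℝ × ℝ → ℝ × ℝ → ℝ} (c g b u v : ℝ) :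
    crO Ω (c, 0) (g, b) (u, v) = Ω (u, v) (u + c, v) + Ω (u + c, v) (u + c + g, v + b) -
      Ω (u + g, v + b) (u + c + g, v + b) - Ω (u, v) (u + g, v + b) := by
  simp only [crO, Prod.mk_add_mk, add_zero]

private theorem Xd_dist {ρ u v v' c c' : ℝ} (hd : |c' - c| ≤ ρ) (hd' : |v' - v| ≤ ρ) :
    dist (u + c, v) (u + c', v') ≤ ρ := by
  rw [Prod.dist_eq, Real.dist_eq, Real.dist_eq]
  refine max_le ?_ ?_
  · have e : u + c - (u + c') = -(c' - c) := by ring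
    rw [e, abs_neg]
    exact hd
  · rw [abs_sub_comm]
    exact hd'

private theorem Xd_cont {Ω : ℝ × ℝ → ℝ × ℝ → ℝ} {ρ M : ℝ} (h : OmS Ω ρ M) {v v' c c' : ℝ}
    (hv : v ∈ Icc (0:ℝ) (1/2)) (hv' : v' ∈ Icc (0:ℝ) (1/2)) (hd : |c' - c| ≤ ρ)
    (hd' : |v' - v| ≤ ρ) : Continuous (fun u : ℝ => Ω (u + c, v) (u + c', v')) := by
  have h1 : Continuous (fun u : ℝ => (((u + c, v), (u + c', v')) : (ℝ × ℝ) × (ℝ × ℝ))) := by
    fun_prop
  exact h.cont.comp_continuous h1 (fun u => ⟨hv, hv', Xd_dist hd hd'⟩)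

theorem oms_per {Ω : ℝ × ℝ → ℝ × ℝ → ℝ} {ρ M : ℝ} (h : OmS Ω ρ M) {v v' c : ℝ} (hv : v ∈ Icc (0:ℝ) (1/2))
    (hv' : v' ∈ Icc (0:ℝ) (1/2)) (hd : dist ((0 : ℝ), v) (c, v') ≤ ρ) (t : ℝ) :
    ∫ u in t..(t + 1), Ω (u, v) (u + c, v') = ∫ u in (0:ℝ)..1, Ω (u, v) (u + c, v') := by
  have h0 : dist ((0 : ℝ) + 0, v) ((0 : ℝ) + c, v') ≤ ρ := by simpa using hd
  rw [Prod.dist_eq, Real.dist_eq, Real.dist_eq] at h0
  have h1 : |c - 0| ≤ ρ := by
    have h2 := (le_max_left _ _).trans h0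
    have e : (0 : ℝ) + 0 - (0 + c) = -(c - 0) := by ring
    rw [e, abs_neg] at h2
    exact h2
  have h3 : |v' - v| ≤ ρ := by
    have h2 := (le_max_right _ _).trans h0
    have e : v - v' = -(v' - v) := by ring
    change |v - v'| ≤ ρ at h2
    rw [e, abs_neg] at h2
    exact h2
  have hper : Function.Periodic (fun u : ℝ => Ω (u, v) (u + c, v')) 1 := by
    intro u
    have h4 := h.per (u, v) hv (u + c, v') hv' (by
      have h5 := Xd_dist (u := u) h1 h3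
      rwa [add_zero] at h5)
    simp only [Prod.mk_add_mk, add_zero] at h4
    change Ω (u + 1, v) (u + 1 + c, v') = Ω (u, v) (u + c, v')
    rw [← h4, add_right_comm]
  have h5 := hper.intervalIntegral_add_eq t 0
  rwa [zero_add] at h5

private theorem Xd_shift {Ω : ℝ × ℝ → ℝ × ℝ → ℝ} {ρ M : ℝ} (h : OmS Ω ρ M) {v v' c : ℝ}
    (hv : v ∈ Icc (0:ℝ) (1/2)) (hv' : v' ∈ Icc (0:ℝ) (1/2)) (hd : |c| ≤ ρ)
    (hd' : |v' - v| ≤ ρ) (t : ℝ) :
    ∫ u in (0:ℝ)..1, Ω (u + t, v) (u + t + c, v') = ∫ u in (0:ℝ)..1, Ω (u, v) (u + c, v') := by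
  have h1 := intervalIntegral.integral_comp_add_right (a := 0) (b := 1)
    (fun u : ℝ => Ω (u, v) (u + c, v')) t
  rw [h1, zero_add, add_comm (1 : ℝ) t]
  refine oms_per h hv hv' ?_ t
  have h2 := Xd_dist (u := 0) (c := 0) (c' := c) (v := v) (v' := v') (ρ := ρ) (by simpa using hd)
    hd'
  simpa using h2

private theorem Xd_zero {Ω : ℝ × ℝ → ℝ × ℝ → ℝ} {ρ M : ℝ} (h : OmS Ω ρ M) {c v : ℝ} (hc : 0 ≤ c)
    (hcρ : c ≤ ρ) (hv : v ∈ Icc (0:ℝ) (1/2))
    (hrev : ∀ u u' : ℝ, |u - u'| ≤ ρ → Ω (-u, v) (-u', v) = Ω (u, v) (u', v)) :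
    ∫ u in (0:ℝ)..1, Ω (u, v) (u + c, v) = 0 := by
  have hca : |c| ≤ ρ := by rw [abs_of_nonneg hc]; exact hcρ
  have h1 := intervalIntegral.integral_comp_sub_left (a := 0) (b := 1)
    (fun u : ℝ => Ω (u, v) (u + c, v)) (-c)
  have h2 : ∫ u in (-c - 1)..(-c - 0), Ω (u, v) (u + c, v) =
      ∫ u in (0:ℝ)..1, Ω (u, v) (u + c, v) := by
    have h3 := oms_per h hv hv (c := c) (by
      have h4 := Xd_dist (u := 0) (c := 0) (c' := c) (v := v) (v' := v) (ρ := ρ)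
        (by simpa using hca) (by simpa using hc.trans hcρ)
      simpa using h4) (-c - 1)
    rw [← h3]
    congr 1
    ring
  have h3 : ∀ u : ℝ, Ω (-c - u, v) (-c - u + c, v) = -Ω (u, v) (u + c, v) := by
    intro u
    have e1 : -c - u = -(u + c) := by ring
    have e2 : -c - u + c = -u := by ring
    rw [e2, e1, hrev (u + c) u (by simpa using hca), h.anti]
  have h4 : ∫ u in (0:ℝ)..1, Ω (-c - u, v) (-c - u + c, v) =
      -∫ u in (0:ℝ)..1, Ω (u, v) (u + c, v) := by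
    rw [← intervalIntegral.integral_neg]
    exact intervalIntegral.integral_congr fun u _ => h3 u
  rw [h2] at h1
  rw [h1] at h4
  linarith

theorem oms_zero {Ω : ℝ × ℝ → ℝ × ℝ → ℝ} {ρ M : ℝ} (h : OmS Ω ρ M) {c : ℝ} (hc : 0 ≤ c) (hcρ : c ≤ ρ) :
    ∫ u in (0:ℝ)..1, Ω (u, 0) (u + c, 0) = 0 ∧ ∫ u in (0:ℝ)..1, Ω (u, 1/2) (u + c, 1/2) = 0 := by
  exact ⟨Xd_zero h hc hcρ ⟨le_refl _, by norm_num⟩ h.revb,
    Xd_zero h hc hcρ ⟨by norm_num, le_refl _⟩ h.revt⟩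

/-- integral of the circulations over one period -/
private theorem Xd_row {Ω : ℝ × ℝ → ℝ × ℝ → ℝ} {ρ M : ℝ} (h : OmS Ω ρ M) {c g b v : ℝ}
    (hc : 0 ≤ c) (hcρ : c ≤ ρ) (hg : |g| ≤ ρ) (hb : 0 ≤ b) (hbρ : b ≤ ρ)
    (hv : v ∈ Icc (0:ℝ) (1/2)) (hvb : v + b ∈ Icc (0:ℝ) (1/2)) :
    ∫ u in (0:ℝ)..1, crO Ω (c, 0) (g, b) (u, v) =
      (∫ u in (0:ℝ)..1, Ω (u, v) (u + c, v)) -
        ∫ u in (0:ℝ)..1, Ω (u, v + b) (u + c, v + b) := by
  have hca : |c| ≤ ρ := by rw [abs_of_nonneg hc]; exact hcρ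
  have hba : |v + b - v| ≤ ρ := by
    rw [add_sub_cancel_left, abs_of_nonneg hb]
    exact hbρ
  have hz : |v - v| ≤ ρ := by simpa using hc.trans hcρ
  have hz' : |v + b - (v + b)| ≤ ρ := by simpa using hc.trans hcρ
  have i1 : Continuous (fun u : ℝ => Ω (u, v) (u + c, v)) := by
    have := Xd_cont h hv hv (c := 0) (c' := c) (by simpa using hca) hz
    simpa only [add_zero] using this
  have i2 : Continuous (fun u : ℝ => Ω (u + c, v) (u + c + g, v + b)) := by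
    have := Xd_cont h hv hvb (c := c) (c' := c + g) (by simpa using hg) hba
    simpa only [add_assoc] using this
  have i3 : Continuous (fun u : ℝ => Ω (u + g, v + b) (u + c + g, v + b)) := by
    have := Xd_cont h hvb hvb (c := g) (c' := c + g) (by simpa using hca) hz'
    simpa only [add_assoc] using this
  have i4 : Continuous (fun u : ℝ => Ω (u, v) (u + g, v + b)) := by
    have := Xd_cont h hv hvb (c := 0) (c' := g) (by simpa using hg) hba
    simpa only [add_zero] using this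
  have e2 := Xd_shift h hv hvb (c := g) hg hba c
  have e3 := Xd_shift h hvb hvb (c := c) hca hz' g
  have e3' : ∫ u in (0:ℝ)..1, Ω (u + g, v + b) (u + c + g, v + b) =
      ∫ u in (0:ℝ)..1, Ω (u, v + b) (u + c, v + b) := by
    rw [← e3]
    refine intervalIntegral.integral_congr fun u _ => ?_
    rw [add_right_comm]
  have e0 : ∫ u in (0:ℝ)..1, crO Ω (c, 0) (g, b) (u, v) =
      ∫ u in (0:ℝ)..1, (Ω (u, v) (u + c, v) + Ω (u + c, v) (u + c + g, v + b) -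
        Ω (u + g, v + b) (u + c + g, v + b) - Ω (u, v) (u + g, v + b)) :=
    intervalIntegral.integral_congr fun u _ => Xd_cross c g b u v
  rw [e0, intervalIntegral.integral_sub, intervalIntegral.integral_sub,
    intervalIntegral.integral_add, e2, e3']
  · ring
  · exact i1.intervalIntegrable _ _
  · exact i2.intervalIntegrable _ _
  · exact (i1.add i2).intervalIntegrable _ _
  · exact i3.intervalIntegrable _ _
  · exact ((i1.add i2).sub i3).intervalIntegrable _ _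
  · exact i4.intervalIntegrable _ _

private theorem Xd_bd {Ω : ℝ × ℝ → ℝ × ℝ → ℝ} {ρ M : ℝ} (h : OmS Ω ρ M) {c b v : ℝ}
    (hc : 0 ≤ c) (hcρ : c ≤ ρ) (hb : 0 ≤ b) (hbρ : b ≤ ρ)
    (hv : v ∈ Icc (0:ℝ) (1/2)) (hvb : v + b ∈ Icc (0:ℝ) (1/2)) :
    |∫ u in (0:ℝ)..1, crO Ω (c, 0) (0, b) (u, v)| ≤ M * (c + b) ^ 2 := by
  have h1 : ∀ u ∈ uIoc (0:ℝ) 1, ‖crO Ω (c, 0) (0, b) (u, v)‖ ≤ M * (c + b) ^ 2 := by
    intro u _
    have n1 : ‖((c, 0) : ℝ × ℝ)‖ = c := by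
      rw [Prod.norm_def, norm_zero, Real.norm_eq_abs, abs_of_nonneg hc, max_eq_left hc]
    have n2 : ‖((0, b) : ℝ × ℝ)‖ = b := by
      rw [Prod.norm_def, norm_zero, Real.norm_eq_abs, abs_of_nonneg hb, max_eq_right hb]
    have h2 := h.bd (c, 0) (0, b) (u, v) (by rw [n1]; exact hcρ) (by rw [n2]; exact hbρ) (by
      intro z hz
      simp only [vtx, Prod.mk_add_mk, add_zero, mem_insert_iff, mem_singleton_iff] at hz
      rcases hz with rfl | rfl | rfl | rfl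
      · exact hv
      · exact hv
      · exact hvb
      · exact hvb)
    rw [n1, n2] at h2
    exact h2
  have h2 := intervalIntegral.norm_integral_le_of_norm_le_const h1
  simpa using h2

theorem oms_line {Ω : ℝ × ℝ → ℝ × ℝ → ℝ} {ρ M : ℝ} (h : OmS Ω ρ M) {c v : ℝ} (hc : 0 ≤ c) (hcρ : c ≤ ρ)
    (hv : 0 ≤ v) (hvρ : v ≤ ρ) (hv2 : v ≤ 1/2) :
    |∫ u in (0:ℝ)..1, Ω (u, v) (u + c, v)| ≤ M * (c + v) ^ 2 ∧
    |∫ u in (0:ℝ)..1, Ω (u, 1/2 - v) (u + c, 1/2 - v)| ≤ M * (c + v) ^ 2 := by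
  have hρ0 : 0 ≤ ρ := h.pos.le
  obtain ⟨z1, z2⟩ := oms_zero h hc hcρ
  constructor
  · have h1 := Xd_row h (g := 0) (b := v) (v := 0) hc hcρ (by simpa using hρ0) hv hvρ
      ⟨le_refl _, by norm_num⟩ ⟨by simpa using hv, by simpa using hv2⟩
    have h2 := Xd_bd h (b := v) (v := 0) hc hcρ hv hvρ
      ⟨le_refl _, by norm_num⟩ ⟨by simpa using hv, by simpa using hv2⟩
    rw [h1, z1, zero_sub, abs_neg, zero_add] at h2
    exact h2
  · have h1 := Xd_row h (g := 0) (b := v) (v := 1/2 - v) hc hcρ (by simpa using hρ0) hv hvρ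
      ⟨by linarith, by linarith⟩ ⟨by linarith, by linarith⟩
    have h2 := Xd_bd h (b := v) (v := 1/2 - v) hc hcρ hv hvρ
      ⟨by linarith, by linarith⟩ ⟨by linarith, by linarith⟩
    rw [h1, sub_add_cancel, z2, sub_zero] at h2
    exact h2

private theorem Xd_term {Ω : ℝ × ℝ → ℝ × ℝ → ℝ} {ρ M : ℝ} (h : OmS Ω ρ M) {K : Set (ℝ × ℝ)}
    {p q : ℝ × ℝ} (hp : ∀ z ∈ K, z + p ∈ Sc) (hq : ∀ z ∈ K, z + q ∈ Sc) (hd : dist p q ≤ ρ) :
    ContinuousOn (fun z => Ω (z + p) (z + q)) K := by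
  have h1 : ContinuousOn (fun z : ℝ × ℝ => ((z + p, z + q) : (ℝ × ℝ) × (ℝ × ℝ))) K := by
    fun_prop
  refine h.cont.comp h1 (fun z hz => ⟨hp z hz, hq z hz, ?_⟩)
  change dist (z + p) (z + q) ≤ ρ
  rw [dist_add_left]
  exact hd

private theorem Xd_main {Ω : ℝ × ℝ → ℝ × ℝ → ℝ} {ρ M : ℝ} (h : OmS Ω ρ M) {c g b : ℝ}
    (hc : 0 ≤ c) (hcρ : c ≤ ρ) (hg : |g| ≤ ρ) (hb : 0 < b) (hbρ : b ≤ ρ) (hb4 : b < 1/4) :
    |∫ z in Ioo (0:ℝ) 1 ×ˢ Ioo (0:ℝ) (1/2 - b), crO Ω (c, 0) (g, b) z| ≤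
      2 * b * (|M| * (c + b) ^ 2) := by
  have hρ0 : 0 ≤ ρ := h.pos.le
  -- integrability
  have hcK : ContinuousOn (crO Ω (c, 0) (g, b)) (Icc (0:ℝ) 1 ×ˢ Icc (0:ℝ) (1/2 - b)) := by
    have m0 : ∀ z ∈ Icc (0:ℝ) 1 ×ˢ Icc (0:ℝ) (1/2 - b), z + (0 : ℝ × ℝ) ∈ Sc := by
      rintro z ⟨-, h1, h2⟩
      rw [add_zero]
      exact ⟨h1, by linarith⟩
    have m1 : ∀ z ∈ Icc (0:ℝ) 1 ×ˢ Icc (0:ℝ) (1/2 - b), z + (c, (0:ℝ)) ∈ Sc := by
      rintro z ⟨-, h1, h2⟩
      refine ⟨?_, ?_⟩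
      · change 0 ≤ z.2 + 0
        linarith
      · change z.2 + 0 ≤ 1/2
        linarith
    have m2 : ∀ z ∈ Icc (0:ℝ) 1 ×ˢ Icc (0:ℝ) (1/2 - b), z + (g, b) ∈ Sc := by
      rintro z ⟨-, h1, h2⟩
      refine ⟨?_, ?_⟩
      · change 0 ≤ z.2 + b
        linarith
      · change z.2 + b ≤ 1/2
        linarith
    have m3 : ∀ z ∈ Icc (0:ℝ) 1 ×ˢ Icc (0:ℝ) (1/2 - b), z + ((c, (0:ℝ)) + (g, b)) ∈ Sc := by
      rintro z ⟨-, h1, h2⟩
      refine ⟨?_, ?_⟩
      · change 0 ≤ z.2 + (0 + b)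
        linarith
      · change z.2 + (0 + b) ≤ 1/2
        linarith
    have hca : |c| ≤ ρ := by rw [abs_of_nonneg hc]; exact hcρ
    have hba : |b| ≤ ρ := by rw [abs_of_pos hb]; exact hbρ
    have d1 : dist (0 : ℝ × ℝ) (c, 0) ≤ ρ := by
      rw [dist_zero_left, Prod.norm_def]
      exact max_le hca (by rw [norm_zero]; exact hρ0)
    have d2 : dist (c, (0:ℝ)) ((c, (0:ℝ)) + (g, b)) ≤ ρ := by
      rw [dist_self_add_right, Prod.norm_def]
      exact max_le hg hba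
    have d3 : dist (g, b) ((c, (0:ℝ)) + (g, b)) ≤ ρ := by
      rw [dist_comm, dist_add_self_left, Prod.norm_def]
      exact max_le hca (by rw [norm_zero]; exact hρ0)
    have d4 : dist (0 : ℝ × ℝ) (g, b) ≤ ρ := by
      rw [dist_zero_left, Prod.norm_def]
      exact max_le hg hba
    have t1 := Xd_term h m0 m1 d1
    have t2 := Xd_term h m1 m3 d2
    have t3 := Xd_term h m2 m3 d3
    have t4 := Xd_term h m0 m2 d4
    refine (((t1.add t2).sub t3).sub t4).congr fun z _ => ?_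
    simp only [crO, add_zero, Pi.add_apply, Pi.sub_apply, add_assoc]
  have hint : IntegrableOn (crO Ω (c, 0) (g, b)) (Ioo (0:ℝ) 1 ×ˢ Ioo (0:ℝ) (1/2 - b)) := by
    refine (hcK.integrableOn_compact (isCompact_Icc.prod isCompact_Icc)).mono_set ?_
    exact prod_mono Ioo_subset_Icc_self Ioo_subset_Icc_self
  -- the function J
  obtain ⟨J, hJ⟩ : ∃ J : ℝ → ℝ, J = fun v => ∫ u in (0:ℝ)..1,
      Ω (u, max 0 (min v (1/2))) (u + c, max 0 (min v (1/2))) := ⟨_, rfl⟩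
  have hw : ∀ v : ℝ, max 0 (min v (1/2)) ∈ Icc (0:ℝ) (1/2) := fun v =>
    ⟨le_max_left _ _, max_le (by norm_num) (min_le_right _ _)⟩
  have hJc : Continuous J := by
    rw [hJ]
    refine intervalIntegral.continuous_parametric_intervalIntegral_of_continuous'
      (f := fun v u => Ω (u, max 0 (min v (1/2))) (u + c, max 0 (min v (1/2)))) ?_ 0 1
    have h1 : Continuous (fun p : ℝ × ℝ => (((p.2, max 0 (min p.1 (1/2))),
        (p.2 + c, max 0 (min p.1 (1/2)))) : (ℝ × ℝ) × (ℝ × ℝ))) := by fun_prop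
    refine h.cont.comp_continuous h1 (fun p => ⟨hw p.1, hw p.1, ?_⟩)
    have h2 := Xd_dist (u := p.2) (c := 0) (c' := c) (v := max 0 (min p.1 (1/2)))
      (v' := max 0 (min p.1 (1/2))) (ρ := ρ) (by simpa [abs_of_nonneg hc] using hcρ)
      (by simpa using hρ0)
    rwa [add_zero] at h2
  have hJv : ∀ v ∈ Icc (0:ℝ) (1/2), J v = ∫ u in (0:ℝ)..1, Ω (u, v) (u + c, v) := by
    intro v hv
    rw [hJ]
    change ∫ u in (0:ℝ)..1, Ω (u, max 0 (min v (1/2))) (u + c, max 0 (min v (1/2))) = _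
    rw [min_eq_left hv.2, max_eq_right hv.1]
  -- Fubini
  have hF : ∫ z in Ioo (0:ℝ) 1 ×ˢ Ioo (0:ℝ) (1/2 - b), crO Ω (c, 0) (g, b) z =
      ∫ v in (0:ℝ)..(1/2 - b), (J v - J (v + b)) := by
    rw [IntegrableOn, Measure.volume_eq_prod, ← Measure.prod_restrict] at hint
    rw [Measure.volume_eq_prod, ← Measure.prod_restrict, integral_prod_symm _ hint,
      intervalIntegral.integral_of_le (by linarith), integral_Ioc_eq_integral_Ioo]
    refine setIntegral_congr_fun measurableSet_Ioo fun v hv => ?_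
    change ∫ u in Ioo (0:ℝ) 1, crO Ω (c, 0) (g, b) (u, v) = J v - J (v + b)
    have hv1 : v ∈ Icc (0:ℝ) (1/2) := ⟨hv.1.le, by linarith [hv.2]⟩
    have hv2 : v + b ∈ Icc (0:ℝ) (1/2) := ⟨by linarith [hv.1], by linarith [hv.2]⟩
    rw [← integral_Ioc_eq_integral_Ioo, ← intervalIntegral.integral_of_le zero_le_one,
      Xd_row h hc hcρ hg hb.le hbρ hv1 hv2, hJv v hv1, hJv _ hv2]
  have hii : ∀ p q : ℝ, IntervalIntegrable J volume p q := fun p q => hJc.intervalIntegrable _ _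
  have hT : ∫ v in (0:ℝ)..(1/2 - b), (J v - J (v + b)) =
      (∫ v in (0:ℝ)..b, J v) - ∫ v in (1/2 - b)..(1/2), J v := by
    have h1 := intervalIntegral.integral_comp_add_right (a := 0) (b := 1/2 - b) J b
    have h2 : IntervalIntegrable (fun v => J (v + b)) volume 0 (1/2 - b) :=
      (hJc.comp (continuous_add_const b)).intervalIntegrable _ _
    rw [intervalIntegral.integral_sub (hii _ _) h2, h1, zero_add, sub_add_cancel]
    exact intervalIntegral.integral_interval_sub_interval_comm (hii _ _) (hii _ _) (hii _ _)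
  have hM : ∀ v : ℝ, 0 ≤ v → v ≤ b → M * (c + v) ^ 2 ≤ |M| * (c + b) ^ 2 := by
    intro v hv hvb
    have h1 : (c + v) ^ 2 ≤ (c + b) ^ 2 := by nlinarith
    calc M * (c + v) ^ 2 ≤ |M| * (c + v) ^ 2 :=
          mul_le_mul_of_nonneg_right (le_abs_self M) (sq_nonneg _)
      _ ≤ |M| * (c + b) ^ 2 := mul_le_mul_of_nonneg_left h1 (abs_nonneg M)
  have b1 : |∫ v in (0:ℝ)..b, J v| ≤ |M| * (c + b) ^ 2 * b := by
    have h1 : ∀ v ∈ uIoc (0:ℝ) b, ‖J v‖ ≤ |M| * (c + b) ^ 2 := by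
      intro v hv
      rw [uIoc_of_le hb.le] at hv
      rw [hJv v ⟨hv.1.le, by linarith [hv.2]⟩]
      exact ((oms_line h hc hcρ hv.1.le (hv.2.trans hbρ) (by linarith [hv.2])).1).trans
        (hM v hv.1.le hv.2)
    have h2 := intervalIntegral.norm_integral_le_of_norm_le_const h1
    rwa [sub_zero, abs_of_pos hb, Real.norm_eq_abs] at h2
  have b2 : |∫ v in (1/2 - b)..(1/2), J v| ≤ |M| * (c + b) ^ 2 * b := by
    have h1 : ∀ v ∈ uIoc (1/2 - b) (1/2 : ℝ), ‖J v‖ ≤ |M| * (c + b) ^ 2 := by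
      intro v hv
      rw [uIoc_of_le (by linarith)] at hv
      rw [hJv v ⟨by linarith [hv.1], hv.2⟩]
      have h3 := (oms_line h hc hcρ (v := 1/2 - v) (by linarith [hv.2])
        (by linarith [hv.1]) (by linarith [hv.1])).2
      rw [sub_sub_cancel] at h3
      exact h3.trans (hM _ (by linarith [hv.2]) (by linarith [hv.1]))
    have h2 := intervalIntegral.norm_integral_le_of_norm_le_const h1
    rwa [sub_sub_cancel, abs_of_pos hb, Real.norm_eq_abs] at h2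
  rw [hF, hT]
  calc |(∫ v in (0:ℝ)..b, J v) - ∫ v in (1/2 - b)..(1/2), J v| ≤
        |∫ v in (0:ℝ)..b, J v| + |∫ v in (1/2 - b)..(1/2), J v| := abs_sub _ _
    _ ≤ 2 * b * (|M| * (c + b) ^ 2) := by linarith

theorem oms_lim {Ω : ℝ × ℝ → ℝ × ℝ → ℝ} {ρ M : ℝ} (h : OmS Ω ρ M) {al be : ℝ} (hal : 0 < al) (hbe : 0 < be) (ga : ℝ) :
    ∃ K : ℝ, 0 ≤ K ∧ ∀ᶠ t in 𝓝[>] (0:ℝ),
      |∫ z in Ioo (0:ℝ) 1 ×ˢ Ioo (0:ℝ) (1/2 - t * be), crO Ω (t • (al, 0)) (t • (ga, be)) z| ≤ K * t ^ 3 := by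
  refine ⟨2 * be * (|M| * (al + be) ^ 2), by positivity, ?_⟩
  have hρ := h.pos
  obtain ⟨δ, hδ, hδ'⟩ : ∃ δ : ℝ, 0 < δ ∧ ∀ t : ℝ, 0 < t → t < δ →
      t * al ≤ ρ ∧ t * |ga| ≤ ρ ∧ t * be ≤ ρ ∧ t * be < 1/4 := by
    refine ⟨min (min (ρ / al) (ρ / (|ga| + 1))) (min (ρ / be) (1 / (4 * be))), by positivity, ?_⟩
    intro t ht0 ht
    have h1 : t < ρ / al := ht.trans_le ((min_le_left _ _).trans (min_le_left _ _))
    have h2 : t < ρ / (|ga| + 1) := ht.trans_le ((min_le_left _ _).trans (min_le_right _ _))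
    have h3 : t < ρ / be := ht.trans_le ((min_le_right _ _).trans (min_le_left _ _))
    have h4 : t < 1 / (4 * be) := ht.trans_le ((min_le_right _ _).trans (min_le_right _ _))
    rw [lt_div_iff₀ (by positivity)] at h1 h2 h3 h4
    refine ⟨h1.le, ?_, h3.le, by linarith⟩
    nlinarith [abs_nonneg ga]
  filter_upwards [Ioo_mem_nhdsGT hδ] with t ht
  obtain ⟨h1, h2, h3, h4⟩ := hδ' t ht.1 ht.2
  have ht0 := ht.1
  have h5 := Xd_main h (c := t * al) (g := t * ga) (b := t * be) (by positivity) h1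
    (by rw [abs_mul, abs_of_pos ht0]; exact h2) (by positivity) h3 h4
  have e : t • ((al, 0) : ℝ × ℝ) = (t * al, 0) := by simp
  have e' : t • ((ga, be) : ℝ × ℝ) = (t * ga, t * be) := rfl
  rw [e, e']
  refine h5.trans (le_of_eq ?_)
  ring

end H84NS
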