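import Pool.Agent.H84.NS.Xb
import Pool.Agent.H84.NS.Xd
import Pool.Agent.H84.NS.Cb

set_option autoImplicit false

/-!
# Row Xe: exactness of the circulation for two maps of the class that agree near P

Uses the statements of Xb (om_oms), Xd (oms_lim), Cb (cell_sub), Ca (crc_congr).  f1 x y = (sqrt y, 0), f2 x y = (-x/sqrt y, 1/sqrt y): al = sqrt y, ga = -x/sqrt y, be = 1/sqrt y.
om_oms: F, G, rho, M'. crc F G = crO (om F G) by definition. oms_lim: K0.  M := |M'| (||f1||+||f2||)^2.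
C compact in U. For small h > 0: U_h := (0,1) x (0,1/2 - h be) contains C (compact, so at positive distance from the top line), the cells based at points of C are in U (cell_sub with O = U), U in D \ P, so crc f g = crc F G on C (crc_congr).
For z in U_h all the vertices of the cell (h f1, h f2) at z are in Sc (heights z.2 and z.2 + h be), h||f1||, h||f2|| <= rho: `bd`: |crc F G| <= |M'| (||f1||+||f2||)^2 h^2 = M h^2 on U_h.
crc F G is integrable on U_h: continuous on U_h (cont; the pairs of vertices are at distance <= rho) and bounded, U_h of finite measure.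
int_C crc F G/h^2 = int_{U_h} crc F G/h^2 - int_{U_h \ C} crc F G/h^2, so |int_C| <= K0 h + M vol(U_h \ C) <= K0 h + M vol(U \ C), and K0 h <= eps for small h.
-/

namespace H84NS

open H50NA H98NX MeasureTheory Set Filter Topology
open H80HM (D U P f1 f2)

variable {X : Type} [MetricSpace X] {gm : X → X → ℝ → X} {A B C : X ≃ᵢ X}

private theorem Xe_sub {z : ℝ × ℝ} (hz : z ∈ U) : z ∈ D \ P := by
  obtain ⟨h1, h2⟩ := hz
  refine ⟨⟨⟨h1.1.le, h1.2.le⟩, ⟨h2.1.le, h2.2.le⟩⟩, ?_⟩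
  rintro ⟨_, h3⟩
  change z.2 = 0 ∨ z.2 = 1/2 at h3
  have h4 : 0 < z.2 := h2.1
  have h5 : z.2 < 1/2 := h2.2
  rcases h3 with h3 | h3 <;> linarith

private theorem Xe_cont {Ω : ℝ × ℝ → ℝ × ℝ → ℝ} {ρ M : ℝ} (h : OmS Ω ρ M) {a b : ℝ × ℝ} {K : Set (ℝ × ℝ)}
    (hK : ∀ z ∈ K, vtx a b z ⊆ Sc) (ha : ‖a‖ ≤ ρ) (hb : ‖b‖ ≤ ρ) :
    ContinuousOn (fun z => crO Ω a b z) K := by
  have key : ∀ (p q : ℝ × ℝ → ℝ × ℝ), Continuous p → Continuous q → (∀ z ∈ K, p z ∈ Sc ∧ q z ∈ Sc ∧ dist (p z) (q z) ≤ ρ) →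
      ContinuousOn (fun z => Ω (p z) (q z)) K := by
    intro p q hp hq hpq
    have h1 : ContinuousOn (fun z => (p z, q z)) K := (hp.prodMk hq).continuousOn
    exact h.cont.comp h1 (fun z hz => hpq z hz)
  have v0 : ∀ z ∈ K, z ∈ Sc := fun z hz => hK z hz (by simp [vtx])
  have v1 : ∀ z ∈ K, z + a ∈ Sc := fun z hz => hK z hz (by simp [vtx])
  have v2 : ∀ z ∈ K, z + b ∈ Sc := fun z hz => hK z hz (by simp [vtx])
  have v3 : ∀ z ∈ K, z + a + b ∈ Sc := fun z hz => hK z hz (by simp [vtx])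
  have c1 : Continuous (fun z : ℝ × ℝ => z + a) := continuous_id.add continuous_const
  have c2 : Continuous (fun z : ℝ × ℝ => z + b) := continuous_id.add continuous_const
  have c3 : Continuous (fun z : ℝ × ℝ => z + a + b) := c1.add continuous_const
  have d1 : ∀ z w : ℝ × ℝ, dist z (z + w) = ‖w‖ := fun z w => by
    rw [dist_comm, dist_eq_norm, add_sub_cancel_left]
  have t1 := key (fun z => z) (fun z => z + a) continuous_id c1
    (fun z hz => ⟨v0 z hz, v1 z hz, by rw [d1]; exact ha⟩)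
  have t2 := key (fun z => z + a) (fun z => z + a + b) c1 c3
    (fun z hz => ⟨v1 z hz, v3 z hz, by rw [d1]; exact hb⟩)
  have t3 := key (fun z => z + b) (fun z => z + a + b) c2 c3
    (fun z hz => ⟨v2 z hz, v3 z hz, by rw [show z + a + b = z + b + a by ring, d1]; exact ha⟩)
  have t4 := key (fun z => z) (fun z => z + b) continuous_id c2
    (fun z hz => ⟨v0 z hz, v2 z hz, by rw [d1]; exact hb⟩)
  exact ((t1.add t2).sub t3).sub t4

theorem crc_exact (hX : Npc X gm) {f g : ℝ × ℝ → X} (hf : Lpo f (D \ P)) (hg : Lpo g (D \ P)) (hf' : Glu A B C f)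
    (hg' : Glu A B C g) {d : ℝ} (hd : 0 < d) (hP : ∀ z ∈ D \ P, ∀ p ∈ P, dist z p ≤ d → f z = g z)
    (x : ℝ) {y : ℝ} (hy : 0 < y) :
    ∃ M : ℝ, 0 ≤ M ∧ ∀ S ⊆ U, IsCompact S → ∀ ε : ℝ, 0 < ε → ∀ᶠ h in 𝓝[>] (0:ℝ),
      |∫ z in S, crc f g (h • f1 x y) (h • f2 x y) z / h ^ 2| ≤ M * (volume (U \ S)).toReal + ε := by
  obtain ⟨F, G, ρ, M', hO, hFG⟩ := om_oms hX hf hg hf' hg' hd hP
  have hsy : 0 < Real.sqrt y := Real.sqrt_pos.2 hy
  obtain ⟨K, hK0, hK⟩ := oms_lim hO (al := Real.sqrt y) (be := 1 / Real.sqrt y) hsy (by positivity)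
    (-x / Real.sqrt y)
  have hUo : IsOpen U := isOpen_Ioo.prod isOpen_Ioo
  have hρ := hO.pos
  refine ⟨|M'| * (‖f1 x y‖ + ‖f2 x y‖) ^ 2, by positivity, ?_⟩
  intro S hSU hS ε hε
  obtain ⟨N, hN⟩ : ∃ N : ℝ, N = ‖f1 x y‖ + ‖f2 x y‖ + 1 := ⟨_, rfl⟩
  have hN0 : 0 < N := by rw [hN]; positivity
  have hsmall : ∀ᶠ h in 𝓝[>] (0:ℝ), h < min (ρ / N) (ε / (K + 1)) :=
    mem_nhdsWithin_of_mem_nhds (gt_mem_nhds (by positivity))
  filter_upwards [self_mem_nhdsWithin, hK, cell_sub hUo hS hSU (f1 x y) (f2 x y), hsmall] with h h0 hK' hcell hsm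
  have h0' : (0:ℝ) < h := h0
  have hh1 : h * N ≤ ρ := by
    have := (hsm.trans_le (min_le_left _ _)).le
    rwa [le_div_iff₀ hN0] at this
  have hh2 : K * h ≤ ε := by
    have h1 := (hsm.trans_le (min_le_right _ _)).le
    rw [le_div_iff₀ (by positivity)] at h1
    nlinarith
  have na : ‖h • f1 x y‖ = h * ‖f1 x y‖ := by rw [norm_smul, Real.norm_eq_abs, abs_of_pos h0']
  have nb : ‖h • f2 x y‖ = h * ‖f2 x y‖ := by rw [norm_smul, Real.norm_eq_abs, abs_of_pos h0']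
  have ha : ‖h • f1 x y‖ ≤ ρ := by
    rw [na]
    refine (mul_le_mul_of_nonneg_left ?_ h0'.le).trans hh1
    rw [hN]
    linarith [norm_nonneg (f2 x y)]
  have hb : ‖h • f2 x y‖ ≤ ρ := by
    rw [nb]
    refine (mul_le_mul_of_nonneg_left ?_ h0'.le).trans hh1
    rw [hN]
    linarith [norm_nonneg (f1 x y)]
  obtain ⟨V, hV⟩ : ∃ V : Set (ℝ × ℝ), V = Ioo (0:ℝ) 1 ×ˢ Ioo (0:ℝ) (1/2 - h * (1 / Real.sqrt y)) := ⟨_, rfl⟩
  have hbe : 0 < h * (1 / Real.sqrt y) := by positivity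
  have hVm : MeasurableSet V := by
    rw [hV]
    exact measurableSet_Ioo.prod measurableSet_Ioo
  have hVU : V ⊆ U := by
    rw [hV]
    rintro z ⟨h1, h2⟩
    exact ⟨h1, h2.1, h2.2.trans (by linarith)⟩
  have hUb : volume U < ⊤ := by
    have h1 : U ⊆ Icc (0:ℝ) 1 ×ˢ Icc (0:ℝ) (1/2) := prod_mono Ioo_subset_Icc_self Ioo_subset_Icc_self
    exact (measure_mono h1).trans_lt (isCompact_Icc.prod isCompact_Icc).measure_lt_top
  have hSV : S ⊆ V := by
    intro z hz
    have h1 := hSU hz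
    have h2 : z + h • f2 x y ∈ U := hcell z hz (by simp [vtx])
    have h3 : z.2 + h * (1 / Real.sqrt y) < 1/2 := h2.2.2
    rw [hV]
    exact ⟨h1.1, h1.2.1, by linarith⟩
  have hvt : ∀ z ∈ V, vtx (h • f1 x y) (h • f2 x y) z ⊆ Sc := by
    intro z hz
    rw [hV] at hz
    have h1 : 0 < z.2 := hz.2.1
    have h2 : z.2 < 1/2 - h * (1 / Real.sqrt y) := hz.2.2
    have e1 : (h • f1 x y).2 = 0 := by simp [f1]
    have e2 : (h • f2 x y).2 = h * (1 / Real.sqrt y) := by simp [f2]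
    intro w hw
    change 0 ≤ w.2 ∧ w.2 ≤ 1/2
    rcases hw with rfl | rfl | rfl | hw
    · constructor <;> linarith
    · rw [Prod.snd_add, e1]
      constructor <;> linarith
    · rw [Prod.snd_add, e2]
      constructor <;> linarith
    · rw [mem_singleton_iff.1 hw, Prod.snd_add, Prod.snd_add, e1, e2]
      constructor <;> linarith
  have hcr : ∀ z, crc F G (h • f1 x y) (h • f2 x y) z = crO (om F G) (h • f1 x y) (h • f2 x y) z := fun z => rfl
  have hbd : ∀ z ∈ V, ‖crc F G (h • f1 x y) (h • f2 x y) z / h ^ 2‖ ≤ |M'| * (‖f1 x y‖ + ‖f2 x y‖) ^ 2 := by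
    intro z hz
    have h1 := hO.bd _ _ z ha hb (hvt z hz)
    rw [na, nb] at h1
    rw [Real.norm_eq_abs, abs_div, abs_of_pos (pow_pos h0' 2), div_le_iff₀ (pow_pos h0' 2), hcr]
    refine h1.trans ?_
    have h2 : M' * (h * ‖f1 x y‖ + h * ‖f2 x y‖) ^ 2 ≤ |M'| * (h * ‖f1 x y‖ + h * ‖f2 x y‖) ^ 2 :=
      mul_le_mul_of_nonneg_right (le_abs_self _) (by positivity)
    refine h2.trans (le_of_eq ?_)
    ring
  have hcont : ContinuousOn (fun z => crc F G (h • f1 x y) (h • f2 x y) z / h ^ 2) V :=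
    (Xe_cont hO hvt ha hb).div_const _
  have hVt : volume V < ⊤ := (measure_mono hVU).trans_lt hUb
  have hfin : IsFiniteMeasure (volume.restrict V) := ⟨by rw [Measure.restrict_apply_univ]; exact hVt⟩
  have hint : IntegrableOn (fun z => crc F G (h • f1 x y) (h • f2 x y) z / h ^ 2) V :=
    Integrable.of_bound (hcont.aestronglyMeasurable hVm) (|M'| * (‖f1 x y‖ + ‖f2 x y‖) ^ 2)
      ((ae_restrict_iff' hVm).2 (Eventually.of_forall hbd))
  have hSm : MeasurableSet S := hS.isClosed.measurableSet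
  have e1 : ∫ z in S, crc f g (h • f1 x y) (h • f2 x y) z / h ^ 2 =
      ∫ z in S, crc F G (h • f1 x y) (h • f2 x y) z / h ^ 2 := by
    refine setIntegral_congr_fun hSm ?_
    intro z hz
    have h1 : crc f g (h • f1 x y) (h • f2 x y) z = crc F G (h • f1 x y) (h • f2 x y) z :=
      crc_congr (fun p hp => (hFG p (Xe_sub (hcell z hz hp))).1.symm)
        (fun p hp => (hFG p (Xe_sub (hcell z hz hp))).2.symm)
    change crc f g (h • f1 x y) (h • f2 x y) z / h ^ 2 = crc F G (h • f1 x y) (h • f2 x y) z / h ^ 2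
    rw [h1]
  have e2 : ∫ z in V \ S, crc F G (h • f1 x y) (h • f2 x y) z / h ^ 2 =
      (∫ z in V, crc F G (h • f1 x y) (h • f2 x y) z / h ^ 2) -
        ∫ z in S, crc F G (h • f1 x y) (h • f2 x y) z / h ^ 2 := setIntegral_sdiff hSm hint hSV
  have e3 : |∫ z in V, crc F G (h • f1 x y) (h • f2 x y) z / h ^ 2| ≤ ε := by
    rw [integral_div, abs_div, abs_of_pos (pow_pos h0' 2), div_le_iff₀ (pow_pos h0' 2)]
    rw [← hV] at hK'
    have h1 : |∫ z in V, crc F G (h • f1 x y) (h • f2 x y) z| ≤ K * h ^ 3 := hK'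
    refine h1.trans ?_
    calc K * h ^ 3 = (K * h) * h ^ 2 := by ring
      _ ≤ ε * h ^ 2 := mul_le_mul_of_nonneg_right hh2 (by positivity)
  have e4 : |∫ z in V \ S, crc F G (h • f1 x y) (h • f2 x y) z / h ^ 2| ≤
      |M'| * (‖f1 x y‖ + ‖f2 x y‖) ^ 2 * (volume (U \ S)).toReal := by
    have h1 := norm_setIntegral_le_of_norm_le_const (μ := volume) (s := V \ S)
      ((measure_mono sdiff_subset).trans_lt hVt) (fun z hz => hbd z hz.1)
    rw [Real.norm_eq_abs] at h1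
    refine h1.trans (mul_le_mul_of_nonneg_left ?_ (by positivity))
    exact ENNReal.toReal_mono ((measure_mono sdiff_subset).trans_lt hUb).ne
      (measure_mono (sdiff_subset_sdiff_left hVU))
  rw [e1]
  have e5 := abs_le.1 e3
  have e6 := abs_le.1 e4
  rw [abs_le]
  constructor <;> linarith [e5.1, e5.2, e6.1, e6.2]

end H84NS
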