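import Pool.Agent.H84.NS.Df

set_option autoImplicit false

/-!
# Row Yb: patching of compact sets (pure measure theory)

Good is a property of compact subsets of U, additive for disjoint unions.
(1) For a measurable set A in U say A is fine if for every eta > 0 there is a compact C in A with Good C and volume (A \ C) <= eta. volume U < oo, volume is regular (inner regular for measurable sets of finite measure:
    MeasurableSet.exists_isCompact_diff_lt or MeasurableSet.exists_isCompact_lt_add + measure_diff).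
    (a) A measurable such that all the compact subsets of A are Good is fine.  (b) A, A' fine and disjoint => A ∪ A' fine (compact sets C in A, C' in A' are disjoint; hun; (A ∪ A') \ (C ∪ C') ⊆ (A \ C) ∪ (A' \ C')).
(2) For a finite list of open sets O_1..O_n as in hW every measurable A ⊆ (U \ Z0) ∩ (O_1 ∪ .. ∪ O_n) is fine: induction on n: A = (A ∩ O_1) ∪ (A \ O_1), (a) for A ∩ O_1 (its compact subsets are in O_1 ∩ (U \ Z0)), induction for A \ O_1. (empty list: A = empty,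
    Good empty by hZ.)
(3) U \ Z0 is measurable of finite measure: compact K in U \ Z0 with volume ((U \ Z0) \ K) <= eta/3; cover K by finitely many O_z (IsCompact.elim_finite_subcover / elim_nhds_subcover); K is fine by (2); Z0 is fine by (a); so Z0 ∪ K is fine: C compact
    in Z0 ∪ K, Good C, volume ((Z0 ∪ K) \ C) <= eta/3, and U \ C ⊆ ((U \ Z0) \ K) ∪ ((Z0 ∪ K) \ C).
-/

namespace H84NS

open MeasureTheory Set Filter Topology
open H80HM (D U P f1 f2)

def Yb_fine (Good : Set (ℝ × ℝ) → Prop) (A : Set (ℝ × ℝ)) : Prop :=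
  ∀ ε : ENNReal, ε ≠ 0 → ∃ C ⊆ A, IsCompact C ∧ Good C ∧ volume (A \ C) ≤ ε

theorem Yb_fin {A : Set (ℝ × ℝ)} (hA : A ⊆ U) : volume A ≠ ⊤ := by
  have h1 : A ⊆ Icc (0:ℝ) 1 ×ˢ Icc (0:ℝ) (1/2) :=
    hA.trans (prod_mono Ioo_subset_Icc_self Ioo_subset_Icc_self)
  have h2 : IsCompact (Icc (0:ℝ) 1 ×ˢ Icc (0:ℝ) (1/2)) := isCompact_Icc.prod isCompact_Icc
  exact ((measure_mono h1).trans_lt h2.measure_lt_top).ne

theorem Yb_a {Good : Set (ℝ × ℝ) → Prop} {A : Set (ℝ × ℝ)} (hAm : MeasurableSet A) (hAU : A ⊆ U)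
    (h : ∀ C ⊆ A, IsCompact C → Good C) : Yb_fine Good A := by
  intro ε hε
  obtain ⟨K, hKA, hK, hv⟩ := hAm.exists_isCompact_sdiff_lt (Yb_fin hAU) hε
  exact ⟨K, hKA, hK, h K hKA hK, hv.le⟩

theorem Yb_b {Good : Set (ℝ × ℝ) → Prop}
    (hun : ∀ C C' : Set (ℝ × ℝ), IsCompact C → IsCompact C' → C ⊆ U → C' ⊆ U → Disjoint C C' → Good C → Good C' →
      Good (C ∪ C'))
    {A A' : Set (ℝ × ℝ)} (hAU : A ⊆ U) (hAU' : A' ⊆ U) (hd : Disjoint A A') (h : Yb_fine Good A)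
    (h' : Yb_fine Good A') : Yb_fine Good (A ∪ A') := by
  intro ε hε
  have hε2 : ε / 2 ≠ 0 := (ENNReal.half_pos hε).ne'
  obtain ⟨C, hCA, hC, hG, hv⟩ := h _ hε2
  obtain ⟨C', hCA', hC', hG', hv'⟩ := h' _ hε2
  refine ⟨C ∪ C', union_subset_union hCA hCA', hC.union hC',
    hun C C' hC hC' (hCA.trans hAU) (hCA'.trans hAU') (hd.mono hCA hCA') hG hG', ?_⟩
  have h1 : (A ∪ A') \ (C ∪ C') ⊆ (A \ C) ∪ (A' \ C') := by
    rintro x ⟨hx | hx, hxn⟩
    · exact Or.inl ⟨hx, fun h => hxn (Or.inl h)⟩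
    · exact Or.inr ⟨hx, fun h => hxn (Or.inr h)⟩
  calc volume ((A ∪ A') \ (C ∪ C')) ≤ volume ((A \ C) ∪ (A' \ C')) := measure_mono h1
    _ ≤ volume (A \ C) + volume (A' \ C') := measure_union_le _ _
    _ ≤ ε / 2 + ε / 2 := add_le_add hv hv'
    _ = ε := ENNReal.add_halves ε

theorem Yb_c {Good : Set (ℝ × ℝ) → Prop}
    (hun : ∀ C C' : Set (ℝ × ℝ), IsCompact C → IsCompact C' → C ⊆ U → C' ⊆ U → Disjoint C C' → Good C → Good C' →
      Good (C ∪ C'))
    {Z0 : Set (ℝ × ℝ)} (h0 : Good ∅) (O : ℝ × ℝ → Set (ℝ × ℝ)) (t : Finset (ℝ × ℝ)) :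
    (∀ i ∈ t, IsOpen (O i) ∧ ∀ C ⊆ O i ∩ (U \ Z0), IsCompact C → Good C) →
    ∀ A ⊆ U \ Z0, MeasurableSet A → A ⊆ ⋃ i ∈ t, O i → Yb_fine Good A := by
  classical
  induction t using Finset.induction_on with
  | empty =>
    intro _ A _ _ hA
    have hA0 : A = ∅ := by
      apply subset_empty_iff.1
      intro x hx
      have := hA hx
      simp at this
    rw [hA0]
    intro ε _
    exact ⟨∅, subset_rfl, isCompact_empty, h0, by simp⟩
  | insert i t _ ih =>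
    intro h A hAU hAm hA
    have hi := h i (Finset.mem_insert_self i t)
    have e : A = (A ∩ O i) ∪ (A \ O i) := (inter_union_sdiff A (O i)).symm
    have hAU2 : A ⊆ U := fun x hx => (hAU hx).1
    rw [e]
    refine Yb_b hun (inter_subset_left.trans hAU2) (sdiff_subset.trans hAU2) ?_ ?_ ?_
    · rw [disjoint_left]
      intro x hx hx'
      exact hx'.2 hx.2
    · refine Yb_a (hAm.inter hi.1.measurableSet) (inter_subset_left.trans hAU2) ?_
      intro C hC hCc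
      exact hi.2 C (fun x hx => ⟨(hC hx).2, hAU (hC hx).1⟩) hCc
    · refine ih (fun j hj => h j (Finset.mem_insert_of_mem hj)) _ (sdiff_subset.trans hAU)
        (hAm.diff hi.1.measurableSet) ?_
      intro x hx
      have h1 := hA hx.1
      rw [mem_iUnion₂] at h1
      obtain ⟨j, hj, hxj⟩ := h1
      rcases Finset.mem_insert.1 hj with rfl | hj
      · exact absurd hxj hx.2
      · exact mem_iUnion₂.2 ⟨j, hj, hxj⟩

theorem patch {Good : Set (ℝ × ℝ) → Prop}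
    (hun : ∀ C C' : Set (ℝ × ℝ), IsCompact C → IsCompact C' → C ⊆ U → C' ⊆ U → Disjoint C C' → Good C → Good C' →
      Good (C ∪ C'))
    {Z0 : Set (ℝ × ℝ)} (hZm : MeasurableSet Z0) (hZU : Z0 ⊆ U) (hZ : ∀ C ⊆ Z0, IsCompact C → Good C)
    (hW : ∀ z ∈ U \ Z0, ∃ O : Set (ℝ × ℝ), IsOpen O ∧ z ∈ O ∧ ∀ C ⊆ O ∩ (U \ Z0), IsCompact C → Good C)
    {η : ℝ} (hη : 0 < η) : ∃ C ⊆ U, IsCompact C ∧ Good C ∧ volume (U \ C) ≤ ENNReal.ofReal η := by
  have hε : ENNReal.ofReal η ≠ 0 := (ENNReal.ofReal_pos.2 hη).ne'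
  have hε2 : ENNReal.ofReal η / 2 ≠ 0 := (ENNReal.half_pos hε).ne'
  have hUm : MeasurableSet U := (isOpen_Ioo.prod isOpen_Ioo).measurableSet
  have hUZ : MeasurableSet (U \ Z0) := hUm.diff hZm
  obtain ⟨K, hKA, hK, hv⟩ := hUZ.exists_isCompact_sdiff_lt (Yb_fin sdiff_subset) hε2
  choose! O hO using hW
  obtain ⟨t, ht1, ht2⟩ := hK.elim_nhds_subcover O
    (fun z hz => (hO z (hKA hz)).1.mem_nhds (hO z (hKA hz)).2.1)
  have h0 : Good ∅ := hZ ∅ (empty_subset _) isCompact_empty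
  have hKf : Yb_fine Good K := Yb_c hun (Z0 := Z0) h0 O t
    (fun i hi => ⟨(hO i (hKA (ht1 i hi))).1, (hO i (hKA (ht1 i hi))).2.2⟩) K hKA hK.measurableSet ht2
  have hZf : Yb_fine Good Z0 := Yb_a hZm hZU hZ
  have hKU : K ⊆ U := fun x hx => (hKA hx).1
  have hZK : Disjoint Z0 K := by
    rw [disjoint_left]
    intro x hx hx'
    exact (hKA hx').2 hx
  obtain ⟨C, hCA, hC, hG, hv'⟩ := Yb_b hun hZU hKU hZK hZf hKf _ hε2
  refine ⟨C, hCA.trans (union_subset hZU hKU), hC, hG, ?_⟩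
  have h1 : U \ C ⊆ ((U \ Z0) \ K) ∪ ((Z0 ∪ K) \ C) := by
    rintro x ⟨hx, hxC⟩
    by_cases h2 : x ∈ Z0
    · exact Or.inr ⟨Or.inl h2, hxC⟩
    · by_cases h3 : x ∈ K
      · exact Or.inr ⟨Or.inr h3, hxC⟩
      · exact Or.inl ⟨⟨hx, h2⟩, h3⟩
  calc volume (U \ C) ≤ volume (((U \ Z0) \ K) ∪ ((Z0 ∪ K) \ C)) := measure_mono h1
    _ ≤ volume ((U \ Z0) \ K) + volume ((Z0 ∪ K) \ C) := measure_union_le _ _
    _ ≤ ENNReal.ofReal η / 2 + ENNReal.ofReal η / 2 := add_le_add hv.le hv'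
    _ = ENNReal.ofReal η := ENNReal.add_halves _

end H84NS
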