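import Pool.Agent.H84.NS.Ya
import Pool.Agent.H84.NS.Yb
import Pool.Agent.H84.NS.Xe

set_option autoImplicit false

/-!
# Row Yc: the density Yd has nonnegative integral

v k := ip gm g (gk k) l.  Uses the statements of Ya (zero_ls), Lc (loc_ls), Yb (patch), Xe (crc_exact), Cb (crc_int), Xg (clx_int, clx_e2).
(0) Yd is integrable on U: Yd is a finite linear combination of sp f t^2 (t = f1, f2, fe, ff) with f = g, v k, ip gm g (v k) (fun _ => th), all in Clx (hypotheses hg, hv, hm): clx_int.  On U all maps are Lpo (Clx.lip, lpo_mono, u_sub_D).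
(1) patch with Good := LSp gm x y s th g v, Z0 := {z in U | l z = 0} (measurable: l continuous):
    hun: for compact disjoint C, C' in U: integrals over C ∪ C' add (setIntegral_union; Yd integrable on U; Cs/h^2 integrable on C and C' for small h: crc_int with O = U and the four pairs), eps/2 + eps/2.
    hZ: zero_ls with O = U.
    hW: z in U, l z <> 0: hloc gives O0 open, z in O0, Loc gm O0 g gk. Take O := O0 ∩ U ∩ {l <> 0}... (open). On O the maps v k take values in S (cvx, with t = l z in [0,1]), so Loc gm O g v with the same N, S, tau, sig, c0. loc_ls: Good C for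
    compact C ⊆ O.
(2) near P: v k = g = v (k+1) on z in D \ P with dist z p <= d for some p in P (l z = 0: hX.zero): crc_exact gives M k for the pair (v k, v (k+1)) (Clx.lip, Clx.glu).
(3) Let eps > 0. By absolute continuity (Integrable: exists delta with |int_{U \ C} Yd| <= eps when volume (U \ C) <= delta; e.g. MeasureTheory.Integrable... `tendsto_setIntegral_nhds_zero` or
    `MeasureTheory.HasFiniteIntegral`/`exists_pos_setLIntegral_lt_of_measure_lt`), take eta <= delta with (sum_k M k) eta <= eps; C from patch. For small h > 0 all the (finitely many) eventual statements hold, pick such an h: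
      -(e^s int_C Yd) - eps <= int_C Cs/h^2 = sum_k int_C crc_k/h^2 <= sum_k (M k eta + eps) <= 5 eps,
    so int_C Yd >= -6 eps e^-s >= -6 eps, and int_U Yd = int_C Yd + int_{U \ C} Yd >= -7 eps. eps -> 0.
-/

namespace H84NS

open H50NA H98NX MeasureTheory Set Filter Topology
open H80HM (D U P f1 f2)
open scoped NNReal

variable {X : Type} [MetricSpace X] {gm : X → X → ℝ → X} {A B C : X ≃ᵢ X}

private theorem yc_abs {f : ℝ × ℝ → ℝ} (hf : IntegrableOn f U) {ε : ℝ} (hε : 0 < ε) :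
    ∃ δ : ℝ, 0 < δ ∧ ∀ S ⊆ U, volume S ≤ ENNReal.ofReal δ → |∫ z in S, f z| ≤ ε := by
  have h1 : ∫⁻ z, ‖f z‖ₑ ∂(volume.restrict U) ≠ ⊤ := hf.2.ne
  obtain ⟨d, hd, hd1⟩ := exists_pos_setLIntegral_lt_of_measure_lt h1
    (ε := ENNReal.ofReal ε) (by simpa using hε)
  obtain ⟨r, hr0, hr⟩ := ENNReal.lt_iff_exists_nnreal_btwn.1 hd
  have hr0' : 0 < (r : ℝ) := by exact_mod_cast hr0
  refine ⟨r, hr0', fun S hS hv => ?_⟩
  have h2 : (volume.restrict U) S < d := by
    refine lt_of_le_of_lt (Measure.restrict_le_self S) (lt_of_le_of_lt hv ?_)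
    rw [ENNReal.ofReal_coe_nnreal]
    exact hr
  have h3 := hd1 S h2
  have h4 : (volume.restrict U).restrict S = volume.restrict S := by
    rw [Measure.restrict_restrict' u_open.measurableSet, inter_eq_self_of_subset_left hS]
  rw [h4] at h3
  have h5 := enorm_integral_le_lintegral_enorm (μ := volume.restrict S) f
  have h6 := h5.trans h3.le
  rw [Real.enorm_eq_ofReal_abs] at h6
  exact (ENNReal.ofReal_le_ofReal_iff hε.le).1 h6

private theorem yc_cs {v : Fin 4 → ℝ × ℝ → X} (hv : ∀ k, Lpo (v k) U) {S : Set (ℝ × ℝ)}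
    (hS : IsCompact S) (hSU : S ⊆ U) (x y : ℝ) :
    ∀ᶠ h in 𝓝[>] (0:ℝ), (∀ k, IntegrableOn
      (fun z => crc (v k) (v (k + 1)) (h • f1 x y) (h • f2 x y) z / h ^ 2) S) ∧
      IntegrableOn (fun z => Cs x y h v z / h ^ 2) S := by
  have h1 : ∀ᶠ h in 𝓝[>] (0:ℝ), ∀ k, IntegrableOn
      (fun z => crc (v k) (v (k + 1)) (h • f1 x y) (h • f2 x y) z) S := by
    rw [Filter.eventually_all]
    intro k
    exact crc_int u_open (hv k) (hv (k + 1)) hS hSU Subset.rfl hS.measurableSet _ _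
  filter_upwards [h1] with h hh
  refine ⟨fun k => (hh k).div_const _, ?_⟩
  have h2 : IntegrableOn (fun z => ∑ k, crc (v k) (v (k + 1)) (h • f1 x y) (h • f2 x y) z) S :=
    integrable_finsetSum _ fun k _ => hh k
  exact h2.div_const _

private theorem yc_int (hX : Npc X gm) {g : ℝ × ℝ → X} {v : Fin 4 → ℝ × ℝ → X}
    (hg : Clx A B C g) (hv : ∀ k, Clx A B C (v k)) (x y s th : ℝ)
    (hm : ∀ k, Clx A B C (ip gm g (v k) (fun _ => th))) :
    IntegrableOn (Yd gm x y s th g v) U := by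
  have h1 : ∀ k, IntegrableOn (ek x y s k (v k)) U := fun k =>
    ((clx_int hX (hv k) _).const_mul _).add ((clx_int hX (hv k) _).const_mul _)
  have h2 : ∀ k, IntegrableOn (Bd gm x y th g (v k)) U := fun k =>
    (((clx_e2 hX (hm k) x y).sub (clx_e2 hX hg x y)).div_const _).sub
      (((clx_e2 hX (hv k) x y).add (clx_e2 hX hg x y)).const_mul _)
  have h3 : IntegrableOn (fun z => ∑ k, ek x y s k (v k) z) U :=
    integrable_finsetSum _ fun k _ => h1 k
  have h4 : IntegrableOn (fun z => ∑ k, Bd gm x y th g (v k) z) U :=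
    integrable_finsetSum _ fun k _ => h2 k
  exact (h3.sub ((clx_e2 hX hg x y).const_mul _)).sub (h4.const_mul _)

theorem y_nonneg (hX : Npc X gm) {g : ℝ × ℝ → X} {gk : Fin 4 → ℝ × ℝ → X} {l : ℝ × ℝ → ℝ}
    (hg : Clx A B C g) (hgk : ∀ k, Clx A B C (gk k)) (hv : ∀ k, Clx A B C (ip gm g (gk k) l))
    (hl : ∃ K : ℝ≥0, LipschitzWith K l) (h01 : ∀ z, 0 ≤ l z ∧ l z ≤ 1)
    {d : ℝ} (hd : 0 < d) (hP : ∀ z ∈ D \ P, ∀ p ∈ P, dist z p ≤ d → l z = 0)
    (hloc : ∀ z ∈ U, l z ≠ 0 → ∃ O : Set (ℝ × ℝ), IsOpen O ∧ z ∈ O ∧ Loc gm O g gk)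
    (x : ℝ) {y s th : ℝ} (hy : 0 < y) (hs : 0 ≤ s) (h0 : 0 < th) (h1 : th ≤ 1)
    (hm : ∀ k, Clx A B C (ip gm g (ip gm g (gk k) l) (fun _ => th))) :
    IntegrableOn (Yd gm x y s th g (fun k => ip gm g (gk k) l)) U ∧
      0 ≤ ∫ z in U, Yd gm x y s th g (fun k => ip gm g (gk k) l) z := by
  have hvd : ∀ k, (fun k => ip gm g (gk k) l) k = ip gm g (gk k) l := fun _ => rfl
  obtain ⟨v, hvv⟩ : ∃ v : Fin 4 → ℝ × ℝ → X, v = fun k => ip gm g (gk k) l := ⟨_, rfl⟩
  have hve : ∀ k z, v k z = gm (g z) (gk k z) (l z) := fun k z => by rw [hvv]; rfl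
  have hv' : ∀ k, Clx A B C (v k) := fun k => by rw [hvv]; exact hv k
  have hm' : ∀ k, Clx A B C (ip gm g (v k) (fun _ => th)) := fun k => by rw [hvv]; exact hm k
  rw [← hvv]
  have hint : IntegrableOn (Yd gm x y s th g v) U := yc_int hX hg hv' x y s th hm'
  refine ⟨hint, ?_⟩
  have hvU : ∀ k, Lpo (v k) U := fun k => lpo_mono u_sub_D (hv' k).lip
  have hgU : Lpo g U := lpo_mono u_sub_D hg.lip
  have hlU : ∀ O : Set (ℝ × ℝ), Lpo l O := by
    obtain ⟨K, hK⟩ := hl
    exact fun O S _ _ => ⟨K, fun p _ q _ => hK.dist_le_mul p q⟩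
  have hlc : Continuous l := by
    obtain ⟨K, hK⟩ := hl
    exact hK.continuous
  have hZm : MeasurableSet {z : ℝ × ℝ | z ∈ U ∧ l z = 0} :=
    u_open.measurableSet.inter (isClosed_singleton.preimage hlc).measurableSet
  -- circulations near the punctures
  have hcr : ∀ k : Fin 4, ∃ M : ℝ, 0 ≤ M ∧ ∀ S ⊆ U, IsCompact S → ∀ ε : ℝ, 0 < ε →
      ∀ᶠ h in 𝓝[>] (0:ℝ),
      |∫ z in S, crc (v k) (v (k + 1)) (h • f1 x y) (h • f2 x y) z / h ^ 2| ≤
        M * (volume (U \ S)).toReal + ε := by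
    intro k
    refine crc_exact hX (hv' k).lip (hv' (k + 1)).lip (hv' k).glu (hv' (k + 1)).glu hd ?_ x hy
    intro z hz p hp hzp
    rw [hve, hve, hP z hz p hp hzp, hX.zero, hX.zero]
  choose M hM0 hM using hcr
  have hMs : 0 ≤ ∑ k, M k := Finset.sum_nonneg fun k _ => hM0 k
  -- the main estimate
  have main : ∀ ε : ℝ, 0 < ε → -(7 * ε) ≤ ∫ z in U, Yd gm x y s th g v z := by
    intro ε hε
    obtain ⟨δ, hδ, hδ1⟩ := yc_abs hint hε
    obtain ⟨η, hη⟩ : ∃ η : ℝ, η = min δ (ε / (∑ k, M k + 1)) := ⟨_, rfl⟩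
    have hη0 : 0 < η := by rw [hη]; positivity
    have hη1 : η ≤ δ := by rw [hη]; exact min_le_left _ _
    have hη2 : (∑ k, M k) * η ≤ ε := by
      have h1 : η ≤ ε / (∑ k, M k + 1) := by rw [hη]; exact min_le_right _ _
      have h2 : (∑ k, M k + 1) * η ≤ ε := by
        rw [le_div_iff₀ (by positivity)] at h1
        linarith
      nlinarith
    have hun : ∀ S S' : Set (ℝ × ℝ), IsCompact S → IsCompact S' → S ⊆ U → S' ⊆ U →
        Disjoint S S' → LSp gm x y s th g v S → LSp gm x y s th g v S' →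
        LSp gm x y s th g v (S ∪ S') := by
      intro S S' hS hS' hSU hSU' hdis hG hG' e he
      have a1 := yc_cs hvU hS hSU x y
      have a2 := yc_cs hvU hS' hSU' x y
      filter_upwards [hG (e / 2) (by positivity), hG' (e / 2) (by positivity), a1, a2] with
        h b1 b2 b3 b4
      rw [setIntegral_union hdis hS'.measurableSet (hint.mono_set hSU) (hint.mono_set hSU'),
        setIntegral_union hdis hS'.measurableSet b3.2 b4.2]
      linarith
    have hzero : ∀ S ⊆ {z : ℝ × ℝ | z ∈ U ∧ l z = 0}, IsCompact S → LSp gm x y s th g v S := by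
      intro S hS hSc
      have h1 := zero_ls hX u_open hgU (fun k => lpo_mono u_sub_D (hgk k).lip) (hlU U) h01 hSc
        (fun z hz => (hS hz).1) (fun z hz => (hS hz).2) x hy hs h0 h1
      rw [hvv]
      exact h1
    have hout : ∀ z ∈ U \ {z : ℝ × ℝ | z ∈ U ∧ l z = 0}, ∃ O : Set (ℝ × ℝ), IsOpen O ∧ z ∈ O ∧
        ∀ S ⊆ O ∩ (U \ {z : ℝ × ℝ | z ∈ U ∧ l z = 0}), IsCompact S →
          LSp gm x y s th g v S := by
      intro z hz
      have hlz : l z ≠ 0 := fun h => hz.2 ⟨hz.1, h⟩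
      obtain ⟨O, hO, hzO, N, S, tau, sig, c0, hPs, hS, hc0⟩ := hloc z hz.1 hlz
      refine ⟨O, hO, hzO, fun S' hS' hSc' => ?_⟩
      have hLoc : Loc gm (O ∩ U) g v := by
        refine ⟨N, S, tau, sig, c0, hPs, fun p hp => ⟨(hS p hp.1).1, fun k => ?_⟩,
          fun p hp => hc0 p hp.1⟩
        rw [hve]
        exact hPs.cvx _ (hS p hp.1).1 _ ((hS p hp.1).2 k) _ (h01 p).1 (h01 p).2
      exact loc_ls hX (hO.inter u_open) (lpo_mono inter_subset_right hgU)
        (fun k => lpo_mono inter_subset_right (hvU k)) hLoc hSc'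
        (fun p hp => ⟨(hS' hp).1, (hS' hp).2.1⟩) x hy hs h0 h1
    obtain ⟨S, hSU, hSc, hSg, hSv⟩ := patch (Good := LSp gm x y s th g v) hun hZm
      (fun z hz => hz.1) hzero hout hη0
    have hvr : (volume (U \ S)).toReal ≤ η := by
      have := ENNReal.toReal_mono ENNReal.ofReal_ne_top hSv
      rwa [ENNReal.toReal_ofReal hη0.le] at this
    have e1 := hSg ε hε
    have e2 := yc_cs hvU hSc hSU x y
    have e3 : ∀ᶠ h in 𝓝[>] (0:ℝ), ∀ k : Fin 4,
        |∫ z in S, crc (v k) (v (k + 1)) (h • f1 x y) (h • f2 x y) z / h ^ 2| ≤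
          M k * (volume (U \ S)).toReal + ε := by
      rw [Filter.eventually_all]
      exact fun k => hM k S hSU hSc ε hε
    obtain ⟨h, h1, h2, h3⟩ := (e1.and (e2.and e3)).exists
    have h4 : ∫ z in S, Cs x y h v z / h ^ 2 = ∑ k : Fin 4,
        ∫ z in S, crc (v k) (v (k + 1)) (h • f1 x y) (h • f2 x y) z / h ^ 2 := by
      rw [← integral_finsetSum _ fun k _ => h2.1 k]
      refine integral_congr_ae (Filter.Eventually.of_forall fun z => ?_)
      simp only [Cs, Finset.sum_div]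
    have h5 : ∫ z in S, Cs x y h v z / h ^ 2 ≤ 5 * ε := by
      rw [h4]
      calc ∑ k : Fin 4, ∫ z in S, crc (v k) (v (k + 1)) (h • f1 x y) (h • f2 x y) z / h ^ 2
          ≤ ∑ k : Fin 4, (M k * η + ε) := by
            refine Finset.sum_le_sum fun k _ => (le_abs_self _).trans ((h3 k).trans ?_)
            have := mul_le_mul_of_nonneg_left hvr (hM0 k)
            linarith
        _ = (∑ k, M k) * η + 4 * ε := by
            rw [Finset.sum_add_distrib, Finset.sum_mul]
            simp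
        _ ≤ 5 * ε := by linarith
    obtain ⟨J, hJ⟩ : ∃ J : ℝ, J = ∫ z in S, Yd gm x y s th g v z := ⟨_, rfl⟩
    have h6 : -(6 * ε) ≤ J := by
      rw [← hJ] at h1
      have h7 : -(6 * ε) ≤ Real.exp s * J := by linarith
      have h8 : 1 ≤ Real.exp s := Real.one_le_exp hs
      rcases le_or_gt 0 J with h9 | h9
      · linarith
      · nlinarith
    have h7 : ∫ z in U, Yd gm x y s th g v z = J + ∫ z in U \ S, Yd gm x y s th g v z := by
      rw [hJ, ← setIntegral_union disjoint_sdiff_right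
        (u_open.measurableSet.diff hSc.measurableSet) (hint.mono_set hSU)
        (hint.mono_set diff_subset), union_diff_cancel hSU]
    have h8 := hδ1 (U \ S) diff_subset (hSv.trans (ENNReal.ofReal_le_ofReal hη1))
    have h9 := abs_le.1 h8
    rw [h7]
    linarith [h9.1]
  by_contra hcon
  push Not at hcon
  have := main (-(∫ z in U, Yd gm x y s th g v z) / 14) (by linarith)
  linarith

end H84NS
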