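import Pool.Agent.H84.NS.Fc
import Pool.Agent.H84.NS.Ic
import Pool.Agent.H84.NS.Yc

set_option autoImplicit false

/-!
# Row Fe: the four point inequality at one s

Uses the statements of Fb (ex_four, ty_pos), Fc (y_sum), Ic (interp), Ib (near_en), Yc (y_nonneg), La (alg_coef), Va (cl0_const), Vc (E0_le, E0_nonneg).
M0 := E0 A B C r o x y. Kc from interp (x0 = x, y0 = y). For each k: interp with h = gk k, x1 = tx k, y1 = ty k, th = thk k (its hypothesis on the energy is ex_four, unfold ek): v k := ip gm g (gk k) l is in Cl0 and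
  E_k(v k) <= E_k(gk k) + Kc (sqrt e s^2 + s^3) <= E0 (tx k) (ty k) + s^6 + Kc (sqrt e s^2 + s^3).                       (1)
y_nonneg with th = s^3 in (0,1] (ip gm g (v k) (fun _ => s^3) in Cl0 by cl0_const), then y_sum:
  sum_k E_k(v k) >= coef E_0(g) - 4 s^3 sum_k (1 + E_0(v k) + E_0(g)).                                                    (2)
Bounds: M0 <= E_0(g) <= M0 + 1;  E_0(v k) <= e^s E_k(v k) (near_en, third statement, with ep = s^6) <= 3 (E0 (tx k)(ty k) + 1 + 2 Kc) and E0 (tx k)(ty k) <= E_k(g) <= e^s E_0(g) <= 3 (M0+1)  (e^s <= 3).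
  coef E_0(g) >= (4 - 100 s^3) E_0(g) >= 4 M0 - 100 s^3 (M0+1)  (alg_coef).
(1), (2): sum_k E0 (tx k)(ty k) >= 4 M0 - K9 (s^3 + sqrt e s^2), K9 := 4 + 4 Kc + 100 (M0+1) + 16 (1 + 3 (3 (M0+1) + 1 + 2 Kc) + M0 + 1)   (s^6 <= s^3).
-/

namespace H84NS

open H50NA H98NX MeasureTheory Set Filter Topology
open H80HM (D U P f1 f2)
open H46SB (gr)
open scoped NNReal

variable {X : Type} [MetricSpace X] {gm : X → X → ℝ → X}

/-- arithmetic of the last step -/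
theorem Fe_ar {M0 G cf s3 s6 R Kc S0 S1 S2 : ℝ} (hM : 0 ≤ M0) (hMG : M0 ≤ G) (hGM : G ≤ M0 + 1)
    (hcf : 4 - 100 * s3 ≤ cf) (hs3 : 0 ≤ s3) (hs6 : s6 ≤ s3) (hR : 0 ≤ R) (hK : 0 ≤ Kc)
    (h1 : cf * G - 4 * s3 * S2 ≤ S1) (h2 : S1 ≤ S0 + 4 * s6 + 4 * (Kc * (R + s3)))
    (h3 : S2 ≤ 4 * (1 + 3 * (3 * (M0 + 1) + 1 + 2 * Kc) + (M0 + 1))) :
    4 * M0 - (4 + 4 * Kc + 100 * (M0 + 1) + 16 * (1 + 3 * (3 * (M0 + 1) + 1 + 2 * Kc) + (M0 + 1))) *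
      (s3 + R) ≤ S0 := by
  have hG : 0 ≤ G := hM.trans hMG
  have a1 : (4 - 100 * s3) * G ≤ cf * G := mul_le_mul_of_nonneg_right hcf hG
  have a2 : s3 * G ≤ s3 * (M0 + 1) := mul_le_mul_of_nonneg_left hGM hs3
  have a3 := mul_le_mul_of_nonneg_left h3 hs3
  have a4 : 0 ≤ M0 * R := mul_nonneg hM hR
  have a5 : 0 ≤ Kc * R := mul_nonneg hK hR
  have e1 : (4 - 100 * s3) * G = 4 * G - 100 * (s3 * G) := by ring
  have e2 : 4 * s3 * S2 = 4 * (s3 * S2) := by ring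
  rw [e1] at a1
  rw [e2] at h1
  have e3 : (4 + 4 * Kc + 100 * (M0 + 1) + 16 * (1 + 3 * (3 * (M0 + 1) + 1 + 2 * Kc) + (M0 + 1))) *
      (s3 + R) = 4 * s3 + 4 * (Kc * (R + s3)) + 100 * (s3 * (M0 + 1)) +
      4 * (s3 * (4 * (1 + 3 * (3 * (M0 + 1) + 1 + 2 * Kc) + (M0 + 1)))) +
      (4 + 100 + 16 * (1 + 9 + 3 + 1)) * R + (100 + 16 * 10) * (M0 * R) + 96 * (Kc * R) := by ring
  rw [e3]
  linarith

/-- bound of the energy of the interpolation -/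
theorem Fe_v {M0 Ek E0k Eg Ev Kc R s3 s6 s G E : ℝ} (hK : 0 ≤ Kc) (hs : s ≤ 1)
    (hR : R ≤ 1) (hs3 : s3 ≤ 1) (hs6 : s6 ≤ 1) (hM : 0 ≤ M0)
    (h1 : E ≤ Ek + Kc * (R + s3)) (h2 : Ek ≤ E0k + s6) (h3 : E0k ≤ Eg) (h4 : Eg ≤ Real.exp s * G)
    (h5 : G ≤ M0 + 1) (h6 : Real.exp (-s) * Ev ≤ E) (hE : 0 ≤ E) :
    Ev ≤ 3 * (3 * (M0 + 1) + 1 + 2 * Kc) := by
  have hexp : Real.exp s ≤ 3 := by
    have := Real.exp_one_lt_d9
    have h := Real.exp_le_exp.2 hs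
    linarith
  have hp := Real.exp_pos s
  have a1 : Real.exp s * G ≤ 3 * (M0 + 1) := by
    calc Real.exp s * G ≤ Real.exp s * (M0 + 1) := mul_le_mul_of_nonneg_left h5 hp.le
      _ ≤ 3 * (M0 + 1) := mul_le_mul_of_nonneg_right hexp (by linarith)
  have a2 : Kc * (R + s3) ≤ Kc * 2 := mul_le_mul_of_nonneg_left (by linarith) hK
  have a3 : E ≤ 3 * (M0 + 1) + 1 + 2 * Kc := by linarith
  have a4 : Ev ≤ Real.exp s * E := by
    have := mul_le_mul_of_nonneg_left h6 hp.le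
    rwa [← mul_assoc, ← Real.exp_add, add_neg_cancel, Real.exp_zero, one_mul] at this
  calc Ev ≤ Real.exp s * E := a4
    _ ≤ 3 * E := mul_le_mul_of_nonneg_right hexp hE
    _ ≤ 3 * (3 * (M0 + 1) + 1 + 2 * Kc) := by linarith

theorem one_s (hX : Npc X gm) (A B C : X ≃ᵢ X) {r : ℝ} {o : X} (x : ℝ) {y : ℝ} (hr : 0 < r) (hr8 : r < 1 / 8)
    (hy : 0 < y) :
    ∃ K9 : ℝ, 0 ≤ K9 ∧ ∀ (g : ℝ × ℝ → X) (gk : Fin 4 → ℝ × ℝ → X) (l : ℝ × ℝ → ℝ) (s e d : ℝ), 0 < s → s ≤ 1 →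
      0 ≤ e → e ≤ 1 → 0 < d →
      Nr A B C r o x y (s ^ 6) g → (∀ k, Nr A B C r o (tx x y s k) (ty y s k) (s ^ 6) (gk k)) →
      (∃ K : ℝ≥0, LipschitzWith K l) → (∀ z, 0 ≤ l z ∧ l z ≤ 1) → Sy l →
      (∀ q : ℝ × ℝ → ℝ, Lpo q (D \ P) → (∀ z ∈ Zr r, q z = 0) → IntegrableOn (fun z => q z ^ 2) U →
        IntegrableOn (gr q) U → IntegrableOn (fun z => gr l z * q z ^ 2) U ∧
          ∫ z in U, gr l z * q z ^ 2 ≤ e * ∫ z in U, (q z ^ 2 + gr q z)) →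
      ∫ z in (U \ Zr r) ∩ {z | l z ≠ 1}, e2 x y g z ≤ e →
      (∀ z ∈ D \ P, ∀ p ∈ P, dist z p ≤ d → l z = 0) →
      (∀ z ∈ U, l z ≠ 0 → ∃ O : Set (ℝ × ℝ), IsOpen O ∧ z ∈ O ∧ Loc gm O g gk) →
      4 * E0 A B C r o x y - K9 * (s ^ 3 + Real.sqrt e * s ^ 2) ≤ ∑ k, E0 A B C r o (tx x y s k) (ty y s k) := by
  obtain ⟨Kc, hKc0, hKc⟩ := interp hX A B C (x0 := x) (o := o) hr hr8 hy
  have hM0 : 0 ≤ E0 A B C r o x y := H46XB.E0_nonneg r o x y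
  refine ⟨4 + 4 * Kc + 100 * (E0 A B C r o x y + 1) + 16 * (1 + 3 * (3 * (E0 A B C r o x y + 1) + 1 + 2 * Kc) +
    (E0 A B C r o x y + 1)), by positivity, ?_⟩
  intro g gk l s e d hs hs1 he he1 hd hg hgk hl h01 hsy hq hen hP hloc
  have hk : ∀ k : Fin 4, ∀ h : ℝ × ℝ → X, Clx A B C h → Ex (tx x y s k) (ty y s k) h =
      ∫ z in U, (Real.exp s * sp h (fe x y (thk k)) z ^ 2 + Real.exp (-s) * sp h (ff x y (thk k)) z ^ 2) :=
    fun k h hh => ex_four hX hh x hy s k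
  have hint : ∀ k : Fin 4, Cl0 A B C r o (ip gm g (gk k) l) ∧
      Ex (tx x y s k) (ty y s k) (ip gm g (gk k) l) ≤
        Ex (tx x y s k) (ty y s k) (gk k) + Kc * (Real.sqrt e * s ^ 2 + s ^ 3) := fun k =>
    hKc g (gk k) l (tx x y s k) (ty y s k) (thk k) s e hs hs1 he he1 (hk k) hg (hgk k) hl h01 hsy hq hen
  have p3 : 0 < s ^ 3 := pow_pos hs 3
  have p31 : s ^ 3 ≤ 1 := pow_le_one₀ hs.le hs1
  have p61 : s ^ 6 ≤ 1 := pow_le_one₀ hs.le hs1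
  have p62 : s ^ 6 ≤ s ^ 2 := pow_le_pow_of_le_one hs.le hs1 (by norm_num)
  have p63 : s ^ 6 ≤ s ^ 3 := pow_le_pow_of_le_one hs.le hs1 (by norm_num)
  have hR0 : 0 ≤ Real.sqrt e * s ^ 2 := mul_nonneg (Real.sqrt_nonneg _) (sq_nonneg _)
  have hR1 : Real.sqrt e * s ^ 2 ≤ 1 :=
    mul_le_one₀ (Real.sqrt_le_one.2 he1) (sq_nonneg _) (pow_le_one₀ hs.le hs1)
  have hnear : ∀ k : Fin 4, ∀ f : ℝ × ℝ → X, Clx A B C f →
      Real.exp (-s) * Ex x y f ≤ Ex (tx x y s k) (ty y s k) f ∧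
        Ex (tx x y s k) (ty y s k) f ≤ Real.exp s * Ex x y f := fun k =>
    (near_en hX hy hs.le hs1 p62 p61 (hk k) hg (hgk k)).2.2
  obtain ⟨hI, hY⟩ := y_nonneg hX hg.1.cl (fun k => (hgk k).1.cl) (fun k => (hint k).1.cl) hl h01 hd hP hloc
    x hy hs.le p3 p31 (fun k => H46XB.cl_const hX p3.le p31 hg.1.cl (hint k).1.cl)
  have hsum := y_sum hX x hy hs hs1 hg (fun k => (hint k).1) hI hY
  have hG1 : E0 A B C r o x y ≤ Ex x y g := H46XB.E0_le hg.1 x y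
  have hG2 : Ex x y g ≤ E0 A B C r o x y + 1 := hg.2.trans (by linarith)
  have hEv : ∀ k : Fin 4, Ex x y (ip gm g (gk k) l) ≤
      3 * (3 * (E0 A B C r o x y + 1) + 1 + 2 * Kc) := fun k =>
    Fe_v hKc0 hs1 hR1 p31 p61 hM0 (hint k).2 (hgk k).2 (H46XB.E0_le hg.1 _ _)
      (hnear k g hg.1.cl).2 hG2 (hnear k _ (hint k).1.cl).1 (H46XB.ex_nonneg _ _ _)
  have hS2 : ∑ k : Fin 4, (1 + Ex x y (ip gm g (gk k) l) + Ex x y g) ≤
      4 * (1 + 3 * (3 * (E0 A B C r o x y + 1) + 1 + 2 * Kc) + (E0 A B C r o x y + 1)) := by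
    calc ∑ k : Fin 4, (1 + Ex x y (ip gm g (gk k) l) + Ex x y g) ≤
        ∑ _k : Fin 4, (1 + 3 * (3 * (E0 A B C r o x y + 1) + 1 + 2 * Kc) + (E0 A B C r o x y + 1)) :=
          Finset.sum_le_sum fun k _ => by linarith [hEv k]
      _ = _ := by
        rw [Finset.sum_const, Finset.card_univ, Fintype.card_fin, nsmul_eq_mul]
        push_cast
        ring
  have hS1 : ∑ k : Fin 4, Ex (tx x y s k) (ty y s k) (ip gm g (gk k) l) ≤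
      ∑ k : Fin 4, E0 A B C r o (tx x y s k) (ty y s k) + 4 * s ^ 6 +
        4 * (Kc * (Real.sqrt e * s ^ 2 + s ^ 3)) := by
    calc ∑ k : Fin 4, Ex (tx x y s k) (ty y s k) (ip gm g (gk k) l) ≤
        ∑ k : Fin 4, (E0 A B C r o (tx x y s k) (ty y s k) + (s ^ 6 +
          Kc * (Real.sqrt e * s ^ 2 + s ^ 3))) :=
          Finset.sum_le_sum fun k _ => by linarith [(hint k).2, (hgk k).2]
      _ = _ := by
        rw [Finset.sum_add_distrib, Finset.sum_const, Finset.card_univ, Fintype.card_fin, nsmul_eq_mul]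
        push_cast
        ring
  exact Fe_ar hM0 hG1 hG2 (alg_coef hs.le hs1).1 p3.le p63 hR0 hKc0 hsum hS1 hS2

end H84NS
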