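import Pool.Agent.H84.NS.Df
import Pool.Agent.H46.XB.Va
import Pool.Agent.H46.XB.Vb
import Pool.Agent.H46.SB.Hz

set_option autoImplicit false

/-!
# Row Ia: the two-map variation, integrated over U

cl_ip (H46XB, row Va) for (f,g) and for (g,f) (dist_comm; its integrability hypothesis is hi, since gr l z = sp l (1,0) z^2 + sp l (0,1) z^2; Lpo l by lpo_lip / lip_lpo).
For a.e. z in U: ip_good (row Ek, O = U) and sp_two (row Ek) for t = f1 x y and t = f2 x y, with eta = l. Drop the term -2 l (1-l) mt <= 0 and use |1 - 2 l| <= 1: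
  e2 (ip f g l) + e2 (ip g f l) <= e2 f + e2 g + sum_t [2 |D_t l| d |D_t d| + 2 (D_t l)^2 d^2],  d = dd f g.
For a linear form L: L(f1)^2 + L(f2)^2 <= kap' x y (L(1,0)^2 + L(0,1)^2) (f1 = (sqrt y,0), f2 = (-x/sqrt y, 1/sqrt y), (a+b)^2 <= 2a^2+2b^2; kap' of row Vb), sp l t = |D_t l| (sp_diff), so by Cauchy-Schwarz for the sum over t:
  sum_t ... <= kap' (2 sqrt(gr l d^2) sqrt(gr d) + 2 gr l d^2)  a.e.
Integrate; int sqrt(gr l d^2) sqrt(gr d) <= sqrt(int gr l d^2) sqrt(int gr d) (Cauchy-Schwarz: inner_mul_le_norm_mul_norm / MeasureTheory.integral_mul_le_Lp_mul_Lq_of_nonneg with p = q = 2, or 2ab <= t a^2 + b^2/t and optimise t;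
gr d is integrable: hypothesis hd; measurability: sp_meas). Ex x y f = int e2 (ex_eq), integrability clx_e2 (row Xg).
-/

namespace H84NS

open H50NA H98NX MeasureTheory Set Filter Topology
open H80HM (D U P f1 f2)
open H46SB (gr)
open H46XB (kap kap')
open scoped NNReal

variable {X : Type} [MetricSpace X] {gm : X → X → ℝ → X} {A B C : X ≃ᵢ X}

theorem Ia_cs {α : Type} [MeasurableSpace α] {μ : Measure α} {a b : α → ℝ} (ha0 : ∀ z, 0 ≤ a z)
    (hb0 : ∀ z, 0 ≤ b z) (ha : Integrable a μ) (hb : Integrable b μ) :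
    Integrable (fun z => Real.sqrt (a z) * Real.sqrt (b z)) μ ∧
      ∫ z, Real.sqrt (a z) * Real.sqrt (b z) ∂μ ≤ Real.sqrt (∫ z, a z ∂μ) * Real.sqrt (∫ z, b z ∂μ) := by
  have hi : Integrable (fun z => Real.sqrt (a z) * Real.sqrt (b z)) μ := by
    refine Integrable.mono' (ha.add hb)
      ((Real.continuous_sqrt.comp_aestronglyMeasurable ha.aestronglyMeasurable).mul
        (Real.continuous_sqrt.comp_aestronglyMeasurable hb.aestronglyMeasurable)) ?_
    refine Filter.Eventually.of_forall fun z => ?_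
    rw [Real.norm_of_nonneg (by positivity)]
    show Real.sqrt (a z) * Real.sqrt (b z) ≤ a z + b z
    have h1 := Real.sq_sqrt (ha0 z)
    have h2 := Real.sq_sqrt (hb0 z)
    nlinarith [sq_nonneg (Real.sqrt (a z) - Real.sqrt (b z)), sq_nonneg (Real.sqrt (a z) + Real.sqrt (b z))]
  refine ⟨hi, ?_⟩
  have hA : 0 ≤ ∫ z, a z ∂μ := integral_nonneg ha0
  have hB : 0 ≤ ∫ z, b z ∂μ := integral_nonneg hb0
  have key : ∀ t : ℝ, 0 ≤ (∫ z, a z ∂μ) * (t * t) + (2 * ∫ z, Real.sqrt (a z) * Real.sqrt (b z) ∂μ) * t +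
      ∫ z, b z ∂μ := by
    intro t
    have h1 : 0 ≤ ∫ z, (t ^ 2 * a z + 2 * t * (Real.sqrt (a z) * Real.sqrt (b z)) + b z) ∂μ := by
      refine integral_nonneg fun z => ?_
      show 0 ≤ t ^ 2 * a z + 2 * t * (Real.sqrt (a z) * Real.sqrt (b z)) + b z
      have e1 := Real.sq_sqrt (ha0 z)
      have e2 := Real.sq_sqrt (hb0 z)
      have e3 : t ^ 2 * a z + 2 * t * (Real.sqrt (a z) * Real.sqrt (b z)) + b z =
          (t * Real.sqrt (a z) + Real.sqrt (b z)) ^ 2 := by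
        rw [add_sq, mul_pow, e1, e2]
        ring
      rw [e3]
      exact sq_nonneg _
    have h2 : ∫ z, (t ^ 2 * a z + 2 * t * (Real.sqrt (a z) * Real.sqrt (b z)) + b z) ∂μ =
        t ^ 2 * (∫ z, a z ∂μ) + 2 * t * (∫ z, Real.sqrt (a z) * Real.sqrt (b z) ∂μ) + ∫ z, b z ∂μ := by
      have j1 : Integrable (fun z => t ^ 2 * a z + 2 * t * (Real.sqrt (a z) * Real.sqrt (b z))) μ :=
        (ha.const_mul _).add (hi.const_mul _)
      rw [integral_add j1 hb, integral_add (ha.const_mul _) (hi.const_mul _), integral_const_mul,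
        integral_const_mul]
    rw [h2] at h1
    linarith
  have h3 := discrim_le_zero key
  unfold discrim at h3
  rw [← Real.sqrt_mul hA]
  apply Real.le_sqrt_of_sq_le
  nlinarith

theorem Ia_fd (L : ℝ × ℝ →L[ℝ] ℝ) (x : ℝ) {y : ℝ} (hy : 0 < y) :
    L (f1 x y) ^ 2 + L (f2 x y) ^ 2 ≤ kap' x y * (L (1, 0) ^ 2 + L (0, 1) ^ 2) := by
  have hr : Real.sqrt y ^ 2 = y := Real.sq_sqrt hy.le
  have hr0 : 0 < Real.sqrt y := Real.sqrt_pos.2 hy
  have g1 : f1 x y = Real.sqrt y • ((1, 0) : ℝ × ℝ) := by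
    unfold f1
    ext
    · simp
    · simp
  have g2 : f2 x y = (-x / Real.sqrt y) • ((1, 0) : ℝ × ℝ) + (1 / Real.sqrt y) • ((0, 1) : ℝ × ℝ) := by
    unfold f2
    ext
    · simp
    · simp
  rw [g1, g2, map_add, map_smul, map_smul, map_smul, smul_eq_mul, smul_eq_mul, smul_eq_mul]
  generalize L (1, 0) = u
  generalize L (0, 1) = v
  have h1 : (Real.sqrt y * u) ^ 2 = y * u ^ 2 := by
    rw [mul_pow, hr]
  have h2 : (-x / Real.sqrt y * u + 1 / Real.sqrt y * v) ^ 2 ≤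
      2 * (-x / Real.sqrt y * u) ^ 2 + 2 * (1 / Real.sqrt y * v) ^ 2 := by
    nlinarith [sq_nonneg (-x / Real.sqrt y * u - 1 / Real.sqrt y * v)]
  have h3 : 2 * (-x / Real.sqrt y * u) ^ 2 + 2 * (1 / Real.sqrt y * v) ^ 2 =
      2 * x ^ 2 / y * u ^ 2 + 2 / y * v ^ 2 := by
    rw [mul_pow, mul_pow, div_pow, div_pow, hr]
    ring
  rw [h3] at h2
  rw [h1]
  have e8 : kap' x y * (u ^ 2 + v ^ 2) = (y * u ^ 2 + (2 * x ^ 2 / y * u ^ 2 + 2 / y * v ^ 2)) +
      (y * v ^ 2 + 2 * x ^ 2 / y * v ^ 2 + 2 / y * u ^ 2) := by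
    unfold kap'
    ring
  rw [e8]
  have e9 : 0 ≤ y * v ^ 2 + 2 * x ^ 2 / y * v ^ 2 + 2 / y * u ^ 2 := by positivity
  linarith

theorem Ia_alg {a1 a2 c1 c2 G H k d : ℝ} (hk : 0 ≤ k) (hG : 0 ≤ G) (hH : 0 ≤ H) (hd : 0 ≤ d)
    (h1 : a1 ^ 2 + a2 ^ 2 ≤ k * G) (h2 : c1 ^ 2 + c2 ^ 2 ≤ k * H) :
    2 * d * (|a1| * |c1| + |a2| * |c2|) + 2 * (a1 ^ 2 + a2 ^ 2) * d ^ 2 ≤
      k * (2 * (Real.sqrt (G * d ^ 2) * Real.sqrt H) + 2 * (G * d ^ 2)) := by
  have e1 : Real.sqrt (G * d ^ 2) = Real.sqrt G * d := by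
    rw [Real.sqrt_mul hG, Real.sqrt_sq hd]
  have e2 : |a1| * |c1| + |a2| * |c2| ≤ k * (Real.sqrt G * Real.sqrt H) := by
    apply abs_le_of_sq_le_sq' _ (by positivity) |>.2
    have e3 : (|a1| * |c1| + |a2| * |c2|) ^ 2 ≤ (a1 ^ 2 + a2 ^ 2) * (c1 ^ 2 + c2 ^ 2) := by
      rw [← sq_abs a1, ← sq_abs a2, ← sq_abs c1, ← sq_abs c2]
      nlinarith [sq_nonneg (|a1| * |c2| - |a2| * |c1|)]
    have e4 : (k * (Real.sqrt G * Real.sqrt H)) ^ 2 = (k * G) * (k * H) := by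
      rw [mul_pow, mul_pow, Real.sq_sqrt hG, Real.sq_sqrt hH]
      ring
    rw [e4]
    refine e3.trans ?_
    apply mul_le_mul h1 h2 (by positivity) (by positivity)
  rw [e1]
  have e5 : 2 * d * (|a1| * |c1| + |a2| * |c2|) ≤ 2 * d * (k * (Real.sqrt G * Real.sqrt H)) :=
    mul_le_mul_of_nonneg_left e2 (by positivity)
  have e6 : 2 * (a1 ^ 2 + a2 ^ 2) * d ^ 2 ≤ 2 * (k * G) * d ^ 2 := by
    apply mul_le_mul_of_nonneg_right _ (by positivity)
    linarith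
  linarith

theorem Ia_pt (hX : Npc X gm) {f g : ℝ × ℝ → X} (hf : Lpo f U) (hg : Lpo g U) {l : ℝ × ℝ → ℝ}
    (hl : Lpo l U) (h01 : ∀ z, 0 ≤ l z ∧ l z ≤ 1) (x : ℝ) {y : ℝ} (hy : 0 < y) :
    ∀ᵐ z ∂(volume : Measure (ℝ × ℝ)), z ∈ U →
      e2 x y (ip gm f g l) z + e2 x y (ip gm g f l) z ≤ e2 x y f z + e2 x y g z +
        kap' x y * (2 * (Real.sqrt (gr l z * dist (f z) (g z) ^ 2) * Real.sqrt (gr (dd f g) z)) +
          2 * (gr l z * dist (f z) (g z) ^ 2)) := by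
  filter_upwards [ip_good (volume : Measure (ℝ × ℝ)) hX H46XB.U_open hf hg hl (fun z _ => h01 z)] with z hz hzU
  obtain ⟨d1, d2, d3, d4, d5, d6⟩ := hz hzU
  have hev : ∀ᶠ w in 𝓝 z, 0 ≤ l w ∧ l w ≤ 1 := Filter.Eventually.of_forall h01
  have key : ∀ t : ℝ × ℝ, sp (ip gm f g l) t z ^ 2 + sp (ip gm g f l) t z ^ 2 ≤ sp f t z ^ 2 + sp g t z ^ 2 +
      2 * dist (f z) (g z) * (|fderiv ℝ l z t| * |fderiv ℝ (dd f g) z t|) +
        2 * (fderiv ℝ l z t) ^ 2 * dist (f z) (g z) ^ 2 := by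
    intro t
    have h := sp_two hX d1 d2 d3 d4 d5 d6 hev t
    have e0 : dd f g z = dist (f z) (g z) := rfl
    rw [e0] at h
    have m0 : 0 ≤ mt f g t z := le_trans (sq_nonneg _) (le_max_left _ _)
    have m1 : 0 ≤ 2 * l z * (1 - l z) * mt f g t z := by
      have := (h01 z).1
      have := (h01 z).2
      have h3 : 0 ≤ 1 - l z := by linarith
      positivity
    have hd0 : 0 ≤ dist (f z) (g z) := dist_nonneg
    have m2 : -((1 - 2 * l z) * fderiv ℝ l z t * (2 * dist (f z) (g z) * fderiv ℝ (dd f g) z t)) ≤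
        2 * dist (f z) (g z) * (|fderiv ℝ l z t| * |fderiv ℝ (dd f g) z t|) := by
      refine (neg_le_abs _).trans ?_
      rw [abs_mul, abs_mul, abs_mul, abs_of_nonneg (show 0 ≤ 2 * dist (f z) (g z) by positivity)]
      have h4 : |1 - 2 * l z| ≤ 1 := by
        rw [abs_le]
        constructor
        · linarith [(h01 z).2]
        · linarith [(h01 z).1]
      have h5 : 0 ≤ |fderiv ℝ l z t| * (2 * dist (f z) (g z) * |fderiv ℝ (dd f g) z t|) := by positivity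
      calc |1 - 2 * l z| * |fderiv ℝ l z t| * (2 * dist (f z) (g z) * |fderiv ℝ (dd f g) z t|)
          = |1 - 2 * l z| * (|fderiv ℝ l z t| * (2 * dist (f z) (g z) * |fderiv ℝ (dd f g) z t|)) := by ring
        _ ≤ 1 * (|fderiv ℝ l z t| * (2 * dist (f z) (g z) * |fderiv ℝ (dd f g) z t|)) :=
            mul_le_mul_of_nonneg_right h4 h5
        _ = _ := by ring
    linarith
  have k1 := key (f1 x y)
  have k2 := key (f2 x y)
  have hG : gr l z = (fderiv ℝ l z (1, 0)) ^ 2 + (fderiv ℝ l z (0, 1)) ^ 2 := by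
    unfold gr
    rw [H46SB.sp_diff d6, H46SB.sp_diff d6, sq_abs, sq_abs]
  have hH : gr (dd f g) z = (fderiv ℝ (dd f g) z (1, 0)) ^ 2 + (fderiv ℝ (dd f g) z (0, 1)) ^ 2 := by
    unfold gr
    rw [H46SB.sp_diff d5, H46SB.sp_diff d5, sq_abs, sq_abs]
  have c1 := Ia_fd (fderiv ℝ l z) x hy
  have c2 := Ia_fd (fderiv ℝ (dd f g) z) x hy
  rw [← hG] at c1
  rw [← hH] at c2
  have hk : 0 ≤ kap' x y := by
    unfold kap'
    positivity
  have h7 := Ia_alg hk (H46SB.gr_nonneg l z) (H46SB.gr_nonneg (dd f g) z)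
    (dist_nonneg (x := f z) (y := g z)) c1 c2
  show (sp (ip gm f g l) (f1 x y) z ^ 2 + sp (ip gm f g l) (f2 x y) z ^ 2) +
    (sp (ip gm g f l) (f1 x y) z ^ 2 + sp (ip gm g f l) (f2 x y) z ^ 2) ≤
    (sp f (f1 x y) z ^ 2 + sp f (f2 x y) z ^ 2) + (sp g (f1 x y) z ^ 2 + sp g (f2 x y) z ^ 2) + _
  linarith

theorem var_two (hX : Npc X gm) {f g : ℝ × ℝ → X} (hf : Clx A B C f) (hg : Clx A B C g) {l : ℝ × ℝ → ℝ}
    (hl : ∃ K : ℝ≥0, LipschitzWith K l) (h01 : ∀ z, 0 ≤ l z ∧ l z ≤ 1) (hs : Sy l)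
    (hi : IntegrableOn (fun z => gr l z * dist (f z) (g z) ^ 2) U) (hd : IntegrableOn (gr (dd f g)) U)
    (x : ℝ) {y : ℝ} (hy : 0 < y) :
    Clx A B C (ip gm f g l) ∧ Clx A B C (ip gm g f l) ∧
      Ex x y (ip gm f g l) + Ex x y (ip gm g f l) ≤ Ex x y f + Ex x y g +
        kap' x y * (2 * (Real.sqrt (∫ z in U, gr l z * dist (f z) (g z) ^ 2) * Real.sqrt (∫ z in U, gr (dd f g) z)) +
          2 * ∫ z in U, gr l z * dist (f z) (g z) ^ 2) := by
  obtain ⟨K, hK⟩ := hl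
  have hlD : Lpo l (D \ P) := H46SB.lip_lpo hK _
  have hlU : Lpo l U := H46SB.lip_lpo hK _
  have hi2 : IntegrableOn (fun z => gr l z * dist (g z) (f z) ^ 2) U := by
    have e : (fun z => gr l z * dist (g z) (f z) ^ 2) = fun z => gr l z * dist (f z) (g z) ^ 2 := by
      funext z
      rw [dist_comm]
    rw [e]
    exact hi
  have c1 : Clx A B C (ip gm f g l) := H46XB.cl_ip hX hf hg hlD (fun z _ => h01 z) hs hi
  have c2 : Clx A B C (ip gm g f l) := H46XB.cl_ip hX hg hf hlD (fun z _ => h01 z) hs hi2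
  refine ⟨c1, c2, ?_⟩
  have hU := H46XB.U_sub
  have i1 := clx_e2 hX c1 x y
  have i2 := clx_e2 hX c2 x y
  have i3 := clx_e2 hX hf x y
  have i4 := clx_e2 hX hg x y
  have hpt := Ia_pt hX (lpo_mono hU hf.lip) (lpo_mono hU hg.lip) hlU h01 x hy
  obtain ⟨i5, cs⟩ := Ia_cs (μ := volume.restrict U) (a := fun z => gr l z * dist (f z) (g z) ^ 2)
    (b := gr (dd f g)) (fun z => mul_nonneg (H46SB.gr_nonneg l z) (sq_nonneg _))
    (fun z => H46SB.gr_nonneg (dd f g) z) hi hd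
  have i5' : IntegrableOn (fun z => Real.sqrt (gr l z * dist (f z) (g z) ^ 2) * Real.sqrt (gr (dd f g) z)) U := i5
  have i6 : IntegrableOn (fun z => kap' x y * (2 * (Real.sqrt (gr l z * dist (f z) (g z) ^ 2) *
      Real.sqrt (gr (dd f g) z)) + 2 * (gr l z * dist (f z) (g z) ^ 2))) U :=
    ((i5'.const_mul 2).add (hi.const_mul 2)).const_mul _
  have i34 : IntegrableOn (fun z => e2 x y f z + e2 x y g z) U := i3.add i4
  have hm : ∫ z in U, (e2 x y (ip gm f g l) z + e2 x y (ip gm g f l) z) ≤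
      ∫ z in U, ((e2 x y f z + e2 x y g z) + kap' x y * (2 * (Real.sqrt (gr l z * dist (f z) (g z) ^ 2) *
        Real.sqrt (gr (dd f g) z)) + 2 * (gr l z * dist (f z) (g z) ^ 2))) := by
    refine integral_mono_ae (i1.add i2) (i34.add i6) ?_
    filter_upwards [ae_restrict_of_ae hpt, ae_restrict_mem H46XB.U_open.measurableSet] with z hz hzU
    exact hz hzU
  rw [integral_add i1 i2, integral_add i34 i6, integral_add i3 i4, integral_const_mul,
    integral_add (i5'.const_mul 2) (hi.const_mul 2), integral_const_mul, integral_const_mul] at hm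
  have hk : 0 ≤ kap' x y := by
    unfold kap'
    positivity
  have h8 : kap' x y * (2 * ∫ z in U, Real.sqrt (gr l z * dist (f z) (g z) ^ 2) * Real.sqrt (gr (dd f g) z)) ≤
      kap' x y * (2 * (Real.sqrt (∫ z in U, gr l z * dist (f z) (g z) ^ 2) *
        Real.sqrt (∫ z in U, gr (dd f g) z))) :=
    mul_le_mul_of_nonneg_left (by linarith) hk
  rw [ex_eq, ex_eq, ex_eq, ex_eq]
  linarith

end H84NS
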