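import Pool.Agent.H84.NS.Df
import Pool.Agent.H98.NX.Nc
import Pool.Agent.H98.NX.Ej
import Pool.Agent.H98.NX.Eh

set_option autoImplicit false

/-!
# Row Lb: speeds in a product

pst_tau, pst_sig: by dst, |tau q b - tau p b| <= dist p q and dist (sig p) (sig q) <= dist p q for p, q in S; so the Lipschitz constants on compact sets are inherited.
pst_sp: a.e. z in O: Dlim f z, Dlim (sig o f) z (sp_lim, row Ed) and all tau (f .) b are differentiable at z (lpo_diff, row Ea; finitely many b). At such z, for every t, z + h t in O for small h, and by dst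
  dist (f (z+ht)) (f z)^2/h^2 = sum_b ((tau (f z) b - tau (f (z+ht)) b)/h)^2 + dist (sig (f (z+ht))) (sig (f z))^2/h^2; let h -> 0 (h <> 0).
pst_mid: m := ip gm g v (fun _ => th) takes values in S (cvx) and is in Lpo O (lpo_gm). tau (m .) b = (1-th) tau (g .) b + th tau (v .) b (gmt), sig (m z) = gm c0 (sig (v z)) th (gms). pst_sp for m, v, g:
  sp m t^2 = sum_b (fderiv ((1-th) tau g b + th tau v b) t)^2 + sp (sig o m) t^2, and dist (gm c0 p th) (gm c0 q th) <= th dist p q (int_tri, row Nc, with p0 = p1 = c0 and s = t = th), so sp (sig o m) t z <= th sp (sig o v) t z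
  (both are limits: Dlim). g: sp (sig o g) t z = 0 since sig o g is constant near z (sp_loc, sp_const, row Eb).
-/

namespace H84NS

open H50NA H98NX MeasureTheory Set Filter Topology
open H80HM (D U P f1 f2)

variable {X : Type} [MetricSpace X] {gm : X → X → ℝ → X} {S : Set X} {N : ℕ} {tau : X → Fin N → ℝ} {sig : X → X}

theorem Lb_tau_le (hP : Pst gm S tau sig) {p q : X} (hp : p ∈ S) (hq : q ∈ S) (i : Fin N) :
    |tau q i - tau p i| ≤ dist p q := by
  apply abs_le_of_sq_le_sq _ dist_nonneg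
  rw [hP.dst p hp q hq]
  have h1 : (tau q i - tau p i) ^ 2 ≤ ∑ b, (tau q b - tau p b) ^ 2 :=
    Finset.single_le_sum (f := fun b => (tau q b - tau p b) ^ 2) (fun b _ => sq_nonneg _)
      (Finset.mem_univ i)
  have h2 := sq_nonneg (dist (sig p) (sig q))
  linarith

theorem Lb_sig_le (hP : Pst gm S tau sig) {p q : X} (hp : p ∈ S) (hq : q ∈ S) :
    dist (sig p) (sig q) ≤ dist p q := by
  have h3 : |dist (sig p) (sig q)| ≤ dist p q := by
    apply abs_le_of_sq_le_sq _ dist_nonneg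
    rw [hP.dst p hp q hq]
    have h1 : 0 ≤ ∑ b, (tau q b - tau p b) ^ 2 := Finset.sum_nonneg fun b _ => sq_nonneg _
    linarith
  rwa [abs_of_nonneg dist_nonneg] at h3

theorem pst_tau (hP : Pst gm S tau sig) {f : ℝ × ℝ → X} {O : Set (ℝ × ℝ)} (hf : Lpo f O) (hS : ∀ z ∈ O, f z ∈ S)
    (i : Fin N) : Lpo (fun p => tau (f p) i) O := by
  intro C hC hc
  obtain ⟨L, hL⟩ := hf C hC hc
  refine ⟨L, fun x hx y hy => le_trans ?_ (hL x hx y hy)⟩
  rw [dist_comm (f x), Real.dist_eq]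
  exact Lb_tau_le hP (hS y (hC hy)) (hS x (hC hx)) i

theorem pst_sig (hP : Pst gm S tau sig) {f : ℝ × ℝ → X} {O : Set (ℝ × ℝ)} (hf : Lpo f O) (hS : ∀ z ∈ O, f z ∈ S) :
    Lpo (fun p => sig (f p)) O := by
  intro C hC hc
  obtain ⟨L, hL⟩ := hf C hC hc
  exact ⟨L, fun x hx y hy => (Lb_sig_le hP (hS x (hC hx)) (hS y (hC hy))).trans (hL x hx y hy)⟩

theorem Lb_near {O : Set (ℝ × ℝ)} (hO : IsOpen O) {z : ℝ × ℝ} (hz : z ∈ O) (t : ℝ × ℝ) :
    ∀ᶠ h : ℝ in 𝓝[≠] 0, z + h • t ∈ O := by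
  have h1 : Tendsto (fun h : ℝ => z + h • t) (𝓝[≠] 0) (𝓝 z) := by
    have h2 : Continuous (fun h : ℝ => z + h • t) := by fun_prop
    have h3 := h2.tendsto 0
    rw [zero_smul, add_zero] at h3
    exact h3.mono_left nhdsWithin_le_nhds
  exact h1.eventually (hO.mem_nhds hz)

theorem pst_sp (hP : Pst gm S tau sig) {f : ℝ × ℝ → X} {O : Set (ℝ × ℝ)} (hO : IsOpen O) (hf : Lpo f O)
    (hS : ∀ z ∈ O, f z ∈ S) :
    ∀ᵐ z ∂(volume : Measure (ℝ × ℝ)), z ∈ O → (∀ i, DifferentiableAt ℝ (fun p => tau (f p) i) z) ∧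
      ∀ t : ℝ × ℝ, sp f t z ^ 2 = ∑ i, (fderiv ℝ (fun p => tau (f p) i) z t) ^ 2 + sp (fun p => sig (f p)) t z ^ 2 := by
  have hd : ∀ᵐ z ∂(volume : Measure (ℝ × ℝ)), ∀ i : Fin N, z ∈ O →
      DifferentiableAt ℝ (fun p => tau (f p) i) z :=
    ae_all_iff.2 fun i => lpo_diff volume hO (pst_tau hP hf hS i)
  filter_upwards [sp_lim volume hO hf, sp_lim volume hO (pst_sig hP hf hS), hd] with z h1 h2 h3 hz
  refine ⟨fun i => h3 i hz, fun t => ?_⟩
  have l1 := ((h1 hz) t).pow 2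
  have l2 := ((h2 hz) t).pow 2
  have l3 : Tendsto (fun h : ℝ => ∑ i, (h⁻¹ • (tau (f (z + h • t)) i - tau (f z) i)) ^ 2) (𝓝[≠] 0)
      (𝓝 (∑ i, (fderiv ℝ (fun p => tau (f p) i) z t) ^ 2)) :=
    tendsto_finsetSum _ fun i _ =>
      (((h3 i hz).hasFDerivAt.hasLineDerivAt t).tendsto_slope_zero).pow 2
  refine tendsto_nhds_unique_of_eventuallyEq l1 (l3.add l2) ?_
  filter_upwards [Lb_near hO hz t, eventually_mem_nhdsWithin] with h h4 h5
  have h0 : h ≠ 0 := h5
  have h6 := hP.dst _ (hS z hz) _ (hS _ h4)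
  rw [div_pow, div_pow, sq_abs, dist_comm (f (z + h • t)), h6, dist_comm (sig (f (z + h • t))),
    add_div, Finset.sum_div]
  congr 1
  refine Finset.sum_congr rfl fun i _ => ?_
  rw [smul_eq_mul, mul_pow, inv_pow, div_eq_inv_mul]

theorem pst_mid (hX : Npc X gm) (hP : Pst gm S tau sig) {g v : ℝ × ℝ → X} {c0 : X} {O : Set (ℝ × ℝ)} (hO : IsOpen O)
    (hg : Lpo g O) (hv : Lpo v O) (hgS : ∀ z ∈ O, g z ∈ S) (hvS : ∀ z ∈ O, v z ∈ S) (hc : ∀ z ∈ O, sig (g z) = c0)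
    {th : ℝ} (h0 : 0 ≤ th) (h1 : th ≤ 1) :
    ∀ᵐ z ∂(volume : Measure (ℝ × ℝ)), z ∈ O → ∀ t : ℝ × ℝ,
      sp g t z ^ 2 = ∑ i, (fderiv ℝ (fun p => tau (g p) i) z t) ^ 2 ∧
      sp (ip gm g v (fun _ => th)) t z ^ 2 ≤
        ∑ i, ((1 - th) * fderiv ℝ (fun p => tau (g p) i) z t + th * fderiv ℝ (fun p => tau (v p) i) z t) ^ 2 +
          th ^ 2 * sp (fun p => sig (v p)) t z ^ 2 := by
  obtain ⟨m, hm⟩ : ∃ m : ℝ × ℝ → X, m = ip gm g v (fun _ => th) := ⟨_, rfl⟩
  have hm' : ∀ z, m z = gm (g z) (v z) th := fun z => by rw [hm]; rfl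
  have hml : Lpo m O := by
    rw [hm]
    exact lpo_gm hX hg hv (lpo_const th O) fun _ _ => ⟨h0, h1⟩
  have hmS : ∀ z ∈ O, m z ∈ S := fun z hz => by
    rw [hm']
    exact hP.cvx _ (hgS z hz) _ (hvS z hz) th h0 h1
  rw [← hm]
  filter_upwards [pst_sp hP hO hg hgS, pst_sp hP hO hv hvS, pst_sp hP hO hml hmS,
    sp_lim volume hO (pst_sig hP hml hmS), sp_lim volume hO (pst_sig hP hv hvS)] with
    z e1 e2 e3 e4 e5 hz t
  obtain ⟨d1, s1⟩ := e1 hz
  obtain ⟨d2, s2⟩ := e2 hz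
  obtain ⟨d3, s3⟩ := e3 hz
  constructor
  · rw [s1 t]
    have h2 : sp (fun p => sig (g p)) t z = 0 := by
      rw [sp_loc (g := fun _ => c0) ?_ t, sp_const]
      filter_upwards [hO.mem_nhds hz] with y hy
      exact hc y hy
    rw [h2]
    ring
  · rw [s3 t]
    have hfd : ∀ i, fderiv ℝ (fun p => tau (m p) i) z t =
        (1 - th) * fderiv ℝ (fun p => tau (g p) i) z t + th * fderiv ℝ (fun p => tau (v p) i) z t := by
      intro i
      have h2 : (fun p => tau (m p) i) =ᶠ[𝓝 z]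
          (fun p => (1 - th) * tau (g p) i + th * tau (v p) i) := by
        filter_upwards [hO.mem_nhds hz] with y hy
        rw [hm']
        exact hP.gmt _ (hgS y hy) _ (hvS y hy) th h0 h1 i
      rw [h2.fderiv_eq]
      have h3 : HasFDerivAt (fun p => (1 - th) * tau (g p) i + th * tau (v p) i)
          ((1 - th) • fderiv ℝ (fun p => tau (g p) i) z + th • fderiv ℝ (fun p => tau (v p) i) z) z :=
        ((d1 i).hasFDerivAt.const_mul (1 - th)).add ((d2 i).hasFDerivAt.const_mul th)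
      rw [h3.fderiv]
      rfl
    have hsp : sp (fun p => sig (m p)) t z ≤ th * sp (fun p => sig (v p)) t z := by
      refine le_of_tendsto_of_tendsto (e4 hz t) ((e5 hz t).const_mul th) ?_
      filter_upwards [Lb_near hO hz t, eventually_mem_nhdsWithin] with h h4 h5
      have h6 : 0 < |h| := abs_pos.2 h5
      have h7 : ∀ y ∈ O, sig (m y) = gm c0 (sig (v y)) th := by
        intro y hy
        rw [hm', hP.gms _ (hgS y hy) _ (hvS y hy) th h0 h1, hc y hy]
      have h8 := int_tri hX c0 c0 (sig (v (z + h • t))) (sig (v z)) h0 h1 h0 h1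
      rw [dist_self, mul_zero, sub_self, abs_zero, zero_mul, zero_add, add_zero] at h8
      rw [h7 _ h4, h7 _ hz, ← mul_div_assoc]
      exact div_le_div_of_nonneg_right h8 h6.le
    have hsq : sp (fun p => sig (m p)) t z ^ 2 ≤ th ^ 2 * sp (fun p => sig (v p)) t z ^ 2 := by
      rw [← mul_pow]
      exact pow_le_pow_left₀ (sp_nonneg _ _ _) hsp 2
    simp only [hfd]
    linarith

end H84NS
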