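import Pool.Agent.H84.NS.Ld
import Pool.Agent.H84.NS.Cb
import Pool.Agent.H84.NS.Cc
import Pool.Agent.H98.NX.Ee

set_option autoImplicit false

/-!
# Row Lc: the local inequality LSp in a product

Uses the statements of Ca, Cb, Cc, Lb, Ld.  C compact in O, a = f1 x y, b = f2 x y.
yd_int: Yd is a linear combination of functions sp f t ^2 with f in {g, v k, ip gm g (v k) th} in Lpo O (lpo_gm, row Ea), t fixed: integrable on C by sp_sq_int (row Ee, S = C).
crc_ge: for small h all the vertices of cells based at C are in O (cell_sub); for z in C, crc_prod (row Ca) with p i = tau (v k .) i, q i = tau (v (k+1) .) i, sigma = sig o v k, sigma' = sig o v (k+1) (hypothesis: dst) gives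
  Cs x y h v z = sum_k sum_i crc (tau v_k i) (tau v_(k+1) i) + sum_k crc (sig v_k) (sig v_(k+1)).
  int_C of the first sum / h^2 -> int_C Wd (crc_real_lim for each i, k; finite sums; pst_tau; crc_int for the integrability);
  int_C of the second sum / h^2 >= - sum_k int_C |crc|/h^2 >= - sum_k (1/2) int_C (e2 (sig v_k) + e2 (sig v_(k+1))) - eps/2 (crc_shape with eps/8 for the four k, pst_sig) = - int_C sum_k e2 (sig v_k) - eps/2
  (sum over k of the (k+1)-terms = sum over k: Fin 4, decide / Fin.sum_univ_four).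
loc_ls: unfold Loc; yd_ge gives e^s int_C Yd >= int_C (sum e2 (sig v_k) - Wd) (e^s e^-s = 1; integrability: yd_int, sp_sq_int, wd_int), so -(e^s int_C Yd) - eps <= int_C (Wd - sum e2) - eps <= int_C Cs/h^2.
-/

namespace H84NS

open H50NA H98NX MeasureTheory Set Filter Topology
open H80HM (D U P f1 f2)

variable {X : Type} [MetricSpace X] {gm : X → X → ℝ → X} {S : Set X} {N : ℕ} {tau : X → Fin N → ℝ} {sig : X → X}

private theorem Lc_sq {Y : Type} [MetricSpace Y] {f : ℝ × ℝ → Y} {O C : Set (ℝ × ℝ)} (hO : IsOpen O) (hf : Lpo f O) (hC : IsCompact C)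
    (hCO : C ⊆ O) (t : ℝ × ℝ) : IntegrableOn (fun z => sp f t z ^ 2) C :=
  (sp_sq_int volume hO hf hC hCO hC.measurableSet subset_rfl t).1

private theorem Lc_e2 {Y : Type} [MetricSpace Y] {f : ℝ × ℝ → Y} {O C : Set (ℝ × ℝ)} (hO : IsOpen O) (hf : Lpo f O) (hC : IsCompact C)
    (hCO : C ⊆ O) (x y : ℝ) : IntegrableOn (e2 x y f) C :=
  (Lc_sq hO hf hC hCO (f1 x y)).add (Lc_sq hO hf hC hCO (f2 x y))

theorem yd_int (hX : Npc X gm) {g : ℝ × ℝ → X} {v : Fin 4 → ℝ × ℝ → X} {O C : Set (ℝ × ℝ)} (hO : IsOpen O)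
    (hg : Lpo g O) (hv : ∀ k, Lpo (v k) O) (hC : IsCompact C) (hCO : C ⊆ O) (x y s : ℝ) {th : ℝ} (h0 : 0 < th)
    (h1 : th ≤ 1) : IntegrableOn (Yd gm x y s th g v) C := by
  have hm : ∀ k, Lpo (ip gm g (v k) (fun _ => th)) O := fun k =>
    lpo_gm hX hg (hv k) (lpo_const th O) (fun _ _ => ⟨h0.le, h1⟩)
  have hek : ∀ k, IntegrableOn (ek x y s k (v k)) C := fun k =>
    ((Lc_sq hO (hv k) hC hCO (fe x y (thk k))).const_mul _).add ((Lc_sq hO (hv k) hC hCO (ff x y (thk k))).const_mul _)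
  have hbd : ∀ k, IntegrableOn (Bd gm x y th g (v k)) C := fun k =>
    (((Lc_e2 hO (hm k) hC hCO x y).sub (Lc_e2 hO hg hC hCO x y)).div_const _).sub
      (((Lc_e2 hO (hv k) hC hCO x y).add (Lc_e2 hO hg hC hCO x y)).const_mul _)
  have h2 : IntegrableOn (fun z => ∑ k, ek x y s k (v k) z) C := integrable_finsetSum _ fun k _ => hek k
  have h3 : IntegrableOn (fun z => ∑ k, Bd gm x y th g (v k) z) C := integrable_finsetSum _ fun k _ => hbd k
  exact (h2.sub ((Lc_e2 hO hg hC hCO x y).const_mul _)).sub (h3.const_mul _)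

theorem crc_ge (hX : Npc X gm) (hP : Pst gm S tau sig) {v : Fin 4 → ℝ × ℝ → X}
    {O C : Set (ℝ × ℝ)} (hO : IsOpen O) (hv : ∀ k, Lpo (v k) O)
    (hvS : ∀ k, ∀ z ∈ O, v k z ∈ S) (hC : IsCompact C) (hCO : C ⊆ O) (x y : ℝ) {ε : ℝ} (hε : 0 < ε) :
    ∀ᶠ h in 𝓝[>] (0:ℝ),
      (∫ z in C, (Wd tau v (f1 x y) (f2 x y) z - ∑ k, e2 x y (fun p => sig (v k p)) z)) - ε ≤
        ∫ z in C, Cs x y h v z / h ^ 2 := by
  have hT : ∀ k i, Lpo (fun p => tau (v k p) i) O := fun k i => pst_tau hP (hv k) (hvS k) i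
  have hG : ∀ k, Lpo (fun p => sig (v k p)) O := fun k => pst_sig hP (hv k) (hvS k)
  have hCm : MeasurableSet C := hC.measurableSet
  -- the limit of the first part
  have hlim : Tendsto (fun h : ℝ => ∑ i : Fin N, ∑ k : Fin 4, ∫ z in C,
      crc (fun p => tau (v k p) i) (fun p => tau (v (k + 1) p) i) (h • f1 x y) (h • f2 x y) z / h ^ 2) (𝓝[>] 0)
      (𝓝 (∑ i : Fin N, ∑ k : Fin 4, ∫ z in C,
        wd (fun p => tau (v k p) i) (fun p => tau (v (k + 1) p) i) (f1 x y) (f2 x y) z)) :=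
    tendsto_finsetSum _ fun i _ => tendsto_finsetSum _ fun k _ =>
      crc_real_lim hO (hT k i) (hT (k + 1) i) hC hCO (f1 x y) (f2 x y)
  have hWd : ∫ z in C, Wd tau v (f1 x y) (f2 x y) z = ∑ i : Fin N, ∑ k : Fin 4, ∫ z in C,
      wd (fun p => tau (v k p) i) (fun p => tau (v (k + 1) p) i) (f1 x y) (f2 x y) z := by
    unfold Wd
    rw [integral_finsetSum _ fun i _ => integrable_finsetSum _ fun k _ =>
      wd_int hO (hT k i) (hT (k + 1) i) hC hCO (f1 x y) (f2 x y)]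
    refine Finset.sum_congr rfl fun i _ => ?_
    rw [integral_finsetSum _ fun k _ => wd_int hO (hT k i) (hT (k + 1) i) hC hCO (f1 x y) (f2 x y)]
  have hWdi : IntegrableOn (Wd tau v (f1 x y) (f2 x y)) C :=
    integrable_finsetSum _ fun i _ => integrable_finsetSum _ fun k _ =>
      wd_int hO (hT k i) (hT (k + 1) i) hC hCO (f1 x y) (f2 x y)
  rw [← hWd] at hlim
  have hev1 : ∀ᶠ h in 𝓝[>] (0:ℝ), (∫ z in C, Wd tau v (f1 x y) (f2 x y) z) - ε / 2 ≤
      ∑ i : Fin N, ∑ k : Fin 4, ∫ z in C,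
        crc (fun p => tau (v k p) i) (fun p => tau (v (k + 1) p) i) (h • f1 x y) (h • f2 x y) z / h ^ 2 := by
    have h1 := hlim.eventually (lt_mem_nhds (show (∫ z in C, Wd tau v (f1 x y) (f2 x y) z) - ε / 2 <
      ∫ z in C, Wd tau v (f1 x y) (f2 x y) z by linarith))
    filter_upwards [h1] with h hh using hh.le
  have hev2 : ∀ᶠ h in 𝓝[>] (0:ℝ), ∀ k : Fin 4, ∫ z in C,
      |crc (fun p => sig (v k p)) (fun p => sig (v (k + 1) p)) (h • f1 x y) (h • f2 x y) z| / h ^ 2 ≤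
      (∫ z in C, ((sp (fun p => sig (v k p)) (f1 x y) z ^ 2 + sp (fun p => sig (v k p)) (f2 x y) z ^ 2) +
        (sp (fun p => sig (v (k + 1) p)) (f1 x y) z ^ 2 + sp (fun p => sig (v (k + 1) p)) (f2 x y) z ^ 2))) / 2 + ε / 8 := by
    rw [Filter.eventually_all]
    intro k
    exact crc_shape hX hO (hG k) (hG (k + 1)) hC hCO (f1 x y) (f2 x y) (by linarith)
  have hev3 : ∀ᶠ h in 𝓝[>] (0:ℝ), ∀ (k : Fin 4) (i : Fin N), IntegrableOn (fun z =>
      crc (fun p => tau (v k p) i) (fun p => tau (v (k + 1) p) i) (h • f1 x y) (h • f2 x y) z) C := by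
    rw [Filter.eventually_all]
    intro k
    rw [Filter.eventually_all]
    intro i
    exact crc_int hO (hT k i) (hT (k + 1) i) hC hCO subset_rfl hCm (f1 x y) (f2 x y)
  have hev4 : ∀ᶠ h in 𝓝[>] (0:ℝ), ∀ (k : Fin 4), IntegrableOn (fun z =>
      crc (fun p => sig (v k p)) (fun p => sig (v (k + 1) p)) (h • f1 x y) (h • f2 x y) z) C := by
    rw [Filter.eventually_all]
    intro k
    exact crc_int hO (hG k) (hG (k + 1)) hC hCO subset_rfl hCm (f1 x y) (f2 x y)
  filter_upwards [hev1, hev2, hev3, hev4, cell_sub hO hC hCO (f1 x y) (f2 x y)] with h e1 e2' e3 e4 e5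
  have hCs : ∀ z ∈ C, Cs x y h v z / h ^ 2 =
      (∑ i : Fin N, ∑ k : Fin 4,
        crc (fun p => tau (v k p) i) (fun p => tau (v (k + 1) p) i) (h • f1 x y) (h • f2 x y) z / h ^ 2) +
      ∑ k : Fin 4, crc (fun p => sig (v k p)) (fun p => sig (v (k + 1) p)) (h • f1 x y) (h • f2 x y) z / h ^ 2 := by
    intro z hz
    have h2 : ∀ k : Fin 4, crc (v k) (v (k + 1)) (h • f1 x y) (h • f2 x y) z =
        ∑ i : Fin N, crc (fun p => tau (v k p) i) (fun p => tau (v (k + 1) p) i) (h • f1 x y) (h • f2 x y) z +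
          crc (fun p => sig (v k p)) (fun p => sig (v (k + 1) p)) (h • f1 x y) (h • f2 x y) z := by
      intro k
      apply crc_prod
      intro w hw w' hw'
      exact hP.dst _ (hvS k w (e5 z hz hw)) _ (hvS (k + 1) w' (e5 z hz hw'))
    unfold Cs
    simp only [h2]
    rw [Finset.sum_add_distrib, add_div, Finset.sum_comm, Finset.sum_div, Finset.sum_div]
    simp only [Finset.sum_div]
  rw [setIntegral_congr_fun hCm hCs]
  have hi1 : ∀ (i : Fin N) (k : Fin 4), IntegrableOn (fun z =>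
      crc (fun p => tau (v k p) i) (fun p => tau (v (k + 1) p) i) (h • f1 x y) (h • f2 x y) z / h ^ 2) C :=
    fun i k => (e3 k i).div_const _
  have hi2 : ∀ (k : Fin 4), IntegrableOn (fun z =>
      crc (fun p => sig (v k p)) (fun p => sig (v (k + 1) p)) (h • f1 x y) (h • f2 x y) z / h ^ 2) C :=
    fun k => (e4 k).div_const _
  rw [integral_add (integrable_finsetSum _ fun i _ => integrable_finsetSum _ fun k _ => hi1 i k)
    (integrable_finsetSum _ fun k _ => hi2 k),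
    integral_finsetSum _ fun i _ => integrable_finsetSum _ fun k _ => hi1 i k,
    integral_finsetSum _ fun k _ => hi2 k]
  have h3 : ∑ i : Fin N, ∫ z in C, ∑ k : Fin 4,
      crc (fun p => tau (v k p) i) (fun p => tau (v (k + 1) p) i) (h • f1 x y) (h • f2 x y) z / h ^ 2 =
      ∑ i : Fin N, ∑ k : Fin 4, ∫ z in C,
      crc (fun p => tau (v k p) i) (fun p => tau (v (k + 1) p) i) (h • f1 x y) (h • f2 x y) z / h ^ 2 :=
    Finset.sum_congr rfl fun i _ => integral_finsetSum _ fun k _ => hi1 i k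
  rw [h3]
  obtain ⟨E, hE⟩ : ∃ E : Fin 4 → ℝ, ∀ k, E k = ∫ z in C, e2 x y (fun p => sig (v k p)) z := ⟨_, fun _ => rfl⟩
  have h4 : ∀ k : Fin 4, -((E k + E (k + 1)) / 2 + ε / 8) ≤ ∫ z in C,
      crc (fun p => sig (v k p)) (fun p => sig (v (k + 1) p)) (h • f1 x y) (h • f2 x y) z / h ^ 2 := by
    intro k
    have h5 := e2' k
    have h6 : ∫ z in C, ((sp (fun p => sig (v k p)) (f1 x y) z ^ 2 + sp (fun p => sig (v k p)) (f2 x y) z ^ 2) +
        (sp (fun p => sig (v (k + 1) p)) (f1 x y) z ^ 2 + sp (fun p => sig (v (k + 1) p)) (f2 x y) z ^ 2)) =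
        E k + E (k + 1) := by
      rw [hE, hE]
      exact integral_add (Lc_e2 hO (hG k) hC hCO x y) (Lc_e2 hO (hG (k + 1)) hC hCO x y)
    rw [h6] at h5
    have h7 : |∫ z in C, crc (fun p => sig (v k p)) (fun p => sig (v (k + 1) p)) (h • f1 x y) (h • f2 x y) z / h ^ 2| ≤
        ∫ z in C, |crc (fun p => sig (v k p)) (fun p => sig (v (k + 1) p)) (h • f1 x y) (h • f2 x y) z| / h ^ 2 := by
      refine abs_integral_le_integral_abs.trans (le_of_eq ?_)
      congr 1
      funext z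
      rw [abs_div, abs_of_nonneg (sq_nonneg h)]
    have h8 := neg_abs_le (∫ z in C, crc (fun p => sig (v k p)) (fun p => sig (v (k + 1) p)) (h • f1 x y) (h • f2 x y) z / h ^ 2)
    linarith
  have h9 : ∑ k : Fin 4, -((E k + E (k + 1)) / 2 + ε / 8) ≤ ∑ k : Fin 4, ∫ z in C,
      crc (fun p => sig (v k p)) (fun p => sig (v (k + 1) p)) (h • f1 x y) (h • f2 x y) z / h ^ 2 :=
    Finset.sum_le_sum fun k _ => h4 k
  have h10 : ∑ k : Fin 4, -((E k + E (k + 1)) / 2 + ε / 8) = -(∑ k, E k) - ε / 2 := by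
    rw [Fin.sum_univ_four, Fin.sum_univ_four]
    have a0 : (0 : Fin 4) + 1 = 1 := rfl
    have a1 : (1 : Fin 4) + 1 = 2 := rfl
    have a2 : (2 : Fin 4) + 1 = 3 := rfl
    have a3 : (3 : Fin 4) + 1 = 0 := rfl
    rw [a0, a1, a2, a3]
    ring
  have h11 : ∫ z in C, (Wd tau v (f1 x y) (f2 x y) z - ∑ k, e2 x y (fun p => sig (v k p)) z) =
      (∫ z in C, Wd tau v (f1 x y) (f2 x y) z) - ∑ k, E k := by
    rw [integral_sub hWdi (integrable_finsetSum _ fun k _ => Lc_e2 hO (hG k) hC hCO x y),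
      integral_finsetSum _ fun k _ => Lc_e2 hO (hG k) hC hCO x y]
    simp only [hE]
  rw [h11]
  linarith

theorem loc_ls (hX : Npc X gm) {g : ℝ × ℝ → X} {v : Fin 4 → ℝ × ℝ → X} {O C : Set (ℝ × ℝ)} (hO : IsOpen O)
    (hg : Lpo g O) (hv : ∀ k, Lpo (v k) O) (hL : Loc gm O g v) (hC : IsCompact C) (hCO : C ⊆ O)
    (x : ℝ) {y s th : ℝ} (hy : 0 < y) (hs : 0 ≤ s) (h0 : 0 < th) (h1 : th ≤ 1) : LSp gm x y s th g v C := by
  intro ε hε
  obtain ⟨N, S, tau, sig, c0, hP, hmem, hc⟩ := hL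
  have hgS : ∀ z ∈ O, g z ∈ S := fun z hz => (hmem z hz).1
  have hvS : ∀ k, ∀ z ∈ O, v k z ∈ S := fun k z hz => (hmem z hz).2 k
  have hT : ∀ k i, Lpo (fun p => tau (v k p) i) O := fun k i => pst_tau hP (hv k) (hvS k) i
  have hG : ∀ k, Lpo (fun p => sig (v k p)) O := fun k => pst_sig hP (hv k) (hvS k)
  have hWdi : IntegrableOn (Wd tau v (f1 x y) (f2 x y)) C :=
    integrable_finsetSum _ fun i _ => integrable_finsetSum _ fun k _ =>
      wd_int hO (hT k i) (hT (k + 1) i) hC hCO (f1 x y) (f2 x y)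
  have hei : IntegrableOn (fun z => ∑ k, e2 x y (fun p => sig (v k p)) z) C :=
    integrable_finsetSum _ fun k _ => Lc_e2 hO (hG k) hC hCO x y
  have h2 := yd_ge hX hP hO hg hv hgS hvS hc x hy hs h0 h1
  have h3 : ∫ z in C, Real.exp (-s) * (∑ k, e2 x y (fun p => sig (v k p)) z - Wd tau v (f1 x y) (f2 x y) z) ≤
      ∫ z in C, Yd gm x y s th g v z := by
    apply integral_mono_ae ((hei.sub hWdi).const_mul _) (yd_int hX hO hg hv hC hCO x y s h0 h1)
    filter_upwards [ae_restrict_of_ae h2, ae_restrict_mem hC.measurableSet] with z hz hzC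
    exact hz (hCO hzC)
  rw [integral_const_mul, integral_sub hei hWdi] at h3
  have h4 : (∫ z in C, ∑ k, e2 x y (fun p => sig (v k p)) z) - ∫ z in C, Wd tau v (f1 x y) (f2 x y) z ≤
      Real.exp s * ∫ z in C, Yd gm x y s th g v z := by
    have h5 := mul_le_mul_of_nonneg_left h3 (Real.exp_pos s).le
    rwa [← mul_assoc, ← Real.exp_add, add_neg_cancel, Real.exp_zero, one_mul] at h5
  filter_upwards [crc_ge hX hP hO hv hvS hC hCO x y hε] with h hh
  rw [integral_sub hWdi hei] at hh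
  linarith

end H84NS
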