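import Pool.Agent.H84.NS.Lb
import Pool.Agent.H84.NS.La
import Pool.Agent.H98.NX.Xg

set_option autoImplicit false

/-!
# Row Ld: the pointwise inequality for the density Yd in a product

Uses the statements of Lb, La, and lpo_md (row Xg), sp_pair (row Eh).  f1 = f1 x y etc.; fe x y th = cos th f1 + sin th f2, ff x y th = -sin th f1 + cos th f2.
For a.e. z in O all of the following hold: pst_sp for g and for the v k, pst_mid for the v k, MD (sig o v k) z.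
Notation at z: for i : Fin N, p1 = D(tau g i) f1, p2 = D(tau g i) f2, a1 k = D(tau (v k) i) f1, a2 k likewise, w = a - p; rho k = e2 x y (sig o v k) z = sp (sig o v k) f1^2 + sp .. f2^2.
(1) frame invariance: by sp_pair, sp (sig o v k) t z^2 is a quadratic form q(t) (coefficients A, 2B, C in the coordinates of t), so q(fe) + q(ff) = q(f1) + q(f2) = rho k (cos^2 + sin^2 = 1), hence (e^s >= e^-s)
    e^s q(fe) + e^-s q(ff) >= e^-s rho k.
(2) ek k (v k) = sum_i [e^s (cos a1 + sin a2)^2 + e^-s (-sin a1 + cos a2)^2] + [e^s q(fe) + e^-s q(ff)]   (pst_sp, linearity of fderiv), so by alg_cyc for every i and (1):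
    sum_k ek k (v k) >= sum_i {coef (p1^2+p2^2) + 2 cosh s sum_k (p1 w1 + p2 w2) - e^-s sum_k (a_k wedge a_(k+1))} + e^-s sum_k rho k,  coef = 4 cosh s - 2 e^s sinh^2 s.
    sum_i (p1^2+p2^2) = e2 x y g z (pst_mid), sum_i sum_k (a_k wedge a_(k+1)) = Wd tau v f1 f2 z.
(3) Bd k <= sum_i (p1 w1 + p2 w2): pst_mid for t = f1, f2: e2(m_k) <= sum_i |p + th w|^2 + th^2 rho k = e2 g + 2 th sum_i <p,w> + th^2 (sum_i |w|^2 + rho k); |w|^2 <= 2|a|^2 + 2|p|^2 and e2 (v k) = sum_i |a|^2 + rho k (pst_sp),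
    so sum_i |w|^2 + rho k <= 2 e2 (v k) + 2 e2 g. Divide by 2 th.
(4) Yd = sum ek - coef e2 g - 2 cosh s sum Bd >= e^-s (sum rho k - Wd)   (cosh s >= 0).
-/

namespace H84NS

open H50NA H98NX MeasureTheory Set Filter Topology
open H80HM (D U P f1 f2)

variable {X : Type} [MetricSpace X] {gm : X → X → ℝ → X} {S : Set X} {N : ℕ} {tau : X → Fin N → ℝ} {sig : X → X}

theorem Ld_frame {f : ℝ × ℝ → X} {z : ℝ × ℝ} (h : MD f z) (x y th : ℝ) :
    sp f (fe x y th) z ^ 2 + sp f (ff x y th) z ^ 2 = e2 x y f z := by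
  obtain ⟨B, -, hB⟩ := sp_pair h
  have h1 : fe x y th = (Real.cos th * Real.sqrt y + Real.sin th * (-x / Real.sqrt y),
      Real.sin th * (1 / Real.sqrt y)) := by
    simp [fe, f1, f2]
  have h2 : ff x y th = (-Real.sin th * Real.sqrt y + Real.cos th * (-x / Real.sqrt y),
      Real.cos th * (1 / Real.sqrt y)) := by
    simp [ff, f1, f2]
  have h3 : e2 x y f z = sp f (Real.sqrt y, 0) z ^ 2 + sp f (-x / Real.sqrt y, 1 / Real.sqrt y) z ^ 2 := rfl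
  rw [h1, h2, h3, hB (Real.cos th * Real.sqrt y + Real.sin th * (-x / Real.sqrt y)) (Real.sin th * (1 / Real.sqrt y)),
    hB (-Real.sin th * Real.sqrt y + Real.cos th * (-x / Real.sqrt y)) (Real.cos th * (1 / Real.sqrt y)),
    hB (Real.sqrt y) 0, hB (-x / Real.sqrt y) (1 / Real.sqrt y)]
  generalize Real.sqrt y = a
  generalize -x / a = b
  generalize (1 / a : ℝ) = d
  have hcs : Real.cos th ^ 2 + Real.sin th ^ 2 = 1 := Real.cos_sq_add_sin_sq th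
  generalize Real.cos th = c at hcs
  generalize Real.sin th = s at hcs
  generalize sp f (1, 0) z ^ 2 = p
  generalize sp f (0, 1) z ^ 2 = q
  linear_combination (a ^ 2 * p + b ^ 2 * p + 2 * b * d * B + d ^ 2 * q) * hcs

theorem Ld_B {n : ℕ} {th : ℝ} (h0 : 0 < th) {p1 p2 a1 a2 : Fin n → ℝ} {G m ev r : ℝ} (hr : 0 ≤ r)
    (hG : G = ∑ i, (p1 i ^ 2 + p2 i ^ 2)) (hev : ev = ∑ i, (a1 i ^ 2 + a2 i ^ 2) + r)
    (hm : m ≤ ∑ i, (((1 - th) * p1 i + th * a1 i) ^ 2 + ((1 - th) * p2 i + th * a2 i) ^ 2) + th ^ 2 * r) :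
    (m - G) / (2 * th) - th * (ev + G) ≤ ∑ i, (p1 i * (a1 i - p1 i) + p2 i * (a2 i - p2 i)) := by
  have e1 : ∑ i, (((1 - th) * p1 i + th * a1 i) ^ 2 + ((1 - th) * p2 i + th * a2 i) ^ 2) =
      G + 2 * th * ∑ i, (p1 i * (a1 i - p1 i) + p2 i * (a2 i - p2 i)) +
        th ^ 2 * ∑ i, ((a1 i - p1 i) ^ 2 + (a2 i - p2 i) ^ 2) := by
    rw [hG, Finset.mul_sum, Finset.mul_sum, ← Finset.sum_add_distrib, ← Finset.sum_add_distrib]
    exact Finset.sum_congr rfl fun i _ => by ring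
  have e2' : ∑ i, ((a1 i - p1 i) ^ 2 + (a2 i - p2 i) ^ 2) ≤ 2 * (ev - r) + 2 * G := by
    have e3 : 2 * (ev - r) + 2 * G = ∑ i, (2 * (a1 i ^ 2 + a2 i ^ 2) + 2 * (p1 i ^ 2 + p2 i ^ 2)) := by
      rw [Finset.sum_add_distrib, ← Finset.mul_sum, ← Finset.mul_sum, hG, hev]
      ring
    rw [e3]
    refine Finset.sum_le_sum fun i _ => ?_
    nlinarith [sq_nonneg (a1 i + p1 i), sq_nonneg (a2 i + p2 i)]
  rw [e1] at hm
  have h2 : 0 < 2 * th := by linarith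
  have e4 : (m - G) / (2 * th) ≤ ∑ i, (p1 i * (a1 i - p1 i) + p2 i * (a2 i - p2 i)) + th * (ev + G) := by
    rw [div_le_iff₀ h2]
    have h3 : th ^ 2 * ∑ i, ((a1 i - p1 i) ^ 2 + (a2 i - p2 i) ^ 2) ≤ th ^ 2 * (2 * (ev - r) + 2 * G) :=
      mul_le_mul_of_nonneg_left e2' (sq_nonneg _)
    have h4 : 0 ≤ th ^ 2 * r := mul_nonneg (sq_nonneg _) hr
    nlinarith [hm, h3, h4]
  linarith

theorem Ld_alg {n : ℕ} {s th : ℝ} (hs : 0 ≤ s) (h0 : 0 < th) {p1 p2 : Fin n → ℝ} {a1 a2 : Fin 4 → Fin n → ℝ}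
    {G : ℝ} {E m ev r : Fin 4 → ℝ} (hr : ∀ k, 0 ≤ r k)
    (hG : G = ∑ i, (p1 i ^ 2 + p2 i ^ 2)) (hev : ∀ k, ev k = ∑ i, (a1 k i ^ 2 + a2 k i ^ 2) + r k)
    (hm : ∀ k, m k ≤ ∑ i, (((1 - th) * p1 i + th * a1 k i) ^ 2 + ((1 - th) * p2 i + th * a2 k i) ^ 2) + th ^ 2 * r k)
    (hE : ∀ k, ∑ i, (Real.exp s * (Real.cos (thk k) * a1 k i + Real.sin (thk k) * a2 k i) ^ 2 +
      Real.exp (-s) * (-Real.sin (thk k) * a1 k i + Real.cos (thk k) * a2 k i) ^ 2) + Real.exp (-s) * r k ≤ E k) :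
    Real.exp (-s) * (∑ k, r k - ∑ i, ∑ k, (a1 k i * a2 (k + 1) i - a2 k i * a1 (k + 1) i)) ≤
      ∑ k, E k - (4 * Real.cosh s - 2 * Real.exp s * Real.sinh s ^ 2) * G -
        2 * Real.cosh s * ∑ k, ((m k - G) / (2 * th) - th * (ev k + G)) := by
  have hB : ∑ k, ((m k - G) / (2 * th) - th * (ev k + G)) ≤
      ∑ k, ∑ i, (p1 i * (a1 k i - p1 i) + p2 i * (a2 k i - p2 i)) :=
    Finset.sum_le_sum fun k _ => Ld_B h0 (hr k) hG (hev k) (hm k)
  have hcy : ∀ i, (4 * Real.cosh s - 2 * Real.exp s * Real.sinh s ^ 2) * (p1 i ^ 2 + p2 i ^ 2) +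
      2 * Real.cosh s * ∑ k, (p1 i * (a1 k i - p1 i) + p2 i * (a2 k i - p2 i)) -
      Real.exp (-s) * ∑ k, (a1 k i * a2 (k + 1) i - a2 k i * a1 (k + 1) i) ≤
      ∑ k, (Real.exp s * (Real.cos (thk k) * a1 k i + Real.sin (thk k) * a2 k i) ^ 2 +
      Real.exp (-s) * (-Real.sin (thk k) * a1 k i + Real.cos (thk k) * a2 k i) ^ 2) := by
    intro i
    have h := alg_cyc hs (p1 i) (p2 i) (fun k => a1 k i - p1 i) (fun k => a2 k i - p2 i)
    simp only [add_sub_cancel] at h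
    exact h
  have hS := Finset.sum_le_sum fun i (_ : i ∈ (Finset.univ : Finset (Fin n))) => hcy i
  rw [Finset.sum_sub_distrib, Finset.sum_add_distrib, ← Finset.mul_sum, ← Finset.mul_sum, ← Finset.mul_sum,
    ← hG, Finset.sum_comm (f := fun i k => (Real.exp s * (Real.cos (thk k) * a1 k i + Real.sin (thk k) * a2 k i) ^ 2 +
      Real.exp (-s) * (-Real.sin (thk k) * a1 k i + Real.cos (thk k) * a2 k i) ^ 2)),
    Finset.sum_comm (f := fun i k => (p1 i * (a1 k i - p1 i) + p2 i * (a2 k i - p2 i)))] at hS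
  have hT := Finset.sum_le_sum fun k (_ : k ∈ (Finset.univ : Finset (Fin 4))) => hE k
  rw [Finset.sum_add_distrib, ← Finset.mul_sum] at hT
  have hc : 0 ≤ 2 * Real.cosh s := by
    have := Real.cosh_pos s
    linarith
  have hB' := mul_le_mul_of_nonneg_left hB hc
  rw [mul_sub]
  linarith

theorem yd_ge (hX : Npc X gm) (hP : Pst gm S tau sig) {g : ℝ × ℝ → X} {v : Fin 4 → ℝ × ℝ → X} {c0 : X}
    {O : Set (ℝ × ℝ)} (hO : IsOpen O) (hg : Lpo g O) (hv : ∀ k, Lpo (v k) O) (hgS : ∀ z ∈ O, g z ∈ S)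
    (hvS : ∀ k, ∀ z ∈ O, v k z ∈ S) (hc : ∀ z ∈ O, sig (g z) = c0) (x : ℝ) {y s th : ℝ} (hy : 0 < y) (hs : 0 ≤ s)
    (h0 : 0 < th) (h1 : th ≤ 1) :
    ∀ᵐ z ∂(volume : Measure (ℝ × ℝ)), z ∈ O →
      Real.exp (-s) * (∑ k, e2 x y (fun p => sig (v k p)) z - Wd tau v (f1 x y) (f2 x y) z) ≤
        Yd gm x y s th g v z := by
  have hv' : ∀ᵐ z ∂(volume : Measure (ℝ × ℝ)), ∀ k, z ∈ O →
      MD (fun p => sig (v k p)) z ∧
      (∀ t : ℝ × ℝ, sp (v k) t z ^ 2 = ∑ i, (fderiv ℝ (fun p => tau (v k p) i) z t) ^ 2 +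
        sp (fun p => sig (v k p)) t z ^ 2) ∧
      ∀ t : ℝ × ℝ, sp g t z ^ 2 = ∑ i, (fderiv ℝ (fun p => tau (g p) i) z t) ^ 2 ∧
      sp (ip gm g (v k) (fun _ => th)) t z ^ 2 ≤
        ∑ i, ((1 - th) * fderiv ℝ (fun p => tau (g p) i) z t + th * fderiv ℝ (fun p => tau (v k p) i) z t) ^ 2 +
          th ^ 2 * sp (fun p => sig (v k p)) t z ^ 2 := by
    rw [ae_all_iff]
    intro k
    filter_upwards [lpo_md hX hO (pst_sig hP (hv k) (hvS k)), pst_sp hP hO (hv k) (hvS k),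
      pst_mid hX hP hO hg (hv k) hgS (hvS k) hc h0.le h1] with z q1 q2 q3 hz
    exact ⟨q1 hz, (q2 hz).2, q3 hz⟩
  filter_upwards [hv'] with z hz hzO
  have hm := fun k => (hz k hzO).1
  have hs2 := fun k => (hz k hzO).2.1
  have h3 := fun k => (hz k hzO).2.2
  obtain ⟨p, hp⟩ : ∃ p : Fin N → ℝ × ℝ →L[ℝ] ℝ, p = fun i => fderiv ℝ (fun p => tau (g p) i) z := ⟨_, rfl⟩
  obtain ⟨a, ha⟩ : ∃ a : Fin 4 → Fin N → ℝ × ℝ →L[ℝ] ℝ, a = fun k i => fderiv ℝ (fun p => tau (v k p) i) z :=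
    ⟨_, rfl⟩
  have hp' : ∀ i t, fderiv ℝ (fun p => tau (g p) i) z t = p i t := fun i t => by rw [hp]
  have ha' : ∀ k i t, fderiv ℝ (fun p => tau (v k p) i) z t = a k i t := fun k i t => by rw [ha]
  simp only [hp', ha'] at hs2 h3
  have key := Ld_alg (n := N) (p1 := fun i => p i (f1 x y)) (p2 := fun i => p i (f2 x y))
    (a1 := fun k i => a k i (f1 x y)) (a2 := fun k i => a k i (f2 x y)) (G := e2 x y g z)
    (E := fun k => ek x y s k (v k) z) (m := fun k => e2 x y (ip gm g (v k) (fun _ => th)) z)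
    (ev := fun k => e2 x y (v k) z) (r := fun k => e2 x y (fun p => sig (v k p)) z) hs h0
    (fun k => add_nonneg (sq_nonneg _) (sq_nonneg _)) ?_ ?_ ?_ ?_
  · have eW : Wd tau v (f1 x y) (f2 x y) z =
        ∑ i, ∑ k, (a k i (f1 x y) * a (k + 1) i (f2 x y) - a k i (f2 x y) * a (k + 1) i (f1 x y)) := by
      unfold Wd wd
      simp only [ha']
    rw [eW]
    exact key
  · show sp g (f1 x y) z ^ 2 + sp g (f2 x y) z ^ 2 = _
    rw [(h3 0 (f1 x y)).1, (h3 0 (f2 x y)).1, Finset.sum_add_distrib]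
  · intro k
    show sp (v k) (f1 x y) z ^ 2 + sp (v k) (f2 x y) z ^ 2 = _ +
      (sp (fun p => sig (v k p)) (f1 x y) z ^ 2 + sp (fun p => sig (v k p)) (f2 x y) z ^ 2)
    rw [hs2 k (f1 x y), hs2 k (f2 x y), Finset.sum_add_distrib]
    ring
  · intro k
    show sp (ip gm g (v k) (fun _ => th)) (f1 x y) z ^ 2 + sp (ip gm g (v k) (fun _ => th)) (f2 x y) z ^ 2 ≤ _ +
      th ^ 2 * (sp (fun p => sig (v k p)) (f1 x y) z ^ 2 + sp (fun p => sig (v k p)) (f2 x y) z ^ 2)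
    have q1 := (h3 k (f1 x y)).2
    have q2 := (h3 k (f2 x y)).2
    rw [Finset.sum_add_distrib]
    linarith
  · intro k
    show _ ≤ Real.exp s * sp (v k) (fe x y (thk k)) z ^ 2 + Real.exp (-s) * sp (v k) (ff x y (thk k)) z ^ 2
    have e1 : ∀ i, a k i (fe x y (thk k)) = Real.cos (thk k) * a k i (f1 x y) + Real.sin (thk k) * a k i (f2 x y) := by
      intro i
      rw [fe, map_add, map_smul, map_smul, smul_eq_mul, smul_eq_mul]
    have e3 : ∀ i, a k i (ff x y (thk k)) = -Real.sin (thk k) * a k i (f1 x y) + Real.cos (thk k) * a k i (f2 x y) := by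
      intro i
      rw [ff, map_add, map_smul, map_smul, smul_eq_mul, smul_eq_mul]
    rw [hs2 k (fe x y (thk k)), hs2 k (ff x y (thk k))]
    simp only [e1, e3]
    have hfr := Ld_frame (hm k) x y (thk k)
    have hle : Real.exp (-s) ≤ Real.exp s := Real.exp_le_exp.2 (by linarith)
    have hq : 0 ≤ sp (fun p => sig (v k p)) (fe x y (thk k)) z ^ 2 := sq_nonneg _
    have hmul := mul_le_mul_of_nonneg_right hle hq
    rw [Finset.sum_add_distrib, ← Finset.mul_sum, ← Finset.mul_sum, ← hfr]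
    linarith

end H84NS
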