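import Pool.Agent.H84.NS.Fa

set_option autoImplicit false

/-!
# The four point inequality, also when the class is empty
-/

namespace H84NS

open H50NA
open H80HM (VS)

theorem e0_empty {X : Type} [MetricSpace X] {A B C : X ≃ᵢ X} {r : ℝ} {o : X}
    (h : ¬ ∃ f, Cl0 A B C r o f) (x y : ℝ) : E0 A B C r o x y = 0 := by
  have h1 : {e | ∃ f, Cl0 A B C r o f ∧ e = Ex x y f} = ∅ := by
    ext e
    constructor
    · rintro ⟨f, hf, _⟩
      exact absurd ⟨f, hf⟩ h
    · intro he
      exact absurd he (Set.notMem_empty e)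
  unfold E0
  rw [h1, Real.sInf_empty]

theorem vs_all {K : Type} [Field K] (F : VF K) (hF : Rf F) {V : Type} [AddCommGroup V] [Module K V]
    [Module.Finite K V] (A B C : Nm F V ≃ᵢ Nm F V) {r : ℝ} (o : Nm F V) (hr : 0 < r) (hr8 : r < 1 / 8) :
    VS (fun x y => E0 A B C r o x y) := by
  by_cases hne : ∃ f, Cl0 A B C r o f
  · exact vs_e0 F hF hr hr8 hne
  · intro x y hy ep hep
    refine ⟨1, one_pos, fun s _ _ => ?_⟩
    simp only [e0_empty hne]
    nlinarith [sq_nonneg s]

end H84NS
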