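import Pool.Agent.H84.NS.Dx
import Pool.Agent.H98.NX.Ea

set_option autoImplicit false

/-!
# Row Xa: the periodic extension pex C f z = C^floor(z.1) (f (fract z.1, z.2)) of a glued map f on D minus P

pex_D: z in D \ P. If z.1 < 1 then floor = 0, fract = z.1 and C^0 = 1. If z.1 = 1 then floor = 1, fract = 0, z.2 in (0,1/2) (otherwise z in P), and C (f (0, z.2)) = f (1, z.2) by glC.
pex_add: floor (t+1) = floor t + 1, fract (t+1) = fract t, C^(n+1) = C * C^n (zpow_one_add; IsometryEquiv is a group, coe_mul).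
pex_rb (bottom reflection): t in (n/2, (n+1)/2) for an integer n: put m = floor t, w = fract t, which lies in (0,1/2) or (1/2,1) according to the parity of n (n = 2m or n = 2m+1), the same case for all t in the interval.
   -t = (-m-1) + (1-w) with 1-w in (0,1), so pex (-t,0) = C^(-m-1) f(1-w,0), and f(1-w,0) = A f(w,0) if w < 1/2 (glA), = A^-1 f(w,0) if w > 1/2 (glA for u = 1-w).
   f(w,0) = C^(-m) pex(t,0). So pex(-t,0) = I (pex (t,0)), I = C^(-m-1) A^(+-1) C^(-m), which does not depend on t and on f (only on n).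
pex_rt: the same with B and height 1/2.
pex_lpo: lpo_loc (row Ea): for z in Sc \ Q2 find r, L:
   (i) z.1 not an integer, m = floor z.1: r > 0 such that the closed ball of radius r around z lies in (m, m+1) x R and closedBall z r cap Sc does not meet Q2; on S cap ball z r (S = Sc \ Q2): pex = C^m f(. - (m,0)), the set
       closedBall z r cap Sc, translated by -(m,0), is compact and contained in D \ P; take its Lipschitz constant (Lpo), isometries preserve it.
   (ii) z.1 = m integer, z.2 in (0,1/2): r <= 1/4, r < z.2, r < 1/2 - z.2. L = Lipschitz constant of f on the compact set ([0,r] u [1-r,1]) x [z.2-r, z.2+r] in D \ P. On the right half {z.1 >= m} of the ball pex = C^m f(. - (m,0));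
       on the left half {z.1 <= m}: pex = C^(m-1) f(. - (m-1,0)) (for z.1 = m this uses glC). Both halves: constant L. Points y on the left, y' on the right: let w be the point of the segment with first coordinate m:
       dist <= L dist y w + L dist w y' = L dist y y' (w on the segment, so the distances add up). [Sup metric: dist y w = t dist y y', dist w y' = (1-t) dist y y'.]
-/

namespace H84NS

open H50NA H98NX MeasureTheory Set Filter Topology
open H80HM (D U P f1 f2)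

variable {X : Type} [MetricSpace X] {A B C : X ≃ᵢ X}

theorem Xa_addm (C : X ≃ᵢ X) (f : ℝ × ℝ → X) (m : ℤ) (z : ℝ × ℝ) :
    pex C f (z + ((m : ℝ), 0)) = (C ^ m) (pex C f z) := by
  unfold pex
  have h1 : (z + ((m : ℝ), (0:ℝ))).1 = z.1 + m := rfl
  have h2 : (z + ((m : ℝ), (0:ℝ))).2 = z.2 := add_zero _
  rw [h1, h2, Int.floor_add_intCast, Int.fract_add_intCast, add_comm, zpow_add,
    IsometryEquiv.mul_apply]

theorem Xa_memD {x : ℝ × ℝ} : x ∈ D ↔ (0 ≤ x.1 ∧ x.1 ≤ 1) ∧ (0 ≤ x.2 ∧ x.2 ≤ 1/2) := Iff.rfl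

theorem Xa_memP {x : ℝ × ℝ} : x ∈ P ↔ (x.1 = 0 ∨ x.1 = 1/2 ∨ x.1 = 1) ∧ (x.2 = 0 ∨ x.2 = 1/2) :=
  Iff.rfl

theorem Xa_closedP : IsClosed P := by
  have h : (P : Set (ℝ × ℝ)).Finite := by
    unfold H80HM.P
    exact (Set.toFinite _).prod (Set.toFinite _)
  exact h.isClosed

theorem Xa_closedD : IsClosed D := isClosed_Icc.prod isClosed_Icc

theorem Xa_lip {f : ℝ × ℝ → X} (hl : Lpo f (D \ P)) {p : ℝ × ℝ} (hp : p ∈ D \ P) :
    ∃ r : ℝ, 0 < r ∧ ∃ L : ℝ, 0 ≤ L ∧ D ∩ Metric.closedBall p r ⊆ D \ P ∧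
      ∀ q ∈ D ∩ Metric.closedBall p r, ∀ q' ∈ D ∩ Metric.closedBall p r,
        dist (f q) (f q') ≤ L * dist q q' := by
  obtain ⟨r, hr, hrP⟩ := Metric.nhds_basis_closedBall.mem_iff.1
    (Xa_closedP.isOpen_compl.mem_nhds hp.2)
  have hsub : D ∩ Metric.closedBall p r ⊆ D \ P := fun q hq => ⟨hq.1, hrP hq.2⟩
  obtain ⟨L, hL⟩ := hl _ hsub ((isCompact_closedBall p r).inter_left Xa_closedD)
  refine ⟨r, hr, max L 0, le_max_right _ _, hsub, ?_⟩
  intro q hq q' hq'
  exact (hL q hq q' hq').trans (mul_le_mul_of_nonneg_right (le_max_left _ _) dist_nonneg)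

theorem pex_D {f : ℝ × ℝ → X} (hf : Glu A B C f) {z : ℝ × ℝ} (hz : z ∈ D \ P) : pex C f z = f z := by
  obtain ⟨u, v⟩ := z
  obtain ⟨hD, hP⟩ := hz
  rw [Xa_memD] at hD
  obtain ⟨⟨h1, h2⟩, h3, h4⟩ := hD
  simp only at h1 h2 h3 h4
  show (C ^ ⌊u⌋) (f (Int.fract u, v)) = f (u, v)
  rcases h2.lt_or_eq with h | h
  · rw [Int.floor_eq_zero_iff.2 ⟨h1, h⟩, Int.fract_eq_self.2 ⟨h1, h⟩, zpow_zero]
    rfl
  · subst h
    have hv0 : 0 < v := by
      refine lt_of_le_of_ne h3 fun h => hP ?_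
      rw [Xa_memP]
      exact ⟨Or.inr (Or.inr rfl), Or.inl h.symm⟩
    have hv1 : v < 1/2 := by
      refine lt_of_le_of_ne h4 fun h => hP ?_
      rw [Xa_memP]
      exact ⟨Or.inr (Or.inr rfl), Or.inr h⟩
    rw [Int.floor_one, Int.fract_one, zpow_one]
    exact (hf.glC v ⟨hv0, hv1⟩).symm

theorem pex_add (C : X ≃ᵢ X) (f : ℝ × ℝ → X) (z : ℝ × ℝ) : pex C f (z + (1, 0)) = C (pex C f z) := by
  have h := Xa_addm C f 1 z
  rw [zpow_one, Int.cast_one] at h
  exact h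

theorem Xa_loc {f : ℝ × ℝ → X} (hf : Glu A B C f) (m : ℤ) {z : ℝ × ℝ}
    (hz : z - ((m : ℝ), 0) ∈ D \ P) : pex C f z = (C ^ m) (f (z - ((m : ℝ), 0))) := by
  have h := Xa_addm C f m (z - ((m : ℝ), 0))
  rw [sub_add_cancel, pex_D hf hz] at h
  exact h

theorem Xa_refl (C A : X ≃ᵢ X) (h : ℝ) (n : ℤ) : ∃ I : X ≃ᵢ X, ∀ f : ℝ × ℝ → X,
    (∀ u ∈ Ioo (0:ℝ) (1/2), f (1 - u, h) = A (f (u, h))) →
    ∀ t : ℝ, (n : ℝ) / 2 < t → t < ((n : ℝ) + 1) / 2 → pex C f (-t, h) = I (pex C f (t, h)) := by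
  have key : ∀ (m : ℤ) (t w : ℝ), t = m + w → 0 < w → w < 1 → ∀ f : ℝ × ℝ → X,
      pex C f (t, h) = (C ^ m) (f (w, h)) ∧ pex C f (-t, h) = (C ^ (-m - 1)) (f (1 - w, h)) := by
    intro m t w ht h0 h1 f
    have a1 : ⌊t⌋ = m := by
      rw [Int.floor_eq_iff]
      constructor <;> linarith
    have a2 : Int.fract t = w := by
      rw [Int.fract, a1, ht]
      ring
    have b1 : ⌊-t⌋ = -m - 1 := by
      rw [Int.floor_eq_iff]
      push_cast
      constructor <;> linarith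
    have b2 : Int.fract (-t) = 1 - w := by
      rw [Int.fract, b1, ht]
      push_cast
      ring
    constructor
    · show (C ^ ⌊t⌋) (f (Int.fract t, h)) = _
      rw [a1, a2]
    · show (C ^ ⌊-t⌋) (f (Int.fract (-t), h)) = _
      rw [b1, b2]
  obtain ⟨m, hm | hm⟩ : ∃ m : ℤ, n = 2 * m ∨ n = 2 * m + 1 := ⟨n / 2, by omega⟩
  · refine ⟨C ^ (-m - 1) * A * (C ^ m)⁻¹, ?_⟩
    intro f hf t h1 h2
    rw [hm] at h1 h2
    push_cast at h1 h2
    obtain ⟨k1, k2⟩ := key m t (t - m) (by ring) (by linarith) (by linarith) f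
    rw [k2, k1, hf (t - m) ⟨by linarith, by linarith⟩, IsometryEquiv.mul_apply,
      IsometryEquiv.mul_apply, IsometryEquiv.inv_apply_self]
  · refine ⟨C ^ (-m - 1) * A⁻¹ * (C ^ m)⁻¹, ?_⟩
    intro f hf t h1 h2
    rw [hm] at h1 h2
    push_cast at h1 h2
    obtain ⟨k1, k2⟩ := key m t (t - m) (by ring) (by linarith) (by linarith) f
    have h3 := hf (1 - (t - m)) ⟨by linarith, by linarith⟩
    rw [sub_sub_cancel] at h3
    rw [k2, k1, h3, IsometryEquiv.mul_apply,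
      IsometryEquiv.mul_apply, IsometryEquiv.inv_apply_self, IsometryEquiv.inv_apply_self]

theorem pex_rb (A B C : X ≃ᵢ X) (n : ℤ) : ∃ I : X ≃ᵢ X, ∀ f : ℝ × ℝ → X, Glu A B C f →
    ∀ t : ℝ, (n : ℝ) / 2 < t → t < ((n : ℝ) + 1) / 2 → pex C f (-t, 0) = I (pex C f (t, 0)) := by
  obtain ⟨I, hI⟩ := Xa_refl C A 0 n
  exact ⟨I, fun f hf t h1 h2 => hI f hf.glA t h1 h2⟩

theorem pex_rt (A B C : X ≃ᵢ X) (n : ℤ) : ∃ I : X ≃ᵢ X, ∀ f : ℝ × ℝ → X, Glu A B C f →
    ∀ t : ℝ, (n : ℝ) / 2 < t → t < ((n : ℝ) + 1) / 2 → pex C f (-t, 1/2) = I (pex C f (t, 1/2)) := by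
  obtain ⟨I, hI⟩ := Xa_refl C B (1/2) n
  exact ⟨I, fun f hf t h1 h2 => hI f hf.glB t h1 h2⟩

theorem pex_lpo {f : ℝ × ℝ → X} (hl : Lpo f (D \ P)) (hf : Glu A B C f) : Lpo (pex C f) (Sc \ Q2) := by
  have hScv : Convex ℝ Sc := by
    have : (Sc : Set (ℝ × ℝ)) = univ ×ˢ Icc (0:ℝ) (1/2) := by
      ext x
      simp [Sc]
    rw [this]
    exact convex_univ.prod (convex_Icc _ _)
  -- the comparison on the part of a ball on which the formula with m holds
  have hcmp : ∀ (m : ℤ) (p : ℝ × ℝ) (r L : ℝ), D ∩ Metric.closedBall p r ⊆ D \ P →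
      (∀ q ∈ D ∩ Metric.closedBall p r, ∀ q' ∈ D ∩ Metric.closedBall p r,
        dist (f q) (f q') ≤ L * dist q q') → ∀ y y' : ℝ × ℝ,
      y - ((m : ℝ), 0) ∈ D ∩ Metric.closedBall p r →
      y' - ((m : ℝ), 0) ∈ D ∩ Metric.closedBall p r →
      dist (pex C f y) (pex C f y') ≤ L * dist y y' := by
    intro m p r L hs hL y y' hy hy'
    rw [Xa_loc hf m (hs hy), Xa_loc hf m (hs hy'), IsometryEquiv.dist_eq]
    have := hL _ hy _ hy'
    rwa [dist_sub_right] at this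
  apply lpo_loc
  rintro z ⟨hzS, hzQ⟩
  set m : ℤ := ⌊z.1⌋ with hm
  have hf0 : 0 ≤ z.1 - m := Int.fract_nonneg z.1
  have hf1 : z.1 - m < 1 := Int.fract_lt_one z.1
  have hz1 : (z - ((m : ℝ), (0:ℝ))).1 = z.1 - m := rfl
  have hz2 : (z - ((m : ℝ), (0:ℝ))).2 = z.2 := sub_zero _
  have hz' : z - ((m : ℝ), (0:ℝ)) ∈ D \ P := by
    refine ⟨?_, ?_⟩
    · rw [Xa_memD, hz1, hz2]
      exact ⟨⟨hf0, hf1.le⟩, hzS⟩
    · rw [Xa_memP, hz1, hz2]
      rintro ⟨h1, h2⟩
      apply hzQ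
      refine ⟨?_, h2⟩
      rcases h1 with h | h | h
      · exact ⟨2 * m, by push_cast; linarith⟩
      · exact ⟨2 * m + 1, by push_cast; linarith⟩
      · exact ⟨2 * m + 2, by push_cast; linarith⟩
  obtain ⟨r1, hr1, L1, hL10, hs1, hL1⟩ := Xa_lip hl hz'
  -- membership
  have hmem : ∀ (k : ℤ) (r' : ℝ) (y : ℝ × ℝ), y ∈ Sc → dist y z ≤ r' → (k : ℝ) ≤ y.1 →
      y.1 ≤ k + 1 → y - ((k : ℝ), 0) ∈ D ∩ Metric.closedBall (z - ((k : ℝ), 0)) r' := by
    intro k r' y hy hd h1 h2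
    refine ⟨?_, ?_⟩
    · have e2 : (y - ((k : ℝ), (0:ℝ))).2 = y.2 := sub_zero _
      have e1 : (y - ((k : ℝ), (0:ℝ))).1 = y.1 - k := rfl
      rw [Xa_memD, e1, e2]
      exact ⟨⟨by linarith, by linarith⟩, hy⟩
    · rw [Metric.mem_closedBall, dist_sub_right]
      exact hd
  have hco : ∀ y : ℝ × ℝ, |y.1 - z.1| ≤ dist y z := fun y => by
    rw [Prod.dist_eq]
    exact le_max_left _ _
  rcases hf0.lt_or_eq with hpos | hzero
  · refine ⟨min r1 (min (z.1 - m) (1 - (z.1 - m))), ?_, L1, ?_⟩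
    · exact lt_min hr1 (lt_min hpos (by linarith))
    · have hin : ∀ y ∈ (Sc \ Q2) ∩ Metric.ball z (min r1 (min (z.1 - m) (1 - (z.1 - m)))),
          y - ((m : ℝ), 0) ∈ D ∩ Metric.closedBall (z - ((m : ℝ), 0)) r1 := by
        rintro y ⟨hy, hyb⟩
        rw [Metric.mem_ball, lt_min_iff, lt_min_iff] at hyb
        have h1 := abs_le.1 (hco y)
        exact hmem m r1 y hy.1 hyb.1.le (by linarith) (by linarith)
      intro y hy y' hy'
      exact hcmp m _ r1 L1 hs1 hL1 y y' (hin y hy) (hin y' hy')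
  · -- integral first coordinate
    have hzm : z.1 = m := by linarith
    have hv0 : z.2 ≠ 0 ∧ z.2 ≠ 1/2 := by
      constructor
      · intro h
        exact hzQ ⟨⟨2 * m, by push_cast; linarith⟩, Or.inl h⟩
      · intro h
        exact hzQ ⟨⟨2 * m, by push_cast; linarith⟩, Or.inr h⟩
    have hz'' : z - (((m - 1 : ℤ) : ℝ), (0:ℝ)) ∈ D \ P := by
      have e1 : (z - (((m - 1 : ℤ) : ℝ), (0:ℝ))).1 = 1 := by
        show z.1 - ((m - 1 : ℤ) : ℝ) = 1
        push_cast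
        linarith
      have e2 : (z - (((m - 1 : ℤ) : ℝ), (0:ℝ))).2 = z.2 := sub_zero _
      refine ⟨?_, ?_⟩
      · rw [Xa_memD, e1, e2]
        exact ⟨⟨zero_le_one, le_rfl⟩, hzS⟩
      · rw [Xa_memP, e1, e2]
        rintro ⟨-, h2 | h2⟩
        · exact hv0.1 h2
        · exact hv0.2 h2
    obtain ⟨r2, hr2, L2, hL20, hs2, hL2⟩ := Xa_lip hl hz''
    have hR : ∀ y y' : ℝ × ℝ, y ∈ Sc → y' ∈ Sc → dist y z < min r1 (min r2 1) →
        dist y' z < min r1 (min r2 1) → (m : ℝ) ≤ y.1 → (m : ℝ) ≤ y'.1 →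
        dist (pex C f y) (pex C f y') ≤ max L1 L2 * dist y y' := by
      intro y y' hy hy' hd hd' h1 h1'
      rw [lt_min_iff, lt_min_iff] at hd hd'
      have a1 := abs_le.1 (hco y)
      have a1' := abs_le.1 (hco y')
      exact (hcmp m _ r1 L1 hs1 hL1 y y' (hmem m r1 y hy hd.1.le h1 (by linarith))
        (hmem m r1 y' hy' hd'.1.le h1' (by linarith))).trans
        (mul_le_mul_of_nonneg_right (le_max_left _ _) dist_nonneg)
    have hLf : ∀ y y' : ℝ × ℝ, y ∈ Sc → y' ∈ Sc → dist y z < min r1 (min r2 1) →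
        dist y' z < min r1 (min r2 1) → y.1 ≤ m → y'.1 ≤ m →
        dist (pex C f y) (pex C f y') ≤ max L1 L2 * dist y y' := by
      intro y y' hy hy' hd hd' h1 h1'
      rw [lt_min_iff, lt_min_iff] at hd hd'
      have a1 := abs_le.1 (hco y)
      have a1' := abs_le.1 (hco y')
      refine (hcmp (m - 1) _ r2 L2 hs2 hL2 y y' (hmem (m - 1) r2 y hy hd.2.1.le ?_ ?_)
        (hmem (m - 1) r2 y' hy' hd'.2.1.le ?_ ?_)).trans
        (mul_le_mul_of_nonneg_right (le_max_right _ _) dist_nonneg) <;>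
      · push_cast
        linarith
    have hX : ∀ y y' : ℝ × ℝ, y ∈ Sc → y' ∈ Sc → dist y z < min r1 (min r2 1) →
        dist y' z < min r1 (min r2 1) → y.1 ≤ m → (m : ℝ) ≤ y'.1 →
        dist (pex C f y) (pex C f y') ≤ max L1 L2 * dist y y' := by
      intro y y' hy hy' hd hd' h1 h1'
      obtain ⟨w, hw, hw1⟩ : ∃ w ∈ segment ℝ y y', w.1 = m := by
        by_cases he : y.1 = y'.1
        · exact ⟨y, left_mem_segment ℝ y y', by linarith⟩
        · have hlt : 0 < y'.1 - y.1 := by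
            have : y.1 ≤ y'.1 := h1.trans h1'
            have := lt_of_le_of_ne this he
            linarith
          refine ⟨y + ((m - y.1) / (y'.1 - y.1)) • (y' - y), ?_, ?_⟩
          · rw [segment_eq_image']
            refine ⟨(m - y.1) / (y'.1 - y.1), ⟨div_nonneg (by linarith) hlt.le, ?_⟩, rfl⟩
            rw [div_le_one hlt]
            linarith
          · show y.1 + ((m - y.1) / (y'.1 - y.1)) * (y'.1 - y.1) = m
            rw [div_mul_cancel₀ _ hlt.ne']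
            ring
      have hwS : w ∈ Sc := hScv.segment_subset hy hy' hw
      have hwb : w ∈ Metric.ball z (min r1 (min r2 1)) :=
        (convex_ball z (min r1 (min r2 1))).segment_subset hd hd' hw
      have b1 := hLf y w hy hwS hd hwb h1 hw1.le
      have b2 := hR w y' hwS hy' hwb hd' hw1.ge h1'
      have b3 := dist_add_dist_of_mem_segment hw
      calc dist (pex C f y) (pex C f y') ≤ dist (pex C f y) (pex C f w) +
            dist (pex C f w) (pex C f y') := dist_triangle _ _ _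
        _ ≤ max L1 L2 * dist y w + max L1 L2 * dist w y' := add_le_add b1 b2
        _ = max L1 L2 * dist y y' := by rw [← mul_add, b3]
    refine ⟨min r1 (min r2 1), lt_min hr1 (lt_min hr2 one_pos), max L1 L2, ?_⟩
    rintro y ⟨hy, hyb⟩ y' ⟨hy', hyb'⟩
    have hd : dist y z < min r1 (min r2 1) := hyb
    have hd' : dist y' z < min r1 (min r2 1) := hyb'
    rcases le_total y.1 m with h | h <;> rcases le_total y'.1 m with h' | h'
    · exact hLf y y' hy.1 hy'.1 hd hd' h h'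
    · exact hX y y' hy.1 hy'.1 hd hd' h h'
    · rw [dist_comm, dist_comm y]
      exact hX y' y hy'.1 hy.1 hd' hd h' h
    · exact hR y y' hy.1 hy'.1 hd hd' h h'

end H84NS
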