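import Pool.Agent.H84.NS.Xa
import Pool.Agent.H84.NS.Ca

set_option autoImplicit false

/-!
# Row Xb: the discrete one-form om F G of the periodic extensions F, G of two glued maps that agree near P

Uses only the statements of Xa and Ca.  Let d <= 1/8 with f z = g z for z in D \ P, dist z p <= d, p in P.  p0 := f (1/2,1/4) (any point).
F z := p0 if z in Q2, else pex C f z;  G z := p0 if z in Q2, else pex C g z.   On D \ P (which is disjoint from Q2): F = f, G = g (pex_D).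
(near) z in Sc, p in Q2, dist z p <= d => F z = G z.  [z not in Q2, m = floor z.1: z - (m,0) is in D, |(p.1 - m) - (z.1 - m)| <= 1/8 so the half integer p.1 - m is in {0, 1/2, 1}: p - (m,0) in P; z - (m,0) is not in P since z is not
   in Q2; so f = g at z - (m,0) = (fract z.1, z.2).]
rho := d/4.
anti: dist_comm, ring.
per: if z is in Sc within d/2 of Q2 then z' is within d of Q2, and so are z + (1,0), z' + (1,0) (Q2 + (1,0) = Q2): F = G at z, z' and at the translates, om = 0 = om. Otherwise z, z' are not in Q2 (z' is at distance > d/4) nor are the translates,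
   F (z+(1,0)) = C (F z) etc. by pex_add; C is an isometry.
cont: let (z,z') be in the set. If dist z p <= d/2 for some p in Q2: for all (w,w') in the set with dist w z < d/4: dist w p < 3d/4, dist w' p <= d: F = G at w and w', om F G w w' = 0: locally constant. Otherwise z and z' have distance > 0 from
   Q2 (z' > d/4): F = pex C f near z and z' on Sc (Q2 is closed), and pex C f is continuous on Sc \ Q2 (Lpo on the compact sets closedBall z r cap Sc, r small, which do not meet Q2). So om is continuous there.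
bd: K := {z : -3 <= z.1 <= 4 (or any bounded range after translation), z in Sc, dist z p >= d/2 for all p in Q2} is compact in Sc \ Q2; L = Lipschitz constant of pex C f and pex C g on K (pex_lpo). M := L^2 + 1 (L >= 0).
   Given a, b, x: by `per`-type invariance we may translate x by an integer: crc F G a b (x + (1,0)) = crc F G a b x (all the pairs of vertices that occur in om are at distance <= rho; apply `per` to each of the four om terms; then induction on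
   integers, or directly: choose m = floor x.1 and compare), so 0 <= x.1 < 1 and all the vertices have first coordinate in [-1,2].
   If some vertex is within d/2 of p in Q2 then all the vertices are within d/2 + 2 rho = d of p (||a||, ||b|| <= d/4; two vertices differ by at most a + b or a - b), F = G at the vertices, crc F G = crc F F = 0 (crc_congr, crc_self).
   Otherwise all the vertices are in K, crc_le: |crc| <= (L|a-b| L|a+b| + L|a+b| L|a-b|)/2 <= L^2 (||a||+||b||)^2.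
revb: u, u' with |u-u'| <= d/4. If |u - n/2| <= d/2 for an integer n, then (u,0), (u',0) are within d of (n/2,0) and (-u,0), (-u',0) within d of (-n/2,0): F = G, both sides are 0. Otherwise u, u' are in the same interval (n/2,(n+1)/2):
   (u' is at distance > d/4 from all half integers and |u-u'| <= d/4, so no half integer between); points not in Q2; F(-u,0) = I F(u,0), G(-u,0) = I G(u,0), same for u' with the same I (pex_rb): om is preserved.   revt: same with pex_rt.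
-/

namespace H84NS

open H50NA H98NX MeasureTheory Set Filter Topology
open H80HM (D U P f1 f2)

variable {X : Type} [MetricSpace X] {gm : X → X → ℝ → X} {A B C : X ≃ᵢ X}

open Classical in
/-- the extension by a constant on the punctures -/
noncomputable def Xb_F (C : X ≃ᵢ X) (f : ℝ × ℝ → X) (p0 : X) (z : ℝ × ℝ) : X :=
  if z ∈ Q2 then p0 else pex C f z

theorem Xb_out (C : X ≃ᵢ X) (f : ℝ × ℝ → X) (p0 : X) {z : ℝ × ℝ} (hz : z ∉ Q2) :
    Xb_F C f p0 z = pex C f z := by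
  unfold Xb_F
  rw [if_neg hz]

theorem Xb_shift (z : ℝ × ℝ) : z + (1, 0) ∈ Q2 ↔ z ∈ Q2 := by
  unfold Q2
  constructor
  · rintro ⟨⟨n, hn⟩, h⟩
    have hn' : z.1 + 1 = (n : ℝ) / 2 := hn
    have h' : z.2 + 0 = 0 ∨ z.2 + 0 = 1 / 2 := h
    rw [add_zero] at h'
    refine ⟨⟨n - 2, ?_⟩, h'⟩
    push_cast
    linarith
  · rintro ⟨⟨n, hn⟩, h⟩
    refine ⟨⟨n + 2, ?_⟩, ?_⟩
    · change z.1 + 1 = _
      push_cast
      linarith
    · change z.2 + 0 = 0 ∨ z.2 + 0 = 1 / 2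
      rw [add_zero]
      exact h

theorem Xb_Sc (z : ℝ × ℝ) (r : ℝ) : z + (r, 0) ∈ Sc ↔ z ∈ Sc := by
  unfold Sc
  change (0 ≤ z.2 + 0 ∧ z.2 + 0 ≤ 1 / 2) ↔ _
  rw [add_zero]
  exact Iff.rfl

theorem Xb_near {f g : ℝ × ℝ → X} (C : X ≃ᵢ X) (p0 : X) {d : ℝ} (hd8 : d ≤ 1 / 8)
    (hP : ∀ z ∈ D \ P, ∀ p ∈ P, dist z p ≤ d → f z = g z) {z p : ℝ × ℝ} (hz : z ∈ Sc)
    (hp : p ∈ Q2) (hzp : dist z p ≤ d) : Xb_F C f p0 z = Xb_F C g p0 z := by
  unfold Xb_F
  by_cases hQ : z ∈ Q2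
  · rw [if_pos hQ, if_pos hQ]
  · rw [if_neg hQ, if_neg hQ]
    unfold pex
    congr 1
    obtain ⟨m, hm⟩ : ∃ m : ℤ, m = ⌊z.1⌋ := ⟨_, rfl⟩
    have hfr : Int.fract z.1 = z.1 - m := by
      rw [hm]
      exact (Int.self_sub_floor z.1).symm
    have hf0 := Int.fract_nonneg z.1
    have hf1 := Int.fract_lt_one z.1
    obtain ⟨⟨n, hn⟩, hp2⟩ := hp
    have hd1 : |z.1 - p.1| ≤ d := by
      have h1 : dist z.1 p.1 ≤ dist z p := by
        rw [Prod.dist_eq]
        exact le_max_left _ _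
      rw [Real.dist_eq] at h1
      linarith
    refine hP (Int.fract z.1, z.2) ⟨⟨⟨hf0, hf1.le⟩, hz⟩, ?_⟩ (p.1 - m, p.2) ?_ ?_
    · rintro ⟨h1, h2⟩
      apply hQ
      have h2' : z.2 = 0 ∨ z.2 = 1 / 2 := h2
      refine ⟨?_, h2'⟩
      have h1' : Int.fract z.1 = 0 ∨ Int.fract z.1 = 1 / 2 ∨ Int.fract z.1 = 1 := h1
      rw [hfr] at h1'
      rcases h1' with h | h | h
      · exact ⟨2 * m, by push_cast; linarith⟩
      · exact ⟨2 * m + 1, by push_cast; linarith⟩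
      · exact ⟨2 * m + 2, by push_cast; linarith⟩
    · refine ⟨?_, hp2⟩
      change p.1 - m = 0 ∨ p.1 - m = 1 / 2 ∨ p.1 - m = 1
      rw [abs_le] at hd1
      rw [hfr] at hf0 hf1
      have h3 : (-1 : ℝ) < ((n - 2 * m : ℤ) : ℝ) := by
        push_cast
        linarith
      have h4 : ((n - 2 * m : ℤ) : ℝ) < 3 := by
        push_cast
        linarith
      have h5 : -1 < n - 2 * m := by exact_mod_cast h3
      have h6 : n - 2 * m < 3 := by exact_mod_cast h4
      have h7 : n - 2 * m = 0 ∨ n - 2 * m = 1 ∨ n - 2 * m = 2 := by omega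
      have h8 : p.1 - m = ((n - 2 * m : ℤ) : ℝ) / 2 := by
        push_cast
        linarith
      rw [h8]
      rcases h7 with h | h | h
      · left
        rw [h]
        norm_num
      · right
        left
        rw [h]
        norm_num
      · right
        right
        rw [h]
        norm_num
    · rw [Prod.dist_eq] at hzp ⊢
      simp only
      rw [hfr, Real.dist_eq, Real.dist_eq]
      rw [Real.dist_eq, Real.dist_eq] at hzp
      have h9 : z.1 - (m : ℝ) - (p.1 - m) = z.1 - p.1 := by ring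
      rw [h9]
      exact hzp

theorem Xb_zero {F G : ℝ × ℝ → X} {z z' : ℝ × ℝ} (h : F z = G z) (h' : F z' = G z') :
    om F G z z' = 0 := by
  unfold om
  rw [← h, ← h', dist_comm (F z') (F z)]
  ring

theorem Xb_iso {F G : ℝ × ℝ → X} {z z' w w' : ℝ × ℝ} (I : X ≃ᵢ X) (h1 : F w = I (F z))
    (h2 : F w' = I (F z')) (h3 : G w = I (G z)) (h4 : G w' = I (G z')) :
    om F G w w' = om F G z z' := by
  unfold om
  rw [h1, h2, h3, h4, I.dist_eq, I.dist_eq]

theorem Xb_cont {f : ℝ × ℝ → X} (hf : Lpo f (D \ P)) (hf' : Glu A B C f) (p0 : X) {z : ℝ × ℝ}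
    (hz : z ∈ Sc) {δ : ℝ} (hδ : 0 < δ) (h : ∀ p ∈ Q2, δ < dist z p) :
    ContinuousWithinAt (Xb_F C f p0) Sc z := by
  have hl := pex_lpo hf hf'
  have hScc : IsClosed Sc := by
    unfold Sc
    exact (isClosed_le continuous_const continuous_snd).inter
      (isClosed_le continuous_snd continuous_const)
  have hK : IsCompact (Metric.closedBall z (δ / 2) ∩ Sc) :=
    (isCompact_closedBall z (δ / 2)).inter_right hScc
  have hout : ∀ x ∈ Metric.closedBall z (δ / 2), x ∉ Q2 := by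
    intro x hx hxQ
    have h1 := h x hxQ
    rw [Metric.mem_closedBall, dist_comm] at hx
    linarith
  obtain ⟨L, hL⟩ := hl (Metric.closedBall z (δ / 2) ∩ Sc)
    (fun x hx => ⟨hx.2, hout x hx.1⟩) hK
  have hzB : z ∈ Metric.closedBall z (δ / 2) := Metric.mem_closedBall_self (by linarith)
  rw [ContinuousWithinAt, tendsto_iff_dist_tendsto_zero]
  have h2 : Tendsto (fun x => L * dist x z) (𝓝[Sc] z) (𝓝 0) := by
    have h3 : Tendsto (fun x => L * dist x z) (𝓝 z) (𝓝 (L * dist z z)) := by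
      have h4 : Continuous (fun x : ℝ × ℝ => L * dist x z) := by fun_prop
      exact h4.tendsto z
    rw [dist_self, mul_zero] at h3
    exact h3.mono_left nhdsWithin_le_nhds
  refine squeeze_zero' (Filter.Eventually.of_forall fun x => dist_nonneg) ?_ h2
  filter_upwards [self_mem_nhdsWithin,
    mem_nhdsWithin_of_mem_nhds (Metric.closedBall_mem_nhds z (by linarith : 0 < δ / 2))] with x hx hxB
  rw [Xb_out C f p0 (hout x hxB), Xb_out C f p0 (hout z hzB)]
  exact hL x ⟨hxB, hx⟩ z ⟨hzB, hz⟩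

theorem Xb_per {f g : ℝ × ℝ → X} (p0 : X) {d : ℝ} (hd : 0 < d) (hd8 : d ≤ 1 / 8)
    (hP : ∀ z ∈ D \ P, ∀ p ∈ P, dist z p ≤ d → f z = g z) (C : X ≃ᵢ X) {z z' : ℝ × ℝ} (hz : z ∈ Sc)
    (hz' : z' ∈ Sc) (hzz : dist z z' ≤ d / 4) :
    om (Xb_F C f p0) (Xb_F C g p0) (z + (1, 0)) (z' + (1, 0)) =
      om (Xb_F C f p0) (Xb_F C g p0) z z' := by
  by_cases hc : ∃ p ∈ Q2, dist z p ≤ d / 2
  · obtain ⟨p, hp, hzp⟩ := hc
    have h1 : dist z' p ≤ d := by
      have h2 := dist_triangle z' z p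
      rw [dist_comm z' z] at h2
      linarith
    have hp' := (Xb_shift p).2 hp
    rw [Xb_zero (Xb_near C p0 hd8 hP hz hp (by linarith)) (Xb_near C p0 hd8 hP hz' hp h1),
      Xb_zero (Xb_near C p0 hd8 hP ((Xb_Sc z 1).2 hz) hp' (by rw [dist_add_right]; linarith))
        (Xb_near C p0 hd8 hP ((Xb_Sc z' 1).2 hz') hp' (by rw [dist_add_right]; exact h1))]
  · have h3 : ∀ p ∈ Q2, d / 2 < dist z p := by
      intro p hp
      by_contra h4
      exact hc ⟨p, hp, not_lt.1 h4⟩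
    have hzQ : z ∉ Q2 := by
      intro h4
      have h5 := h3 z h4
      rw [dist_self] at h5
      linarith
    have hzQ' : z' ∉ Q2 := by
      intro h4
      have h5 := h3 z' h4
      linarith
    have hzQ1 : z + (1, 0) ∉ Q2 := fun h4 => hzQ ((Xb_shift z).1 h4)
    have hzQ1' : z' + (1, 0) ∉ Q2 := fun h4 => hzQ' ((Xb_shift z').1 h4)
    refine Xb_iso C ?_ ?_ ?_ ?_
    · rw [Xb_out C f p0 hzQ1, Xb_out C f p0 hzQ, pex_add]
    · rw [Xb_out C f p0 hzQ1', Xb_out C f p0 hzQ', pex_add]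
    · rw [Xb_out C g p0 hzQ1, Xb_out C g p0 hzQ, pex_add]
    · rw [Xb_out C g p0 hzQ1', Xb_out C g p0 hzQ', pex_add]

theorem Xb_rev {f g : ℝ × ℝ → X} (hf' : Glu A B C f)
    (hg' : Glu A B C g) (p0 : X) {d : ℝ} (hd : 0 < d) (hd8 : d ≤ 1 / 8)
    (hP : ∀ z ∈ D \ P, ∀ p ∈ P, dist z p ≤ d → f z = g z) {c : ℝ} (hc : c = 0 ∨ c = 1 / 2)
    (hI : ∀ n : ℤ, ∃ I : X ≃ᵢ X, ∀ f : ℝ × ℝ → X, Glu A B C f →
      ∀ t : ℝ, (n : ℝ) / 2 < t → t < ((n : ℝ) + 1) / 2 → pex C f (-t, c) = I (pex C f (t, c)))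
    {u u' : ℝ} (huu : |u - u'| ≤ d / 4) :
    om (Xb_F C f p0) (Xb_F C g p0) (-u, c) (-u', c) =
      om (Xb_F C f p0) (Xb_F C g p0) (u, c) (u', c) := by
  have hSc : ∀ t : ℝ, ((t, c) : ℝ × ℝ) ∈ Sc := by
    intro t
    unfold Sc
    change 0 ≤ c ∧ c ≤ 1 / 2
    rcases hc with h | h
    · rw [h]
      norm_num
    · rw [h]
      norm_num
  have hQ : ∀ n : ℤ, (((n : ℝ) / 2, c) : ℝ × ℝ) ∈ Q2 := fun n => ⟨⟨n, rfl⟩, hc⟩
  have hdist : ∀ s t : ℝ, dist ((s, c) : ℝ × ℝ) (t, c) = |s - t| := by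
    intro s t
    rw [Prod.dist_eq]
    simp only
    rw [dist_self, Real.dist_eq, max_eq_left (abs_nonneg _)]
  by_cases hcase : ∃ n : ℤ, |u - (n : ℝ) / 2| ≤ d / 2
  · obtain ⟨n, hn⟩ := hcase
    have h1 : |u' - (n : ℝ) / 2| ≤ d := by
      have h2 := abs_sub_le u' u ((n : ℝ) / 2)
      rw [abs_sub_comm u' u] at h2
      linarith
    have h3 : |(-u) - ((-n : ℤ) : ℝ) / 2| ≤ d / 2 := by
      have h4 : (-u) - ((-n : ℤ) : ℝ) / 2 = -(u - (n : ℝ) / 2) := by
        push_cast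
        ring
      rw [h4, abs_neg]
      exact hn
    have h5 : |(-u') - ((-n : ℤ) : ℝ) / 2| ≤ d := by
      have h4 : (-u') - ((-n : ℤ) : ℝ) / 2 = -(u' - (n : ℝ) / 2) := by
        push_cast
        ring
      rw [h4, abs_neg]
      exact h1
    rw [Xb_zero (Xb_near C p0 hd8 hP (hSc u) (hQ n) (by rw [hdist]; linarith))
        (Xb_near C p0 hd8 hP (hSc u') (hQ n) (by rw [hdist]; exact h1)),
      Xb_zero (Xb_near C p0 hd8 hP (hSc (-u)) (hQ (-n)) (by rw [hdist]; linarith))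
        (Xb_near C p0 hd8 hP (hSc (-u')) (hQ (-n)) (by rw [hdist]; exact h5))]
  · have h6 : ∀ n : ℤ, d / 2 < |u - (n : ℝ) / 2| := by
      intro n
      by_contra h7
      exact hcase ⟨n, not_lt.1 h7⟩
    obtain ⟨n, hn⟩ : ∃ n : ℤ, n = ⌊2 * u⌋ := ⟨_, rfl⟩
    have hn1 : (n : ℝ) ≤ 2 * u := by rw [hn]; exact Int.floor_le _
    have hn2 : 2 * u < (n : ℝ) + 1 := by rw [hn]; exact Int.lt_floor_add_one _
    have h8 := h6 n
    have h9 := h6 (n + 1)
    push_cast at h9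
    rw [abs_of_nonneg (by linarith)] at h8
    rw [abs_of_nonpos (by linarith)] at h9
    rw [abs_le] at huu
    have hu1 : (n : ℝ) / 2 < u := by linarith
    have hu2 : u < ((n : ℝ) + 1) / 2 := by linarith
    have hu1' : (n : ℝ) / 2 < u' := by linarith
    have hu2' : u' < ((n : ℝ) + 1) / 2 := by linarith
    have hnot : ∀ t : ℝ, (n : ℝ) / 2 < t → t < ((n : ℝ) + 1) / 2 → ((t, c) : ℝ × ℝ) ∉ Q2 := by
      rintro t ht1 ht2 ⟨⟨k, hk⟩, -⟩
      have hk' : t = (k : ℝ) / 2 := hk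
      rw [hk'] at ht1 ht2
      have h10 : (n : ℝ) < k := by linarith
      have h11 : (k : ℝ) < n + 1 := by linarith
      have h12 : n < k := by exact_mod_cast h10
      have h13 : k < n + 1 := by exact_mod_cast h11
      omega
    have hnot' : ∀ t : ℝ, (n : ℝ) / 2 < t → t < ((n : ℝ) + 1) / 2 → ((-t, c) : ℝ × ℝ) ∉ Q2 := by
      rintro t ht1 ht2 ⟨⟨k, hk⟩, -⟩
      have hk' : -t = (k : ℝ) / 2 := hk
      have h10 : (n : ℝ) < -k := by linarith
      have h11 : -(k : ℝ) < n + 1 := by linarith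
      have h12 : n < -k := by exact_mod_cast h10
      have h13 : -k < n + 1 := by exact_mod_cast h11
      omega
    obtain ⟨I, hII⟩ := hI n
    refine Xb_iso I ?_ ?_ ?_ ?_
    · rw [Xb_out C f p0 (hnot' u hu1 hu2), Xb_out C f p0 (hnot u hu1 hu2), hII f hf' u hu1 hu2]
    · rw [Xb_out C f p0 (hnot' u' hu1' hu2'), Xb_out C f p0 (hnot u' hu1' hu2'),
        hII f hf' u' hu1' hu2']
    · rw [Xb_out C g p0 (hnot' u hu1 hu2), Xb_out C g p0 (hnot u hu1 hu2), hII g hg' u hu1 hu2]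
    · rw [Xb_out C g p0 (hnot' u' hu1' hu2'), Xb_out C g p0 (hnot u' hu1' hu2'),
        hII g hg' u' hu1' hu2']

theorem Xb_om_cont {f g : ℝ × ℝ → X} (hf : Lpo f (D \ P)) (hg : Lpo g (D \ P)) (hf' : Glu A B C f)
    (hg' : Glu A B C g) (p0 : X) {d : ℝ} (hd : 0 < d) (hd8 : d ≤ 1 / 8)
    (hP : ∀ z ∈ D \ P, ∀ p ∈ P, dist z p ≤ d → f z = g z) :
    ContinuousOn (fun p : (ℝ × ℝ) × (ℝ × ℝ) => om (Xb_F C f p0) (Xb_F C g p0) p.1 p.2)
      {p | p.1 ∈ Sc ∧ p.2 ∈ Sc ∧ dist p.1 p.2 ≤ d / 4} := by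
  rintro ⟨z, z'⟩ ⟨hz, hz', hzz⟩
  simp only at hz hz' hzz
  by_cases hc : ∃ p ∈ Q2, dist z p ≤ d / 2
  · obtain ⟨p, hp, hzp⟩ := hc
    have h0 : ∀ w w' : ℝ × ℝ, w ∈ Sc → w' ∈ Sc → dist w w' ≤ d / 4 → dist w z < d / 4 →
        om (Xb_F C f p0) (Xb_F C g p0) w w' = 0 := by
      intro w w' hw hw' hww hwz
      have h1 : dist w p ≤ 3 * d / 4 := by
        have := dist_triangle w z p
        linarith
      have h2 : dist w' p ≤ d := by
        have := dist_triangle w' w p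
        rw [dist_comm w' w] at this
        linarith
      exact Xb_zero (Xb_near C p0 hd8 hP hw hp (by linarith)) (Xb_near C p0 hd8 hP hw' hp h2)
    refine (continuousWithinAt_const (b := (0 : ℝ))).congr_of_eventuallyEq ?_ ?_
    · have hnb : ∀ᶠ q : (ℝ × ℝ) × (ℝ × ℝ) in
          𝓝[{p | p.1 ∈ Sc ∧ p.2 ∈ Sc ∧ dist p.1 p.2 ≤ d / 4}] (z, z'), dist q.1 z < d / 4 := by
        apply mem_nhdsWithin_of_mem_nhds
        have h3 : Continuous (fun q : (ℝ × ℝ) × (ℝ × ℝ) => dist q.1 z) := by fun_prop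
        apply h3.continuousAt.eventually_lt continuousAt_const
        simp only
        rw [dist_self]
        linarith
      filter_upwards [hnb, self_mem_nhdsWithin] with q hq1 hq2
      exact h0 q.1 q.2 hq2.1 hq2.2.1 hq2.2.2 hq1
    · exact h0 z z' hz hz' hzz (by rw [dist_self]; linarith)
  · have h3 : ∀ p ∈ Q2, d / 2 < dist z p := by
      intro p hp
      by_contra h4
      exact hc ⟨p, hp, not_lt.1 h4⟩
    have h5 : ∀ p ∈ Q2, d / 4 < dist z' p := by
      intro p hp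
      have := dist_triangle z z' p
      have := h3 p hp
      linarith
    have c1 : ∀ {f : ℝ × ℝ → X}, Lpo f (D \ P) → Glu A B C f → ContinuousWithinAt
        (fun q : (ℝ × ℝ) × (ℝ × ℝ) => Xb_F C f p0 q.1)
        {p | p.1 ∈ Sc ∧ p.2 ∈ Sc ∧ dist p.1 p.2 ≤ d / 4} (z, z') := by
      intro f hf hf'
      have h6 := Xb_cont hf hf' p0 hz (by linarith : 0 < d / 2) h3
      exact ContinuousWithinAt.comp (t := Sc) (x := ((z, z') : (ℝ × ℝ) × (ℝ × ℝ)))
        (f := Prod.fst) h6 continuous_fst.continuousWithinAt (fun q hq => hq.1)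
    have c2 : ∀ {f : ℝ × ℝ → X}, Lpo f (D \ P) → Glu A B C f → ContinuousWithinAt
        (fun q : (ℝ × ℝ) × (ℝ × ℝ) => Xb_F C f p0 q.2)
        {p | p.1 ∈ Sc ∧ p.2 ∈ Sc ∧ dist p.1 p.2 ≤ d / 4} (z, z') := by
      intro f hf hf'
      have h6 := Xb_cont hf hf' p0 hz' (by linarith : 0 < d / 4) h5
      exact ContinuousWithinAt.comp (t := Sc) (x := ((z, z') : (ℝ × ℝ) × (ℝ × ℝ)))
        (f := Prod.snd) h6 continuous_snd.continuousWithinAt (fun q hq => hq.2.1)
    unfold om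
    exact ((((c2 hf hf').dist (c1 hg hg')).pow 2).sub
      (((c1 hf hf').dist (c2 hg hg')).pow 2)).div_const 4

theorem Xb_crc_one {f g : ℝ × ℝ → X} (p0 : X) {d : ℝ} (hd : 0 < d) (hd8 : d ≤ 1 / 8)
    (hP : ∀ z ∈ D \ P, ∀ p ∈ P, dist z p ≤ d → f z = g z) (C : X ≃ᵢ X) {a b x : ℝ × ℝ}
    (ha : ‖a‖ ≤ d / 4) (hb : ‖b‖ ≤ d / 4) (hv : vtx a b x ⊆ Sc) :
    crc (Xb_F C f p0) (Xb_F C g p0) a b (x + (1, 0)) =
      crc (Xb_F C f p0) (Xb_F C g p0) a b x := by
  have h1 : x ∈ Sc := hv (by unfold vtx; simp)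
  have h2 : x + a ∈ Sc := hv (by unfold vtx; simp)
  have h3 : x + b ∈ Sc := hv (by unfold vtx; simp)
  have h4 : x + a + b ∈ Sc := hv (by unfold vtx; simp)
  unfold crc
  have e1 : x + (1, 0) + a = x + a + (1, 0) := by abel
  have e2 : x + (1, 0) + b = x + b + (1, 0) := by abel
  have e3 : x + a + (1, 0) + b = x + a + b + (1, 0) := by abel
  rw [e1, e2, e3]
  rw [Xb_per p0 hd hd8 hP C h1 h2 (by rw [dist_eq_norm, sub_add_cancel_left, norm_neg]; exact ha),
    Xb_per p0 hd hd8 hP C h2 h4 (by rw [dist_eq_norm, sub_add_cancel_left, norm_neg]; exact hb),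
    Xb_per p0 hd hd8 hP C h3 h4 (by
      rw [dist_eq_norm]
      have : x + b - (x + a + b) = -a := by abel
      rw [this, norm_neg]
      exact ha),
    Xb_per p0 hd hd8 hP C h1 h3 (by rw [dist_eq_norm, sub_add_cancel_left, norm_neg]; exact hb)]

theorem Xb_vtx (a b x : ℝ × ℝ) (r : ℝ) (h : vtx a b x ⊆ Sc) : vtx a b (x + (r, 0)) ⊆ Sc := by
  have h1 : x ∈ Sc := h (by unfold vtx; simp)
  have h2 : x + a ∈ Sc := h (by unfold vtx; simp)
  have h3 : x + b ∈ Sc := h (by unfold vtx; simp)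
  have h4 : x + a + b ∈ Sc := h (by unfold vtx; simp)
  intro v hv
  unfold vtx at hv
  simp only [mem_insert_iff, mem_singleton_iff] at hv
  rcases hv with rfl | rfl | rfl | rfl
  · exact (Xb_Sc _ _).2 h1
  · have e : x + (r, 0) + a = x + a + (r, 0) := by abel
    rw [e]
    exact (Xb_Sc _ _).2 h2
  · have e : x + (r, 0) + b = x + b + (r, 0) := by abel
    rw [e]
    exact (Xb_Sc _ _).2 h3
  · have e : x + (r, 0) + a + b = x + a + b + (r, 0) := by abel
    rw [e]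
    exact (Xb_Sc _ _).2 h4

theorem Xb_crc_nat {f g : ℝ × ℝ → X} (p0 : X) {d : ℝ} (hd : 0 < d) (hd8 : d ≤ 1 / 8)
    (hP : ∀ z ∈ D \ P, ∀ p ∈ P, dist z p ≤ d → f z = g z) (C : X ≃ᵢ X) {a b : ℝ × ℝ}
    (ha : ‖a‖ ≤ d / 4) (hb : ‖b‖ ≤ d / 4) (n : ℕ) : ∀ x : ℝ × ℝ, vtx a b x ⊆ Sc →
    crc (Xb_F C f p0) (Xb_F C g p0) a b (x + ((n : ℝ), 0)) =
      crc (Xb_F C f p0) (Xb_F C g p0) a b x := by
  induction n with
  | zero =>
    intro x _
    have e : x + (((0 : ℕ) : ℝ), (0 : ℝ)) = x := by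
      ext <;> simp
    rw [e]
  | succ n ih =>
    intro x hx
    have e : x + (((n + 1 : ℕ) : ℝ), (0 : ℝ)) = x + ((n : ℝ), 0) + (1, 0) := by
      ext
      · simp only [Prod.fst_add, Nat.cast_add, Nat.cast_one]
        ring
      · simp
    rw [e, Xb_crc_one p0 hd hd8 hP C ha hb (Xb_vtx a b x n hx), ih x hx]

theorem Xb_crc_int {f g : ℝ × ℝ → X} (p0 : X) {d : ℝ} (hd : 0 < d) (hd8 : d ≤ 1 / 8)
    (hP : ∀ z ∈ D \ P, ∀ p ∈ P, dist z p ≤ d → f z = g z) (C : X ≃ᵢ X) {a b : ℝ × ℝ}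
    (ha : ‖a‖ ≤ d / 4) (hb : ‖b‖ ≤ d / 4) (m : ℤ) {x : ℝ × ℝ} (hx : vtx a b x ⊆ Sc) :
    crc (Xb_F C f p0) (Xb_F C g p0) a b (x + ((m : ℝ), 0)) =
      crc (Xb_F C f p0) (Xb_F C g p0) a b x := by
  obtain ⟨n, rfl | rfl⟩ := m.eq_nat_or_neg
  · exact Xb_crc_nat p0 hd hd8 hP C ha hb n x hx
  · have h1 := Xb_crc_nat p0 hd hd8 hP C ha hb n (x + (((-(n : ℤ) : ℤ) : ℝ), 0))
      (Xb_vtx a b x _ hx)
    have e : x + (((-(n : ℤ) : ℤ) : ℝ), (0 : ℝ)) + ((n : ℝ), 0) = x := by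
      ext
      · simp
      · simp
    rw [e] at h1
    exact h1.symm

theorem Xb_bd (hX : Npc X gm) {f g : ℝ × ℝ → X} (hf : Lpo f (D \ P)) (hg : Lpo g (D \ P))
    (hf' : Glu A B C f)
    (hg' : Glu A B C g) (p0 : X) {d : ℝ} (hd : 0 < d) (hd8 : d ≤ 1 / 8)
    (hP : ∀ z ∈ D \ P, ∀ p ∈ P, dist z p ≤ d → f z = g z) :
    ∃ M : ℝ, ∀ a b x : ℝ × ℝ, ‖a‖ ≤ d / 4 → ‖b‖ ≤ d / 4 → vtx a b x ⊆ Sc →
      |crc (Xb_F C f p0) (Xb_F C g p0) a b x| ≤ M * (‖a‖ + ‖b‖) ^ 2 := by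
  obtain ⟨K, hK⟩ : ∃ K : Set (ℝ × ℝ), K = Icc ((-1 : ℝ), (0 : ℝ)) (2, 1 / 2) ∩
      ⋂ p ∈ Q2, {z | d / 2 ≤ dist z p} := ⟨_, rfl⟩
  have hKc : IsCompact K := by
    rw [hK]
    refine isCompact_Icc.inter_right ?_
    refine isClosed_biInter fun p _ => ?_
    exact isClosed_le continuous_const (by fun_prop)
  have hKQ : ∀ z ∈ K, z ∉ Q2 := by
    intro z hz hzQ
    rw [hK] at hz
    have h1 := mem_iInter₂.1 hz.2 z hzQ
    have h2 : d / 2 ≤ dist z z := h1
    rw [dist_self] at h2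
    linarith
  have hKs : K ⊆ Sc \ Q2 := by
    intro z hz
    refine ⟨?_, hKQ z hz⟩
    rw [hK] at hz
    exact ⟨hz.1.1.2, hz.1.2.2⟩
  obtain ⟨L1, hL1⟩ := pex_lpo hf hf' K hKs hKc
  obtain ⟨L2, hL2⟩ := pex_lpo hg hg' K hKs hKc
  obtain ⟨L, hL⟩ : ∃ L : ℝ, L = max (max L1 L2) 0 := ⟨_, rfl⟩
  have hL0 : 0 ≤ L := by rw [hL]; exact le_max_right _ _
  have hLf : ∀ z ∈ K, ∀ z' ∈ K, dist (Xb_F C f p0 z) (Xb_F C f p0 z') ≤ L * dist z z' := by
    intro z hz z' hz'
    rw [Xb_out C f p0 (hKQ z hz), Xb_out C f p0 (hKQ z' hz')]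
    refine (hL1 z hz z' hz').trans (mul_le_mul_of_nonneg_right ?_ dist_nonneg)
    rw [hL]
    exact (le_max_left _ _).trans (le_max_left _ _)
  have hLg : ∀ z ∈ K, ∀ z' ∈ K, dist (Xb_F C g p0 z) (Xb_F C g p0 z') ≤ L * dist z z' := by
    intro z hz z' hz'
    rw [Xb_out C g p0 (hKQ z hz), Xb_out C g p0 (hKQ z' hz')]
    refine (hL2 z hz z' hz').trans (mul_le_mul_of_nonneg_right ?_ dist_nonneg)
    rw [hL]
    exact (le_max_right _ _).trans (le_max_left _ _)
  refine ⟨L ^ 2, fun a b x ha hb hv => ?_⟩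
  obtain ⟨m, hm⟩ : ∃ m : ℤ, m = -⌊x.1⌋ := ⟨_, rfl⟩
  rw [← Xb_crc_int p0 hd hd8 hP C ha hb m hv]
  have hv' := Xb_vtx a b x m hv
  obtain ⟨y, hy⟩ : ∃ y, y = x + ((m : ℝ), 0) := ⟨_, rfl⟩
  rw [← hy] at hv' ⊢
  have hy1 : 0 ≤ y.1 ∧ y.1 < 1 := by
    have e : y.1 = x.1 + m := by
      rw [hy]
      rfl
    rw [e, hm]
    push_cast
    have h1 := Int.floor_le x.1
    have h2 := Int.lt_floor_add_one x.1
    constructor
    · linarith
    · linarith
  have hna : |a.1| ≤ d / 4 := (norm_fst_le a).trans ha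
  have hnb : |b.1| ≤ d / 4 := (norm_fst_le b).trans hb
  rw [abs_le] at hna hnb
  have hvy : ∀ v ∈ vtx a b y, dist v y ≤ d / 2 ∧ -1 ≤ v.1 ∧ v.1 ≤ 2 := by
    intro v hv
    unfold vtx at hv
    simp only [mem_insert_iff, mem_singleton_iff] at hv
    rcases hv with rfl | rfl | rfl | rfl
    · rw [dist_self]
      refine ⟨by linarith, by linarith [hy1.1], by linarith [hy1.2]⟩
    · rw [dist_eq_norm, add_sub_cancel_left]
      refine ⟨by linarith, ?_, ?_⟩
      · change -1 ≤ y.1 + a.1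
        linarith [hy1.1]
      · change y.1 + a.1 ≤ 2
        linarith [hy1.2]
    · rw [dist_eq_norm, add_sub_cancel_left]
      refine ⟨by linarith, ?_, ?_⟩
      · change -1 ≤ y.1 + b.1
        linarith [hy1.1]
      · change y.1 + b.1 ≤ 2
        linarith [hy1.2]
    · rw [dist_eq_norm]
      have e : y + a + b - y = a + b := by abel
      rw [e]
      have h3 := norm_add_le a b
      refine ⟨by linarith, ?_, ?_⟩
      · change -1 ≤ y.1 + a.1 + b.1
        linarith [hy1.1]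
      · change y.1 + a.1 + b.1 ≤ 2
        linarith [hy1.2]
  by_cases hc : ∃ p ∈ Q2, ∃ v ∈ vtx a b y, dist v p < d / 2
  · -- all the vertices are near `p`
    have hall : ∀ w ∈ vtx a b y, Xb_F C g p0 w = Xb_F C f p0 w := by
      obtain ⟨p, hp, v, hvv, hvp⟩ := hc
      have hww : ∀ w ∈ vtx a b y, dist w v ≤ d / 2 := by
        have key : ∀ c e : ℝ × ℝ, ‖c - e‖ ≤ d / 2 → dist (y + c) (y + e) ≤ d / 2 := by
          intro c e h
          rw [dist_eq_norm]
          have h4 : y + c - (y + e) = c - e := by abel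
          rw [h4]
          exact h
        intro w hw
        unfold vtx at hw hvv
        simp only [mem_insert_iff, mem_singleton_iff] at hw hvv
        have r1 : ∀ c ∈ ({0, a, b, a + b} : Set (ℝ × ℝ)), ∀ e ∈ ({0, a, b, a + b} : Set (ℝ × ℝ)),
            ‖c - e‖ ≤ d / 2 := by
          have n1 := norm_add_le a b
          have n2 := norm_sub_le a b
          have n3 := norm_sub_le b a
          have z0 : (0 : ℝ) ≤ d / 2 := by linarith
          intro c hc e he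
          simp only [mem_insert_iff, mem_singleton_iff] at hc he
          rcases hc with q1 | q1 | q1 | q1 <;> rcases he with q2 | q2 | q2 | q2 <;> rw [q1, q2]
          · rw [sub_self, norm_zero]; exact z0
          · rw [zero_sub, norm_neg]; linarith
          · rw [zero_sub, norm_neg]; linarith
          · rw [zero_sub, norm_neg]; linarith
          · rw [sub_zero]; linarith
          · rw [sub_self, norm_zero]; exact z0
          · linarith
          · rw [sub_add_cancel_left, norm_neg]; linarith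
          · rw [sub_zero]; linarith
          · linarith
          · rw [sub_self, norm_zero]; exact z0
          · have e1 : b - (a + b) = -a := by abel
            rw [e1, norm_neg]; linarith
          · rw [sub_zero]; linarith
          · rw [add_sub_cancel_left]; linarith
          · rw [add_sub_cancel_right]; linarith
          · rw [sub_self, norm_zero]; exact z0
        have r2 : ∀ w : ℝ × ℝ, (w = y ∨ w = y + a ∨ w = y + b ∨ w = y + a + b) →
            ∃ c ∈ ({0, a, b, a + b} : Set (ℝ × ℝ)), w = y + c := by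
          rintro w (rfl | rfl | rfl | rfl)
          · exact ⟨0, by simp, by rw [add_zero]⟩
          · exact ⟨a, by simp, rfl⟩
          · exact ⟨b, by simp, rfl⟩
          · exact ⟨a + b, by simp, by rw [add_assoc]⟩
        obtain ⟨c, hc, rfl⟩ := r2 w hw
        obtain ⟨e, he, rfl⟩ := r2 v hvv
        exact key c e (r1 c hc e he)
      intro w hw
      refine (Xb_near C p0 hd8 hP (hv' hw) hp ?_).symm
      have := dist_triangle w v p
      have := hww w hw
      linarith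
    rw [crc_congr (f' := Xb_F C f p0) (g' := Xb_F C f p0) (fun _ _ => rfl) hall, crc_self, abs_zero]
    positivity
  · have hKv : ∀ v ∈ vtx a b y, v ∈ K := by
      intro v hvv
      rw [hK]
      refine ⟨⟨⟨(hvy v hvv).2.1, (hv' hvv).1⟩, ⟨(hvy v hvv).2.2, (hv' hvv).2⟩⟩, ?_⟩
      rw [mem_iInter₂]
      intro p hp
      by_contra h5
      exact hc ⟨p, hp, v, hvv, not_le.1 h5⟩
    have k1 : y ∈ K := hKv y (by unfold vtx; simp)
    have k2 : y + a ∈ K := hKv (y + a) (by unfold vtx; simp)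
    have k3 : y + b ∈ K := hKv (y + b) (by unfold vtx; simp)
    have k4 : y + a + b ∈ K := hKv (y + a + b) (by unfold vtx; simp)
    have d1 : dist (y + a) (y + b) ≤ ‖a‖ + ‖b‖ := by
      rw [dist_eq_norm]
      have e : y + a - (y + b) = a - b := by abel
      rw [e]
      exact norm_sub_le a b
    have d2 : dist (y + a + b) y ≤ ‖a‖ + ‖b‖ := by
      rw [dist_eq_norm]
      have e : y + a + b - y = a + b := by abel
      rw [e]
      exact norm_add_le a b
    have hs0 : 0 ≤ ‖a‖ + ‖b‖ := by positivity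
    have b1 : ∀ {F : ℝ × ℝ → X}, (∀ z ∈ K, ∀ z' ∈ K, dist (F z) (F z') ≤ L * dist z z') →
        dist (F (y + a)) (F (y + b)) ≤ L * (‖a‖ + ‖b‖) :=
      fun h => (h _ k2 _ k3).trans (mul_le_mul_of_nonneg_left d1 hL0)
    have b2 : ∀ {F : ℝ × ℝ → X}, (∀ z ∈ K, ∀ z' ∈ K, dist (F z) (F z') ≤ L * dist z z') →
        dist (F (y + a + b)) (F y) ≤ L * (‖a‖ + ‖b‖) :=
      fun h => (h _ k4 _ k1).trans (mul_le_mul_of_nonneg_left d2 hL0)
    have hcl := crc_le hX (Xb_F C f p0) (Xb_F C g p0) a b y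
    have m1 := mul_le_mul (b1 hLf) (b2 hLg) dist_nonneg (mul_nonneg hL0 hs0)
    have m2 := mul_le_mul (b2 hLf) (b1 hLg) dist_nonneg (mul_nonneg hL0 hs0)
    calc |crc (Xb_F C f p0) (Xb_F C g p0) a b y| ≤ _ := hcl
      _ ≤ (L * (‖a‖ + ‖b‖) * (L * (‖a‖ + ‖b‖)) + L * (‖a‖ + ‖b‖) * (L * (‖a‖ + ‖b‖))) / 2 := by
        linarith
      _ = L ^ 2 * (‖a‖ + ‖b‖) ^ 2 := by ring

theorem om_oms (hX : Npc X gm) {f g : ℝ × ℝ → X} (hf : Lpo f (D \ P)) (hg : Lpo g (D \ P)) (hf' : Glu A B C f)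
    (hg' : Glu A B C g) {d : ℝ} (hd : 0 < d) (hP : ∀ z ∈ D \ P, ∀ p ∈ P, dist z p ≤ d → f z = g z) :
    ∃ (F G : ℝ × ℝ → X) (ρ M : ℝ), OmS (om F G) ρ M ∧ ∀ z ∈ D \ P, F z = f z ∧ G z = g z := by
  obtain ⟨e, he, he8, hed⟩ : ∃ e : ℝ, 0 < e ∧ e ≤ 1 / 8 ∧ e ≤ d :=
    ⟨min d (1 / 8), lt_min hd (by norm_num), min_le_right _ _, min_le_left _ _⟩
  have hP' : ∀ z ∈ D \ P, ∀ p ∈ P, dist z p ≤ e → f z = g z :=
    fun z hz p hp h => hP z hz p hp (h.trans hed)
  obtain ⟨M, hM⟩ := Xb_bd hX hf hg hf' hg' (f (1 / 2, 1 / 4)) he he8 hP'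
  have hDQ : ∀ z ∈ D \ P, z ∉ Q2 := by
    rintro z ⟨⟨hz1, hz2⟩, hzP⟩ ⟨⟨n, hn⟩, h2⟩
    apply hzP
    refine ⟨?_, h2⟩
    change z.1 = 0 ∨ z.1 = 1 / 2 ∨ z.1 = 1
    have h3 : (0 : ℝ) ≤ (n : ℝ) / 2 := by rw [← hn]; exact hz1.1
    have h4 : (n : ℝ) / 2 ≤ 1 := by rw [← hn]; exact hz1.2
    have h5 : (0 : ℝ) ≤ (n : ℝ) := by linarith
    have h6 : (n : ℝ) ≤ 2 := by linarith
    have h7 : 0 ≤ n := by exact_mod_cast h5
    have h8 : n ≤ 2 := by exact_mod_cast h6
    have h9 : n = 0 ∨ n = 1 ∨ n = 2 := by omega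
    rcases h9 with h | h | h
    · left
      rw [hn, h]
      norm_num
    · right
      left
      rw [hn, h]
      norm_num
    · right
      right
      rw [hn, h]
      norm_num
  refine ⟨Xb_F C f (f (1 / 2, 1 / 4)), Xb_F C g (f (1 / 2, 1 / 4)), e / 4, M, ?_, ?_⟩
  · refine ⟨by linarith, ?_, ?_, ?_, hM, ?_, ?_⟩
    · intro z z'
      unfold om
      ring
    · intro z hz z' hz' hzz
      exact Xb_per _ he he8 hP' C hz hz' hzz
    · exact Xb_om_cont hf hg hf' hg' _ he he8 hP'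
    · intro u u' huu
      exact Xb_rev hf' hg' _ he he8 hP' (Or.inl rfl) (pex_rb A B C) huu
    · intro u u' huu
      exact Xb_rev hf' hg' _ he he8 hP' (Or.inr rfl) (pex_rt A B C) huu
  · intro z hz
    rw [Xb_out C f _ (hDQ z hz), Xb_out C g _ (hDQ z hz), pex_D hf' hz, pex_D hg' hz]
    exact ⟨rfl, rfl⟩

end H84NS
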