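import Pool.Agent.H84.NS.Lc
import Pool.Agent.H84.NS.La
import Pool.Agent.H84.NS.Cd
import Pool.Agent.H98.NX.El
import Pool.Agent.H98.NX.Na
import Pool.Agent.H98.NX.Xg

set_option autoImplicit false

/-!
# Row Ya: the local inequality LSp on the zero set of the cutoff

v k = ip gm g (gk k) l, C compact in O, l = 0 on C.  Uses the statements of Cd, Cb, Lc (yd_int), La (alg_coef is not needed), sp_eq_on (row El), md (row Xg: lpo_md) and sp_pair.
(1) Yd >= 0 a.e. on C: for z in C: v k z = gm (g z) (gk k z) 0 = g z (hX.zero), ip gm g (v k) th z = gm (g z) (g z) th = g z (gm_self, row Na). C is measurable (compact), so by sp_eq_on (v k, ip.. in Lpo O by lpo_gm), for each of the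
   finitely many directions t that occur (fe, ff for four angles, f1, f2), a.e. on C: sp (v k) t = sp g t, sp (ip gm g (v k) th) t = sp g t. Hence a.e. on C: Bd k = 0/(2 th) - th (2 e2 g) <= 0 and
   sum_k ek k (v k) = sum_k ek k g = 4 cosh s e2 g: by lpo_md and sp_pair q(t) = sp g t ^2 is a quadratic form at z; e^s q(fe) + e^-s q(ff) for the angles 0, pi/4, pi/2, 3pi/4 sums to 4 cosh s (q(f1)+q(f2)) because
   (cos,sin) = (1,0),(r,r),(0,1),(-r,r), r^2 = 1/2: q(fe_0)+q(fe_2) = q(f1)+q(f2) = q(fe_1)+q(fe_3), the same for ff (e^s + e^-s = 2 cosh s).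
   So Yd >= 4 cosh s e2 g - (4 cosh s - 2 e^s sinh^2 s) e2 g = 2 e^s sinh^2 s e2 g >= 0 (e2 g >= 0).
(2) int_C Cs/h^2 -> 0: |Cs| <= sum_k |crc (v k) (v (k+1))|; crc_zero with f = v k, g = v (k+1), u = g, q z = dist (g z) (gk k z) + dist (g z) (gk (k+1) z) (lpo_dist, lpo_add): dist (v k z) (g z) = l z dist (g z) (gk k z) (gm_dl, row Na, dist_comm).
   (integrability of the four terms: crc_int.)
(3) LSp: for small h: -(e^s int_C Yd) - eps <= -eps <= int_C Cs/h^2 (setIntegral_nonneg_ae for (1)).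
-/

namespace H84NS

open H50NA H98NX MeasureTheory Set Filter Topology
open H80HM (D U P f1 f2)

variable {X : Type} [MetricSpace X] {gm : X → X → ℝ → X}

theorem Ya_quad {f : ℝ × ℝ → X} {z : ℝ × ℝ} (h : MD f z) (x y : ℝ) : ∃ b : ℝ, ∀ c d : ℝ,
    sp f (c • f1 x y + d • f2 x y) z ^ 2 =
      c ^ 2 * sp f (f1 x y) z ^ 2 + 2 * c * d * b + d ^ 2 * sp f (f2 x y) z ^ 2 := by
  obtain ⟨-, B, hB, hs⟩ := h
  refine ⟨B (f1 x y) (f2 x y), fun c d => ?_⟩
  rw [hs, hs, hs]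
  simp only [map_add, map_smul, LinearMap.add_apply, LinearMap.smul_apply, smul_eq_mul]
  rw [hB (f2 x y) (f1 x y)]
  ring

theorem Ya_sum {f : ℝ × ℝ → X} {z : ℝ × ℝ} (h : MD f z) (x y s : ℝ) :
    ∑ k, ek x y s k f z = 4 * Real.cosh s * e2 x y f z := by
  obtain ⟨b, hb⟩ := Ya_quad h x y
  have t0 : thk 0 = 0 := by simp [thk]
  have t1 : thk 1 = Real.pi / 4 := by simp [thk]
  have t2 : thk 2 = Real.pi / 2 := by
    simp only [thk, Fin.val_two]
    push_cast
    ring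
  have t3 : thk 3 = Real.pi - Real.pi / 4 := by
    have h3 : ((3 : Fin 4) : ℕ) = 3 := rfl
    simp only [thk, h3]
    push_cast
    ring
  have hr : (Real.sqrt 2 / 2) ^ 2 = 1 / 2 := by
    rw [div_pow, Real.sq_sqrt (by norm_num)]
    norm_num
  rw [Fin.sum_univ_four]
  simp only [ek, fe, ff, t0, t1, t2, t3, hb, e2, Real.cos_zero, Real.sin_zero, Real.cos_pi_div_two,
    Real.sin_pi_div_two, Real.cos_pi_sub, Real.sin_pi_sub, Real.cos_pi_div_four,
    Real.sin_pi_div_four, Real.cosh_eq]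
  have hr' : (-(Real.sqrt 2 / 2)) ^ 2 = 1 / 2 := by
    rw [neg_sq, hr]
  rw [hr, hr']
  ring

theorem zero_ls (hX : Npc X gm) {g : ℝ × ℝ → X} {gk : Fin 4 → ℝ × ℝ → X} {l : ℝ × ℝ → ℝ} {O C : Set (ℝ × ℝ)}
    (hO : IsOpen O) (hg : Lpo g O) (hgk : ∀ k, Lpo (gk k) O) (hl : Lpo l O) (h01 : ∀ z, 0 ≤ l z ∧ l z ≤ 1)
    (hC : IsCompact C) (hCO : C ⊆ O) (hz : ∀ z ∈ C, l z = 0) (x : ℝ) {y s th : ℝ} (hy : 0 < y) (hs : 0 ≤ s)
    (h0 : 0 < th) (h1 : th ≤ 1) : LSp gm x y s th g (fun k => ip gm g (gk k) l) C := by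
  have hv : ∀ k, Lpo (ip gm g (gk k) l) O := fun k => lpo_gm hX hg (hgk k) hl (fun z _ => h01 z)
  have hw : ∀ k, Lpo (ip gm g (ip gm g (gk k) l) (fun _ => th)) O := fun k =>
    lpo_gm hX hg (hv k) (lpo_const th O) (fun _ _ => ⟨h0.le, h1⟩)
  have ev : ∀ k, ∀ z ∈ C, ip gm g (gk k) l z = g z := by
    intro k z hzC
    show gm (g z) (gk k z) (l z) = g z
    rw [hz z hzC, hX.zero]
  have ew : ∀ k, ∀ z ∈ C, ip gm g (ip gm g (gk k) l) (fun _ => th) z = g z := by
    intro k z hzC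
    show gm (g z) (ip gm g (gk k) l z) th = g z
    rw [ev k z hzC, gm_self hX _ h0.le h1]
  have hCm := hC.measurableSet
  have hY : ∀ᵐ z : ℝ × ℝ, z ∈ C →
      0 ≤ Yd gm x y s th g (fun k => ip gm g (gk k) l) z := by
    have a1 : ∀ᵐ z : ℝ × ℝ, ∀ k : Fin 4, z ∈ C →
        sp (ip gm g (gk k) l) (fe x y (thk k)) z = sp g (fe x y (thk k)) z :=
      ae_all_iff.2 fun k => sp_eq_on volume hO (hv k) hg hCm hCO (ev k) _
    have a2 : ∀ᵐ z : ℝ × ℝ, ∀ k : Fin 4, z ∈ C →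
        sp (ip gm g (gk k) l) (ff x y (thk k)) z = sp g (ff x y (thk k)) z :=
      ae_all_iff.2 fun k => sp_eq_on volume hO (hv k) hg hCm hCO (ev k) _
    have a3 : ∀ᵐ z : ℝ × ℝ, ∀ k : Fin 4, z ∈ C →
        sp (ip gm g (gk k) l) (f1 x y) z = sp g (f1 x y) z :=
      ae_all_iff.2 fun k => sp_eq_on volume hO (hv k) hg hCm hCO (ev k) _
    have a4 : ∀ᵐ z : ℝ × ℝ, ∀ k : Fin 4, z ∈ C →
        sp (ip gm g (gk k) l) (f2 x y) z = sp g (f2 x y) z :=
      ae_all_iff.2 fun k => sp_eq_on volume hO (hv k) hg hCm hCO (ev k) _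
    have a5 : ∀ᵐ z : ℝ × ℝ, ∀ k : Fin 4, z ∈ C →
        sp (ip gm g (ip gm g (gk k) l) (fun _ => th)) (f1 x y) z = sp g (f1 x y) z :=
      ae_all_iff.2 fun k => sp_eq_on volume hO (hw k) hg hCm hCO (ew k) _
    have a6 : ∀ᵐ z : ℝ × ℝ, ∀ k : Fin 4, z ∈ C →
        sp (ip gm g (ip gm g (gk k) l) (fun _ => th)) (f2 x y) z = sp g (f2 x y) z :=
      ae_all_iff.2 fun k => sp_eq_on volume hO (hw k) hg hCm hCO (ew k) _
    filter_upwards [a1, a2, a3, a4, a5, a6, lpo_md hX hO hg] with z b1 b2 b3 b4 b5 b6 b7 hzC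
    have c1 : ∑ k, ek x y s k (ip gm g (gk k) l) z = 4 * Real.cosh s * e2 x y g z := by
      rw [← Ya_sum (b7 (hCO hzC)) x y s]
      refine Finset.sum_congr rfl fun k _ => ?_
      rw [ek, ek, b1 k hzC, b2 k hzC]
    have he : 0 ≤ e2 x y g z := by
      rw [e2]
      positivity
    have c2 : ∀ k, Bd gm x y th g (ip gm g (gk k) l) z ≤ 0 := by
      intro k
      have d1 : e2 x y (ip gm g (gk k) l) z = e2 x y g z := by
        rw [e2, e2, b3 k hzC, b4 k hzC]
      have d2 : e2 x y (ip gm g (ip gm g (gk k) l) (fun _ => th)) z = e2 x y g z := by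
        rw [e2, e2, b5 k hzC, b6 k hzC]
      rw [Bd, d1, d2, sub_self, zero_div, zero_sub]
      have : 0 ≤ th * (e2 x y g z + e2 x y g z) := mul_nonneg h0.le (by linarith)
      linarith
    have c3 : ∑ k, Bd gm x y th g (ip gm g (gk k) l) z ≤ 0 := Finset.sum_nonpos fun k _ => c2 k
    have c4 : 0 < Real.cosh s := Real.cosh_pos s
    have c5 : 0 ≤ 2 * Real.exp s * Real.sinh s ^ 2 * e2 x y g z :=
      mul_nonneg (by positivity) he
    have c6 : 2 * Real.cosh s * ∑ k, Bd gm x y th g (ip gm g (gk k) l) z ≤ 0 :=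
      mul_nonpos_of_nonneg_of_nonpos (by positivity) c3
    rw [Yd, c1]
    linarith
  have hYi : 0 ≤ ∫ z in C, Yd gm x y s th g (fun k => ip gm g (gk k) l) z := by
    refine integral_nonneg_of_ae ?_
    rw [Filter.EventuallyLE, ae_restrict_iff' hCm]
    filter_upwards [hY] with z hz1 hz2
    exact hz1 hz2
  intro ε hε
  have hlim : ∀ k : Fin 4, Tendsto (fun h : ℝ => ∫ z in C,
      |crc (ip gm g (gk k) l) (ip gm g (gk (k + 1)) l) (h • f1 x y) (h • f2 x y) z| / h ^ 2)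
      (𝓝[>] 0) (𝓝 0) := by
    intro k
    refine crc_zero hX (l := l) (q := fun z => dist (g z) (gk k z) + dist (g z) (gk (k + 1) z)) hO
      (hv k) (hv (k + 1)) hg hl (lpo_add (lpo_dist hg (hgk k)) (lpo_dist hg (hgk (k + 1))))
      (fun z _ => (h01 z).1) ?_ ?_ hC hCO hz _ _
    · intro z _
      rw [dist_comm]
      show dist (g z) (gm (g z) (gk k z) (l z)) ≤ _
      rw [gm_dl hX _ _ (h01 z).1 (h01 z).2]
      exact mul_le_mul_of_nonneg_left (le_add_of_nonneg_right dist_nonneg) (h01 z).1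
    · intro z _
      rw [dist_comm]
      show dist (g z) (gm (g z) (gk (k + 1) z) (l z)) ≤ _
      rw [gm_dl hX _ _ (h01 z).1 (h01 z).2]
      exact mul_le_mul_of_nonneg_left (le_add_of_nonneg_left dist_nonneg) (h01 z).1
  have hev : ∀ᶠ h in 𝓝[>] (0:ℝ), ∀ k : Fin 4, ∫ z in C,
      |crc (ip gm g (gk k) l) (ip gm g (gk (k + 1)) l) (h • f1 x y) (h • f2 x y) z| / h ^ 2 < ε / 4 :=
    eventually_all.2 fun k => (hlim k).eventually_lt_const (by positivity)
  have hint : ∀ᶠ h in 𝓝[>] (0:ℝ), ∀ k : Fin 4, IntegrableOn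
      (fun z => crc (ip gm g (gk k) l) (ip gm g (gk (k + 1)) l) (h • f1 x y) (h • f2 x y) z) C :=
    eventually_all.2 fun k => crc_int hO (hv k) (hv (k + 1)) hC hCO Subset.rfl hCm _ _
  filter_upwards [hev, hint] with h e1 e2'
  have g1 : -(∑ k : Fin 4, ∫ z in C,
      |crc (ip gm g (gk k) l) (ip gm g (gk (k + 1)) l) (h • f1 x y) (h • f2 x y) z| / h ^ 2) ≤
      ∫ z in C, Cs x y h (fun k => ip gm g (gk k) l) z / h ^ 2 := by
    rw [← integral_finset_sum _ (fun k _ => (e2' k).abs.div_const _), ← integral_neg]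
    refine integral_mono ?_ ?_ fun z => ?_
    · exact (integrable_finset_sum _ (fun k _ => (e2' k).abs.div_const _)).neg
    · exact (integrable_finset_sum _ (fun k _ => e2' k)).div_const _
    · show -(∑ k : Fin 4, |crc (ip gm g (gk k) l) (ip gm g (gk (k + 1)) l) (h • f1 x y)
        (h • f2 x y) z| / h ^ 2) ≤ Cs x y h (fun k => ip gm g (gk k) l) z / h ^ 2
      rw [Cs, ← Finset.sum_div, ← neg_div]
      refine div_le_div_of_nonneg_right ?_ (sq_nonneg h)
      rw [← Finset.sum_neg_distrib]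
      exact Finset.sum_le_sum fun k _ => neg_abs_le _
  have g2 : ∑ k : Fin 4, ∫ z in C,
      |crc (ip gm g (gk k) l) (ip gm g (gk (k + 1)) l) (h • f1 x y) (h • f2 x y) z| / h ^ 2 ≤ ε := by
    calc _ ≤ ∑ k : Fin 4, ε / 4 := Finset.sum_le_sum fun k _ => (e1 k).le
      _ = ε := by
        rw [Finset.sum_const, Finset.card_univ, Fintype.card_fin, nsmul_eq_mul]
        push_cast
        ring
  have g3 : 0 ≤ Real.exp s * ∫ z in C, Yd gm x y s th g (fun k => ip gm g (gk k) l) z :=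
    mul_nonneg (Real.exp_pos s).le hYi
  linarith

end H84NS
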